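import Mathlib

set_option autoImplicit false

namespace Pool.Agent.PERC29

/-- The box `{0, …, l - 1}^d` with nearest-neighbour edges. -/
def boxG (d l : ℕ) : SimpleGraph (Fin d → Fin l) where
  Adj x y := ∃ i, ((x i : ℕ) + 1 = (y i : ℕ) ∨ (y i : ℕ) + 1 = (x i : ℕ)) ∧ ∀ j, j ≠ i → x j = y j
  symm := ⟨by
    rintro x y ⟨i, h, h'⟩
    exact ⟨i, h.symm, fun j hj => (h' j hj).symm⟩⟩
  loopless := ⟨by
    rintro x ⟨i, h, -⟩
    omega⟩

/-- The torus `(ℤ/nℤ)^d` with nearest-neighbour edges. -/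
def torG (d n : ℕ) : SimpleGraph (Fin d → ZMod n) where
  Adj x y := x ≠ y ∧ ∃ i, y = x + Pi.single i 1 ∨ x = y + Pi.single i 1
  symm := ⟨by
    rintro x y ⟨h, i, h'⟩
    exact ⟨h.symm, i, h'.symm⟩⟩
  loopless := ⟨by
    rintro x ⟨h, -⟩
    exact h rfl⟩

end Pool.Agent.PERC29
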