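import Mathlib

set_option autoImplicit false
set_option linter.unusedSectionVars false

/-! Rows 29v-F1 .. 29v-F5: sums over a box (pure Mathlib). `nd` is the distance in the maximum norm. -/

open Finset

namespace Pool.Agent.PERC29.AE

variable {d l : ℕ}

/-- The distance in the maximum norm. -/
def nd (x y : Fin d → Fin l) : ℕ :=
  Finset.univ.sup (fun i => ((x i : ℕ) - (y i : ℕ)) + ((y i : ℕ) - (x i : ℕ)))

/-- The function `(1 + n)^(-k)` of the distance. -/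
noncomputable def fk (k : ℕ) (x y : Fin d → Fin l) : ℝ := 1 / (1 + (nd x y : ℝ)) ^ k

private lemma F1_le (x y : Fin d → Fin l) (i : Fin d) :
    ((x i : ℕ) - (y i : ℕ)) + ((y i : ℕ) - (x i : ℕ)) ≤ nd x y :=
  Finset.le_sup (f := fun i => ((x i : ℕ) - (y i : ℕ)) + ((y i : ℕ) - (x i : ℕ)))
    (Finset.mem_univ i)

private lemma F1_two (a : Fin l) (k : ℕ) :
    (Finset.univ.filter (fun v : Fin l => ((a : ℕ) - (v : ℕ)) + ((v : ℕ) - (a : ℕ)) = k)).card ≤ 2 := by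
  have h1 : ((Finset.univ.filter
      (fun v : Fin l => ((a : ℕ) - (v : ℕ)) + ((v : ℕ) - (a : ℕ)) = k)).image (fun v : Fin l => (v : ℕ))) ⊆
      {(a : ℕ) - k, (a : ℕ) + k} := by
    intro m hm
    obtain ⟨v, hv, rfl⟩ := Finset.mem_image.1 hm
    rw [Finset.mem_filter] at hv
    rw [Finset.mem_insert, Finset.mem_singleton]
    omega
  have h2 := Finset.card_le_card h1
  rw [Finset.card_image_of_injective _ Fin.val_injective] at h2
  exact h2.trans Finset.card_le_two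

private lemma F1_many (a : Fin l) (k : ℕ) :
    (Finset.univ.filter (fun v : Fin l => ((a : ℕ) - (v : ℕ)) + ((v : ℕ) - (a : ℕ)) ≤ k)).card ≤
      2 * k + 1 := by
  have h1 : ((Finset.univ.filter
      (fun v : Fin l => ((a : ℕ) - (v : ℕ)) + ((v : ℕ) - (a : ℕ)) ≤ k)).image (fun v : Fin l => (v : ℕ))) ⊆
      Finset.Icc ((a : ℕ) - k) ((a : ℕ) + k) := by
    intro m hm
    obtain ⟨v, hv, rfl⟩ := Finset.mem_image.1 hm
    rw [Finset.mem_filter] at hv
    rw [Finset.mem_Icc]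
    omega
  have h2 := Finset.card_le_card h1
  rw [Finset.card_image_of_injective _ Fin.val_injective, Nat.card_Icc] at h2
  omega

/-- Row F1. `nd` is a metric (each coordinate: `Nat.dist`), and the number of `y` with `nd x y = k` is at most `d 2^d (k+1)^(d-1)`
(`d ≥ 1`; for `k = 0` only `y = x`; for `k ≥ 1` choose the coordinate `i` with `|x i - y i| = k` (two values), at most `2k+1` values for
the others: `2 d (2k+1)^(d-1) ≤ 2 d (2 (k+1))^(d-1)`). Then group the sum according to the value of `nd x y < l` (`l ≥ 1` if there is `x`;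
`Finset.sum_fiberwise_of_maps_to`, or `Finset.card_eq_sum_card_fiberwise`). -/
lemma nd_symm (x y : Fin d → Fin l) : nd x y = nd y x := by
  unfold nd
  exact Finset.sup_congr rfl fun i _ => add_comm _ _

lemma nd_tri (x y z : Fin d → Fin l) : nd x z ≤ nd x y + nd y z := by
  have h : ∀ i ∈ (Finset.univ : Finset (Fin d)),
      ((x i : ℕ) - (z i : ℕ)) + ((z i : ℕ) - (x i : ℕ)) ≤ nd x y + nd y z := by
    intro i _
    have h1 := F1_le x y i
    have h2 := F1_le y z i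
    omega
  exact Finset.sup_le h

lemma nd_lt (x y : Fin d → Fin l) (hl : 1 ≤ l) : nd x y < l := by
  unfold nd
  have h0 : (⊥ : ℕ) < l := hl
  rw [Finset.sup_lt_iff h0]
  intro i _
  have h1 := (x i).2
  have h2 := (y i).2
  omega

lemma shell (hd : 1 ≤ d) (x : Fin d → Fin l) (k : ℕ) :
    (Finset.univ.filter (fun y => nd x y = k)).card ≤ d * 2 ^ d * (k + 1) ^ (d - 1) := by
  classical
  have : Nonempty (Fin d) := ⟨⟨0, hd⟩⟩
  set S : Fin d → Finset (Fin d → Fin l) := fun i => Fintype.piFinset (fun j =>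
    if j = i then Finset.univ.filter
      (fun v : Fin l => ((x j : ℕ) - (v : ℕ)) + ((v : ℕ) - (x j : ℕ)) = k)
    else Finset.univ.filter
      (fun v : Fin l => ((x j : ℕ) - (v : ℕ)) + ((v : ℕ) - (x j : ℕ)) ≤ k)) with hS
  have hsub : Finset.univ.filter (fun y => nd x y = k) ⊆ Finset.univ.biUnion S := by
    intro y hy
    rw [Finset.mem_filter] at hy
    obtain ⟨i, -, hi⟩ := Finset.exists_mem_eq_sup (Finset.univ : Finset (Fin d))
      Finset.univ_nonempty (fun i => ((x i : ℕ) - (y i : ℕ)) + ((y i : ℕ) - (x i : ℕ)))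
    rw [Finset.mem_biUnion]
    refine ⟨i, Finset.mem_univ i, ?_⟩
    rw [hS, Fintype.mem_piFinset]
    intro j
    by_cases hji : j = i
    · rw [if_pos hji, Finset.mem_filter]
      refine ⟨Finset.mem_univ _, ?_⟩
      rw [hji]
      have h1 : nd x y = ((x i : ℕ) - (y i : ℕ)) + ((y i : ℕ) - (x i : ℕ)) := hi
      rw [← h1]
      exact hy.2
    · rw [if_neg hji, Finset.mem_filter]
      refine ⟨Finset.mem_univ _, ?_⟩
      have h1 := F1_le x y j
      rw [hy.2] at h1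
      exact h1
  have hcard : ∀ i ∈ (Finset.univ : Finset (Fin d)), (S i).card ≤ 2 * (2 * k + 1) ^ (d - 1) := by
    intro i _
    rw [hS, Fintype.card_piFinset, ← Finset.mul_prod_erase _ _ (Finset.mem_univ i)]
    rw [if_pos rfl]
    refine Nat.mul_le_mul (F1_two (x i) k) ?_
    have h1 : (Finset.univ.erase i : Finset (Fin d)).card = d - 1 := by
      rw [Finset.card_erase_of_mem (Finset.mem_univ i), Finset.card_univ, Fintype.card_fin]
    rw [← h1]
    refine Finset.prod_le_pow_card _ _ _ fun j hj => ?_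
    rw [if_neg (Finset.ne_of_mem_erase hj)]
    exact F1_many (x j) k
  calc (Finset.univ.filter (fun y => nd x y = k)).card ≤ (Finset.univ.biUnion S).card :=
        Finset.card_le_card hsub
    _ ≤ (Finset.univ : Finset (Fin d)).card * (2 * (2 * k + 1) ^ (d - 1)) :=
        Finset.card_biUnion_le_card_mul _ _ _ hcard
    _ = d * (2 * (2 * k + 1) ^ (d - 1)) := by rw [Finset.card_univ, Fintype.card_fin]
    _ ≤ d * (2 * (2 * (k + 1)) ^ (d - 1)) := by
        refine Nat.mul_le_mul_left _ (Nat.mul_le_mul_left _ (Nat.pow_le_pow_left ?_ _))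
        omega
    _ = d * 2 ^ d * (k + 1) ^ (d - 1) := by
        obtain ⟨e, rfl⟩ : ∃ e, d = e + 1 := ⟨d - 1, by omega⟩
        rw [Nat.add_sub_cancel, mul_pow, pow_succ]
        ring

lemma shell_sum (hd : 1 ≤ d) (x : Fin d → Fin l) (φ : ℕ → ℝ) (hφ : ∀ k, 0 ≤ φ k) :
    ∑ y, φ (nd x y) ≤ (d * 2 ^ d : ℝ) * ∑ k ∈ Finset.range l, ((k : ℝ) + 1) ^ (d - 1) * φ k := by
  classical
  have hl : 1 ≤ l := by
    have := (x ⟨0, hd⟩).2
    omega
  rw [← Finset.sum_fiberwise_of_maps_to (s := Finset.univ) (t := Finset.range l)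
    (g := fun y => nd x y) (fun y _ => Finset.mem_range.2 (nd_lt x y hl)), Finset.mul_sum]
  refine Finset.sum_le_sum fun k _ => ?_
  have h1 : ∑ y ∈ Finset.univ.filter (fun y => nd x y = k), φ (nd x y) =
      ((Finset.univ.filter (fun y => nd x y = k)).card : ℝ) * φ k := by
    rw [Finset.sum_congr rfl (fun y hy => by rw [(Finset.mem_filter.1 hy).2]), Finset.sum_const,
      nsmul_eq_mul]
  rw [h1, ← mul_assoc]
  refine mul_le_mul_of_nonneg_right ?_ (hφ k)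
  exact_mod_cast shell hd x k

/-- Row F2. `shell_sum` with `φ k = 1/(1+k)^(d-2)`: the terms are `k + 1 ≤ l`. And (tail sums) `∑ 1/(k+1)^2` over `n ≤ k < l` is at most `2/(n+1)`
(`1/(k+1)^2 ≤ 2 (1/(k+1) - 1/(k+2))`, telescoping). -/
lemma sum_f (hd : 2 ≤ d) (x : Fin d → Fin l) :
    ∑ y, fk (d - 2) x y ≤ (d * 2 ^ d : ℝ) * (l : ℝ) ^ 2 := by
  have h1 := shell_sum (by omega : 1 ≤ d) x (fun k => 1 / (1 + (k : ℝ)) ^ (d - 2))
    (fun k => by positivity)
  refine h1.trans (mul_le_mul_of_nonneg_left ?_ (by positivity))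
  calc ∑ k ∈ Finset.range l, ((k : ℝ) + 1) ^ (d - 1) * (1 / (1 + (k : ℝ)) ^ (d - 2))
      ≤ ∑ _k ∈ Finset.range l, (l : ℝ) := by
        refine Finset.sum_le_sum fun k hk => ?_
        have hk1 : (k : ℝ) + 1 ≤ l := by exact_mod_cast Finset.mem_range.mp hk
        have hk0 : (0 : ℝ) < (k : ℝ) + 1 := by positivity
        have h2 : d - 1 = (d - 2) + 1 := by omega
        rw [h2, pow_succ, add_comm (1 : ℝ) (k : ℝ)]
        have h3 : ((k : ℝ) + 1) ^ (d - 2) ≠ 0 := by positivity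
        field_simp
        linarith
    _ = (l : ℝ) ^ 2 := by rw [Finset.sum_const, Finset.card_range, nsmul_eq_mul]; ring

lemma tail_two (n l : ℕ) : ∑ k ∈ Finset.Ico n l, 1 / ((k : ℝ) + 1) ^ 2 ≤ 2 / ((n : ℝ) + 1) := by
  by_cases hnl : n ≤ l
  · have key : ∀ m : ℕ, ∑ k ∈ Finset.Ico n (n + m), 1 / ((k : ℝ) + 1) ^ 2 ≤
        2 / ((n : ℝ) + 1) - 2 / (((n + m : ℕ) : ℝ) + 1) := by
      intro m
      induction m with
      | zero => simp
      | succ m ih =>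
        rw [← add_assoc, Finset.sum_Ico_succ_top (by omega)]
        have h4 : 1 / (((n + m : ℕ) : ℝ) + 1) ^ 2 ≤
            2 / (((n + m : ℕ) : ℝ) + 1) - 2 / (((n + m + 1 : ℕ) : ℝ) + 1) := by
          have ha : (0 : ℝ) ≤ ((n + m : ℕ) : ℝ) := by positivity
          push_cast at ha ⊢
          generalize (n : ℝ) + (m : ℝ) = a at ha
          rw [div_sub_div _ _ (by positivity) (by positivity), div_le_div_iff₀ (by positivity) (by positivity)]
          nlinarith [mul_nonneg ha ha, mul_nonneg (mul_nonneg ha ha) ha]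
        linarith
    obtain ⟨m, rfl⟩ := Nat.exists_eq_add_of_le hnl
    have h5 := key m
    have h6 : (0 : ℝ) ≤ 2 / (((n + m : ℕ) : ℝ) + 1) := by positivity
    linarith
  · rw [Finset.Ico_eq_empty (by omega), Finset.sum_empty]
    positivity

/-- Row F3. Sums of `f = fk (d-2)`. (1) Near: `∑ over z with 1 + nd x z ≤ 2 R` of `f x z` is at most `d 2^d * 4 R²` (`shell_sum` with
`φ k = if k + 1 ≤ 2 R then 1/(1+k)^(d-2) else 0`; at most `2R` terms, each at most `2R`). (2) Far: `∑ over z with 2 R < 1 + nd x z` of `(f x z)²` is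
at most `d 2^d * 2 * 1 / R^(d-4)`: the terms are `(k+1)^(d-1) / (k+1)^(2d-4) = 1/(k+1)^(d-3) ≤ (1/(k+1)^2) (1/R^(d-5))` for `k + 1 ≥ R` (`d ≥ 5`), and
`∑ over k + 1 > 2R of 1/(k+1)^2 ≤ 2/(2R) = 1/R` (`tail_two`). -/
lemma near_f (hd : 2 ≤ d) (x : Fin d → Fin l) (R : ℕ) :
    ∑ z, (if 1 + nd x z ≤ 2 * R then fk (d - 2) x z else 0) ≤ (d * 2 ^ d : ℝ) * (4 * (R : ℝ) ^ 2) := by
  have h := shell_sum (by omega : 1 ≤ d) x
    (fun k => if 1 + k ≤ 2 * R then 1 / (1 + (k : ℝ)) ^ (d - 2) else 0) (fun k => by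
      split_ifs
      · positivity
      · exact le_rfl)
  refine le_trans (le_of_eq rfl) (h.trans ?_)
  refine mul_le_mul_of_nonneg_left ?_ (by positivity)
  have h1 : ∀ k ∈ Finset.range l, ((k : ℝ) + 1) ^ (d - 1) *
      (if 1 + k ≤ 2 * R then 1 / (1 + (k : ℝ)) ^ (d - 2) else 0) ≤
      if k ∈ Finset.range (2 * R) then 2 * (R : ℝ) else 0 := by
    intro k _
    by_cases hk : 1 + k ≤ 2 * R
    · rw [if_pos hk, if_pos (Finset.mem_range.mpr (by omega))]
      have h2 : ((k : ℝ) + 1) ^ (d - 1) * (1 / (1 + (k : ℝ)) ^ (d - 2)) = (k : ℝ) + 1 := by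
        have h3 : d - 1 = (d - 2) + 1 := by omega
        have h4 : (1 + (k : ℝ)) ≠ 0 := by positivity
        rw [h3, pow_succ, add_comm (k : ℝ) 1]
        field_simp
      rw [h2]
      have h5 : ((1 + k : ℕ) : ℝ) ≤ ((2 * R : ℕ) : ℝ) := by exact_mod_cast hk
      push_cast at h5
      linarith
    · rw [if_neg hk, if_neg (fun h6 => hk (by
        have := Finset.mem_range.mp h6
        omega)), mul_zero]
  refine (Finset.sum_le_sum h1).trans ?_
  rw [← Finset.sum_filter]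
  rw [Finset.sum_const, nsmul_eq_mul]
  have h7 : (((Finset.range l).filter (fun k => k ∈ Finset.range (2 * R))).card : ℝ) ≤ 2 * R := by
    have h8 : ((Finset.range l).filter (fun k => k ∈ Finset.range (2 * R))).card ≤
        (Finset.range (2 * R)).card := Finset.card_le_card (fun k hk => (Finset.mem_filter.mp hk).2)
    rw [Finset.card_range] at h8
    calc (((Finset.range l).filter (fun k => k ∈ Finset.range (2 * R))).card : ℝ) ≤ ((2 * R : ℕ) : ℝ) := by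
          exact_mod_cast h8
      _ = 2 * R := by push_cast; ring
  calc _ ≤ (2 * R : ℝ) * (2 * (R : ℝ)) := mul_le_mul_of_nonneg_right h7 (by positivity)
    _ = _ := by ring

lemma far_f (hd : 5 ≤ d) (x : Fin d → Fin l) (R : ℕ) (hR : 1 ≤ R) :
    ∑ z, (if 2 * R < 1 + nd x z then fk (d - 2) x z ^ 2 else 0) ≤
      (d * 2 ^ d : ℝ) * (2 / (R : ℝ) ^ (d - 4)) := by
  have h := shell_sum (by omega : 1 ≤ d) x
    (fun k => if 2 * R < 1 + k then (1 / (1 + (k : ℝ)) ^ (d - 2)) ^ 2 else 0) (fun k => by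
      split_ifs
      · positivity
      · exact le_rfl)
  refine le_trans (le_of_eq rfl) (h.trans ?_)
  refine mul_le_mul_of_nonneg_left ?_ (by positivity)
  have hR0 : (0 : ℝ) < R := by exact_mod_cast hR
  have h1 : ∀ k ∈ Finset.range l, ((k : ℝ) + 1) ^ (d - 1) *
      (if 2 * R < 1 + k then (1 / (1 + (k : ℝ)) ^ (d - 2)) ^ 2 else 0) ≤
      if k ∈ Finset.Ico (2 * R) l then (1 / (R : ℝ) ^ (d - 5)) * (1 / ((k : ℝ) + 1) ^ 2) else 0 := by
    intro k hkl
    by_cases hk : 2 * R < 1 + k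
    · rw [if_pos hk, if_pos (Finset.mem_Ico.mpr ⟨by omega, Finset.mem_range.mp hkl⟩)]
      have hk0 : (0 : ℝ) < (k : ℝ) + 1 := by positivity
      have h2 : ((k : ℝ) + 1) ^ (d - 1) * (1 / (1 + (k : ℝ)) ^ (d - 2)) ^ 2 =
          1 / ((k : ℝ) + 1) ^ (d - 3) := by
        have h3 : (d - 2) * 2 = (d - 1) + (d - 3) := by omega
        rw [add_comm 1 (k : ℝ), div_pow, one_pow, ← pow_mul, h3, pow_add]
        field_simp
      rw [h2]
      have h4 : d - 3 = (d - 5) + 2 := by omega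
      rw [h4, pow_add, one_div_mul_one_div]
      apply one_div_le_one_div_of_le
      · positivity
      · apply mul_le_mul_of_nonneg_right _ (by positivity)
        apply pow_le_pow_left₀ hR0.le
        have h5 : ((2 * R : ℕ) : ℝ) < ((1 + k : ℕ) : ℝ) := by exact_mod_cast hk
        push_cast at h5
        linarith
    · rw [if_neg hk, if_neg (fun h6 => hk (by
        have := Finset.mem_Ico.mp h6
        omega)), mul_zero]
  refine (Finset.sum_le_sum h1).trans ?_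
  rw [← Finset.sum_filter]
  have h9 : (Finset.range l).filter (fun k => k ∈ Finset.Ico (2 * R) l) ⊆ Finset.Ico (2 * R) l :=
    fun k hk => (Finset.mem_filter.mp hk).2
  refine (Finset.sum_le_sum_of_subset_of_nonneg h9 (fun k _ _ => by positivity)).trans ?_
  rw [← Finset.mul_sum]
  have h10 := tail_two (2 * R) l
  have h11 : (2 : ℝ) / (((2 * R : ℕ) : ℝ) + 1) ≤ 2 / (R : ℝ) := by
    apply div_le_div_of_nonneg_left (by norm_num) hR0
    push_cast
    linarith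
  calc (1 / (R : ℝ) ^ (d - 5)) * ∑ k ∈ Finset.Ico (2 * R) l, 1 / ((k : ℝ) + 1) ^ 2
      ≤ (1 / (R : ℝ) ^ (d - 5)) * (2 / (R : ℝ)) :=
        mul_le_mul_of_nonneg_left (h10.trans h11) (by positivity)
    _ = 2 / (R : ℝ) ^ (d - 4) := by
        have h12 : d - 4 = (d - 5) + 1 := by omega
        rw [h12, pow_succ]
        field_simp

/-- The constant of the convolution bound. -/
noncomputable def C4 (d : ℕ) : ℝ := d * 2 ^ d * (2 ^ d * 16)

private lemma F4_inv (e p q : ℕ) (hp : 1 ≤ p) (h : p ≤ 2 * q) :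
    1 / (q : ℝ) ^ e ≤ 2 ^ e / (p : ℝ) ^ e := by
  have hq : 1 ≤ q := by omega
  have hp0 : (0 : ℝ) < (p : ℝ) := by exact_mod_cast hp
  have hq0 : (0 : ℝ) < (q : ℝ) := by exact_mod_cast hq
  rw [div_le_div_iff₀ (by positivity) (by positivity), one_mul, ← mul_pow]
  refine pow_le_pow_left₀ hp0.le ?_ e
  exact_mod_cast h

private lemma F4_pt (e a b R : ℕ) (ha : 1 ≤ a) (hb : 1 ≤ b) (hR : 1 ≤ R) (h1 : R + 1 ≤ a + b)
    (h2 : b + 1 ≤ a + R) (h3 : a + 1 ≤ b + R) :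
    1 / (a : ℝ) ^ e * (1 / (b : ℝ) ^ e) ≤
      2 ^ e / (R : ℝ) ^ e * (if a ≤ 2 * R then 1 / (a : ℝ) ^ e else 0) +
      2 ^ e / (R : ℝ) ^ e * (if b ≤ 2 * R then 1 / (b : ℝ) ^ e else 0) +
      2 ^ e * (if 2 * R < a then (1 / (a : ℝ) ^ e) ^ 2 else 0) +
      2 ^ e * (if 2 * R < b then (1 / (b : ℝ) ^ e) ^ 2 else 0) := by
  have ha0 : (0 : ℝ) < (a : ℝ) := by exact_mod_cast ha
  have hb0 : (0 : ℝ) < (b : ℝ) := by exact_mod_cast hb
  have hR0 : (0 : ℝ) < (R : ℝ) := by exact_mod_cast hR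
  have hA : (0 : ℝ) < 1 / (a : ℝ) ^ e := by positivity
  have hB : (0 : ℝ) < 1 / (b : ℝ) ^ e := by positivity
  have hc : (0 : ℝ) < 2 ^ e / (R : ℝ) ^ e := by positivity
  have p1 : (0 : ℝ) ≤ 2 ^ e / (R : ℝ) ^ e * (if a ≤ 2 * R then 1 / (a : ℝ) ^ e else 0) := by
    split_ifs
    · positivity
    · simp
  have p2 : (0 : ℝ) ≤ 2 ^ e / (R : ℝ) ^ e * (if b ≤ 2 * R then 1 / (b : ℝ) ^ e else 0) := by
    split_ifs
    · positivity
    · simp
  have p3 : (0 : ℝ) ≤ 2 ^ e * (if 2 * R < a then (1 / (a : ℝ) ^ e) ^ 2 else 0) := by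
    split_ifs
    · positivity
    · simp
  have p4 : (0 : ℝ) ≤ 2 ^ e * (if 2 * R < b then (1 / (b : ℝ) ^ e) ^ 2 else 0) := by
    split_ifs
    · positivity
    · simp
  by_cases c1 : 2 * R < a
  · have q1 : 1 / (a : ℝ) ^ e * (1 / (b : ℝ) ^ e) ≤
        2 ^ e * (if 2 * R < a then (1 / (a : ℝ) ^ e) ^ 2 else 0) := by
      rw [if_pos c1]
      have q2 := F4_inv e a b ha (by omega)
      calc 1 / (a : ℝ) ^ e * (1 / (b : ℝ) ^ e) ≤ 1 / (a : ℝ) ^ e * (2 ^ e / (a : ℝ) ^ e) :=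
            mul_le_mul_of_nonneg_left q2 hA.le
        _ = 2 ^ e * (1 / (a : ℝ) ^ e) ^ 2 := by ring
    linarith
  by_cases c2 : 2 * R < b
  · have q1 : 1 / (a : ℝ) ^ e * (1 / (b : ℝ) ^ e) ≤
        2 ^ e * (if 2 * R < b then (1 / (b : ℝ) ^ e) ^ 2 else 0) := by
      rw [if_pos c2]
      have q2 := F4_inv e b a hb (by omega)
      calc 1 / (a : ℝ) ^ e * (1 / (b : ℝ) ^ e) ≤ 2 ^ e / (b : ℝ) ^ e * (1 / (b : ℝ) ^ e) :=
            mul_le_mul_of_nonneg_right q2 hB.le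
        _ = 2 ^ e * (1 / (b : ℝ) ^ e) ^ 2 := by ring
    linarith
  by_cases c3 : R ≤ 2 * b
  · have q1 : 1 / (a : ℝ) ^ e * (1 / (b : ℝ) ^ e) ≤
        2 ^ e / (R : ℝ) ^ e * (if a ≤ 2 * R then 1 / (a : ℝ) ^ e else 0) := by
      rw [if_pos (by omega)]
      have q2 := F4_inv e R b hR c3
      calc 1 / (a : ℝ) ^ e * (1 / (b : ℝ) ^ e) ≤ 1 / (a : ℝ) ^ e * (2 ^ e / (R : ℝ) ^ e) :=
            mul_le_mul_of_nonneg_left q2 hA.le
        _ = 2 ^ e / (R : ℝ) ^ e * (1 / (a : ℝ) ^ e) := by ring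
    linarith
  · have q1 : 1 / (a : ℝ) ^ e * (1 / (b : ℝ) ^ e) ≤
        2 ^ e / (R : ℝ) ^ e * (if b ≤ 2 * R then 1 / (b : ℝ) ^ e else 0) := by
      rw [if_pos (by omega)]
      have q2 := F4_inv e R a hR (by omega)
      exact mul_le_mul_of_nonneg_right q2 hB.le
    linarith

/-- Row F4. Let `R = 1 + nd x y`. Every `z` is in one of four classes: (A) `1 + nd x z ≤ 2R` and `R ≤ 2 (1 + nd z y)`: there
`f z y ≤ 2^(d-2) / R^(d-2)`; (B) the same with `x`, `y` exchanged; (C) `2R < 1 + nd x z`: then `1 + nd z y ≥ (1 + nd x z)/2` (triangle inequality), so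
`f z y ≤ 2^(d-2) f x z`; (D) the same with `x`, `y` exchanged. If neither (C) nor (D) then both distances are at most `2R`, and by the
triangle inequality one of them is at least `R/2`. By `near_f`, `far_f` the sum is at most
`d 2^d 2^(d-2) (4 + 4 + 2 + 2) / R^(d-4) ≤ C4 / R^(d-4)`. -/
lemma conv_f (hd : 5 ≤ d) (x y : Fin d → Fin l) :
    ∑ z, fk (d - 2) x z * fk (d - 2) z y ≤ C4 d * fk (d - 4) x y := by
  obtain ⟨R, hRd⟩ : ∃ R : ℕ, R = 1 + nd x y := ⟨_, rfl⟩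
  have hR : 1 ≤ R := by omega
  have hR0 : (0 : ℝ) < (R : ℝ) := by exact_mod_cast hR
  have hpt : ∀ z : Fin d → Fin l, fk (d - 2) x z * fk (d - 2) z y ≤
      2 ^ (d - 2) / (R : ℝ) ^ (d - 2) * (if 1 + nd x z ≤ 2 * R then fk (d - 2) x z else 0) +
      2 ^ (d - 2) / (R : ℝ) ^ (d - 2) * (if 1 + nd y z ≤ 2 * R then fk (d - 2) y z else 0) +
      2 ^ (d - 2) * (if 2 * R < 1 + nd x z then fk (d - 2) x z ^ 2 else 0) +
      2 ^ (d - 2) * (if 2 * R < 1 + nd y z then fk (d - 2) y z ^ 2 else 0) := by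
    intro z
    have t1 := nd_tri x z y
    have t2 := nd_tri y x z
    have t3 := nd_tri x y z
    have s1 := nd_symm z y
    have s2 := nd_symm y x
    have h := F4_pt (d - 2) (1 + nd x z) (1 + nd y z) R (by omega) (by omega) hR (by omega)
      (by omega) (by omega)
    unfold fk
    rw [s1]
    push_cast at h
    exact h
  refine (Finset.sum_le_sum (fun z _ => hpt z)).trans ?_
  rw [Finset.sum_add_distrib, Finset.sum_add_distrib, Finset.sum_add_distrib, ← Finset.mul_sum,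
    ← Finset.mul_sum, ← Finset.mul_sum, ← Finset.mul_sum]
  have n1 := near_f (by omega : 2 ≤ d) x R
  have n2 := near_f (by omega : 2 ≤ d) y R
  have f1 := far_f hd x R hR
  have f2 := far_f hd y R hR
  have hc : (0 : ℝ) ≤ 2 ^ (d - 2) / (R : ℝ) ^ (d - 2) := by positivity
  have hc2 : (0 : ℝ) ≤ 2 ^ (d - 2) := by positivity
  have hsum := add_le_add (add_le_add (add_le_add (mul_le_mul_of_nonneg_left n1 hc)
    (mul_le_mul_of_nonneg_left n2 hc)) (mul_le_mul_of_nonneg_left f1 hc2))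
    (mul_le_mul_of_nonneg_left f2 hc2)
  refine hsum.trans ?_
  have hfk : fk (d - 4) x y = 1 / (R : ℝ) ^ (d - 4) := by
    unfold fk
    rw [hRd]
    push_cast
    rfl
  have hpow : (R : ℝ) ^ (d - 2) = (R : ℝ) ^ (d - 4) * (R : ℝ) ^ 2 := by
    rw [← pow_add]
    congr 1
    omega
  have hpow2 : (2 : ℝ) ^ d = 2 ^ (d - 2) * 2 ^ 2 := by
    rw [← pow_add]
    congr 1
    omega
  rw [hfk, hpow]
  unfold C4
  have hK : (0 : ℝ) ≤ (d * 2 ^ d : ℝ) := by positivity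
  have hRp : (0 : ℝ) < (R : ℝ) ^ (d - 4) := by positivity
  have e1 : 2 ^ (d - 2) / ((R : ℝ) ^ (d - 4) * (R : ℝ) ^ 2) * ((d * 2 ^ d : ℝ) * (4 * (R : ℝ) ^ 2)) =
      (d * 2 ^ d : ℝ) * (2 ^ (d - 2) * 4) / (R : ℝ) ^ (d - 4) := by
    field_simp
  have e2 : 2 ^ (d - 2) * ((d * 2 ^ d : ℝ) * (2 / (R : ℝ) ^ (d - 4))) =
      (d * 2 ^ d : ℝ) * (2 ^ (d - 2) * 2) / (R : ℝ) ^ (d - 4) := by
    field_simp
  have e3 : (d : ℝ) * 2 ^ d * (2 ^ d * 16) * (1 / (R : ℝ) ^ (d - 4)) =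
      (d * 2 ^ d : ℝ) * (2 ^ (d - 2) * 64) / (R : ℝ) ^ (d - 4) := by
    have : (2 : ℝ) ^ d * 16 = 2 ^ (d - 2) * 64 := by
      rw [hpow2]
      ring
    rw [this]
    ring
  rw [e1, e2, e3, ← add_div, ← add_div, ← add_div, div_le_div_iff_of_pos_right hRp]
  nlinarith [mul_nonneg hK hc2]

/-- Row F5. Squares of `g = fk (d-4)`, `d ≥ 9`: by `shell_sum` the sum over `nd x y ≥ n` of `g²` is at most
`d 2^d ∑ k ≥ n, (k+1)^(d-1) / (k+1)^(2d-8) = d 2^d ∑ 1/(k+1)^(d-7) ≤ d 2^d ∑ 1/(k+1)^2 ≤ d 2^d 2/(n+1)` (`tail_two`). -/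
lemma sq_g (hd : 9 ≤ d) (x : Fin d → Fin l) (n : ℕ) :
    ∑ y, (if n ≤ nd x y then fk (d - 4) x y ^ 2 else 0) ≤ (d * 2 ^ d : ℝ) * (2 / ((n : ℝ) + 1)) := by
  have hφ : ∀ k : ℕ, (0 : ℝ) ≤ (if n ≤ k then (1 / (1 + (k : ℝ)) ^ (d - 4)) ^ 2 else 0) := by
    intro k
    split_ifs
    · positivity
    · exact le_refl 0
  have h1 := shell_sum (by omega) x
    (fun k : ℕ => if n ≤ k then (1 / (1 + (k : ℝ)) ^ (d - 4)) ^ 2 else 0) hφ
  have h0 : ∑ y, (if n ≤ nd x y then fk (d - 4) x y ^ 2 else 0) =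
      ∑ y, (fun k : ℕ => if n ≤ k then (1 / (1 + (k : ℝ)) ^ (d - 4)) ^ 2 else 0) (nd x y) := rfl
  rw [h0]
  refine h1.trans ?_
  apply mul_le_mul_of_nonneg_left _ (by positivity)
  have hterm : ∀ k ∈ Finset.range l,
      ((k : ℝ) + 1) ^ (d - 1) * (if n ≤ k then (1 / (1 + (k : ℝ)) ^ (d - 4)) ^ 2 else 0) ≤
        (if n ≤ k then 1 / ((k : ℝ) + 1) ^ 2 else 0) := by
    intro k _
    split_ifs with hk
    · have hpos : (0 : ℝ) < (k : ℝ) + 1 := by positivity
      have hone : (1 : ℝ) ≤ (k : ℝ) + 1 := by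
        have : (0 : ℝ) ≤ (k : ℝ) := Nat.cast_nonneg k
        linarith
      have e1 : (1 + (k : ℝ)) = (k : ℝ) + 1 := add_comm _ _
      rw [e1, div_pow, one_pow, ← pow_mul]
      have e2 : (d - 4) * 2 = (d - 1) + (d - 7) := by omega
      rw [e2, pow_add]
      have hp1 : (0 : ℝ) < ((k : ℝ) + 1) ^ (d - 1) := by positivity
      have hp2 : (0 : ℝ) < ((k : ℝ) + 1) ^ (d - 7) := by positivity
      have e3 : ((k : ℝ) + 1) ^ (d - 1) * (1 / (((k : ℝ) + 1) ^ (d - 1) * ((k : ℝ) + 1) ^ (d - 7))) =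
          1 / ((k : ℝ) + 1) ^ (d - 7) := by
        field_simp
      rw [e3]
      apply one_div_le_one_div_of_le (by positivity)
      exact pow_le_pow_right₀ hone (by omega)
    · simp
  refine (Finset.sum_le_sum hterm).trans ?_
  rw [← Finset.sum_filter]
  have hf : (Finset.range l).filter (fun k => n ≤ k) = Finset.Ico n l := by
    ext k
    simp only [Finset.mem_filter, Finset.mem_range, Finset.mem_Ico]
    omega
  rw [hf]
  exact tail_two n l

private lemma F6_half {ι : Type*} (A : Finset ι) (a b : ι → ℝ) (K : ℝ) (hK : 0 ≤ K) (r : ℕ)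
    (ha : ∑ i ∈ A, a i ^ 2 ≤ K * (4 / ((r : ℝ) + 1))) (hb : ∑ i ∈ A, b i ^ 2 ≤ K * 2) :
    ∑ i ∈ A, a i * b i ≤ K * (3 / Real.sqrt ((r : ℝ) + 1)) := by
  have hr : (0 : ℝ) < (r : ℝ) + 1 := by positivity
  have hs : 0 < Real.sqrt ((r : ℝ) + 1) := Real.sqrt_pos.2 hr
  have h1 := Finset.sum_mul_sq_le_sq_mul_sq A a b
  have hb0 : 0 ≤ ∑ i ∈ A, b i ^ 2 := Finset.sum_nonneg fun i _ => sq_nonneg _
  have h2 : (∑ i ∈ A, a i ^ 2) * (∑ i ∈ A, b i ^ 2) ≤ (K * (4 / ((r : ℝ) + 1))) * (K * 2) :=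
    mul_le_mul ha hb hb0 (by positivity)
  have h3 : (K * (4 / ((r : ℝ) + 1))) * (K * 2) ≤ (K * (3 / Real.sqrt ((r : ℝ) + 1))) ^ 2 := by
    rw [mul_pow, div_pow, Real.sq_sqrt hr.le]
    have e : K * (4 / ((r : ℝ) + 1)) * (K * 2) = K ^ 2 * (8 / ((r : ℝ) + 1)) := by ring
    rw [e]
    apply mul_le_mul_of_nonneg_left _ (sq_nonneg K)
    apply div_le_div_of_nonneg_right _ hr.le
    norm_num
  exact (abs_le_of_sq_le_sq' (h1.trans (h2.trans h3)) (by positivity)).2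

private lemma F6_fk_nonneg (k : ℕ) (x y : Fin d → Fin l) : 0 ≤ fk k x y := by
  unfold fk
  positivity

private lemma F6_fk_le (hd : 4 ≤ d) (x y : Fin d → Fin l) : fk (d - 2) x y ≤ fk (d - 4) x y := by
  unfold fk
  apply one_div_le_one_div_of_le (by positivity)
  apply pow_le_pow_right₀
  · have : (0 : ℝ) ≤ (nd x y : ℝ) := Nat.cast_nonneg _
    linarith
  · omega

private lemma F6_far (hd : 9 ≤ d) (x : Fin d → Fin l) (r : ℕ) (A : Finset (Fin d → Fin l))
    (hA : ∀ y ∈ A, r ≤ 2 * nd x y) :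
    ∑ y ∈ A, fk (d - 4) x y ^ 2 ≤ (d * 2 ^ d : ℝ) * (4 / ((r : ℝ) + 1)) := by
  have h1 : ∑ y ∈ A, fk (d - 4) x y ^ 2 ≤
      ∑ y, (if (r + 1) / 2 ≤ nd x y then fk (d - 4) x y ^ 2 else 0) := by
    have h2 : ∑ y ∈ A, fk (d - 4) x y ^ 2 =
        ∑ y ∈ A, (if (r + 1) / 2 ≤ nd x y then fk (d - 4) x y ^ 2 else 0) := by
      refine Finset.sum_congr rfl fun y hy => ?_
      have := hA y hy
      rw [if_pos (by omega)]
    rw [h2]
    refine Finset.sum_le_sum_of_subset_of_nonneg (Finset.subset_univ _) fun y _ _ => ?_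
    split_ifs
    · exact sq_nonneg _
    · exact le_refl _
  refine h1.trans ((sq_g hd x ((r + 1) / 2)).trans ?_)
  apply mul_le_mul_of_nonneg_left _ (by positivity)
  rw [div_le_div_iff₀ (by positivity) (by positivity)]
  have h3 : r ≤ 2 * ((r + 1) / 2) := by omega
  have h4 : (r : ℝ) ≤ 2 * (((r + 1) / 2 : ℕ) : ℝ) := by exact_mod_cast h3
  linarith

private lemma F6_all (hd : 9 ≤ d) (x : Fin d → Fin l) (A : Finset (Fin d → Fin l)) :
    ∑ y ∈ A, fk (d - 4) x y ^ 2 ≤ (d * 2 ^ d : ℝ) * 2 := by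
  have h := sq_g hd x 0
  simp only [Nat.zero_le, if_true, Nat.cast_zero, zero_add, div_one] at h
  refine le_trans ?_ h
  exact Finset.sum_le_sum_of_subset_of_nonneg (Finset.subset_univ _) fun y _ _ => sq_nonneg _

/-- Row F6. The shifted sum. `f ≤ g` for `f = fk (d-2)`, `g = fk (d-4)`. For `u ∈ W` `nd u (sh u) = r`, so `2 nd x u ≥ r` or `2 nd x (sh u) ≥ r`. In the
first case use `g x u * g x (sh u) ≤ (t g x u ^ 2 + g x (sh u) ^ 2 / t) / 2` with `t = √(r+1)`, in the second case with `1/t`; or Cauchy-Schwarz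
(`Finset.sum_mul_sq_le_sq_mul_sq`). By `sq_g` (with `n = 0` and `n = ⌈r/2⌉`, `n + 1 ≥ (r+1)/2`; `sh` is injective on `W`) each case is at most
`d 2^d * √(2 * 4/(r+1)) ≤ d 2^d * 3 / √(r+1)`. -/
lemma shift_f (hd : 9 ≤ d) (x : Fin d → Fin l) (W : Finset (Fin d → Fin l))
    (sh : (Fin d → Fin l) → (Fin d → Fin l)) (hW : Set.InjOn sh W) (r : ℕ)
    (hr : ∀ u ∈ W, nd u (sh u) = r) :
    ∑ u ∈ W, fk (d - 2) x u * fk (d - 4) x (sh u) ≤ (d * 2 ^ d : ℝ) * (6 / Real.sqrt ((r : ℝ) + 1)) := by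
  classical
  have hK : (0 : ℝ) ≤ (d * 2 ^ d : ℝ) := by positivity
  have h0 : ∑ u ∈ W, fk (d - 2) x u * fk (d - 4) x (sh u) ≤
      ∑ u ∈ W, fk (d - 4) x u * fk (d - 4) x (sh u) :=
    Finset.sum_le_sum fun u _ =>
      mul_le_mul_of_nonneg_right (F6_fk_le (by omega) x u) (F6_fk_nonneg _ _ _)
  refine h0.trans ?_
  rw [← Finset.sum_filter_add_sum_filter_not W (fun u => r ≤ 2 * nd x u)]
  have hinj : ∀ (Q : (Fin d → Fin l) → Prop) [DecidablePred Q],
      Set.InjOn sh ((W.filter Q : Finset (Fin d → Fin l)) : Set (Fin d → Fin l)) := by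
    intro Q _
    exact hW.mono (by exact_mod_cast Finset.filter_subset Q W)
  have hA : ∑ u ∈ W.filter (fun u => r ≤ 2 * nd x u), fk (d - 4) x u * fk (d - 4) x (sh u) ≤
      (d * 2 ^ d : ℝ) * (3 / Real.sqrt ((r : ℝ) + 1)) := by
    refine F6_half _ _ _ _ hK r ?_ ?_
    · exact F6_far hd x r _ fun y hy => (Finset.mem_filter.1 hy).2
    · rw [← Finset.sum_image (f := fun y => fk (d - 4) x y ^ 2) (g := sh) (hinj _)]
      exact F6_all hd x _
  have hB : ∑ u ∈ W.filter (fun u => ¬ r ≤ 2 * nd x u), fk (d - 4) x u * fk (d - 4) x (sh u) ≤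
      (d * 2 ^ d : ℝ) * (3 / Real.sqrt ((r : ℝ) + 1)) := by
    have hc : ∑ u ∈ W.filter (fun u => ¬ r ≤ 2 * nd x u), fk (d - 4) x u * fk (d - 4) x (sh u) =
        ∑ u ∈ W.filter (fun u => ¬ r ≤ 2 * nd x u), fk (d - 4) x (sh u) * fk (d - 4) x u :=
      Finset.sum_congr rfl fun u _ => mul_comm _ _
    rw [hc]
    refine F6_half _ _ _ _ hK r ?_ ?_
    · rw [← Finset.sum_image (f := fun y => fk (d - 4) x y ^ 2) (g := sh) (hinj _)]
      refine F6_far hd x r _ fun y hy => ?_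
      obtain ⟨u, hu, rfl⟩ := Finset.mem_image.1 hy
      obtain ⟨hu1, hu2⟩ := Finset.mem_filter.1 hu
      have h1 := hr u hu1
      have h2 := nd_tri u x (sh u)
      have h3 := nd_symm u x
      omega
    · exact F6_all hd x _
  have e : (d * 2 ^ d : ℝ) * (6 / Real.sqrt ((r : ℝ) + 1)) =
      (d * 2 ^ d : ℝ) * (3 / Real.sqrt ((r : ℝ) + 1)) + (d * 2 ^ d : ℝ) * (3 / Real.sqrt ((r : ℝ) + 1)) := by
    ring
  rw [e]
  exact add_le_add hA hB

end Pool.Agent.PERC29.AE
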