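import Pool.Agent.Lib.MP_29e17e_pr.Expc

set_option autoImplicit false
set_option linter.unusedSectionVars false

/-! Rows 29v-A1 .. 29v-A8: expectations. -/

open Finset

namespace Pool.Agent.PERC29.AE

variable {E : Type*} [Fintype E] [DecidableEq E] {F : Type*} [Fintype F] [DecidableEq F]

/-- Row A1. A function of the coordinates `f e` only. Proof: the sum over `ω : E → Bool` is the sum over the restrictions
to the range of `f` and to its complement (`Equiv.piEquivPiSubtypeProd`, `Finset.prod` splits accordingly,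
`Fintype.prod_subtype_mul_prod_subtype`); the second factor sums to one (`sum_wt_gen`); reindex the first one by the
equivalence of `F` with the range of `f` (`Equiv.ofInjective`). Alternatively write `Ex p (fun ω => G (ω ∘ f)) =
∑ a : F → Bool, G a * Ex p (fun ω => if ω ∘ f = a then 1 else 0)` and compute the last factor as a product
(`Finset.prod_univ_sum`, as in `Ex_closed`). -/
lemma Ex_pull (p : ℝ) (f : F → E) (hf : Function.Injective f) (G : (F → Bool) → ℝ) :
    Ex p (fun ω : E → Bool => G (fun e => ω (f e))) = Ex p G := by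
  classical
  set q : E → Prop := fun e => ∃ x, f x = e with hq
  set eqv := (Equiv.piEquivPiSubtypeProd q (fun _ => Bool))
  have hw : ∀ a b, wt p (eqv.symm (a, b)) =
      (∏ i, (if a i = true then p else 1 - p)) * ∏ i, (if b i = true then p else 1 - p) := by
    intro a b
    unfold wt
    rw [← Fintype.prod_subtype_mul_prod_subtype q]
    congr 1
    · apply Finset.prod_congr rfl
      intro i _
      have : eqv.symm (a, b) i.1 = a i := by
        simp [eqv, Equiv.piEquivPiSubtypeProd, i.2]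
      rw [this]
    · apply Finset.prod_congr rfl
      intro i _
      have : eqv.symm (a, b) i.1 = b i := by
        simp [eqv, Equiv.piEquivPiSubtypeProd, i.2]
      rw [this]
  have hG : ∀ (a : {e // q e} → Bool) (b : {e // ¬ q e} → Bool),
      (fun e => eqv.symm (a, b) (f e)) = fun e => a ⟨f e, ⟨e, rfl⟩⟩ := by
    intro a b
    funext e
    have : q (f e) := ⟨e, rfl⟩
    simp [eqv, Equiv.piEquivPiSubtypeProd, this]
  have h1 : Ex p (fun ω : E → Bool => G (fun e => ω (f e))) =
      ∑ a : {e // q e} → Bool, (∏ i, (if a i = true then p else 1 - p)) *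
        G (fun e => a ⟨f e, ⟨e, rfl⟩⟩) := by
    unfold Ex
    rw [← Equiv.sum_comp eqv.symm, Fintype.sum_prod_type]
    refine Finset.sum_congr rfl fun a _ => ?_
    calc _ = ((∏ i, (if a i = true then p else 1 - p)) * G (fun e => a ⟨f e, ⟨e, rfl⟩⟩)) *
          ∑ b : {e // ¬ q e} → Bool, ∏ i, (if b i = true then p else 1 - p) := by
          rw [Finset.mul_sum]
          refine Finset.sum_congr rfl fun b _ => ?_
          have h9 : (fun ω : E → Bool => G (fun e => ω (f e))) (eqv.symm (a, b)) =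
              G (fun e => a ⟨f e, ⟨e, rfl⟩⟩) := congrArg G (hG a b)
          rw [hw, h9]
          ring
      _ = _ := by rw [sum_wt_gen, mul_one]
  rw [h1]
  unfold Ex wt
  set e0 : F ≃ {e // q e} := Equiv.ofBijective (fun x => ⟨f x, ⟨x, rfl⟩⟩)
    ⟨fun x y h => hf (congrArg Subtype.val h), fun y => by
      obtain ⟨x, hx⟩ := y.2
      exact ⟨x, Subtype.ext hx⟩⟩ with he0
  have h2 := Equiv.sum_comp (Equiv.arrowCongr e0.symm (Equiv.refl Bool))
    (fun c : F → Bool => (∏ i, (if c i = true then p else 1 - p)) * G c)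
  rw [← h2]
  refine Finset.sum_congr rfl fun a _ => ?_
  have h3 : (Equiv.arrowCongr e0.symm (Equiv.refl Bool)) a = fun e => a ⟨f e, ⟨e, rfl⟩⟩ := by
    funext x
    simp only [Equiv.arrowCongr, he0, Equiv.coe_fn_mk, Equiv.symm_symm, Equiv.coe_refl,
      Function.comp_apply, id_eq]
    rfl
  rw [h3]
  congr 1
  rw [← Equiv.prod_comp e0]
  rfl

/-- Row A2. Exchange of two expectations (`Finset.sum_comm`, `Finset.mul_sum`), and four small inequalities.
(2) Markov: `lam * 1[lam < f] ≤ f`. (3), (4): `Ex_mono` twice. (5) Cauchy-Schwarz: `Finset.sum_mul_sq_le_sq_mul_sq` (or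
`Finset.inner_mul_le_norm_mul_norm`) with the vectors `√(wt) f`, `√(wt) g`. -/
lemma Ex_swap (p s : ℝ) (G : (E → Bool) → (F → Bool) → ℝ) :
    Ex p (fun ω => Ex s (fun ω' => G ω ω')) = Ex s (fun ω' => Ex p (fun ω => G ω ω')) := by
  unfold Ex
  simp_rw [Finset.mul_sum]
  rw [Finset.sum_comm]
  refine Finset.sum_congr rfl fun ω' _ => Finset.sum_congr rfl fun ω _ => ?_
  ring

open scoped Classical in
lemma Ex_mkv {p lam : ℝ} (h0 : 0 ≤ p) (h1 : p ≤ 1) (hl : 0 < lam) (f : (E → Bool) → ℝ)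
    (hf : ∀ ω, 0 ≤ f ω) :
    Ex p (fun ω => if lam < f ω then (1 : ℝ) else 0) ≤ Ex p f / lam := by
  rw [le_div_iff₀ hl, mul_comm, ← Ex_mul_left]
  apply Ex_mono h0 h1
  intro ω
  split_ifs with h
  · rw [mul_one]; exact h.le
  · rw [mul_zero]; exact hf ω

lemma Ex_min {p : ℝ} (h0 : 0 ≤ p) (h1 : p ≤ 1) (f g : (E → Bool) → ℝ) :
    Ex p (fun ω => min (f ω) (g ω)) ≤ min (Ex p f) (Ex p g) :=
  le_min (Ex_mono h0 h1 fun _ => min_le_left _ _) (Ex_mono h0 h1 fun _ => min_le_right _ _)

lemma Ex_csq {p : ℝ} (h0 : 0 ≤ p) (h1 : p ≤ 1) (f g : (E → Bool) → ℝ) :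
    Ex p (fun ω => f ω * g ω) ^ 2 ≤ Ex p (fun ω => f ω ^ 2) * Ex p (fun ω => g ω ^ 2) := by
  unfold Ex
  have h := Finset.sum_mul_sq_le_sq_mul_sq (Finset.univ : Finset (E → Bool))
    (fun ω => √(wt p ω) * f ω) (fun ω => √(wt p ω) * g ω)
  have hw : ∀ ω : E → Bool, √(wt p ω) * √(wt p ω) = wt p ω := fun ω =>
    Real.mul_self_sqrt (wt_nonneg h0 h1 ω)
  have e1 : ∀ ω : E → Bool, √(wt p ω) * f ω * (√(wt p ω) * g ω) = wt p ω * (f ω * g ω) := by
    intro ω
    rw [mul_mul_mul_comm, hw]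
  have e2 : ∀ (k : (E → Bool) → ℝ) (ω : E → Bool), (√(wt p ω) * k ω) ^ 2 = wt p ω * k ω ^ 2 := by
    intro k ω
    rw [mul_pow, sq (√(wt p ω)), hw]
  simp_rw [e1, e2] at h
  exact h

/-- Row A3. General exploration. `X` is determined by the coordinates in `D (X ω)`, `Fn a` depends only on the
coordinates outside `D a`. Proof: as in `two` (Two.lean): `Fn (X ω) ω = ∑ a, 1[X ω = a] * Fn a ω`; by `Ex_indep` (with
the set `D a`) the expectation of each term is `Ex 1[X = a] * Ex (Fn a)`: if `ω = ω'` on `D a` then `X ω = a ↔ X ω' = a`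
(by `hX`, in both directions). -/
lemma explore_gen {α : Type*} [Fintype α] [DecidableEq α] (p : ℝ) (X : (E → Bool) → α) (D : α → Set E)
    (hX : ∀ ω ω' : E → Bool, (∀ e ∈ D (X ω), ω e = ω' e) → X ω' = X ω)
    (Fn : α → (E → Bool) → ℝ)
    (hF : ∀ a, ∀ ω ω' : E → Bool, (∀ e, e ∉ D a → ω e = ω' e) → Fn a ω = Fn a ω') :
    Ex p (fun ω => Fn (X ω) ω) = Ex p (fun ω => Ex p (fun ω' => Fn (X ω) ω')) := by
  have hdec : ∀ ω : E → Bool, Fn (X ω) ω =
      ∑ a : α, (if X ω = a then (1 : ℝ) else 0) * Fn a ω := by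
    intro ω
    rw [Finset.sum_eq_single (X ω)]
    · rw [if_pos rfl, one_mul]
    · intro a _ ha
      rw [if_neg (Ne.symm ha), zero_mul]
    · intro hh
      exact absurd (Finset.mem_univ _) hh
  have hdec2 : ∀ ω : E → Bool, Ex p (fun ω' => Fn (X ω) ω') =
      ∑ a : α, Ex p (fun ω' => Fn a ω') * (if X ω = a then (1 : ℝ) else 0) := by
    intro ω
    rw [Finset.sum_eq_single (X ω)]
    · rw [if_pos rfl, mul_one]
    · intro a _ ha
      rw [if_neg (Ne.symm ha), mul_zero]
    · intro hh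
      exact absurd (Finset.mem_univ _) hh
  rw [Ex_congr hdec, Ex_sum, Ex_congr hdec2, Ex_sum]
  refine Finset.sum_congr rfl fun a _ => ?_
  have : DecidablePred fun e => e ∈ D a := Classical.decPred _
  rw [Ex_indep p (D a), Ex_mul_left, mul_comm]
  · intro ω ω' hh
    have key : ∀ ω ω' : E → Bool, (∀ e ∈ D a, ω e = ω' e) → X ω = a → X ω' = a := by
      intro ω ω' hh hA
      rw [← hA]
      exact hX ω ω' (by rw [hA]; exact hh)
    by_cases hc : X ω = a
    · rw [if_pos hc, if_pos (key ω ω' hh hc)]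
    · rw [if_neg hc, if_neg]
      intro hc'
      exact hc (key ω' ω (fun e he => (hh e he).symm) hc')
  · intro ω ω' hh
    exact hF a ω ω' hh

/-- Row A4. Independence for pairs of configurations. Proof: for fixed `ω` use `Ex_indep` for `ω'` (the functions
`f ω`, `g ω`); then `ω ↦ Ex s (f ω)` depends only on `D` and `ω ↦ Ex s (g ω)` only on the complement: `Ex_indep` again. -/
lemma E2_indep (p s : ℝ) (D : Set E) (f g : (E → Bool) → (E → Bool) → ℝ)
    (hf : ∀ ω ω' η η' : E → Bool, (∀ e ∈ D, ω e = ω' e) → (∀ e ∈ D, η e = η' e) → f ω η = f ω' η')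
    (hg : ∀ ω ω' η η' : E → Bool, (∀ e, e ∉ D → ω e = ω' e) → (∀ e, e ∉ D → η e = η' e) →
      g ω η = g ω' η') :
    Ex p (fun ω => Ex s (fun η => f ω η * g ω η)) =
      Ex p (fun ω => Ex s (fun η => f ω η)) * Ex p (fun ω => Ex s (fun η => g ω η)) := by
  classical
  have h1 : ∀ ω, Ex s (fun η => f ω η * g ω η) = Ex s (fun η => f ω η) * Ex s (fun η => g ω η) := by
    intro ω
    exact Ex_indep s D (fun η => f ω η) (fun η => g ω η)
      (fun η η' h => hf ω ω η η' (fun _ _ => rfl) h) (fun η η' h => hg ω ω η η' (fun _ _ => rfl) h)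
  rw [Ex_congr h1]
  exact Ex_indep p D (fun ω => Ex s (fun η => f ω η)) (fun ω => Ex s (fun η => g ω η))
    (fun ω ω' h => Ex_congr (fun η => hf ω ω' η η h (fun _ _ => rfl)))
    (fun ω ω' h => Ex_congr (fun η => hg ω ω' η η h (fun _ _ => rfl)))

end Pool.Agent.PERC29.AE
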