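import Mathlib

set_option autoImplicit false
set_option linter.unusedSectionVars false

/-! Rows 29v-H1 .. 29v-H6: hierarchical renormalisation, combinatorial part (Section 3 of the page). Sites are functions
`Fin d → ℕ`; a block of level `j + 1` has `40 ^ d` sub-blocks of level `j`. -/

open Finset

namespace Pool.Agent.PERC29.AE

variable {d : ℕ}

/-- The block which contains a sub-block. -/
def par (z : Fin d → ℕ) : Fin d → ℕ := fun i => z i / 40

/-- The block of level `j` which contains the site `x`. -/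
def anc (j : ℕ) (x : Fin d → ℕ) : Fin d → ℕ := fun i => x i / 40 ^ j

/-- Bad blocks: a block of level `j + 1` is bad if it has two bad sub-blocks at distance at least `10`. -/
def hbad (b : (Fin d → ℕ) → Prop) : ℕ → (Fin d → ℕ) → Prop
  | 0, z => b z
  | j + 1, Z => ∃ z1 z2, par z1 = Z ∧ par z2 = Z ∧ hbad b j z1 ∧ hbad b j z2 ∧ ∃ i, z1 i + 10 ≤ z2 i

/-- The bounding box of the bad sub-blocks of `Z`. -/
def KK (b : (Fin d → ℕ) → Prop) (j : ℕ) (Z z : Fin d → ℕ) : Prop :=
  (∀ i, ∃ z1, par z1 = Z ∧ hbad b j z1 ∧ z1 i ≤ z i) ∧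
    (∀ i, ∃ z2, par z2 = Z ∧ hbad b j z2 ∧ z i ≤ z2 i)

/-- The core of a block: the sites all of whose blocks are outside the bounding boxes. -/
def hcore (b : (Fin d → ℕ) → Prop) : ℕ → (Fin d → ℕ) → (Fin d → ℕ) → Prop
  | 0, Z, x => x = Z ∧ ¬ b Z
  | j + 1, Z, x => ∃ z, par z = Z ∧ ¬ KK b j Z z ∧ hcore b j z x

/-- Adjacent sites. -/
def adj (z z' : Fin d → ℕ) : Prop :=
  ∃ i, (z' i = z i + 1 ∨ z i = z' i + 1) ∧ ∀ j, j ≠ i → z' j = z j

/-- Row H1. (1) a bad sub-block is in the bounding box; (2) if `Z` is good the bounding box has side less than `10`: from `KK z`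
there is a bad `z2` with `z i ≤ z2 i`, from `KK z'` a bad `z1` with `z1 i ≤ z' i`; if `z' i + 10 ≤ z i` then `z1 i + 10 ≤ z2 i`. (3) a good
block has for every coordinate `i` a value `s` such that no sub-block with `z i = s` is in the bounding box; the same for two good
blocks with the same `i`-th coordinate at once: the values of `z i` in the bounding box of `Z` are in an interval with at most
`10` elements (by (2)), so at most `20 < 40` values are forbidden. (4) a block which is not in the bounding box is good. -/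
lemma KK_of_bad {b : (Fin d → ℕ) → Prop} {j : ℕ} {Z z : Fin d → ℕ} (hz : par z = Z) (h : hbad b j z) :
    KK b j Z z :=
  ⟨fun i => ⟨z, hz, h, le_refl (z i)⟩, fun i => ⟨z, hz, h, le_refl (z i)⟩⟩

lemma KK_small {b : (Fin d → ℕ) → Prop} {j : ℕ} {Z z z' : Fin d → ℕ} (hZ : ¬ hbad b (j + 1) Z)
    (h : KK b j Z z) (h' : KK b j Z z') (i : Fin d) : z i < z' i + 10 := by
  by_contra hlt
  obtain ⟨z2, hp2, hb2, hle2⟩ := h.2 i
  obtain ⟨z1, hp1, hb1, hle1⟩ := h'.1 i
  apply hZ
  change ∃ z1 z2, par z1 = Z ∧ par z2 = Z ∧ hbad b j z1 ∧ hbad b j z2 ∧ ∃ i, z1 i + 10 ≤ z2 i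
  exact ⟨z1, z2, hp1, hp2, hb1, hb2, i, by omega⟩

lemma safe {b : (Fin d → ℕ) → Prop} {j : ℕ} {Z Z' : Fin d → ℕ} (hZ : ¬ hbad b (j + 1) Z)
    (hZ' : ¬ hbad b (j + 1) Z') (i : Fin d) (hi : Z i = Z' i) :
    ∃ s, s / 40 = Z i ∧ (∀ z, z i = s → ¬ KK b j Z z) ∧ (∀ z, z i = s → ¬ KK b j Z' z) := by
  by_contra hcon
  have key : ∀ s, s / 40 = Z i → (∃ z, z i = s ∧ KK b j Z z) ∨ (∃ z, z i = s ∧ KK b j Z' z) := by
    intro s hs
    by_contra hno
    apply hcon
    refine ⟨s, hs, ?_, ?_⟩
    · intro z hz hK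
      exact hno (Or.inl ⟨z, hz, hK⟩)
    · intro z hz hK
      exact hno (Or.inr ⟨z, hz, hK⟩)
  have k1 : ∀ z z' : Fin d → ℕ, KK b j Z z → KK b j Z z' → z i < z' i + 10 :=
    fun z z' h h' => KK_small hZ h h' i
  have k2 : ∀ z z' : Fin d → ℕ, KK b j Z' z → KK b j Z' z' → z i < z' i + 10 :=
    fun z z' h h' => KK_small hZ' h h' i
  have h0 := key (40 * Z i) (by omega)
  have h1 := key (40 * Z i + 10) (by omega)
  have h2 := key (40 * Z i + 20) (by omega)
  rcases h0 with ⟨x0, e0, c0⟩ | ⟨x0, e0, c0⟩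
  · rcases h1 with ⟨x1, e1, c1⟩ | ⟨x1, e1, c1⟩
    · have := k1 x1 x0 c1 c0
      omega
    · rcases h2 with ⟨x2, e2, c2⟩ | ⟨x2, e2, c2⟩
      · have := k1 x2 x0 c2 c0
        omega
      · have := k2 x2 x1 c2 c1
        omega
  · rcases h1 with ⟨x1, e1, c1⟩ | ⟨x1, e1, c1⟩
    · rcases h2 with ⟨x2, e2, c2⟩ | ⟨x2, e2, c2⟩
      · have := k1 x2 x1 c2 c1
        omega
      · have := k2 x2 x0 c2 c0
        omega
    · have := k2 x1 x0 c1 c0
      omega

private lemma H2_symm {b : (Fin d → ℕ) → Prop} {j : ℕ} {Z u v : Fin d → ℕ}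
    (h : Relation.ReflTransGen
      (fun u v => adj u v ∧ par u = Z ∧ par v = Z ∧ ¬ KK b j Z u ∧ ¬ KK b j Z v) u v) :
    Relation.ReflTransGen
      (fun u v => adj u v ∧ par u = Z ∧ par v = Z ∧ ¬ KK b j Z u ∧ ¬ KK b j Z v) v u := by
  induction h with
  | refl => exact Relation.ReflTransGen.refl
  | @tail c e _ hce ih =>
    obtain ⟨⟨i, h1, h2⟩, h3, h4, h5, h6⟩ := hce
    exact Relation.ReflTransGen.head ⟨⟨i, h1.symm, fun k hk => (h2 k hk).symm⟩, h4, h3, h6, h5⟩ ih

private lemma H2_line {b : (Fin d → ℕ) → Prop} {j : ℕ} {Z : Fin d → ℕ} (u : Fin d → ℕ) (k : Fin d)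
    (hu : ∀ t, t / 40 = Z k → par (Function.update u k t) = Z ∧ ¬ KK b j Z (Function.update u k t))
    (a c : ℕ) (ha : a / 40 = Z k) (hc : c / 40 = Z k) (hac : a ≤ c) :
    Relation.ReflTransGen
      (fun u v => adj u v ∧ par u = Z ∧ par v = Z ∧ ¬ KK b j Z u ∧ ¬ KK b j Z v)
      (Function.update u k a) (Function.update u k c) := by
  obtain ⟨m, rfl⟩ := Nat.exists_eq_add_of_le hac
  clear hac
  induction m with
  | zero => exact Relation.ReflTransGen.refl
  | succ m ih =>
    have hm : (a + m) / 40 = Z k := by omega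
    refine (ih hm).tail ⟨⟨k, Or.inl ?_, fun i hi => ?_⟩, (hu _ hm).1, (hu _ hc).1, (hu _ hm).2, (hu _ hc).2⟩
    · rw [Function.update_self, Function.update_self]
      rfl
    · rw [Function.update_of_ne hi, Function.update_of_ne hi]

private lemma H2_line2 {b : (Fin d → ℕ) → Prop} {j : ℕ} {Z : Fin d → ℕ} (u : Fin d → ℕ) (k : Fin d)
    (hu : ∀ t, t / 40 = Z k → par (Function.update u k t) = Z ∧ ¬ KK b j Z (Function.update u k t))
    (a c : ℕ) (ha : a / 40 = Z k) (hc : c / 40 = Z k) :
    Relation.ReflTransGen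
      (fun u v => adj u v ∧ par u = Z ∧ par v = Z ∧ ¬ KK b j Z u ∧ ¬ KK b j Z v)
      (Function.update u k a) (Function.update u k c) := by
  rcases le_total a c with h | h
  · exact H2_line u k hu a c ha hc h
  · exact H2_symm (H2_line u k hu c a hc ha h)

private lemma H2_par {Z : Fin d → ℕ} {u : Fin d → ℕ} (hu : par u = Z) (k : Fin d) {t : ℕ}
    (ht : t / 40 = Z k) : par (Function.update u k t) = Z := by
  funext i
  unfold par
  by_cases hi : i = k
  · subst hi
    rw [Function.update_self]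
    exact ht
  · rw [Function.update_of_ne hi]
    exact congrFun hu i

/-- every sub-block outside the box is joined to the safe one -/
private lemma H2_one (hd : 2 ≤ d) {b : (Fin d → ℕ) → Prop} {j : ℕ} {Z : Fin d → ℕ} (s : Fin d → ℕ)
    (hs1 : ∀ i, s i / 40 = Z i) (hs2 : ∀ i z, z i = s i → ¬ KK b j Z z)
    (z : Fin d → ℕ) (hz : par z = Z) (h : ¬ KK b j Z z) :
    Relation.ReflTransGen
      (fun u v => adj u v ∧ par u = Z ∧ par v = Z ∧ ¬ KK b j Z u ∧ ¬ KK b j Z v) z s := by
  have hex : ∃ i, ∀ u : Fin d → ℕ, u i = z i → ¬ KK b j Z u := by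
    unfold KK at h
    rw [not_and_or] at h
    rcases h with h | h
    · push Not at h
      obtain ⟨i, hi⟩ := h
      refine ⟨i, fun u hu hK => ?_⟩
      obtain ⟨z1, h1, h2, h3⟩ := hK.1 i
      rw [hu] at h3
      exact absurd h3 (not_le.2 (hi z1 h1 h2))
    · push Not at h
      obtain ⟨i, hi⟩ := h
      refine ⟨i, fun u hu hK => ?_⟩
      obtain ⟨z1, h1, h2, h3⟩ := hK.2 i
      rw [hu] at h3
      exact absurd h3 (not_le.2 (hi z1 h1 h2))
  obtain ⟨i, hi⟩ := hex
  have hstep : ∀ F : Finset (Fin d), i ∉ F →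
      par (fun k => if k ∈ F then s k else z k) = Z ∧
      Relation.ReflTransGen
        (fun u v => adj u v ∧ par u = Z ∧ par v = Z ∧ ¬ KK b j Z u ∧ ¬ KK b j Z v) z
        (fun k => if k ∈ F then s k else z k) := by
    intro F
    induction F using Finset.induction_on with
    | empty =>
      intro _
      refine ⟨?_, ?_⟩
      · simpa using hz
      · simp only [Finset.notMem_empty, if_false]
        exact Relation.ReflTransGen.refl
    | insert k F hk ih =>
      intro hiF
      have hik : i ≠ k := fun h => hiF (h ▸ Finset.mem_insert_self _ _)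
      have hiF' : i ∉ F := fun h => hiF (Finset.mem_insert_of_mem h)
      obtain ⟨g1, g2⟩ := ih hiF'
      have e1 : (fun k' => if k' ∈ insert k F then s k' else z k') =
          Function.update (fun k' => if k' ∈ F then s k' else z k') k (s k) := by
        funext k'
        by_cases hk' : k' = k
        · subst hk'
          rw [Function.update_self, if_pos (Finset.mem_insert_self _ _)]
        · rw [Function.update_of_ne hk']
          simp only [Finset.mem_insert, hk', false_or]
      have e2 : (fun k' => if k' ∈ F then s k' else z k') =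
          Function.update (fun k' => if k' ∈ F then s k' else z k') k (z k) := by
        funext k'
        by_cases hk' : k' = k
        · subst hk'
          rw [Function.update_self, if_neg hk]
        · rw [Function.update_of_ne hk']
      have hline := H2_line2 (b := b) (j := j) (Z := Z) (fun k' => if k' ∈ F then s k' else z k') k
        (fun t ht => ⟨H2_par g1 k ht, hi _ (by rw [Function.update_of_ne hik, if_neg hiF'])⟩)
        (z k) (s k) (congrFun hz k) (hs1 k)
      rw [← e2, ← e1] at hline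
      refine ⟨?_, g2.trans hline⟩
      rw [e1]
      exact H2_par g1 k (hs1 k)
  obtain ⟨g1, g2⟩ := hstep (Finset.univ.erase i) (Finset.notMem_erase _ _)
  -- another coordinate
  obtain ⟨k0, hk0⟩ : ∃ k0 : Fin d, k0 ≠ i := by
    by_contra hcon
    push Not at hcon
    have h0 := hcon ⟨0, by omega⟩
    have h1 := hcon ⟨1, by omega⟩
    rw [← h1] at h0
    simp [Fin.ext_iff] at h0
  set w : Fin d → ℕ := fun k => if k ∈ Finset.univ.erase i then s k else z k with hw
  have hwi : w i = z i := by
    rw [hw]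
    simp
  have hwk : ∀ k, k ≠ i → w k = s k := by
    intro k hk
    rw [hw]
    simp [hk]
  have hline := H2_line2 (b := b) (j := j) (Z := Z) w i
    (fun t ht => ⟨H2_par g1 i ht, hs2 k0 _ (by rw [Function.update_of_ne hk0, hwk k0 hk0])⟩)
    (z i) (s i) (congrFun hz i) (hs1 i)
  have e1 : Function.update w i (z i) = w := by
    rw [← hwi, Function.update_eq_self]
  have e2 : Function.update w i (s i) = s := by
    funext k
    by_cases hk : k = i
    · subst hk
      rw [Function.update_self]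
    · rw [Function.update_of_ne hk, hwk k hk]
  rw [e1, e2] at hline
  exact g2.trans hline

/-- Row H2. The sub-blocks of a good block outside the bounding box are connected. Let `s i` be the safe values (`safe` with
`Z' = Z`). Claim: every `z` outside the box is joined to `s`. If `¬ KK z` then for some `i` (1) all bad `z1` have `z i < z1 i`, or
(2) all bad `z2` have `z2 i < z i` (negation of the two parts of `KK`; this property depends only on `z i`). Change the coordinates
`j ≠ i` one after the other to `s j`, in steps of one; `z i` is unchanged, so all these sub-blocks are outside. Then (`d ≥ 2`) some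
coordinate `j ≠ i` has the value `s j`, and `z i` can be changed to `s i` in steps of one. All these have `par = Z` (the values
of a coordinate stay between two values with quotient `Z i`). -/
lemma conn_out (hd : 2 ≤ d) {b : (Fin d → ℕ) → Prop} {j : ℕ} {Z : Fin d → ℕ} (hZ : ¬ hbad b (j + 1) Z)
    (z z' : Fin d → ℕ) (hz : par z = Z) (hz' : par z' = Z) (h : ¬ KK b j Z z) (h' : ¬ KK b j Z z') :
    Relation.ReflTransGen (fun u v => adj u v ∧ par u = Z ∧ par v = Z ∧ ¬ KK b j Z u ∧ ¬ KK b j Z v)
      z z' := by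
  have hsafe : ∀ i, ∃ s, s / 40 = Z i ∧ (∀ z, z i = s → ¬ KK b j Z z) := by
    intro i
    obtain ⟨s, h1, h2, _⟩ := safe hZ hZ i rfl
    exact ⟨s, h1, h2⟩
  choose s hs1 hs2 using hsafe
  exact (H2_one hd s hs1 hs2 z hz h).trans (H2_symm (H2_one hd s hs1 hs2 z' hz' h'))

/-- Row H3. Facing sub-blocks: if `Z'` is the neighbour of `Z` in direction `i` (say `Z' i = Z i + 1`), choose `j ≠ i` (`d ≥ 2`) and the value
`s` of `safe` for the coordinate `j`, `z j = s`, `z i = 40 * Z i + 39`, `z' i = 40 * Z' i`, the other coordinates `40 * Z k`. -/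
lemma facing (hd : 2 ≤ d) {b : (Fin d → ℕ) → Prop} {j : ℕ} {Z Z' : Fin d → ℕ}
    (hZ : ¬ hbad b (j + 1) Z) (hZ' : ¬ hbad b (j + 1) Z') (ha : adj Z Z') :
    ∃ z z', par z = Z ∧ par z' = Z' ∧ ¬ KK b j Z z ∧ ¬ KK b j Z' z' ∧ adj z z' := by
  obtain ⟨i, hi, hoff⟩ := ha
  have : Nontrivial (Fin d) := Fin.nontrivial_iff_two_le.mpr hd
  obtain ⟨k, hk⟩ := exists_ne i
  have hkk : Z k = Z' k := (hoff k hk).symm
  obtain ⟨s, hs, h1, h2⟩ := safe hZ hZ' k hkk
  have key : ∃ a a', a / 40 = Z i ∧ a' / 40 = Z' i ∧ (a' = a + 1 ∨ a = a' + 1) := by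
    rcases hi with h | h
    · exact ⟨40 * Z i + 39, 40 * Z' i, by omega, by omega, by omega⟩
    · exact ⟨40 * Z i, 40 * Z' i + 39, by omega, by omega, by omega⟩
  obtain ⟨a, a', ha, ha', haa⟩ := key
  refine ⟨fun l => if l = k then s else if l = i then a else 40 * Z l,
    fun l => if l = k then s else if l = i then a' else 40 * Z l, ?_, ?_, ?_, ?_, ?_⟩
  · funext l
    by_cases hl : l = k
    · subst hl
      simp [par, hs]
    · by_cases hl' : l = i
      · subst hl'
        simp [par, hl, ha]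
      · simp [par, hl, hl']
  · funext l
    by_cases hl : l = k
    · subst hl
      simp only [par, if_true]
      rw [hs, hkk]
    · by_cases hl' : l = i
      · subst hl'
        simp [par, hl, ha']
      · simp only [par, hl, hl', if_false]
        rw [hoff l hl']
        omega
  · exact h1 _ (by simp)
  · exact h2 _ (by simp)
  · refine ⟨i, ?_, ?_⟩
    · have hik : i ≠ k := fun h => hk h.symm
      simp only [hik, if_false, if_true]
      exact haa
    · intro l hl
      simp only [hl, if_false]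

/-- Row H4. A good block has a nonempty core: induction on `j` with `safe` (any sub-block with `z i = s` is outside the
bounding box, so it is good by `KK_of_bad`; `d ≥ 1`). -/
lemma core_ne (hd : 2 ≤ d) {b : (Fin d → ℕ) → Prop} (j : ℕ) (Z : Fin d → ℕ) (hZ : ¬ hbad b j Z) :
    ∃ x, hcore b j Z x := by
  induction j generalizing Z with
  | zero => exact ⟨Z, rfl, hZ⟩
  | succ j ih =>
    have hi : 0 < d := by omega
    obtain ⟨s, hs1, hs2, -⟩ := safe hZ hZ ⟨0, hi⟩ rfl
    have hz : par (fun k => if k = (⟨0, hi⟩ : Fin d) then s else 40 * Z k) = Z := by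
      funext k
      show (if k = (⟨0, hi⟩ : Fin d) then s else 40 * Z k) / 40 = Z k
      split_ifs with h
      · rw [h]
        exact hs1
      · omega
    have hk : ¬ KK b j Z (fun k => if k = (⟨0, hi⟩ : Fin d) then s else 40 * Z k) :=
      hs2 _ (if_pos rfl)
    obtain ⟨x, hx⟩ := ih _ (fun h => hk (KK_of_bad hz h))
    exact ⟨x, _, hz, hk, hx⟩

/-- Row H5. All sites of the core of a good block, and of two adjacent good blocks, have the same value of `cm`. Induction on
`j` (both statements together). Level `0`: `x = Z`, hypothesis `hcm`. Step: for `x` in the core of the sub-block `z`, `x'` in the core of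
`z'` (same block): follow the path of `conn_out`; consecutive sub-blocks are good (`KK_of_bad`) and adjacent and have nonempty cores
(`core_ne`), so the value is constant. Two adjacent blocks: `facing`. -/
theorem core_const (hd : 2 ≤ d) {κ : Type*} (b : (Fin d → ℕ) → Prop) (cm : (Fin d → ℕ) → κ)
    (hcm : ∀ z z', adj z z' → ¬ b z → ¬ b z' → cm z = cm z') (j : ℕ) :
    (∀ Z, ¬ hbad b j Z → ∀ x x', hcore b j Z x → hcore b j Z x' → cm x = cm x') ∧
    (∀ Z Z', ¬ hbad b j Z → ¬ hbad b j Z' → adj Z Z' →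
      ∀ x x', hcore b j Z x → hcore b j Z' x' → cm x = cm x') := by
  induction j with
  | zero =>
    refine ⟨?_, ?_⟩
    · rintro Z _ x x' ⟨rfl, _⟩ ⟨rfl, _⟩
      rfl
    · rintro Z Z' hZ hZ' ha x x' ⟨rfl, _⟩ ⟨rfl, _⟩
      exact hcm _ _ ha hZ hZ'
  | succ j ih =>
    obtain ⟨ih1, ih2⟩ := ih
    have hA : ∀ Z, ¬ hbad b (j + 1) Z → ∀ x x', hcore b (j + 1) Z x → hcore b (j + 1) Z x' → cm x = cm x' := by
      rintro Z hZ x x' ⟨z, hz, hKz, hx⟩ ⟨z', hz', hKz', hx'⟩
      have hpath := conn_out hd hZ z z' hz hz' hKz hKz'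
      have hgood : ∀ u, par u = Z → ¬ KK b j Z u → ¬ hbad b j u := fun u hu hK hb => hK (KK_of_bad hu hb)
      have key : ∀ v, Relation.ReflTransGen
          (fun u v => adj u v ∧ par u = Z ∧ par v = Z ∧ ¬ KK b j Z u ∧ ¬ KK b j Z v) z v →
          ∀ y, hcore b j v y → cm x = cm y := by
        intro v hv
        induction hv with
        | refl => exact fun y hy => ih1 z (hgood z hz hKz) x y hx hy
        | @tail u v hu huv ihu =>
          intro y hy
          obtain ⟨ha, hpu, hpv, hKu, hKv⟩ := huv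
          obtain ⟨y0, hy0⟩ := core_ne hd j u (hgood u hpu hKu)
          exact (ihu y0 hy0).trans (ih2 u v (hgood u hpu hKu) (hgood v hpv hKv) ha y0 y hy0 hy)
      exact key z' hpath x' hx'
    refine ⟨hA, ?_⟩
    intro Z Z' hZ hZ' ha x x' hx hx'
    obtain ⟨z, z', hz, hz', hK, hK', hadj⟩ := facing hd hZ hZ' ha
    have hg : ¬ hbad b j z := fun hb => hK (KK_of_bad hz hb)
    have hg' : ¬ hbad b j z' := fun hb => hK' (KK_of_bad hz' hb)
    obtain ⟨y, hy⟩ := core_ne hd j z hg
    obtain ⟨y', hy'⟩ := core_ne hd j z' hg'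
    exact (hA Z hZ x y hx ⟨z, hz, hK, hy⟩).trans
      ((ih2 z z' hg hg' hadj y y' hy hy').trans (hA Z' hZ' y' x' ⟨z', hz', hK', hy'⟩ hx'))

lemma H6_anc_succ (j : ℕ) (x : Fin d → ℕ) : par (anc j x) = anc (j + 1) x := by
  funext i
  simp only [par, anc]
  rw [Nat.div_div_eq_div_mul, pow_succ]

lemma H6_aux (hd : 2 ≤ d) (b : (Fin d → ℕ) → Prop) (k : ℕ) (x : Fin d → ℕ)
    (htop : ¬ hbad b k (anc k x))
    (hall : ∀ j < k, ¬ hbad b (j + 1) (anc (j + 1) x) ∧
      ¬ ∃ z1, par z1 = anc (j + 1) x ∧ hbad b j z1 ∧ ∀ i, z1 i < anc j x i + 10 ∧ anc j x i < z1 i + 10) :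
    hcore b k (anc k x) x := by
  induction k with
  | zero =>
    have h0 : anc 0 x = x := by
      funext i
      simp [anc]
    refine ⟨h0.symm, ?_⟩
    exact htop
  | succ k ih =>
    obtain ⟨hk1, hk2⟩ := hall k (Nat.lt_succ_self k)
    refine ⟨anc k x, H6_anc_succ k x, ?_, ?_⟩
    · intro hKK
      apply hk2
      obtain ⟨z1, hz1, hb1, -⟩ := hKK.1 ⟨0, by omega⟩
      have hK1 : KK b k (anc (k + 1) x) z1 := KK_of_bad hz1 hb1
      exact ⟨z1, hz1, hb1, fun i => ⟨KK_small hk1 hK1 hKK i, KK_small hk1 hKK hK1 i⟩⟩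
    · apply ih
      · intro hb
        apply hk2
        exact ⟨anc k x, H6_anc_succ k x, hb, fun i => ⟨by omega, by omega⟩⟩
      · intro j hj
        exact hall j (by omega)

/-- Row H6. A site which is not in the core: if no level `j < k` ancestor is in the bounding box of its block, and the top is not
bad, then `x` is in the core (induction on `k`; `anc (j+1) x = par (anc j x)`: `Nat.div_div_eq_div_mul`). And in a good block of level
`j + 1` a sub-block of the bounding box has a bad sub-block at distance less than `10` in all coordinates (any bad `z1` of the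
block: it exists since `d ≥ 1`, it is in the bounding box, `KK_small` twice). -/
lemma lost (hd : 2 ≤ d) (b : (Fin d → ℕ) → Prop) (k : ℕ) (x : Fin d → ℕ)
    (hx : ¬ hcore b k (anc k x) x) :
    hbad b k (anc k x) ∨ ∃ j < k, hbad b (j + 1) (anc (j + 1) x) ∨
      ∃ z1, par z1 = anc (j + 1) x ∧ hbad b j z1 ∧ ∀ i, z1 i < anc j x i + 10 ∧ anc j x i < z1 i + 10 := by
  by_contra hcon
  push Not at hcon
  apply hx
  apply H6_aux hd b k x hcon.1
  intro j hj
  refine ⟨(hcon.2 j hj).1, ?_⟩
  rintro ⟨z1, h1, h2, h3⟩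
  obtain ⟨i, hi⟩ := (hcon.2 j hj).2 z1 h1 h2
  have h4 := hi (h3 i).1
  have h5 := (h3 i).2
  omega

lemma core_anc {b : (Fin d → ℕ) → Prop} (k : ℕ) (Z x : Fin d → ℕ) (h : hcore b k Z x) :
    anc k x = Z := by
  induction k generalizing Z with
  | zero =>
    have h0 : anc 0 x = x := by
      funext i
      simp [anc]
    rw [h0]
    exact h.1
  | succ k ih =>
    obtain ⟨z, hz, -, hc⟩ := h
    rw [← H6_anc_succ, ih z hc, hz]

end Pool.Agent.PERC29.AE
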