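import Pool.Agent.Lib.MP_29e17e_pr.FixB
import Pool.Agent.Lib.MP_29e17e_pr.V.Ea
import Pool.Agent.Lib.MP_29e17e_pr.V.Hi

set_option autoImplicit false
set_option linter.unusedSectionVars false

/-! Rows 29v-P1 .. 29v-P4: hierarchical renormalisation, probabilities. The bad sites `B z ω η` depend on two configurations
`ω` (law `Ex p`) and `η` (law `Ex s`), only through the coordinates in `D z`. -/

open Finset

namespace Pool.Agent.PERC29.AE

variable {E : Type*} [Fintype E] [DecidableEq E] {d : ℕ}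

open scoped Classical in
/-- The probability of an event of the pair of configurations. -/
noncomputable def P2 (p s : ℝ) (A : (E → Bool) → (E → Bool) → Prop) : ℝ :=
  Ex p (fun ω => Ex s (fun η => if A ω η then (1 : ℝ) else 0))

/-- The union of the sets `D z` over the sites `z` of the block `Z` of level `j`. -/
def DD (D : (Fin d → ℕ) → Set E) (j : ℕ) (Z : Fin d → ℕ) : Set E := {e | ∃ z, anc j z = Z ∧ e ∈ D z}

/-- The sites of the block are in the region `[0, L)^d`. -/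
def inR (L j : ℕ) (Z : Fin d → ℕ) : Prop := ∀ i, (Z i + 1) * 40 ^ j ≤ L

/-- Row P1. (1), (2): `P2` is monotone and subadditive (`Ex_mono`, `Ex_add`). (3) The event that a block is bad depends only on `DD`:
induction on `j` (`anc (j+1) z = par (anc j z)`, so the sites of a sub-block are sites of the block). -/
lemma P2_mono {p s : ℝ} (h0 : 0 ≤ p) (h1 : p ≤ 1) (g0 : 0 ≤ s) (g1 : s ≤ 1)
    {A A' : (E → Bool) → (E → Bool) → Prop} (h : ∀ ω η, A ω η → A' ω η) : P2 p s A ≤ P2 p s A' := by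
  unfold P2
  refine Ex_mono h0 h1 fun ω => Ex_mono g0 g1 fun η => ?_
  by_cases hA : A ω η
  · rw [if_pos hA, if_pos (h ω η hA)]
  · rw [if_neg hA]
    split_ifs <;> norm_num

private lemma P1_sum {ι : Type*} (I : Finset ι) (p s : ℝ) (g : ι → (E → Bool) → (E → Bool) → ℝ) :
    Ex p (fun ω => Ex s (fun η => ∑ i ∈ I, g i ω η)) =
      ∑ i ∈ I, Ex p (fun ω => Ex s (fun η => g i ω η)) := by
  rw [← Ex_sum I p (fun i ω => Ex s (fun η => g i ω η))]
  exact Ex_congr fun ω => Ex_sum I s (fun i η => g i ω η)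

lemma P2_ex {p s : ℝ} (h0 : 0 ≤ p) (h1 : p ≤ 1) (g0 : 0 ≤ s) (g1 : s ≤ 1) {ι : Type*} (I : Finset ι)
    (A : ι → (E → Bool) → (E → Bool) → Prop) :
    P2 p s (fun ω η => ∃ i ∈ I, A i ω η) ≤ ∑ i ∈ I, P2 p s (A i) := by
  unfold P2
  rw [← P1_sum]
  refine Ex_mono h0 h1 fun ω => Ex_mono g0 g1 fun η => ?_
  by_cases hE : ∃ i ∈ I, A i ω η
  · rw [if_pos hE]
    obtain ⟨i, hi, hA⟩ := hE
    refine le_trans ?_ (Finset.single_le_sum (fun i _ => ?_) hi)
    · rw [if_pos hA]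
    · split_ifs <;> norm_num
  · rw [if_neg hE]
    refine Finset.sum_nonneg fun i _ => ?_
    split_ifs <;> norm_num

private lemma P1_anc_succ (j : ℕ) (z : Fin d → ℕ) : anc (j + 1) z = par (anc j z) := by
  funext i
  unfold anc par
  rw [Nat.div_div_eq_div_mul, pow_succ]

private lemma P1_anc_zero (z : Fin d → ℕ) : anc 0 z = z := by
  funext i
  simp [anc]

private lemma P1_DD_zero (D : (Fin d → ℕ) → Set E) (Z : Fin d → ℕ) {e : E} (he : e ∈ D Z) :
    e ∈ DD D 0 Z := ⟨Z, P1_anc_zero Z, he⟩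

private lemma P1_DD_succ (D : (Fin d → ℕ) → Set E) (j : ℕ) (Z z : Fin d → ℕ) (hz : par z = Z) {e : E}
    (he : e ∈ DD D j z) : e ∈ DD D (j + 1) Z := by
  obtain ⟨x, hx, hex⟩ := he
  exact ⟨x, by rw [P1_anc_succ, hx, hz], hex⟩

lemma hbad_dep (B : (Fin d → ℕ) → (E → Bool) → (E → Bool) → Prop) (D : (Fin d → ℕ) → Set E)
    (hB : ∀ z ω ω' η η', (∀ e ∈ D z, ω e = ω' e) → (∀ e ∈ D z, η e = η' e) → (B z ω η ↔ B z ω' η'))
    (j : ℕ) (Z : Fin d → ℕ) (ω ω' η η' : E → Bool) (hω : ∀ e ∈ DD D j Z, ω e = ω' e)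
    (hη : ∀ e ∈ DD D j Z, η e = η' e) :
    hbad (fun z => B z ω η) j Z ↔ hbad (fun z => B z ω' η') j Z := by
  induction j generalizing Z with
  | zero =>
    exact hB Z ω ω' η η' (fun e he => hω e (P1_DD_zero D Z he)) (fun e he => hη e (P1_DD_zero D Z he))
  | succ j ih =>
    have hiff : ∀ z, par z = Z → (hbad (fun z => B z ω η) j z ↔ hbad (fun z => B z ω' η') j z) :=
      fun z hz => ih z (fun e he => hω e (P1_DD_succ D j Z z hz he))
        (fun e he => hη e (P1_DD_succ D j Z z hz he))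
    constructor
    · rintro ⟨z1, z2, h1, h2, hb1, hb2, hi⟩
      exact ⟨z1, z2, h1, h2, (hiff z1 h1).1 hb1, (hiff z2 h2).1 hb2, hi⟩
    · rintro ⟨z1, z2, h1, h2, hb1, hb2, hi⟩
      exact ⟨z1, z2, h1, h2, (hiff z1 h1).2 hb1, (hiff z2 h2).2 hb2, hi⟩

/-- Row P2. Blocks at distance at least `10` (in the coordinate `i`) have disjoint dependency sets: sites `z`, `z'` of the two blocks
satisfy `z i + 8 ≤ z' i` (`z i < 40 ^ j * (Z1 i + 1)`, `z' i ≥ 40 ^ j * Z2 i`). -/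
lemma DD_disj (D : (Fin d → ℕ) → Set E) (L : ℕ)
    (hD : ∀ z z', (∀ i, z i < L) → (∀ i, z' i < L) → (∃ i, z i + 8 ≤ z' i) → Disjoint (D z) (D z'))
    (j : ℕ) (Z1 Z2 : Fin d → ℕ) (h1 : inR L j Z1) (h2 : inR L j Z2) (h : ∃ i, Z1 i + 10 ≤ Z2 i) :
    Disjoint (DD D j Z1) (DD D j Z2) := by
  have hpos : 0 < 40 ^ j := pow_pos (by norm_num) j
  have hup : ∀ (z Z : Fin d → ℕ), anc j z = Z → ∀ i, z i < (Z i + 1) * 40 ^ j := by
    intro z Z hz i
    have h3 : z i / 40 ^ j = Z i := congrFun hz i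
    rw [← h3]
    have h4 := Nat.lt_div_mul_add (a := z i) hpos
    rw [add_mul, one_mul]
    exact h4
  have hlo : ∀ (z Z : Fin d → ℕ), anc j z = Z → ∀ i, Z i * 40 ^ j ≤ z i := by
    intro z Z hz i
    have h3 : z i / 40 ^ j = Z i := congrFun hz i
    rw [← h3]
    exact Nat.div_mul_le_self _ _
  rw [Set.disjoint_left]
  rintro e ⟨z1, hz1, he1⟩ ⟨z2, hz2, he2⟩
  have h5 : Disjoint (D z1) (D z2) := by
    apply hD
    · intro i
      exact lt_of_lt_of_le (hup z1 Z1 hz1 i) (h1 i)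
    · intro i
      exact lt_of_lt_of_le (hup z2 Z2 hz2 i) (h2 i)
    · obtain ⟨i, hi⟩ := h
      refine ⟨i, ?_⟩
      have h6 := hup z1 Z1 hz1 i
      have h7 := hlo z2 Z2 hz2 i
      have h8 : (Z1 i + 10) * 40 ^ j ≤ Z2 i * 40 ^ j := Nat.mul_le_mul_right _ hi
      have h9 : (Z1 i + 10) * 40 ^ j = (Z1 i + 1) * 40 ^ j + 9 * 40 ^ j := by ring
      omega
  exact Set.disjoint_left.1 h5 he1 he2

lemma P3_inR {L j : ℕ} {Z z : Fin d → ℕ} (hZ : inR L (j + 1) Z) (hz : par z = Z) : inR L j z := by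
  intro i
  have h1 := hZ i
  have h2 : z i / 40 = Z i := congrFun hz i
  have h3 : z i + 1 ≤ (Z i + 1) * 40 := by omega
  calc (z i + 1) * 40 ^ j ≤ ((Z i + 1) * 40) * 40 ^ j := Nat.mul_le_mul_right _ h3
    _ = (Z i + 1) * 40 ^ (j + 1) := by ring
    _ ≤ L := h1

lemma P3_mem {Z z : Fin d → ℕ} (hz : par z = Z) :
    z ∈ Fintype.piFinset (fun i => Finset.Ico (40 * Z i) (40 * Z i + 40)) := by
  rw [Fintype.mem_piFinset]
  intro i
  have h2 : z i / 40 = Z i := congrFun hz i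
  rw [Finset.mem_Ico]
  omega

lemma P3_card (Z : Fin d → ℕ) :
    (Fintype.piFinset (fun i => Finset.Ico (40 * Z i) (40 * Z i + 40))).card = 40 ^ d := by
  rw [Fintype.card_piFinset]
  simp

lemma P3_nonneg {p s : ℝ} (h0 : 0 ≤ p) (h1 : p ≤ 1) (g0 : 0 ≤ s) (g1 : s ≤ 1)
    (A : (E → Bool) → (E → Bool) → Prop) : 0 ≤ P2 p s A := by
  unfold P2
  apply Ex_nonneg h0 h1
  intro ω
  apply Ex_nonneg g0 g1
  intro η
  split_ifs <;> norm_num

open scoped Classical in
/-- One pair of sub-blocks at distance at least ten. -/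
lemma P3_pair {p s : ℝ}
    (B : (Fin d → ℕ) → (E → Bool) → (E → Bool) → Prop) (D : (Fin d → ℕ) → Set E) (L : ℕ)
    (hB : ∀ z ω ω' η η', (∀ e ∈ D z, ω e = ω' e) → (∀ e ∈ D z, η e = η' e) → (B z ω η ↔ B z ω' η'))
    (hD : ∀ z z', (∀ i, z i < L) → (∀ i, z' i < L) → (∃ i, z i + 8 ≤ z' i) → Disjoint (D z) (D z'))
    (j : ℕ) (z1 z2 : Fin d → ℕ) (h1 : inR L j z1) (h2 : inR L j z2) (h : ∃ i, z1 i + 10 ≤ z2 i) :
    P2 p s (fun ω η => hbad (fun z => B z ω η) j z1 ∧ hbad (fun z => B z ω η) j z2) =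
      P2 p s (fun ω η => hbad (fun z => B z ω η) j z1) *
        P2 p s (fun ω η => hbad (fun z => B z ω η) j z2) := by
  have hdis := DD_disj D L hD j z1 z2 h1 h2 h
  have key := E2_indep p s (DD D j z1)
    (fun ω η => if hbad (fun z => B z ω η) j z1 then (1 : ℝ) else 0)
    (fun ω η => if hbad (fun z => B z ω η) j z2 then (1 : ℝ) else 0)
    (by
      intro ω ω' η η' hω hη
      have := hbad_dep B D hB j z1 ω ω' η η' hω hη
      simp only [this])
    (by
      intro ω ω' η η' hω hη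
      have := hbad_dep B D hB j z2 ω ω' η η'
        (fun e he => hω e (Set.disjoint_right.mp hdis he))
        (fun e he => hη e (Set.disjoint_right.mp hdis he))
      simp only [this])
  unfold P2
  rw [← key]
  refine Ex_congr fun ω => Ex_congr fun η => ?_
  by_cases ha : hbad (fun z => B z ω η) j z1 <;> by_cases hb : hbad (fun z => B z ω η) j z2 <;>
    simp [ha, hb]

/-- Row P3. The recursion: `ρ 0 = ρ0`, and if all blocks of level `j` in the region are bad with probability at most `ρ`, the blocks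
of level `j + 1` are bad with probability at most `40 ^ (2 d) ρ²`: union bound over the `40^d * 40^d` pairs of sub-blocks
(`P2_ex` over a finite set containing all `(z1, z2)` with `par z1 = par z2 = Z`, for example
`Fintype.piFinset (fun i => Finset.Ico (40 * Z i) (40 * Z i + 40))`), for each pair `E2_indep` with the set `DD D j z1` (`hbad_dep`,
`DD_disj`). So by induction `P(bad level j) ≤ ρ0 / 2^j` if `2 * 40 ^ (2 d) * ρ0 ≤ 1`. -/
lemma bad_prob {p s ρ0 : ℝ} (h0 : 0 ≤ p) (h1 : p ≤ 1) (g0 : 0 ≤ s) (g1 : s ≤ 1)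
    (B : (Fin d → ℕ) → (E → Bool) → (E → Bool) → Prop) (D : (Fin d → ℕ) → Set E) (L : ℕ)
    (hB : ∀ z ω ω' η η', (∀ e ∈ D z, ω e = ω' e) → (∀ e ∈ D z, η e = η' e) → (B z ω η ↔ B z ω' η'))
    (hD : ∀ z z', (∀ i, z i < L) → (∀ i, z' i < L) → (∃ i, z i + 8 ≤ z' i) → Disjoint (D z) (D z'))
    (hP : ∀ z, (∀ i, z i < L) → P2 p s (B z) ≤ ρ0) (hρ0 : 0 ≤ ρ0)
    (hρ : 2 * (40 : ℝ) ^ (2 * d) * ρ0 ≤ 1) (j : ℕ) (Z : Fin d → ℕ) (hZ : inR L j Z) :
    P2 p s (fun ω η => hbad (fun z => B z ω η) j Z) ≤ ρ0 / 2 ^ j := by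
  induction j generalizing Z with
  | zero =>
    have hz : ∀ i, Z i < L := by
      intro i
      have := hZ i
      simp only [pow_zero, mul_one] at this
      omega
    have := hP Z hz
    simp only [pow_zero, div_one]
    exact this
  | succ j ih =>
    classical
    set I : Finset (Fin d → ℕ) := Fintype.piFinset (fun i => Finset.Ico (40 * Z i) (40 * Z i + 40))
      with hI
    set A : (Fin d → ℕ) × (Fin d → ℕ) → (E → Bool) → (E → Bool) → Prop := fun q ω η =>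
      par q.1 = Z ∧ par q.2 = Z ∧ hbad (fun z => B z ω η) j q.1 ∧ hbad (fun z => B z ω η) j q.2 ∧
        ∃ i, q.1 i + 10 ≤ q.2 i with hA
    have hpos : 0 ≤ ρ0 / 2 ^ j := by positivity
    have hstep : ∀ q ∈ I ×ˢ I, P2 p s (A q) ≤ (ρ0 / 2 ^ j) * (ρ0 / 2 ^ j) := by
      intro q _
      by_cases hq : par q.1 = Z ∧ par q.2 = Z ∧ ∃ i, q.1 i + 10 ≤ q.2 i
      · obtain ⟨hq1, hq2, hq3⟩ := hq
        have r1 := P3_inR hZ hq1
        have r2 := P3_inR hZ hq2
        calc P2 p s (A q)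
            ≤ P2 p s (fun ω η => hbad (fun z => B z ω η) j q.1 ∧
                hbad (fun z => B z ω η) j q.2) := by
              apply P2_mono h0 h1 g0 g1
              intro ω η h
              exact ⟨h.2.2.1, h.2.2.2.1⟩
          _ = P2 p s (fun ω η => hbad (fun z => B z ω η) j q.1) *
              P2 p s (fun ω η => hbad (fun z => B z ω η) j q.2) :=
              P3_pair B D L hB hD j q.1 q.2 r1 r2 hq3
          _ ≤ (ρ0 / 2 ^ j) * (ρ0 / 2 ^ j) :=
              mul_le_mul (ih q.1 r1) (ih q.2 r2) (P3_nonneg h0 h1 g0 g1 _) hpos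
      · have hz : P2 p s (A q) ≤ P2 p s (fun (_ _ : E → Bool) => False) := by
          apply P2_mono h0 h1 g0 g1
          intro ω η h
          exact hq ⟨h.1, h.2.1, h.2.2.2.2⟩
        have hz2 : P2 p s (fun (_ _ : E → Bool) => False) = 0 := by
          unfold P2
          simp [Ex_const]
        rw [hz2] at hz
        exact hz.trans (mul_nonneg hpos hpos)
    have hsum : P2 p s (fun ω η => hbad (fun z => B z ω η) (j + 1) Z) ≤
        ∑ q ∈ I ×ˢ I, P2 p s (A q) := by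
      refine le_trans ?_ (P2_ex h0 h1 g0 g1 (I ×ˢ I) A)
      apply P2_mono h0 h1 g0 g1
      intro ω η h
      obtain ⟨z1, z2, a1, a2, a3, a4, a5⟩ := h
      exact ⟨(z1, z2), Finset.mem_product.mpr ⟨P3_mem a1, P3_mem a2⟩, a1, a2, a3, a4, a5⟩
    have hcard : ((I ×ˢ I).card : ℝ) = (40 : ℝ) ^ (2 * d) := by
      rw [Finset.card_product, hI, P3_card]
      push_cast
      ring
    have hb : ∑ q ∈ I ×ˢ I, P2 p s (A q) ≤ (40 : ℝ) ^ (2 * d) * ((ρ0 / 2 ^ j) * (ρ0 / 2 ^ j)) := by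
      refine (Finset.sum_le_card_nsmul _ _ _ hstep).trans ?_
      rw [nsmul_eq_mul, hcard]
    refine hsum.trans (hb.trans ?_)
    have e1 : (40 : ℝ) ^ (2 * d) * ((ρ0 / 2 ^ j) * (ρ0 / 2 ^ j)) =
        (2 * (40 : ℝ) ^ (2 * d) * ρ0) * (ρ0 / 2 ^ (j + 1)) * (1 / 2 ^ j) := by
      rw [pow_succ (2 : ℝ) j]
      field_simp
    rw [e1]
    have hp1 : 0 ≤ ρ0 / 2 ^ (j + 1) := by positivity
    have hone : (1 : ℝ) / 2 ^ j ≤ 1 := by
      rw [div_le_one (by positivity)]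
      exact one_le_pow₀ (by norm_num)
    have hone' : (0 : ℝ) ≤ 1 / 2 ^ j := by positivity
    calc (2 * (40 : ℝ) ^ (2 * d) * ρ0) * (ρ0 / 2 ^ (j + 1)) * (1 / 2 ^ j)
        ≤ (1 * (ρ0 / 2 ^ (j + 1))) * 1 := by
          apply mul_le_mul (mul_le_mul_of_nonneg_right hρ hp1) hone hone'
          positivity
      _ = ρ0 / 2 ^ (j + 1) := by ring

private lemma P4_or {p s : ℝ} (h0 : 0 ≤ p) (h1 : p ≤ 1) (g0 : 0 ≤ s) (g1 : s ≤ 1)
    (A A' : (E → Bool) → (E → Bool) → Prop) :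
    P2 p s (fun ω η => A ω η ∨ A' ω η) ≤ P2 p s A + P2 p s A' := by
  have h := P2_ex h0 h1 g0 g1 (Finset.univ : Finset Bool) (fun b => if b = true then A else A')
  rw [Fintype.sum_bool] at h
  simp only [if_true, Bool.false_eq_true, if_false] at h
  refine le_trans (P2_mono h0 h1 g0 g1 ?_) h
  intro ω η hh
  rcases hh with hh | hh
  · exact ⟨true, Finset.mem_univ _, by simpa using hh⟩
  · exact ⟨false, Finset.mem_univ _, by simpa using hh⟩

private lemma P4_inR (k j : ℕ) (hj : j ≤ k) (x : Fin d → ℕ) (hx : ∀ i, x i < 40 ^ k) :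
    inR (40 ^ k) j (anc j x) := by
  intro i
  have h1 : (40 : ℕ) ^ k = 40 ^ (k - j) * 40 ^ j := by rw [← pow_add, Nat.sub_add_cancel hj]
  rw [h1]
  apply Nat.mul_le_mul_right
  have h2 : x i / 40 ^ j < 40 ^ (k - j) := by
    rw [Nat.div_lt_iff_lt_mul (by positivity), ← h1]
    exact hx i
  exact h2

private lemma P4_inR' (k j : ℕ) (hj : j < k) (x z1 : Fin d → ℕ) (hx : ∀ i, x i < 40 ^ k)
    (hz : par z1 = anc (j + 1) x) : inR (40 ^ k) j z1 := by
  intro i
  have h1 := P4_inR k (j + 1) hj x hx i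
  have h2 : z1 i / 40 = anc (j + 1) x i := congrFun hz i
  rw [← h2] at h1
  have h3 : z1 i + 1 ≤ (z1 i / 40 + 1) * 40 := by omega
  calc (z1 i + 1) * 40 ^ j ≤ ((z1 i / 40 + 1) * 40) * 40 ^ j := Nat.mul_le_mul_right _ h3
    _ = (z1 i / 40 + 1) * 40 ^ (j + 1) := by rw [pow_succ]; ring
    _ ≤ 40 ^ k := h1

private lemma P4_sum (c ρ : ℝ) (m : ℕ) :
    ∑ j ∈ Finset.range m, (ρ / 2 ^ (j + 1) + c * (ρ / 2 ^ j)) = (1 + 2 * c) * ρ * (1 - 1 / 2 ^ m) := by
  induction m with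
  | zero => simp
  | succ m ih =>
    rw [Finset.sum_range_succ, ih, pow_succ]
    have : (2 : ℝ) ^ m ≠ 0 := by positivity
    field_simp
    ring

open scoped Classical in
/-- The sub-blocks near `anc j x`. -/
private noncomputable def P4_N (j : ℕ) (x : Fin d → ℕ) : Finset (Fin d → ℕ) :=
  (Fintype.piFinset (fun i => Finset.Ico (anc j x i - 9) (anc j x i + 10))).filter
    (fun z => par z = anc (j + 1) x)

private lemma P4_card (j : ℕ) (x : Fin d → ℕ) : ((P4_N j x).card : ℝ) ≤ 20 ^ d := by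
  classical
  have h1 : (P4_N j x).card ≤ 20 ^ d := by
    unfold P4_N
    refine le_trans (Finset.card_filter_le _ _) ?_
    rw [Fintype.card_piFinset]
    refine le_trans (Finset.prod_le_prod' (g := fun _ => 20) ?_) ?_
    · intro i _
      rw [Nat.card_Ico]
      omega
    · simp
  exact_mod_cast h1

/-- Row P4. The sites lost. By `lost` (with `anc k x = 0`) and `P2_ex`: `P(x not in the core) ≤ ρ0/2^k + ∑ j < k, (ρ0/2^(j+1) + 20^d ρ0/2^j)
≤ 4 * 20^d ρ0` (there are at most `20^d` blocks `z1` with `|z1 i - anc j x i| < 10`; they are in the region since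
`par z1 = anc (j+1) x`). -/
lemma lost_prob (hd : 2 ≤ d) {p s ρ0 : ℝ} (h0 : 0 ≤ p) (h1 : p ≤ 1) (g0 : 0 ≤ s) (g1 : s ≤ 1)
    (B : (Fin d → ℕ) → (E → Bool) → (E → Bool) → Prop) (D : (Fin d → ℕ) → Set E) (k : ℕ)
    (hB : ∀ z ω ω' η η', (∀ e ∈ D z, ω e = ω' e) → (∀ e ∈ D z, η e = η' e) → (B z ω η ↔ B z ω' η'))
    (hD : ∀ z z', (∀ i, z i < 40 ^ k) → (∀ i, z' i < 40 ^ k) → (∃ i, z i + 8 ≤ z' i) →
      Disjoint (D z) (D z'))
    (hP : ∀ z, (∀ i, z i < 40 ^ k) → P2 p s (B z) ≤ ρ0) (hρ0 : 0 ≤ ρ0)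
    (hρ : 2 * (40 : ℝ) ^ (2 * d) * ρ0 ≤ 1) (x : Fin d → ℕ) (hx : ∀ i, x i < 40 ^ k) :
    P2 p s (fun ω η => ¬ hcore (fun z => B z ω η) k (fun _ => 0) x) ≤ 4 * 20 ^ d * ρ0 := by
  classical
  have hk0 : anc k x = fun _ => 0 := by
    funext i
    exact Nat.div_eq_of_lt (hx i)
  have hbp : ∀ (j : ℕ) (Z : Fin d → ℕ), inR (40 ^ k) j Z →
      P2 p s (fun ω η => hbad (fun z => B z ω η) j Z) ≤ ρ0 / 2 ^ j := fun j Z hZ =>
    bad_prob h0 h1 g0 g1 B D (40 ^ k) hB hD hP hρ0 hρ j Z hZ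
  have hstep : ∀ j ∈ Finset.range k,
      P2 p s (fun ω η => hbad (fun z => B z ω η) (j + 1) (anc (j + 1) x) ∨
        ∃ z1 ∈ P4_N j x, hbad (fun z => B z ω η) j z1) ≤
        ρ0 / 2 ^ (j + 1) + 20 ^ d * (ρ0 / 2 ^ j) := by
    intro j hj
    rw [Finset.mem_range] at hj
    refine le_trans (P4_or h0 h1 g0 g1 _ _) ?_
    refine add_le_add (hbp (j + 1) _ (P4_inR k (j + 1) hj x hx)) ?_
    refine le_trans (P2_ex h0 h1 g0 g1 (P4_N j x)
      (fun z1 ω η => hbad (fun z => B z ω η) j z1)) ?_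
    refine le_trans (Finset.sum_le_card_nsmul _ _ (ρ0 / 2 ^ j) ?_) ?_
    · intro z1 hz1
      unfold P4_N at hz1
      rw [Finset.mem_filter] at hz1
      exact hbp j z1 (P4_inR' k j hj x z1 hx hz1.2)
    · rw [nsmul_eq_mul]
      exact mul_le_mul_of_nonneg_right (P4_card j x) (by positivity)
  have hmain : P2 p s (fun ω η => ¬ hcore (fun z => B z ω η) k (fun _ => 0) x) ≤
      P2 p s (fun ω η => hbad (fun z => B z ω η) k (anc k x) ∨
        ∃ j ∈ Finset.range k, (hbad (fun z => B z ω η) (j + 1) (anc (j + 1) x) ∨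
          ∃ z1 ∈ P4_N j x, hbad (fun z => B z ω η) j z1)) := by
    refine P2_mono h0 h1 g0 g1 ?_
    intro ω η h
    rw [← hk0] at h
    rcases lost hd (fun z => B z ω η) k x h with h2 | ⟨j, hj, h2⟩
    · exact Or.inl h2
    · refine Or.inr ⟨j, Finset.mem_range.mpr hj, ?_⟩
      rcases h2 with h2 | ⟨z1, hz1, hb, hn⟩
      · exact Or.inl h2
      · refine Or.inr ⟨z1, ?_, hb⟩
        unfold P4_N
        rw [Finset.mem_filter, Fintype.mem_piFinset]
        refine ⟨fun i => ?_, hz1⟩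
        rw [Finset.mem_Ico]
        have := hn i
        omega
  refine le_trans hmain ?_
  refine le_trans (P4_or h0 h1 g0 g1 _ _) ?_
  have hA := hbp k _ (P4_inR k k le_rfl x hx)
  have hB2 := P2_ex h0 h1 g0 g1 (Finset.range k)
    (fun j ω η => hbad (fun z => B z ω η) (j + 1) (anc (j + 1) x) ∨
          ∃ z1 ∈ P4_N j x, hbad (fun z => B z ω η) j z1)
  have hC := Finset.sum_le_sum hstep
  rw [P4_sum] at hC
  have hc1 : (1 : ℝ) ≤ 20 ^ d := one_le_pow₀ (by norm_num)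
  have hq : (0 : ℝ) < 1 / 2 ^ k := by positivity
  have hq1 : (1 : ℝ) / 2 ^ k ≤ 1 := by
    rw [div_le_one (by positivity)]
    exact one_le_pow₀ (by norm_num)
  have hfin : ρ0 / 2 ^ k + (1 + 2 * 20 ^ d) * ρ0 * (1 - 1 / 2 ^ k) ≤ 4 * 20 ^ d * ρ0 := by
    have e1 : ρ0 / 2 ^ k + (1 + 2 * 20 ^ d) * ρ0 * (1 - 1 / 2 ^ k) =
        ρ0 + 2 * 20 ^ d * ρ0 * (1 - 1 / 2 ^ k) := by ring
    rw [e1]
    have e2 : 2 * 20 ^ d * ρ0 * (1 - 1 / 2 ^ k) ≤ 2 * 20 ^ d * ρ0 * 1 := by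
      apply mul_le_mul_of_nonneg_left (by linarith) (by positivity)
    have e3 : ρ0 ≤ 20 ^ d * ρ0 := by nlinarith
    nlinarith
  linarith

private lemma P5_good {b : (Fin d → ℕ) → Prop} (j : ℕ) : ∀ (Z x : Fin d → ℕ), hcore b j Z x → ¬ b x := by
  induction j with
  | zero =>
    intro Z x h
    obtain ⟨h1, h2⟩ := h
    rw [h1]
    exact h2
  | succ j ih =>
    intro Z x h
    obtain ⟨z, _, _, h3⟩ := h
    exact ih z x h3

open scoped Classical in
/-- Row P5. Markov's inequality for the number of lost sites (`lost_prob`, `Ex_mkv` or directly), the event that the top block is bad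
(`bad_prob`), and `core_const`: with probability at least `1 - (8 * 20^d + 1) ρ0` there are at least `40 ^ (k d) / 2` sites in the core of the
top block, and all of them have the same value of `cm`. (If the number of lost sites is at most half, the core has at least half
of the `(40^k)^d` sites `Fintype.piFinset (fun _ => Finset.range (40 ^ k))`.) -/
theorem hier (hd : 2 ≤ d) {κ : Type*} {p s ρ0 : ℝ} (h0 : 0 ≤ p) (h1 : p ≤ 1) (g0 : 0 ≤ s) (g1 : s ≤ 1)
    (B : (Fin d → ℕ) → (E → Bool) → (E → Bool) → Prop) (D : (Fin d → ℕ) → Set E) (k : ℕ)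
    (hB : ∀ z ω ω' η η', (∀ e ∈ D z, ω e = ω' e) → (∀ e ∈ D z, η e = η' e) → (B z ω η ↔ B z ω' η'))
    (hD : ∀ z z', (∀ i, z i < 40 ^ k) → (∀ i, z' i < 40 ^ k) → (∃ i, z i + 8 ≤ z' i) →
      Disjoint (D z) (D z'))
    (hP : ∀ z, (∀ i, z i < 40 ^ k) → P2 p s (B z) ≤ ρ0) (hρ0 : 0 ≤ ρ0)
    (hρ : 2 * (40 : ℝ) ^ (2 * d) * ρ0 ≤ 1)
    (hout : ∀ z ω η, (∃ i, 40 ^ k ≤ z i) → B z ω η)
    (cm : (E → Bool) → (E → Bool) → (Fin d → ℕ) → κ)
    (hcm : ∀ ω η z z', adj z z' → ¬ B z ω η → ¬ B z' ω η → cm ω η z = cm ω η z') :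
    1 - (8 * 20 ^ d + 1) * ρ0 ≤ P2 p s (fun ω η =>
      ∃ K : Finset (Fin d → ℕ), (∀ z ∈ K, (∀ i, z i < 40 ^ k) ∧ ¬ B z ω η) ∧
        (40 : ℝ) ^ (k * d) / 2 ≤ (K.card : ℝ) ∧ ∀ z ∈ K, ∀ z' ∈ K, cm ω η z = cm ω η z') := by
  set A : (E → Bool) → (E → Bool) → Prop := fun ω η =>
      ∃ K : Finset (Fin d → ℕ), (∀ z ∈ K, (∀ i, z i < 40 ^ k) ∧ ¬ B z ω η) ∧
        (40 : ℝ) ^ (k * d) / 2 ≤ (K.card : ℝ) ∧ ∀ z ∈ K, ∀ z' ∈ K, cm ω η z = cm ω η z' with hA
  set T : Finset (Fin d → ℕ) := Fintype.piFinset (fun _ => Finset.range (40 ^ k)) with hT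
  have hTc : (T.card : ℝ) = (40 : ℝ) ^ (k * d) := by
    rw [hT, Fintype.card_piFinset]
    simp [pow_mul]
  have hTm : ∀ x, x ∈ T ↔ ∀ i, x i < 40 ^ k := by
    intro x
    rw [hT, Fintype.mem_piFinset]
    simp
  have hN : (0 : ℝ) < (40 : ℝ) ^ (k * d) := by positivity
  have hpt : ∀ ω η, (1 : ℝ) ≤ (if A ω η then (1 : ℝ) else 0) +
      ((if hbad (fun z => B z ω η) k (fun _ => 0) then (1 : ℝ) else 0) +
        2 / (40 : ℝ) ^ (k * d) * ∑ x ∈ T,
          (if ¬ hcore (fun z => B z ω η) k (fun _ => 0) x then (1 : ℝ) else 0)) := by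
    intro ω η
    have hs0 : 0 ≤ ∑ x ∈ T,
        (if ¬ hcore (fun z => B z ω η) k (fun _ => 0) x then (1 : ℝ) else 0) :=
      Finset.sum_nonneg fun x _ => by split_ifs <;> norm_num
    have hs1 : 0 ≤ 2 / (40 : ℝ) ^ (k * d) * ∑ x ∈ T,
        (if ¬ hcore (fun z => B z ω η) k (fun _ => 0) x then (1 : ℝ) else 0) :=
      mul_nonneg (by positivity) hs0
    have ha0 : (0 : ℝ) ≤ (if A ω η then (1 : ℝ) else 0) := by split_ifs <;> norm_num
    by_cases hb : hbad (fun z => B z ω η) k (fun _ => 0)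
    · rw [if_pos hb]
      linarith
    · rw [if_neg hb]
      by_cases hl : (∑ x ∈ T,
          (if ¬ hcore (fun z => B z ω η) k (fun _ => 0) x then (1 : ℝ) else 0)) ≤
          (40 : ℝ) ^ (k * d) / 2
      · have hAt : A ω η := by
          refine ⟨T.filter (fun x => hcore (fun z => B z ω η) k (fun _ => 0) x), ?_, ?_, ?_⟩
          · intro z hz
            rw [Finset.mem_filter] at hz
            exact ⟨(hTm z).1 hz.1, P5_good k _ z hz.2⟩
          · have h3 : (((T.filter (fun x => hcore (fun z => B z ω η) k (fun _ => 0) x)).card : ℕ) : ℝ) +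
                (((T.filter (fun x => ¬ hcore (fun z => B z ω η) k (fun _ => 0) x)).card : ℕ) : ℝ) =
                (40 : ℝ) ^ (k * d) := by
              rw [← hTc]
              exact_mod_cast Finset.card_filter_add_card_filter_not
                (s := T) (fun x => hcore (fun z => B z ω η) k (fun _ => 0) x)
            have h4 : (∑ x ∈ T,
                (if ¬ hcore (fun z => B z ω η) k (fun _ => 0) x then (1 : ℝ) else 0)) =
                (((T.filter (fun x => ¬ hcore (fun z => B z ω η) k (fun _ => 0) x)).card : ℕ) : ℝ) := by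
              rw [Finset.sum_boole]
            rw [h4] at hl
            linarith
          · intro z hz z' hz'
            rw [Finset.mem_filter] at hz hz'
            exact (core_const hd (fun z => B z ω η) (cm ω η) (hcm ω η) k).1 _ hb z z' hz.2 hz'.2
        rw [if_pos hAt]
        linarith
      · have h5 : (40 : ℝ) ^ (k * d) / 2 < ∑ x ∈ T,
            (if ¬ hcore (fun z => B z ω η) k (fun _ => 0) x then (1 : ℝ) else 0) := not_le.1 hl
        have h6 : 1 ≤ 2 / (40 : ℝ) ^ (k * d) * ∑ x ∈ T,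
            (if ¬ hcore (fun z => B z ω η) k (fun _ => 0) x then (1 : ℝ) else 0) := by
          calc (1 : ℝ) = 2 / (40 : ℝ) ^ (k * d) * ((40 : ℝ) ^ (k * d) / 2) := by
                field_simp
            _ ≤ _ := mul_le_mul_of_nonneg_left h5.le (by positivity)
        linarith
  have h7 : (1 : ℝ) ≤ P2 p s A + (P2 p s (fun ω η => hbad (fun z => B z ω η) k (fun _ => 0)) +
      2 / (40 : ℝ) ^ (k * d) * ∑ x ∈ T,
        P2 p s (fun ω η => ¬ hcore (fun z => B z ω η) k (fun _ => 0) x)) := by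
    have h8 : Ex p (fun _ : E → Bool => Ex s (fun _ : E → Bool => (1 : ℝ))) = 1 := by
      rw [Ex_const, Ex_const]
    rw [← h8]
    refine (Ex_mono h0 h1 fun ω => Ex_mono g0 g1 fun η => hpt ω η).trans (le_of_eq ?_)
    have h9 : ∀ ω : E → Bool, Ex s (fun η => (if A ω η then (1 : ℝ) else 0) +
        ((if hbad (fun z => B z ω η) k (fun _ => 0) then (1 : ℝ) else 0) +
          2 / (40 : ℝ) ^ (k * d) * ∑ x ∈ T,
            (if ¬ hcore (fun z => B z ω η) k (fun _ => 0) x then (1 : ℝ) else 0))) =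
        Ex s (fun η => if A ω η then (1 : ℝ) else 0) +
          (Ex s (fun η => if hbad (fun z => B z ω η) k (fun _ => 0) then (1 : ℝ) else 0) +
          2 / (40 : ℝ) ^ (k * d) * ∑ x ∈ T,
            Ex s (fun η => if ¬ hcore (fun z => B z ω η) k (fun _ => 0) x then (1 : ℝ) else 0)) := by
      intro ω
      rw [Ex_add, Ex_add, Ex_mul_left, Ex_sum]
    rw [Ex_congr h9, Ex_add, Ex_add, Ex_mul_left, Ex_sum]
    unfold P2
    congr!
  have h10 : P2 p s (fun ω η => hbad (fun z => B z ω η) k (fun _ => 0)) ≤ ρ0 := by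
    refine (bad_prob h0 h1 g0 g1 B D (40 ^ k) hB hD hP hρ0 hρ k (fun _ => 0) ?_).trans ?_
    · intro i
      simp
    · exact div_le_self hρ0 (one_le_pow₀ (by norm_num))
  have h11 : 2 / (40 : ℝ) ^ (k * d) * ∑ x ∈ T,
      P2 p s (fun ω η => ¬ hcore (fun z => B z ω η) k (fun _ => 0) x) ≤ 8 * 20 ^ d * ρ0 := by
    have h12 : ∑ x ∈ T, P2 p s (fun ω η => ¬ hcore (fun z => B z ω η) k (fun _ => 0) x) ≤
        (40 : ℝ) ^ (k * d) * (4 * 20 ^ d * ρ0) := by
      rw [← hTc, ← nsmul_eq_mul]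
      refine Finset.sum_le_card_nsmul _ _ _ fun x hx => ?_
      exact lost_prob hd h0 h1 g0 g1 B D k hB hD hP hρ0 hρ x ((hTm x).1 hx)
    calc _ ≤ 2 / (40 : ℝ) ^ (k * d) * ((40 : ℝ) ^ (k * d) * (4 * 20 ^ d * ρ0)) :=
          mul_le_mul_of_nonneg_left h12 (by positivity)
      _ = 8 * 20 ^ d * ρ0 := by
          field_simp
          ring
  linarith

end Pool.Agent.PERC29.AE
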