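import Pool.Agent.Lib.MP_29e17e_pr.V.Bh

set_option autoImplicit false
set_option linter.unusedSectionVars false

/-! The box of side `8 m` is good with high probability. -/

open Finset

namespace Pool.Agent.PERC29.AE

open scoped Classical in
/-- The three hypotheses in the box of side `l`. -/
def Hyp (d : ℕ) (C c0 p : ℝ) (l : ℕ) [Fintype (boxG d l).edgeSet] : Prop :=
  (∀ x y, ta (gends (boxG d l)) p x y ≤ C * fk (d - 2) x y) ∧
  (∀ x, ∀ k : ℕ, 1 ≤ k → Ex p (fun ω => if (k : ℝ) ≤ cz (gends (boxG d l)) ω x then (1 : ℝ) else 0) ≤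
    C / Real.sqrt k) ∧
  (∀ x y, bul x → bul y → c0 / (l : ℝ) ^ (d - 2) ≤ ta (gends (boxG d l)) p x y)

open scoped Classical in
lemma lam_box {d m : ℕ} [Fintype (boxG d m).edgeSet] [Fintype (boxG d (8 * m)).edgeSet] (p A2 t : ℝ)
    (c : Fin d → Bool) :
    Ex p (fun ω => if ((Lam (gends (boxG d (8 * m))) ω (bT d m c) A2).card : ℝ) < t then (1 : ℝ) else 0) =
      Ex p (fun ω => if ((Finset.univ.filter (fun x => A2 ≤ cz (gends (boxG d m)) ω x)).card : ℝ) < t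
        then (1 : ℝ) else 0) := by
  obtain ⟨φ, hφ⟩ := box_box (d := d) (l := m) (n := 8 * m)
    (fun i => m * (if c i = true then 4 else 3)) (by intro i; split_ifs <;> omega)
  have hb := bT_map d m c φ hφ
  rw [← Ex_pul φ p (fun ω => if ((Finset.univ.filter (fun x => A2 ≤ cz (gends (boxG d m)) ω x)).card : ℝ) < t
        then (1 : ℝ) else 0)]
  apply Ex_congr
  intro ω
  have h1 : (Lam (gends (boxG d (8 * m))) ω (bT d m c) A2).card =
      (Finset.univ.filter (fun x => A2 ≤ cz (gends (boxG d m)) (pul φ ω) x)).card := by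
    rw [hb, lam_emb, Finset.card_map]
    unfold Lam cz cu
    simp
  rw [h1]

lemma good_of {V : Type*} [Fintype V] [DecidableEq V] {E : Type*} [Fintype E] [DecidableEq E]
    {ends : E → Sym2 V} {ι : Type} [Nonempty ι] (ω η : E → Bool) (T : ι → Finset V) (A2 b : ℝ)
    (W : Finset V) (hT : ∀ c, T c ⊆ W) (hb : 0 < b)
    (h1 : ∀ c, 4 * b ≤ ((Lam ends ω (T c) A2).card : ℝ))
    (h2 : ¬ (3 * b ≤ vol ends ω W A2 Finset.univ ∧
      ¬ ∃ y, (((open scoped Classical in W.filter (fun x => A2 ≤ cz ends ω x ∧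
        x ∉ cu ends (orc ω η) y))).card : ℝ) < b)) :
    GoodB ends ω η Set.univ T A2 b := by
  classical
  have hsub : ∀ c, ∀ x ∈ Lam ends ω (T c) A2, x ∈ W ∧ A2 ≤ cz ends ω x := by
    intro c x hx
    unfold Lam at hx
    rw [Finset.mem_filter] at hx
    refine ⟨hT c hx.1, hx.2.trans ?_⟩
    unfold cz cu
    exact_mod_cast Finset.card_le_card (cl_mono (fun _ h => h) (Set.subset_univ _))
  have hvol : 3 * b ≤ vol ends ω W A2 Finset.univ := by
    obtain ⟨c⟩ := (inferInstance : Nonempty ι)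
    have h3 : ((Lam ends ω (T c) A2).card : ℝ) ≤ vol ends ω W A2 Finset.univ := by
      unfold vol
      exact_mod_cast Finset.card_le_card (fun x hx => by
        rw [Finset.mem_filter]
        exact ⟨(hsub c x hx).1, Finset.mem_univ _, (hsub c x hx).2⟩)
    have := h1 c
    linarith
  have h3 : ∃ y, (((W.filter (fun x => A2 ≤ cz ends ω x ∧ x ∉ cu ends (orc ω η) y))).card : ℝ) < b := by
    by_contra h
    exact h2 ⟨hvol, h⟩
  obtain ⟨y, hy⟩ := h3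
  refine ⟨y, Set.mem_univ _, fun c => ⟨h1 c, le_trans ?_ hy.le⟩⟩
  exact_mod_cast Finset.card_le_card (fun x hx => by
    rw [Finset.mem_filter] at hx ⊢
    exact ⟨(hsub c x hx.1).1, (hsub c x hx.1).2, hx.2⟩)

lemma exists_r (A δ : ℝ) (hδ : 0 < δ) (hA : 0 ≤ A) : ∃ r : ℕ, A * (6 / Real.sqrt ((r : ℝ) + 1)) ≤ δ := by
  obtain ⟨r, hr⟩ := exists_nat_ge ((6 * A / δ) ^ 2)
  refine ⟨r, ?_⟩
  have h1 : 6 * A / δ ≤ Real.sqrt ((r : ℝ) + 1) := by
    apply Real.le_sqrt_of_sq_le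
    linarith
  have h2 : 0 < Real.sqrt ((r : ℝ) + 1) := Real.sqrt_pos.2 (by positivity)
  rw [mul_div_assoc', div_le_iff₀ h2]
  rw [div_le_iff₀ hδ] at h1
  linarith

lemma log_bd (d : ℕ) (hd : 1 ≤ d) (A1 : ℝ) (m : ℕ) (hA : 0 ≤ A1) (hm1 : 1 ≤ m)
    (hm : 8 * d * A1 ≤ (m : ℝ)) :
    A1 * Real.log ((((8 * m) ^ d : ℕ) : ℝ) + 1) ≤ (m : ℝ) ^ 2 := by
  have h0 : (1 : ℝ) ≤ m := by exact_mod_cast hm1
  have h1 : (((8 * m) ^ d : ℕ) : ℝ) + 1 ≤ (8 * (m : ℝ) + 1) ^ d := by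
    have : (8 * m) ^ d + 1 ^ d ≤ (8 * m + 1) ^ d := pow_add_pow_le (by omega) (by omega) (by omega)
    rw [one_pow] at this
    exact_mod_cast this
  have h2 : Real.log ((((8 * m) ^ d : ℕ) : ℝ) + 1) ≤ d * (8 * (m : ℝ)) := by
    calc Real.log ((((8 * m) ^ d : ℕ) : ℝ) + 1) ≤ Real.log ((8 * (m : ℝ) + 1) ^ d) :=
          Real.log_le_log (by positivity) h1
      _ = d * Real.log (8 * (m : ℝ) + 1) := by rw [Real.log_pow]
      _ ≤ d * (8 * (m : ℝ)) := by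
        apply mul_le_mul_of_nonneg_left _ (Nat.cast_nonneg _)
        have := Real.log_le_sub_one_of_pos (by positivity : (0 : ℝ) < 8 * (m : ℝ) + 1)
        linarith
  calc A1 * Real.log ((((8 * m) ^ d : ℕ) : ℝ) + 1) ≤ A1 * (d * (8 * (m : ℝ))) :=
        mul_le_mul_of_nonneg_left h2 hA
    _ = (8 * d * A1) * (m : ℝ) := by ring
    _ ≤ (m : ℝ) * (m : ℝ) := mul_le_mul_of_nonneg_right hm (by linarith)
    _ = (m : ℝ) ^ 2 := by ring

open scoped Classical in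
theorem box_good (d : ℕ) (hd : 9 ≤ d) (C c0 cp : ℝ) (hC : 0 < C) (hc0 : 0 < c0) (hcp : 0 < cp)
    (hcp1 : cp ≤ 1) :
    ∃ a b0 : ℝ, 0 < a ∧ 0 < b0 ∧ ∀ ρ0 : ℝ, 0 < ρ0 → ∃ K : ℝ, ∃ m0 : ℕ, 0 < K ∧ 1 ≤ m0 ∧
      ∀ m : ℕ, m0 ≤ m → ∀ [Fintype (boxG d m).edgeSet] [Fintype (boxG d (8 * m)).edgeSet], ∀ p : ℝ,
        cp ≤ p → cp ≤ 1 - p → Hyp d C c0 p m → Hyp d C c0 p (8 * m) → K / (m : ℝ) ^ 2 ≤ 1 ∧
        P2 p (K / (m : ℝ) ^ 2) (fun ω η => ¬ GoodB (gends (boxG d (8 * m))) ω η Set.univ (bT d m)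
          (a * (m : ℝ) ^ 4) (b0 * (m : ℝ) ^ (d - 2))) ≤ ρ0 := by
  obtain ⟨a, b0, ha, hb0, hlam⟩ := lam_small d hd C c0 hC hc0
  refine ⟨a, b0, ha, hb0, fun ρ0 hρ0 => ?_⟩
  set D1 : ℝ := d * 2 ^ d with hD1
  have hD1p : 0 < D1 := by
    have : (0 : ℝ) < d := by exact_mod_cast (by omega : 0 < d)
    positivity
  have hC4 : 0 < C4 d := by
    unfold C4
    have : (0 : ℝ) < d := by exact_mod_cast (by omega : 0 < d)
    positivity
  set CL : ℝ := max (max 1 C) (max (64 * (C * D1)) ((C ^ 2 * C4 d) ^ 2 * (D1 * 2))) with hCL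
  have hCL1 : 1 ≤ CL := (le_max_left _ _).trans (le_max_left _ _)
  have hCLC : C ≤ CL := (le_max_right _ _).trans (le_max_left _ _)
  have hCLX : 64 * (C * D1) ≤ CL := (le_max_left _ _).trans (le_max_right _ _)
  have hCLQ : (C ^ 2 * C4 d) ^ 2 * (D1 * 2) ≤ CL := (le_max_right _ _).trans (le_max_right _ _)
  obtain ⟨a2, c5, δ, A0, ha2, ha2a, hc5, hδ, hA0, hloc⟩ := loc CL c0 a (b0 / 8 ^ d) (ρ0 / 4) hCL1 hc0 ha
    (by positivity) (by positivity)
  obtain ⟨r, hr⟩ := exists_r (C ^ 3 * C4 d * D1) δ hδ (by positivity)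
  obtain ⟨K, A1, hK, hA1, hcut⟩ := loc_cut CL a2 c5 cp (ρ0 / 4) r (2 * r + 1) (2 * d)
    ((r + 1) * ((1 + 2 * d) * (2 * r + 1))) (Nat.one_le_iff_ne_zero.2 (by positivity)) (by linarith) ha2 hc5
    hcp hcp1 (by positivity)
  obtain ⟨m1, hm1, hlam1⟩ := hlam (ρ0 / (4 * 2 ^ d)) (by positivity)
  obtain ⟨m2, hm2⟩ := exists_nat_ge (max (max A0 A1) (8 * d * A1))
  refine ⟨K, max (max m1 m2) (r + 1), hK, by omega, ?_⟩
  intro m hm _ _ p hp hp1 hH1 hH2
  have hmm1 : m1 ≤ m := by omega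
  have hmm2 : (m2 : ℝ) ≤ m := by exact_mod_cast (by omega : m2 ≤ m)
  have hmr : r ≤ m := by omega
  have hm0 : 1 ≤ m := by omega
  have hmR : (1 : ℝ) ≤ m := by exact_mod_cast hm0
  have hmA0 : A0 ≤ (m : ℝ) := by
    have : A0 ≤ max (max A0 A1) (8 * d * A1) := (le_max_left _ _).trans (le_max_left _ _)
    linarith
  have hmA1 : A1 ≤ (m : ℝ) := by
    have : A1 ≤ max (max A0 A1) (8 * d * A1) := (le_max_right _ _).trans (le_max_left _ _)
    linarith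
  have hmA2 : 8 * d * A1 ≤ (m : ℝ) := by
    have : 8 * d * A1 ≤ max (max A0 A1) (8 * d * A1) := le_max_right _ _
    linarith
  have hpp0 : 0 ≤ p := hcp.le.trans hp
  have hpp1 : p ≤ 1 := by linarith
  have : Nonempty (Fin d → Fin (8 * m)) := ⟨fun _ => ⟨0, by omega⟩⟩
  have hcard : (Fintype.card (Fin d → Fin (8 * m)) : ℝ) = (8 * (m : ℝ)) ^ d := by
    rw [Fintype.card_fun, Fintype.card_fin, Fintype.card_fin]
    push_cast
    ring
  have hm2le : (m : ℝ) ≤ (m : ℝ) ^ 2 := by nlinarith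
  set i0 : Fin d := ⟨0, by omega⟩ with hi0
  set sh : (Fin d → Fin (8 * m)) → (Fin d → Fin (8 * m)) := fun x => upd i0 x ((x i0 : ℕ) + r) with hsh
  have hinj : Set.InjOn sh (cor d m) := sh_inj i0 r hmr
  have hcardlow : ∀ A : ℝ, A ≤ (m : ℝ) → A * ((m : ℝ) ^ 2) ^ 3 ≤ Fintype.card (Fin d → Fin (8 * m)) := by
    intro A hA
    rw [hcard]
    have h1 : A * ((m : ℝ) ^ 2) ^ 3 ≤ (m : ℝ) * ((m : ℝ) ^ 2) ^ 3 :=
      mul_le_mul_of_nonneg_right hA (by positivity)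
    have h2 : (m : ℝ) * ((m : ℝ) ^ 2) ^ 3 = (m : ℝ) ^ 7 := by ring
    have h3 : (m : ℝ) ^ 7 ≤ (m : ℝ) ^ d := pow_le_pow_right₀ hmR (by omega)
    have h4 : (m : ℝ) ^ d ≤ (8 * (m : ℝ)) ^ d := pow_le_pow_left₀ (by positivity) (by linarith) _
    linarith
  have hnc := hloc (Fin d → Fin (8 * m)) (boxG d (8 * m)).edgeSet (gends (boxG d (8 * m))) p ((m : ℝ) ^ 2) sh (cor d m) hpp0
    hpp1 (hmA0.trans hm2le) (hcardlow A0 hmA0) (by
      intro x
      have h := hyp_X (by omega : 2 ≤ d) hC.le hH2.1 x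
      refine h.trans ?_
      push_cast
      calc C * (d * 2 ^ d) * (8 * (m : ℝ)) ^ 2 = 64 * (C * D1) * (m : ℝ) ^ 2 := by rw [hD1]; ring
        _ ≤ CL * (m : ℝ) ^ 2 := mul_le_mul_of_nonneg_right hCLX (by positivity)) (by
      intro x k hk
      exact (hH2.2.1 x k hk).trans (div_le_div_of_nonneg_right hCLC (Real.sqrt_nonneg _))) (by
      intro x
      exact (hyp_sq hd hpp0 hpp1 hC.le hH2.1 x).trans hCLQ) hinj (by
      intro x
      refine (hyp_del hd hpp0 hpp1 hC.le hH2.1 (cor d m) sh hinj r (fun u hu => (sh_bul i0 r hmr u hu).2.1)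
        x).trans ?_
      calc C ^ 3 * C4 d * (d * 2 ^ d * (6 / Real.sqrt ((r : ℝ) + 1))) =
          C ^ 3 * C4 d * D1 * (6 / Real.sqrt ((r : ℝ) + 1)) := by rw [hD1]; ring
        _ ≤ δ := hr) (by
      intro u hu v hv
      refine le_trans ?_ (hH2.2.2 _ _ (sh_bul i0 r hmr u hu).1 (sh_bul i0 r hmr v hv).1)
      rw [hcard]
      push_cast
      have hd2 : (8 * (m : ℝ)) ^ d = (8 * (m : ℝ)) ^ (d - 2) * (8 * (m : ℝ)) ^ 2 := by
        rw [← pow_add]; congr 1; omega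
      rw [hd2, div_le_div_iff₀ (by positivity) (by positivity)]
      have : (0 : ℝ) ≤ c0 * (8 * (m : ℝ)) ^ (d - 2) := by positivity
      nlinarith [sq_nonneg (m : ℝ), mul_nonneg this (sq_nonneg (m : ℝ))])
  have hb : b0 / 8 ^ d * (Fintype.card (Fin d → Fin (8 * m)) : ℝ) / (m : ℝ) ^ 2 = b0 * (m : ℝ) ^ (d - 2) := by
    rw [hcard, mul_pow]
    have hd2 : (m : ℝ) ^ d = (m : ℝ) ^ (d - 2) * (m : ℝ) ^ 2 := by
      rw [← pow_add]; congr 1; omega
    rw [hd2]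
    field_simp
  have hA2 : a * ((m : ℝ) ^ 2) ^ 2 = a * (m : ℝ) ^ 4 := by ring
  rw [hb, hA2] at hnc
  have hcut2 := hcut (Fin d → Fin (8 * m)) (boxG d (8 * m)).edgeSet (gends (boxG d (8 * m))) p ((m : ℝ) ^ 2)
    (a * (m : ℝ) ^ 4) (b0 * (m : ℝ) ^ (d - 2)) sh (cor d m) (bpi i0 r) hp hp1 (hmA1.trans hm2le)
    (hcardlow A1 hmA1) (by
      have := log_bd d (by omega) A1 m (by linarith) hm0 hmA2
      have h2 : (Fintype.card (Fin d → Fin (8 * m)) : ℝ) = (((8 * m) ^ d : ℕ) : ℝ) := by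
        rw [hcard]; push_cast; ring
      rw [h2]
      exact this) (by
      rw [← hA2]
      exact mul_le_mul_of_nonneg_right ha2a (by positivity)) (by positivity) (by
      intro x k hk
      exact (hH2.2.1 x k hk).trans (div_le_div_of_nonneg_right hCLC (Real.sqrt_nonneg _)))
    (fun u _ => bpi_zero i0 r u) (fun u hu => (sh_bul i0 r hmr u hu).2.2)
    (fun x j hj => bpi_edge i0 r (by omega) x j hj) (fun v => by
      have := box_deg (d := d) (l := 8 * m) v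
      exact this) (fun x => by
      have := conf_le (ends := gends (boxG d (8 * m))) (bpi i0 r) r (2 * d) (2 * r + 1)
        (fun v => by
          have := box_deg (d := d) (l := 8 * m) v
          exact this) (fun v => bpi_cov i0 r (by omega) v) x
      exact this) (fun v => bpi_cov i0 r (by omega) v)
  refine ⟨hcut2.1, ?_⟩
  have hs0 : 0 ≤ K / (m : ℝ) ^ 2 := by positivity
  have hbpos : 0 < b0 * (m : ℝ) ^ (d - 2) := by positivity
  have hpt : ∀ ω η : (boxG d (8 * m)).edgeSet → Bool,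
      (if ¬ GoodB (gends (boxG d (8 * m))) ω η Set.univ (bT d m)
          (a * (m : ℝ) ^ 4) (b0 * (m : ℝ) ^ (d - 2)) then (1 : ℝ) else 0) ≤
      (∑ c : Fin d → Bool, if ((Lam (gends (boxG d (8 * m))) ω (bT d m c) (a * (m : ℝ) ^ 4)).card : ℝ) <
          4 * (b0 * (m : ℝ) ^ (d - 2)) then (1 : ℝ) else 0) +
      (if 3 * (b0 * (m : ℝ) ^ (d - 2)) ≤ vol (gends (boxG d (8 * m))) ω (cor d m) (a * (m : ℝ) ^ 4)
          Finset.univ ∧ ¬ ∃ y, (((cor d m).filter (fun x => a * (m : ℝ) ^ 4 ≤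
            cz (gends (boxG d (8 * m))) ω x ∧ x ∉ cu (gends (boxG d (8 * m))) (orc ω η) y)).card : ℝ) <
            b0 * (m : ℝ) ^ (d - 2) then (1 : ℝ) else 0) := by
    intro ω η
    have hs : ∀ c : Fin d → Bool, (0 : ℝ) ≤ if ((Lam (gends (boxG d (8 * m))) ω (bT d m c)
        (a * (m : ℝ) ^ 4)).card : ℝ) < 4 * (b0 * (m : ℝ) ^ (d - 2)) then (1 : ℝ) else 0 := by
      intro c; split_ifs <;> norm_num
    by_cases h1 : ∀ c, 4 * (b0 * (m : ℝ) ^ (d - 2)) ≤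
        ((Lam (gends (boxG d (8 * m))) ω (bT d m c) (a * (m : ℝ) ^ 4)).card : ℝ)
    · by_cases h2 : 3 * (b0 * (m : ℝ) ^ (d - 2)) ≤ vol (gends (boxG d (8 * m))) ω (cor d m)
          (a * (m : ℝ) ^ 4) Finset.univ ∧ ¬ ∃ y, (((cor d m).filter (fun x => a * (m : ℝ) ^ 4 ≤
            cz (gends (boxG d (8 * m))) ω x ∧ x ∉ cu (gends (boxG d (8 * m))) (orc ω η) y)).card : ℝ) <
            b0 * (m : ℝ) ^ (d - 2)
      · rw [if_pos h2]
        have := Finset.sum_nonneg (fun c (_ : c ∈ (Finset.univ : Finset (Fin d → Bool))) => hs c)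
        split_ifs <;> linarith
      · have hg := good_of (ends := gends (boxG d (8 * m))) ω η (bT d m) (a * (m : ℝ) ^ 4)
          (b0 * (m : ℝ) ^ (d - 2)) (cor d m) (fun c => bT_cor c) hbpos h1 h2
        rw [if_neg (not_not.2 hg), if_neg h2]
        have := Finset.sum_nonneg (fun c (_ : c ∈ (Finset.univ : Finset (Fin d → Bool))) => hs c)
        linarith
    · push Not at h1
      obtain ⟨c, hc⟩ := h1
      have h3 : (1 : ℝ) ≤ ∑ c : Fin d → Bool, if ((Lam (gends (boxG d (8 * m))) ω (bT d m c)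
          (a * (m : ℝ) ^ 4)).card : ℝ) < 4 * (b0 * (m : ℝ) ^ (d - 2)) then (1 : ℝ) else 0 := by
        refine le_trans ?_ (Finset.single_le_sum (fun c _ => hs c) (Finset.mem_univ c))
        rw [if_pos hc]
      have h4 : (0 : ℝ) ≤ (if 3 * (b0 * (m : ℝ) ^ (d - 2)) ≤ vol (gends (boxG d (8 * m))) ω (cor d m)
          (a * (m : ℝ) ^ 4) Finset.univ ∧ ¬ ∃ y, (((cor d m).filter (fun x => a * (m : ℝ) ^ 4 ≤
            cz (gends (boxG d (8 * m))) ω x ∧ x ∉ cu (gends (boxG d (8 * m))) (orc ω η) y)).card : ℝ) <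
            b0 * (m : ℝ) ^ (d - 2) then (1 : ℝ) else 0) := by split_ifs <;> norm_num
      split_ifs at h4 ⊢ <;> linarith
  have hP2 : P2 p (K / (m : ℝ) ^ 2) (fun ω η => ¬ GoodB (gends (boxG d (8 * m))) ω η Set.univ (bT d m)
      (a * (m : ℝ) ^ 4) (b0 * (m : ℝ) ^ (d - 2))) = Ex p (fun ω => Ex (K / (m : ℝ) ^ 2) (fun η =>
        if ¬ GoodB (gends (boxG d (8 * m))) ω η Set.univ (bT d m)
          (a * (m : ℝ) ^ 4) (b0 * (m : ℝ) ^ (d - 2)) then (1 : ℝ) else 0)) := by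
    unfold P2
    refine Ex_congr fun ω => Ex_congr fun η => ?_
    by_cases h : GoodB (gends (boxG d (8 * m))) ω η Set.univ (bT d m)
          (a * (m : ℝ) ^ 4) (b0 * (m : ℝ) ^ (d - 2))
    · simp [h]
    · simp [h]
  rw [hP2]
  refine (Ex_mono hpp0 hpp1 (fun ω => Ex_mono hs0 hcut2.1 (fun η => hpt ω η))).trans ?_
  simp_rw [Ex_add, Ex_sum]
  have hfirst : ∀ c : Fin d → Bool, Ex p (fun ω : (boxG d (8 * m)).edgeSet → Bool =>
      Ex (K / (m : ℝ) ^ 2) (fun _ : (boxG d (8 * m)).edgeSet → Bool =>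
        if ((Lam (gends (boxG d (8 * m))) ω (bT d m c) (a * (m : ℝ) ^ 4)).card : ℝ) <
          4 * (b0 * (m : ℝ) ^ (d - 2)) then (1 : ℝ) else 0)) ≤ ρ0 / (4 * 2 ^ d) := by
    intro c
    simp_rw [Ex_const]
    rw [lam_box]
    exact hlam1 m hmm1 p hpp0 hpp1 hH1.1 hH1.2.1 hH1.2.2
  have hsum := Finset.sum_le_sum (fun c (_ : c ∈ (Finset.univ : Finset (Fin d → Bool))) => hfirst c)
  rw [Finset.sum_const, nsmul_eq_mul, Finset.card_univ, Fintype.card_fun, Fintype.card_bool,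
    Fintype.card_fin] at hsum
  have h5 : (((2 ^ d : ℕ) : ℝ)) * (ρ0 / (4 * 2 ^ d)) = ρ0 / 4 := by
    push_cast
    field_simp
  rw [h5] at hsum
  have h6 := hcut2.2
  linarith

end Pool.Agent.PERC29.AE
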