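import Pool.Agent.Lib.MP_29e17e_pr.V.Nc
import Pool.Agent.Lib.MP_29e17e_pr.U.Su

set_option autoImplicit false
set_option linter.unusedSectionVars false

/-! Rows 29v-O1 .. 29v-O5: contacts, sprinkling, the main component. -/

open Finset

namespace Pool.Agent.PERC29.AE

variable {V : Type*} [Fintype V] [DecidableEq V] {E : Type*} [Fintype E] [DecidableEq E]
  {ends : E → Sym2 V}

/-- A cut with two large sides and at most `kk` edges between the sides. -/
def BadE (ends : E → Sym2 V) (ω : E → Bool) (W : Finset V) (k2 A2 β : ℝ) (kk : ℕ) : Prop :=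
  ∃ 𝒮 ∈ (GC ends ω k2).powerset, β ≤ vol ends ω W A2 (Un 𝒮) ∧
    β ≤ vol ends ω W A2 (Un (GC ends ω k2 \ 𝒮)) ∧
    eb ends (Un 𝒮) (Un (GC ends ω k2 \ 𝒮)) ≤ kk

/-- An edge open in `η` joins the two sets. -/
def Opn (ends : E → Sym2 V) (η : E → Bool) (U1 U2 : Finset V) : Prop :=
  ∃ e, η e = true ∧ ∃ x ∈ U1, ∃ y ∈ U2, ends e = s(x, y)

private lemma O1_rep {k2 : ℝ} (ω : E → Bool) (𝒮 : Finset (Finset V)) (h : 𝒮 ⊆ GC ends ω k2) :
    ∃ a : Finset V, a.card ≤ 𝒮.card ∧ UC ends ω a = Un 𝒮 := by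
  classical
  have h1 : ∀ A : {A // A ∈ 𝒮}, ∃ x, cu ends ω x = A.1 := by
    intro A
    have h2 := h A.2
    unfold GC at h2
    obtain ⟨x, _, hx⟩ := Finset.mem_image.1 (Finset.mem_filter.1 h2).1
    exact ⟨x, hx⟩
  choose f hf using h1
  refine ⟨𝒮.attach.image f, le_trans Finset.card_image_le (by rw [Finset.card_attach]), ?_⟩
  ext y
  unfold UC Un
  simp only [Finset.mem_biUnion, Finset.mem_image, Finset.mem_attach, true_and, id_eq]
  constructor
  · rintro ⟨x, ⟨A, rfl⟩, hy⟩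
    rw [hf A] at hy
    exact ⟨A.1, A.2, hy⟩
  · rintro ⟨A, hA, hy⟩
    refine ⟨f ⟨A, hA⟩, ⟨⟨A, hA⟩, rfl⟩, ?_⟩
    rw [hf ⟨A, hA⟩]
    exact hy

private lemma O1_disj {k2 : ℝ} (ω : E → Bool) (𝒮 : Finset (Finset V)) (h : 𝒮 ⊆ GC ends ω k2) :
    Disjoint (Un 𝒮) (Un (GC ends ω k2 \ 𝒮)) := by
  classical
  have hcl : ∀ A ∈ GC ends ω k2, ∀ z ∈ A, cu ends ω z = A := by
    intro A hA z hz
    unfold GC at hA
    obtain ⟨x, _, hx⟩ := Finset.mem_image.1 (Finset.mem_filter.1 hA).1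
    rw [← hx] at hz ⊢
    exact cu_eq hz
  rw [Finset.disjoint_left]
  intro z hz hz'
  unfold Un at hz hz'
  obtain ⟨A, hA, hzA⟩ := Finset.mem_biUnion.1 hz
  obtain ⟨B, hB, hzB⟩ := Finset.mem_biUnion.1 hz'
  have hB' := Finset.mem_sdiff.1 hB
  have e1 := hcl A (h hA) z hzA
  have e2 := hcl B hB'.1 z hzB
  exact hB'.2 (by rw [← e2, e1]; exact hA)

private lemma O1_eb_symm (A B : Finset V) : eb ends A B = eb ends B A := by
  classical
  unfold eb
  congr 1
  ext e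
  simp only [Finset.mem_filter, Finset.mem_univ, true_and]
  constructor
  · rintro ⟨x, hx, y, hy, h⟩
    exact ⟨y, hy, x, hx, by rw [h, Sym2.eq_swap]⟩
  · rintro ⟨x, hx, y, hy, h⟩
    exact ⟨y, hy, x, hx, by rw [h, Sym2.eq_swap]⟩

private lemma O1_count (sh : V → V) (W : Finset V) (π : V → ℕ → V) (r : ℕ) (hπ0 : ∀ u ∈ W, π u 0 = u)
    (hπr : ∀ u ∈ W, π u r = sh u) (U1 U2 : Finset V) :
    (W.filter (fun u => u ∈ U1 ∧ sh u ∈ U2)).card ≤
      (Finset.univ.filter (fun x => π x 0 ∈ U1 ∧ π x r ∈ U2)).card := by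
  refine Finset.card_le_card fun u hu => ?_
  obtain ⟨h1, h2, h3⟩ := Finset.mem_filter.1 hu
  refine Finset.mem_filter.2 ⟨Finset.mem_univ _, ?_, ?_⟩
  · rw [hπ0 u h1]
    exact h2
  · rw [hπr u h1]
    exact h3

open scoped Classical in
private lemma O1_pt {nr k2 A2 β : ℝ} (sh : V → V) (W : Finset V)
    (π : V → ℕ → V) (r L M' kk n0 : ℕ) (hπ0 : ∀ u ∈ W, π u 0 = u) (hπr : ∀ u ∈ W, π u r = sh u)
    (hnr : 2 * ((L : ℝ) * M') ≤ nr) (ω : E → Bool) (hE : BadE ends ω W k2 A2 β kk)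
    (hN : ¬ BadNC ends ω sh W k2 A2 β nr) (hG : ¬ n0 < (GC ends ω k2).card) :
    ∃ a b : Finset V, a.card ≤ n0 ∧ b.card ≤ n0 ∧
        Disjoint (UC ends ω a) (UC ends ω b) ∧
        L * M' ≤ (Finset.univ.filter (fun x => π x 0 ∈ UC ends ω a ∧ π x r ∈ UC ends ω b)).card ∧
        eb ends (UC ends ω a) (UC ends ω b) ≤ kk := by
  obtain ⟨𝒮, h𝒮, hv1, hv2, heb⟩ := hE
  have hsub : 𝒮 ⊆ GC ends ω k2 := Finset.mem_powerset.1 h𝒮
  obtain ⟨a, ha1, ha2⟩ := O1_rep (ends := ends) ω 𝒮 hsub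
  obtain ⟨b, hb1, hb2⟩ := O1_rep (ends := ends) ω (GC ends ω k2 \ 𝒮) Finset.sdiff_subset
  have hca : a.card ≤ n0 := le_trans ha1 (le_trans (Finset.card_le_card hsub) (not_lt.1 hG))
  have hcb : b.card ≤ n0 := le_trans hb1
    (le_trans (Finset.card_le_card Finset.sdiff_subset) (not_lt.1 hG))
  have hd := O1_disj (ends := ends) ω 𝒮 hsub
  have hn : nr ≤ nrc sh W (Un 𝒮) (Un (GC ends ω k2 \ 𝒮)) := by
    by_contra hlt
    exact hN ⟨𝒮, h𝒮, hv1, hv2, not_le.1 hlt⟩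
  rw [← ha2, ← hb2] at hd heb hn
  set U1 := UC ends ω a
  set U2 := UC ends ω b
  have hcount : nrc sh W U1 U2 ≤ ((W.filter (fun u => u ∈ U1 ∧ sh u ∈ U2)).card : ℝ) +
      ((W.filter (fun u => u ∈ U2 ∧ sh u ∈ U1)).card : ℝ) := by
    have : (W.filter (fun u => (u ∈ U1 ∧ sh u ∈ U2) ∨ (u ∈ U2 ∧ sh u ∈ U1))).card ≤
        (W.filter (fun u => u ∈ U1 ∧ sh u ∈ U2)).card +
        (W.filter (fun u => u ∈ U2 ∧ sh u ∈ U1)).card := by
      rw [Finset.filter_or]
      exact Finset.card_union_le _ _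
    unfold nrc
    exact_mod_cast this
  have hsum : 2 * (L * M') ≤ (W.filter (fun u => u ∈ U1 ∧ sh u ∈ U2)).card +
      (W.filter (fun u => u ∈ U2 ∧ sh u ∈ U1)).card := by
    have h5 : (2 * ((L : ℝ) * M')) ≤ ((W.filter (fun u => u ∈ U1 ∧ sh u ∈ U2)).card : ℝ) +
      ((W.filter (fun u => u ∈ U2 ∧ sh u ∈ U1)).card : ℝ) := le_trans hnr (le_trans hn hcount)
    exact_mod_cast h5
  by_cases hc : L * M' ≤ (W.filter (fun u => u ∈ U1 ∧ sh u ∈ U2)).card
  · exact ⟨a, b, hca, hcb, hd, le_trans hc (O1_count sh W π r hπ0 hπr U1 U2), heb⟩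
  · have hc2 : L * M' ≤ (W.filter (fun u => u ∈ U2 ∧ sh u ∈ U1)).card := by omega
    refine ⟨b, a, hcb, hca, hd.symm, le_trans hc2 (O1_count sh W π r hπ0 hπr U2 U1), ?_⟩
    rw [O1_eb_symm]
    exact heb

open scoped Classical in
/-- Row O1. Pointwise: let `𝒮` be the cut. If the number of near contacts is at least `nr` (not `BadNC`) and `|GC| ≤ n0`: choose a point
in every cluster of `𝒮`, of `GC \ 𝒮`; this gives `a`, `b` with at most `n0` elements and `UC a = Un 𝒮`, `UC b = Un (GC \ 𝒮)` (disjoint).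
`nrc ≤ #{u ∈ W | u ∈ U1, sh u ∈ U2} + #{u ∈ W | u ∈ U2, sh u ∈ U1}`, so one of them is at least `L * M'`; for `u ∈ W` `π u 0 = u`,
`π u r = sh u`. In the second case exchange `a` and `b` (`eb` is symmetric: `Sym2.eq_swap`). So the event of `surgery_all` holds. -/
lemma cut_edges {p nr k2 A2 β : ℝ} (h0 : 0 ≤ p) (h1 : p ≤ 1) (sh : V → V) (W : Finset V)
    (π : V → ℕ → V) (r L M' kk n0 : ℕ) (hπ0 : ∀ u ∈ W, π u 0 = u) (hπr : ∀ u ∈ W, π u r = sh u)
    (hnr : 2 * ((L : ℝ) * M') ≤ nr) :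
    Ex p (fun ω => if BadE ends ω W k2 A2 β kk then (1 : ℝ) else 0) ≤
      Ex p (fun ω => if BadNC ends ω sh W k2 A2 β nr then (1 : ℝ) else 0) +
      Ex p (fun ω => if n0 < (GC ends ω k2).card then (1 : ℝ) else 0) +
      Ex p (fun ω => if ∃ a b : Finset V, a.card ≤ n0 ∧ b.card ≤ n0 ∧
        Disjoint (UC ends ω a) (UC ends ω b) ∧
        L * M' ≤ (Finset.univ.filter (fun x => π x 0 ∈ UC ends ω a ∧ π x r ∈ UC ends ω b)).card ∧
        eb ends (UC ends ω a) (UC ends ω b) ≤ kk then (1 : ℝ) else 0) := by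
  rw [← Ex_add, ← Ex_add]
  refine Ex_mono h0 h1 fun ω => ?_
  by_cases hE : BadE ends ω W k2 A2 β kk
  · rw [if_pos hE]
    by_cases hN : BadNC ends ω sh W k2 A2 β nr
    · rw [if_pos hN]
      have e1 : (0 : ℝ) ≤ (if n0 < (GC ends ω k2).card then (1 : ℝ) else 0) := by
        split_ifs <;> norm_num
      have e2 : (0 : ℝ) ≤ (if ∃ a b : Finset V, a.card ≤ n0 ∧ b.card ≤ n0 ∧
        Disjoint (UC ends ω a) (UC ends ω b) ∧
        L * M' ≤ (Finset.univ.filter (fun x => π x 0 ∈ UC ends ω a ∧ π x r ∈ UC ends ω b)).card ∧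
        eb ends (UC ends ω a) (UC ends ω b) ≤ kk then (1 : ℝ) else 0) := by
        split_ifs <;> norm_num
      linarith
    · by_cases hG : n0 < (GC ends ω k2).card
      · rw [if_neg hN, if_pos hG]
        have e2 : (0 : ℝ) ≤ (if ∃ a b : Finset V, a.card ≤ n0 ∧ b.card ≤ n0 ∧
          Disjoint (UC ends ω a) (UC ends ω b) ∧
          L * M' ≤ (Finset.univ.filter (fun x => π x 0 ∈ UC ends ω a ∧ π x r ∈ UC ends ω b)).card ∧
          eb ends (UC ends ω a) (UC ends ω b) ≤ kk then (1 : ℝ) else 0) := by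
          split_ifs <;> norm_num
        linarith
      · rw [if_neg hN, if_neg hG, if_pos (O1_pt sh W π r L M' kk n0 hπ0 hπr hnr ω hE hN hG)]
        norm_num
  · rw [if_neg hE]
    refine add_nonneg (add_nonneg ?_ ?_) ?_ <;> split_ifs <;> norm_num

open scoped Classical in
/-- Row O2. `|GC| = ∑ x, 1[k2 ≤ |C(x)|] / |C(x)| ≤ (1/k2) ∑ x, 1[k2 ≤ |C(x)|]` (`GC_sum`), the tail with `k = ⌈k2⌉₊`, Markov
(`n0 < |GC|` implies `n0 < ..`). -/
lemma gc_many {p C k2 : ℝ} (h0 : 0 ≤ p) (h1 : p ≤ 1) (hC : 0 ≤ C) (hk : 1 ≤ k2)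
    (hT : ∀ x, ∀ k : ℕ, 1 ≤ k → Ex p (fun ω => if (k : ℝ) ≤ cz ends ω x then (1 : ℝ) else 0) ≤
      C / Real.sqrt k) (n0 : ℕ) (hn0 : 1 ≤ n0) :
    Ex p (fun ω => if n0 < (GC ends ω k2).card then (1 : ℝ) else 0) ≤
      Fintype.card V * (C / (k2 * Real.sqrt k2)) / n0 := by
  have hk0 : (0 : ℝ) < k2 := by linarith
  have hn : (0 : ℝ) < (n0 : ℝ) := by exact_mod_cast hn0
  have hkc : 1 ≤ ⌈k2⌉₊ := Nat.one_le_iff_ne_zero.2 (Nat.ceil_pos.2 hk0).ne'
  have hpt : ∀ ω : E → Bool, (if n0 < (GC ends ω k2).card then (1 : ℝ) else 0) ≤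
      (1 / (n0 * k2)) * ∑ x, (if ((⌈k2⌉₊ : ℕ) : ℝ) ≤ cz ends ω x then (1 : ℝ) else 0) := by
    intro ω
    have hnn : (0 : ℝ) ≤ ∑ x, (if ((⌈k2⌉₊ : ℕ) : ℝ) ≤ cz ends ω x then (1 : ℝ) else 0) :=
      Finset.sum_nonneg (fun x _ => by split_ifs <;> norm_num)
    by_cases h : n0 < (GC ends ω k2).card
    · rw [if_pos h]
      have h2 : ((GC ends ω k2).card : ℝ) * k2 ≤
          ∑ x, (if ((⌈k2⌉₊ : ℕ) : ℝ) ≤ cz ends ω x then (1 : ℝ) else 0) := by
        have h3 := GC_sum (ends := ends) ω k2 (fun _ _ => (1 : ℝ))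
        have h4 : ((GC ends ω k2).card : ℝ) * k2 ≤ ∑ A ∈ GC ends ω k2, ∑ _x ∈ A, (1 : ℝ) := by
          rw [← nsmul_eq_mul]
          refine Finset.card_nsmul_le_sum _ _ _ (fun A hA => ?_)
          rw [Finset.sum_const, nsmul_eq_mul, mul_one]
          exact (mem_GC.1 hA).2
        refine h4.trans ?_
        rw [h3]
        refine Finset.sum_le_sum (fun x _ => ?_)
        by_cases h5 : k2 ≤ cz ends ω x
        · have h6 : ((⌈k2⌉₊ : ℕ) : ℝ) ≤ cz ends ω x := by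
            unfold cz at h5 ⊢
            exact_mod_cast Nat.ceil_le.2 h5
          rw [if_pos h5, if_pos h6]
        · rw [if_neg h5]
          split_ifs <;> norm_num
      have h7 : (n0 : ℝ) ≤ ((GC ends ω k2).card : ℝ) := by exact_mod_cast h.le
      have h8 : (n0 : ℝ) * k2 ≤ ((GC ends ω k2).card : ℝ) * k2 :=
        mul_le_mul_of_nonneg_right h7 hk0.le
      rw [one_div_mul_eq_div, le_div_iff₀ (mul_pos hn hk0), one_mul]
      exact h8.trans h2
    · rw [if_neg h]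
      positivity
  refine (Ex_mono h0 h1 hpt).trans ?_
  rw [Ex_mul_left, Ex_sum]
  have h9 : ∑ x, Ex p (fun ω => if ((⌈k2⌉₊ : ℕ) : ℝ) ≤ cz ends ω x then (1 : ℝ) else 0) ≤
      Fintype.card V * (C / Real.sqrt k2) := by
    refine (Finset.sum_le_card_nsmul _ _ (C / Real.sqrt k2) (fun x _ => ?_)).trans ?_
    · refine (hT x ⌈k2⌉₊ hkc).trans ?_
      exact div_le_div_of_nonneg_left hC (Real.sqrt_pos.2 hk0) (Real.sqrt_le_sqrt (Nat.le_ceil k2))
    · rw [nsmul_eq_mul, Finset.card_univ]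
  refine (mul_le_mul_of_nonneg_left h9 (by positivity)).trans (le_of_eq ?_)
  have hs : 0 < Real.sqrt k2 := Real.sqrt_pos.2 hk0
  field_simp

open scoped Classical in
/-- Row O3. Union over the at most `2 ^ n0` families; for a fixed family with two large sides there are more than `kk` edges between the sides
(not `BadE`), all closed with probability `(1-s)^(number)` (`Ex_closed`). -/
lemma sprk {s k2 A2 β : ℝ} (h0 : 0 ≤ s) (h1 : s ≤ 1) (ω : E → Bool) (W : Finset V) (kk n0 : ℕ)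
    (hG : (GC ends ω k2).card ≤ n0) (hB : ¬ BadE ends ω W k2 A2 β kk) :
    Ex s (fun η => if ∃ 𝒮 ∈ (GC ends ω k2).powerset, β ≤ vol ends ω W A2 (Un 𝒮) ∧
      β ≤ vol ends ω W A2 (Un (GC ends ω k2 \ 𝒮)) ∧ ¬ Opn ends η (Un 𝒮) (Un (GC ends ω k2 \ 𝒮))
      then (1 : ℝ) else 0) ≤ 2 ^ n0 * (1 - s) ^ kk := by
  set F : Finset (Finset (Finset V)) := (GC ends ω k2).powerset.filter (fun 𝒮 =>
    β ≤ vol ends ω W A2 (Un 𝒮) ∧ β ≤ vol ends ω W A2 (Un (GC ends ω k2 \ 𝒮))) with hF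
  set X : Finset (Finset V) → Finset E := fun 𝒮 => Finset.univ.filter
    (fun e => ∃ x ∈ Un 𝒮, ∃ y ∈ Un (GC ends ω k2 \ 𝒮), ends e = s(x, y)) with hX
  have hs0 : 0 ≤ 1 - s := by linarith
  have hs1 : 1 - s ≤ 1 := by linarith
  have hpt : ∀ η : E → Bool, (if ∃ 𝒮 ∈ (GC ends ω k2).powerset, β ≤ vol ends ω W A2 (Un 𝒮) ∧
      β ≤ vol ends ω W A2 (Un (GC ends ω k2 \ 𝒮)) ∧ ¬ Opn ends η (Un 𝒮) (Un (GC ends ω k2 \ 𝒮))
      then (1 : ℝ) else 0) ≤ ∑ 𝒮 ∈ F, (if ∀ e ∈ X 𝒮, η e = false then (1 : ℝ) else 0) := by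
    intro η
    have hnn : ∀ 𝒮 ∈ F, (0 : ℝ) ≤ (if ∀ e ∈ X 𝒮, η e = false then (1 : ℝ) else 0) := by
      intro 𝒮 _
      split_ifs <;> norm_num
    split_ifs with hex
    · obtain ⟨𝒮, hS, hv1, hv2, hop⟩ := hex
      have hmem : 𝒮 ∈ F := by
        rw [hF, Finset.mem_filter]
        exact ⟨hS, hv1, hv2⟩
      have h2 : ∀ e ∈ X 𝒮, η e = false := by
        intro e he
        rw [hX, Finset.mem_filter] at he
        by_contra hne
        apply hop
        exact ⟨e, by simpa using hne, he.2⟩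
      calc (1 : ℝ) = (if ∀ e ∈ X 𝒮, η e = false then (1 : ℝ) else 0) := by rw [if_pos h2]
        _ ≤ _ := Finset.single_le_sum hnn hmem
    · exact Finset.sum_nonneg hnn
  refine le_trans (Ex_mono h0 h1 hpt) ?_
  rw [Ex_sum]
  have hcard : ∀ 𝒮 ∈ F, kk ≤ (X 𝒮).card := by
    intro 𝒮 h𝒮
    rw [hF, Finset.mem_filter] at h𝒮
    by_contra hlt
    apply hB
    refine ⟨𝒮, h𝒮.1, h𝒮.2.1, h𝒮.2.2, ?_⟩
    unfold eb
    exact le_of_lt (not_le.mp hlt)
  have hterm : ∀ 𝒮 ∈ F, Ex s (fun η => if ∀ e ∈ X 𝒮, η e = false then (1 : ℝ) else 0) ≤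
      (1 - s) ^ kk := by
    intro 𝒮 h𝒮
    have h3 := Ex_closed s (X 𝒮)
    calc Ex s (fun η => if ∀ e ∈ X 𝒮, η e = false then (1 : ℝ) else 0)
        = (1 - s) ^ (X 𝒮).card := by
          rw [← h3]
      _ ≤ (1 - s) ^ kk := pow_le_pow_of_le_one hs0 hs1 (hcard 𝒮 h𝒮)
  refine le_trans (Finset.sum_le_sum hterm) ?_
  rw [Finset.sum_const, nsmul_eq_mul]
  refine mul_le_mul_of_nonneg_right ?_ (pow_nonneg hs0 _)
  have h4 : F.card ≤ 2 ^ n0 := by
    refine le_trans (Finset.card_filter_le _ _) ?_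
    rw [Finset.card_powerset]
    exact Nat.pow_le_pow_right (by norm_num) hG
  calc (F.card : ℝ) ≤ ((2 ^ n0 : ℕ) : ℝ) := by exact_mod_cast h4
    _ = 2 ^ n0 := by push_cast; rfl

open scoped Classical in
/-- Row O4. Deterministic. Suppose every component of `orc ω η` misses at least `β` of the volume. Consider the unions `T` of
components of `orc ω η` (`T` with `cu (orc ω η) x ⊆ T` for `x ∈ T`) of volume less than `β`, for example `∅` (`0 < β`); choose one with maximal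
cardinality. The total volume is at least `3 β`, so there is `x ∉ T`; let `D` be its component. If the volume of `D` is at least `β` then
`T' = D` has volume at least `β`, and so has its complement; otherwise `T' = T ∪ D` has volume at least `β` (maximality) and less than
`2 β`, so its complement has volume at least `β`. Let `𝒮` be the clusters of `GC ω k2` inside `T'` (every cluster of `ω` is inside `T'` or
disjoint from it, `cu_mono`); every `x ∈ W` with `A2 ≤ cz ω x` is in `Un GC` (`k2 ≤ A2`), so the volumes of the two families are those of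
`T'` and its complement. By the hypothesis an edge open in `η` joins the two sides: contradiction. -/
lemma main_pt {k2 A2 β : ℝ} (hβ : 0 < β) (hkA : k2 ≤ A2) (ω η : E → Bool) (W : Finset V)
    (h3 : 3 * β ≤ vol ends ω W A2 Finset.univ)
    (hcut : ∀ 𝒮 ∈ (GC ends ω k2).powerset, β ≤ vol ends ω W A2 (Un 𝒮) →
      β ≤ vol ends ω W A2 (Un (GC ends ω k2 \ 𝒮)) → Opn ends η (Un 𝒮) (Un (GC ends ω k2 \ 𝒮))) :
    ∃ y, ((W.filter (fun x => A2 ≤ cz ends ω x ∧ x ∉ cu ends (orc ω η) y)).card : ℝ) < β := by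
  by_contra hcon
  push Not at hcon
  have hU : ∀ T D : Finset V, vol ends ω W A2 (T ∪ D) ≤ vol ends ω W A2 T + vol ends ω W A2 D := by
    intro T D
    unfold vol
    have h := Finset.card_union_le (W.filter (fun x => x ∈ T ∧ A2 ≤ cz ends ω x))
      (W.filter (fun x => x ∈ D ∧ A2 ≤ cz ends ω x))
    have h2 : W.filter (fun x => x ∈ T ∪ D ∧ A2 ≤ cz ends ω x) ⊆
        (W.filter (fun x => x ∈ T ∧ A2 ≤ cz ends ω x)) ∪
        (W.filter (fun x => x ∈ D ∧ A2 ≤ cz ends ω x)) := by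
      intro x hx
      rw [Finset.mem_filter, Finset.mem_union] at hx
      rw [Finset.mem_union, Finset.mem_filter, Finset.mem_filter]
      rcases hx with ⟨h1, h2 | h2, h3⟩
      · exact Or.inl ⟨h1, h2, h3⟩
      · exact Or.inr ⟨h1, h2, h3⟩
    have h3 := (Finset.card_le_card h2).trans h
    exact_mod_cast h3
  have hC : ∀ T : Finset V, vol ends ω W A2 Finset.univ ≤ vol ends ω W A2 T + vol ends ω W A2 Tᶜ := by
    intro T
    have h := hU T Tᶜ
    rwa [Finset.union_compl] at h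
  obtain ⟨T, hT, hmax⟩ := Finset.exists_max_image
    ((Finset.univ : Finset V).powerset.filter (fun T => (∀ x ∈ T, cu ends (orc ω η) x ⊆ T) ∧
      vol ends ω W A2 T < β)) Finset.card ⟨∅, by
      rw [Finset.mem_filter]
      refine ⟨Finset.mem_powerset.2 (Finset.empty_subset _), ?_, ?_⟩
      · intro x hx
        exact absurd hx (Finset.notMem_empty x)
      · have h0 : vol ends ω W A2 (∅ : Finset V) = 0 := by
          unfold vol
          rw [Finset.filter_false_of_mem]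
          · simp
          · intro x _ hx
            exact Finset.notMem_empty x hx.1
        rw [h0]
        exact hβ⟩
  rw [Finset.mem_filter] at hT
  obtain ⟨-, hTc, hTv⟩ := hT
  obtain ⟨T', hT'c, hT'1, hT'2⟩ : ∃ T' : Finset V, (∀ x ∈ T', cu ends (orc ω η) x ⊆ T') ∧
      β ≤ vol ends ω W A2 T' ∧ β ≤ vol ends ω W A2 T'ᶜ := by
    obtain ⟨x, hx⟩ : ∃ x, x ∉ T := by
      by_contra hall
      push Not at hall
      rw [Finset.eq_univ_iff_forall.2 hall] at hTv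
      linarith
    by_cases hD : β ≤ vol ends ω W A2 (cu ends (orc ω η) x)
    · refine ⟨cu ends (orc ω η) x, ?_, hD, ?_⟩
      · intro z hz
        rw [cu_eq hz]
      · refine le_trans (hcon x) (le_of_eq ?_)
        unfold vol
        congr 2
        ext z
        rw [Finset.mem_filter, Finset.mem_filter, Finset.mem_compl]
        tauto
    · push Not at hD
      have hcl : ∀ z ∈ T ∪ cu ends (orc ω η) x, cu ends (orc ω η) z ⊆ T ∪ cu ends (orc ω η) x := by
        intro z hz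
        rcases Finset.mem_union.1 hz with h | h
        · exact (hTc z h).trans Finset.subset_union_left
        · rw [cu_eq h]
          exact Finset.subset_union_right
      have hlt : T.card < (T ∪ cu ends (orc ω η) x).card := by
        apply Finset.card_lt_card
        rw [Finset.ssubset_iff_of_subset Finset.subset_union_left]
        exact ⟨x, Finset.mem_union_right _ (self_mem_cu _ x), hx⟩
      have hge : β ≤ vol ends ω W A2 (T ∪ cu ends (orc ω η) x) := by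
        by_contra hlt2
        push Not at hlt2
        have := hmax (T ∪ cu ends (orc ω η) x) (Finset.mem_filter.2
          ⟨Finset.mem_powerset.2 (Finset.subset_univ _), hcl, hlt2⟩)
        omega
      refine ⟨T ∪ cu ends (orc ω η) x, hcl, hge, ?_⟩
      have h1 := hU T (cu ends (orc ω η) x)
      have h2 := hC (T ∪ cu ends (orc ω η) x)
      linarith
  have hbig : ∀ x, A2 ≤ cz ends ω x → cu ends ω x ∈ GC ends ω k2 := by
    intro x hx
    exact mem_GC.2 ⟨⟨x, rfl⟩, hkA.trans hx⟩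
  have hmono : ∀ x, cu ends ω x ⊆ cu ends (orc ω η) x := by
    intro x
    apply cu_mono
    intro e he
    unfold orc
    rw [he]
    rfl
  set 𝒮 := (GC ends ω k2).filter (fun A => A ⊆ T') with h𝒮
  have hv1 : β ≤ vol ends ω W A2 (Un 𝒮) := by
    refine hT'1.trans ?_
    unfold vol
    have hsub : W.filter (fun x => x ∈ T' ∧ A2 ≤ cz ends ω x) ⊆
        W.filter (fun x => x ∈ Un 𝒮 ∧ A2 ≤ cz ends ω x) := by
      intro x hx
      rw [Finset.mem_filter] at hx ⊢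
      obtain ⟨h1, h2, h3⟩ := hx
      refine ⟨h1, ?_, h3⟩
      unfold Un
      rw [Finset.mem_biUnion]
      exact ⟨cu ends ω x, Finset.mem_filter.2 ⟨hbig x h3, (hmono x).trans (hT'c x h2)⟩,
        self_mem_cu ω x⟩
    exact_mod_cast Finset.card_le_card hsub
  have hv2 : β ≤ vol ends ω W A2 (Un (GC ends ω k2 \ 𝒮)) := by
    refine hT'2.trans ?_
    unfold vol
    have hsub : W.filter (fun x => x ∈ T'ᶜ ∧ A2 ≤ cz ends ω x) ⊆
        W.filter (fun x => x ∈ Un (GC ends ω k2 \ 𝒮) ∧ A2 ≤ cz ends ω x) := by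
      intro x hx
      rw [Finset.mem_filter] at hx ⊢
      obtain ⟨h1, h2, h3⟩ := hx
      refine ⟨h1, ?_, h3⟩
      unfold Un
      rw [Finset.mem_biUnion]
      refine ⟨cu ends ω x, Finset.mem_sdiff.2 ⟨hbig x h3, ?_⟩, self_mem_cu ω x⟩
      intro h4
      exact (Finset.mem_compl.1 h2) ((Finset.mem_filter.1 h4).2 (self_mem_cu ω x))
    exact_mod_cast Finset.card_le_card hsub
  obtain ⟨e, he, x, hx, y, hy, hxy⟩ := hcut 𝒮 (Finset.mem_powerset.2 (Finset.filter_subset _ _)) hv1 hv2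
  unfold Un at hx hy
  obtain ⟨A, hA, hxA⟩ := Finset.mem_biUnion.1 hx
  obtain ⟨B, hB, hyB⟩ := Finset.mem_biUnion.1 hy
  have hxT : x ∈ T' := (Finset.mem_filter.1 hA).2 hxA
  have hyx : y ∈ cu ends (orc ω η) x := by
    rw [mem_cu]
    refine Relation.ReflTransGen.tail (Rch.refl x) ⟨trivial, trivial, e, ?_, hxy⟩
    unfold orc
    rw [he]
    simp
  have hyT : y ∈ T' := hT'c x hxT hyx
  obtain ⟨hB1, hB2⟩ := Finset.mem_sdiff.1 hB
  apply hB2
  rw [h𝒮, Finset.mem_filter]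
  refine ⟨hB1, ?_⟩
  obtain ⟨⟨z, hz⟩, -⟩ := mem_GC.1 hB1
  have hyB' : y ∈ cu ends ω z := by
    rw [hz]
    exact hyB
  rw [← hz, ← cu_eq hyB']
  exact (hmono y).trans (hT'c y hyT)

open scoped Classical in
/-- Row O5. Combination: pointwise in `ω`: if `BadE` or `n0 < |GC|` bound the inner expectation by one; otherwise `main_pt` and `sprk`. -/
lemma main_comp {p s k2 A2 β : ℝ} (h0 : 0 ≤ p) (h1 : p ≤ 1) (g0 : 0 ≤ s) (g1 : s ≤ 1) (hβ : 0 < β)
    (hkA : k2 ≤ A2) (W : Finset V) (kk n0 : ℕ) :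
    Ex p (fun ω => Ex s (fun η => if 3 * β ≤ vol ends ω W A2 Finset.univ ∧
      ¬ ∃ y, ((W.filter (fun x => A2 ≤ cz ends ω x ∧ x ∉ cu ends (orc ω η) y)).card : ℝ) < β
      then (1 : ℝ) else 0)) ≤
      Ex p (fun ω => if BadE ends ω W k2 A2 β kk then (1 : ℝ) else 0) +
      Ex p (fun ω => if n0 < (GC ends ω k2).card then (1 : ℝ) else 0) + 2 ^ n0 * (1 - s) ^ kk := by
  have hc0 : (0 : ℝ) ≤ 2 ^ n0 * (1 - s) ^ kk :=
    mul_nonneg (pow_nonneg (by norm_num) _) (pow_nonneg (by linarith) _)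
  have hrw : Ex p (fun ω => if BadE ends ω W k2 A2 β kk then (1 : ℝ) else 0) +
      Ex p (fun ω => if n0 < (GC ends ω k2).card then (1 : ℝ) else 0) + 2 ^ n0 * (1 - s) ^ kk =
      Ex p (fun ω => ((if BadE ends ω W k2 A2 β kk then (1 : ℝ) else 0) +
        (if n0 < (GC ends ω k2).card then (1 : ℝ) else 0)) + 2 ^ n0 * (1 - s) ^ kk) := by
    rw [Ex_add, Ex_add, Ex_const]
  rw [hrw]
  apply Ex_mono h0 h1
  intro ω
  have hone : Ex s (fun η : E → Bool => if 3 * β ≤ vol ends ω W A2 Finset.univ ∧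
      ¬ ∃ y, ((W.filter (fun x => A2 ≤ cz ends ω x ∧ x ∉ cu ends (orc ω η) y)).card : ℝ) < β
      then (1 : ℝ) else 0) ≤ 1 := by
    calc Ex s (fun η : E → Bool => if 3 * β ≤ vol ends ω W A2 Finset.univ ∧
          ¬ ∃ y, ((W.filter (fun x => A2 ≤ cz ends ω x ∧
            x ∉ cu ends (orc ω η) y)).card : ℝ) < β
          then (1 : ℝ) else 0) ≤ Ex s (fun _ : E → Bool => (1 : ℝ)) := by
            apply Ex_mono g0 g1
            intro η
            split_ifs <;> norm_num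
      _ = 1 := Ex_const _ _
  by_cases hB : BadE ends ω W k2 A2 β kk
  · have h2 : (0 : ℝ) ≤ (if n0 < (GC ends ω k2).card then (1 : ℝ) else 0) := by
      split_ifs <;> norm_num
    simp only [if_pos hB]
    linarith
  · by_cases hG : n0 < (GC ends ω k2).card
    · simp only [if_neg hB, if_pos hG]
      linarith
    · simp only [if_neg hB, if_neg hG, zero_add]
      refine le_trans ?_ (sprk g0 g1 ω W kk n0 (not_lt.1 hG) hB)
      apply Ex_mono g0 g1
      intro η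
      by_cases hE : 3 * β ≤ vol ends ω W A2 Finset.univ ∧
        ¬ ∃ y, ((W.filter (fun x => A2 ≤ cz ends ω x ∧ x ∉ cu ends (orc ω η) y)).card : ℝ) < β
      · rw [if_pos hE, if_pos]
        by_contra hno
        push Not at hno
        refine hE.2 (main_pt hβ hkA ω η W hE.1 ?_)
        intro 𝒮 hS hb1 hb2
        exact hno 𝒮 hS hb1 hb2
      · rw [if_neg hE]
        split_ifs <;> norm_num

end Pool.Agent.PERC29.AE
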