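import Mathlib

set_option autoImplicit false

/-! Rows 29v-T1 .. 29v-T4: the constants (pure real numbers). -/

namespace Pool.Agent.PERC29.AE

/-- The constant `κ` with `s0 = κ η² v / χ`. -/
noncomputable def kap (c0 a β : ℝ) : ℝ := c0 * a ^ 2 * β ^ 2 / 16

/-- Row T1. The first four terms of `nc_sum` with `g = η/χ²`, `X = C χ`, `k2 = a2 χ²`, `h = c η χ`, `H = B η χ`,
`b1 = β η a v/(4 χ)`, `s0 = κ η² v/χ`, `n1 = ⌈C1 η v/χ³⌉₊`. Plain computations: the first three are equalities; `h/(g X) = c χ²/C`, so its root is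
`χ √(c/C)`; `√k2 = √a2 χ`; `n1 ≥ C1 η v / χ³`. (`field_simp`, `ring`.) -/
lemma term1 {C a β η χ v : ℝ} (hC : 0 < C) (ha : 0 < a) (hβ : 0 < β) (hη : 0 < η) (hχ : 0 < χ)
    (hv : 0 < v) :
    2 * (η / χ ^ 2 * (v * (C * χ) ^ 3) / (β * η * a * v / (4 * χ)) ^ 2) =
      32 * C ^ 3 * χ ^ 3 / (β ^ 2 * a ^ 2 * η * v) := by
  field_simp
  ring

lemma term2 {C κ η χ v c : ℝ} (hC : 0 < C) (hκ : 0 < κ) (hη : 0 < η) (hχ : 0 < χ) (hv : 0 < v)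
    (hc : 0 < c) :
    v * ((η / χ ^ 2) ^ 2 * (C * χ) ^ 2 * (3 * C * Real.sqrt (c * η * χ / (η / χ ^ 2 * (C * χ))))) /
      (κ * η ^ 2 * v / χ / 10) = 30 * C ^ 3 * Real.sqrt (c / C) / κ := by
  have h1 : c * η * χ / (η / χ ^ 2 * (C * χ)) = χ ^ 2 * (c / C) := by
    field_simp
  have h2 : Real.sqrt (c * η * χ / (η / χ ^ 2 * (C * χ))) = χ * Real.sqrt (c / C) := by
    rw [h1, Real.sqrt_mul (by positivity), Real.sqrt_sq hχ.le]
  rw [h2]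
  generalize Real.sqrt (c / C) = r
  field_simp
  ring

lemma term3 {C κ η χ v B : ℝ} (hC : 0 < C) (hκ : 0 < κ) (hη : 0 < η) (hχ : 0 < χ) (hv : 0 < v)
    (hB : 0 < B) :
    v * ((η / χ ^ 2) ^ 3 * (C * χ) ^ 6 + 2 * (η / χ ^ 2) ^ 2 * (C * χ) ^ 3 * C) /
      (B * η * χ * (κ * η ^ 2 * v / χ / 10)) = 10 / (B * κ) * (C ^ 6 + 2 * C ^ 4 / (η * χ)) := by
  field_simp

lemma term4 {C η χ v a2 C1 n1 : ℝ} (hC : 0 < C) (hη : 0 < η) (hχ : 0 < χ) (hv : 0 < v)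
    (ha2 : 0 < a2) (hC1 : 0 < C1) (hn1 : C1 * η * v / χ ^ 3 ≤ n1) :
    v * (η / χ ^ 2 * C / Real.sqrt (a2 * χ ^ 2)) / n1 ≤ C / (Real.sqrt a2 * C1) := by
  have h0 : 0 < C1 * η * v / χ ^ 3 := by positivity
  have hn0 : 0 < n1 := lt_of_lt_of_le h0 hn1
  have hs : Real.sqrt (a2 * χ ^ 2) = Real.sqrt a2 * χ := by
    rw [Real.sqrt_mul ha2.le, Real.sqrt_sq hχ.le]
  have hr : 0 < Real.sqrt a2 := Real.sqrt_pos.mpr ha2
  rw [hs, div_le_iff₀ hn0]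
  calc v * (η / χ ^ 2 * C / (Real.sqrt a2 * χ)) = C / (Real.sqrt a2 * C1) * (C1 * η * v / χ ^ 3) := by
        field_simp
    _ ≤ C / (Real.sqrt a2 * C1) * n1 := by gcongr

/-- Row T2. The last three terms. `J ≤ C2 η v/χ² + 1` and `1/v ≤ η/χ²` give `g + J/v ≤ (C2 + 2) η/χ²`. `term6` is an equality
(`√k2 = √a2 χ`). `term7`: `1 - x ≤ exp (-x)`, `2 = exp (log 2)`, `n1 + k ≤ (C1 + 1) η N + 2`, `J ≥ C2 η v/χ²`,
`k2 s0/(4 H² v) = a2 κ/(4 B² χ) ≤ 1`. -/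
lemma term5 {C κ η χ v C2 J δ : ℝ} (hC : 0 < C) (hκ : 0 < κ) (hη : 0 < η) (hχ : 0 < χ) (hv : 0 < v)
    (hC2 : 0 < C2) (hJ : J ≤ C2 * η * v / χ ^ 2 + 1) (hv2 : 1 / v ≤ η / χ ^ 2) :
    v * ((η / χ ^ 2) ^ 2 * (η / χ ^ 2 + J / v) * (C * χ) ^ 5 + 2 * (η / χ ^ 2) ^ 2 * (C * χ) ^ 3 * δ) /
      (κ * η ^ 2 * v / χ / 10) ≤ 10 / κ * ((C2 + 2) * η * C ^ 5 + 2 * C ^ 3 * δ) := by
  have e1 : v * ((η / χ ^ 2) ^ 2 * (η / χ ^ 2 + J / v) * (C * χ) ^ 5 + 2 * (η / χ ^ 2) ^ 2 * (C * χ) ^ 3 * δ) /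
      (κ * η ^ 2 * v / χ / 10) = 10 / κ * ((η / χ ^ 2 + J / v) * (C ^ 5 * χ ^ 2) + 2 * C ^ 3 * δ) := by
    field_simp
  have h1 : J / v ≤ (C2 + 1) * η / χ ^ 2 := by
    calc J / v ≤ (C2 * η * v / χ ^ 2 + 1) / v := by gcongr
      _ = C2 * η / χ ^ 2 + 1 / v := by field_simp
      _ ≤ C2 * η / χ ^ 2 + η / χ ^ 2 := by gcongr
      _ = _ := by ring
  have h2 : (η / χ ^ 2 + J / v) * (C ^ 5 * χ ^ 2) ≤ (C2 + 2) * η * C ^ 5 := by
    calc (η / χ ^ 2 + J / v) * (C ^ 5 * χ ^ 2) ≤ (η / χ ^ 2 + (C2 + 1) * η / χ ^ 2) * (C ^ 5 * χ ^ 2) := by gcongr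
      _ = _ := by
        field_simp
        ring
  rw [e1]
  have h3 : 0 ≤ 10 / κ := by positivity
  exact mul_le_mul_of_nonneg_left (by linarith) h3

lemma term6 {C κ η χ v a2 : ℝ} (hC : 0 < C) (hκ : 0 < κ) (hη : 0 < η) (hχ : 0 < χ) (hv : 0 < v)
    (ha2 : 0 < a2) :
    v * ((η / χ ^ 2) ^ 2 * (C * χ) ^ 2 * (3 * C * Real.sqrt (a2 * χ ^ 2))) /
      (κ * η ^ 2 * v / χ / 10) = 30 * C ^ 3 * Real.sqrt a2 / κ := by
  have h1 : Real.sqrt (a2 * χ ^ 2) = Real.sqrt a2 * χ := by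
    rw [Real.sqrt_mul ha2.le, Real.sqrt_sq hχ.le]
  rw [h1]
  field_simp
  ring

lemma term7 {κ η χ v a2 B C1 C2 : ℝ} (n1 k J : ℕ) (hκ : 0 < κ) (hη : 0 < η) (hχ : 0 < χ) (hv : 0 < v)
    (ha2 : 0 < a2) (hB : 0 < B) (hC1 : 0 < C1) (hC2 : 0 < C2)
    (hn1 : (n1 : ℝ) ≤ C1 * η * v / χ ^ 3 + 1) (hk : (k : ℝ) ≤ η * v / χ ^ 3 + 1)
    (hJ : C2 * η * v / χ ^ 2 ≤ (J : ℝ)) (hth : a2 * κ / (2 * B ^ 2 * χ) ≤ 1) :
    2 ^ (n1 + k) * (1 - a2 * χ ^ 2 * (κ * η ^ 2 * v / χ) / (4 * (B * η * χ) ^ 2 * v)) ^ J ≤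
      Real.exp (Real.log 2 * ((C1 + 1) * η * (v / χ ^ 3) + 2) -
        a2 * κ / (4 * B ^ 2) * C2 * η * (v / χ ^ 3)) := by
  have e1 : a2 * χ ^ 2 * (κ * η ^ 2 * v / χ) / (4 * (B * η * χ) ^ 2 * v) = a2 * κ / (4 * B ^ 2 * χ) := by
    field_simp
  have hth0 : 0 ≤ a2 * κ / (4 * B ^ 2 * χ) := by positivity
  have hth1 : a2 * κ / (4 * B ^ 2 * χ) ≤ 1 := by
    have e2 : a2 * κ / (4 * B ^ 2 * χ) = a2 * κ / (2 * B ^ 2 * χ) / 2 := by
      field_simp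
      ring
    rw [e2]
    linarith
  have hl2 : 0 < Real.log 2 := Real.log_pos (by norm_num)
  have h1 : (1 - a2 * κ / (4 * B ^ 2 * χ)) ^ J ≤
      Real.exp (-(a2 * κ / (4 * B ^ 2) * C2 * η * (v / χ ^ 3))) := by
    have h2 : (1 - a2 * κ / (4 * B ^ 2 * χ)) ^ J ≤ Real.exp (-(a2 * κ / (4 * B ^ 2 * χ))) ^ J :=
      pow_le_pow_left₀ (by linarith) (Real.one_sub_le_exp_neg _) J
    refine h2.trans ?_
    rw [← Real.exp_nat_mul]
    apply Real.exp_le_exp.2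
    have h3 : a2 * κ / (4 * B ^ 2 * χ) * (C2 * η * v / χ ^ 2) ≤ a2 * κ / (4 * B ^ 2 * χ) * J :=
      mul_le_mul_of_nonneg_left hJ hth0
    have h4 : a2 * κ / (4 * B ^ 2 * χ) * (C2 * η * v / χ ^ 2) = a2 * κ / (4 * B ^ 2) * C2 * η * (v / χ ^ 3) := by
      field_simp
    rw [h4] at h3
    linarith
  have h5 : (2 : ℝ) ^ (n1 + k) ≤ Real.exp (Real.log 2 * ((C1 + 1) * η * (v / χ ^ 3) + 2)) := by
    have h6 : (2 : ℝ) ^ (n1 + k) = Real.exp (Real.log 2 * ((n1 : ℝ) + k)) := by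
      have h7 : (2 : ℝ) ^ (n1 + k) = Real.exp (Real.log 2) ^ (n1 + k) := by
        rw [Real.exp_log (by norm_num)]
      rw [h7, ← Real.exp_nat_mul]
      congr 1
      push_cast
      ring
    rw [h6]
    apply Real.exp_le_exp.2
    apply mul_le_mul_of_nonneg_left _ hl2.le
    have h8 : C1 * η * v / χ ^ 3 + η * v / χ ^ 3 = (C1 + 1) * η * (v / χ ^ 3) := by ring
    linarith
  rw [e1, sub_eq_add_neg (Real.log 2 * ((C1 + 1) * η * (v / χ ^ 3) + 2)), Real.exp_add]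
  exact mul_le_mul h5 h1 (pow_nonneg (by linarith) _) (Real.exp_pos _).le

lemma T3_sq {A x y : ℝ} (h1 : 1 ≤ A) (hx : 0 ≤ x) (hy : y ≤ A * x) : y ≤ x * A ^ 2 := by
  have h2 : 0 ≤ A * x := mul_nonneg (by linarith) hx
  calc y ≤ A * x * 1 := by linarith
    _ ≤ A * x * A := mul_le_mul_of_nonneg_left h1 h2
    _ = x * A ^ 2 := by ring

lemma T3_exp {C1 η N l : ℝ} (hC1 : 0 < C1) (hη : 0 < η) (hN : 0 < N) (h7 : 2 - l ≤ η * N) :
    Real.log 2 * ((C1 + 1) * η * N + 2) - 2 * (C1 + 1) * (η * N) ≤ l := by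
  have hlog : Real.log 2 ≤ 1 := by
    have := Real.log_two_lt_d9
    linarith
  have h8 : 0 ≤ (C1 + 1) * η * N + 2 := by positivity
  have h9 : Real.log 2 * ((C1 + 1) * η * N + 2) ≤ 1 * ((C1 + 1) * η * N + 2) :=
    mul_le_mul_of_nonneg_right hlog h8
  have h10 : 0 ≤ C1 * (η * N) := by positivity
  linarith

lemma T3_frac {C η A : ℝ} (hC : 1 ≤ C) (hη : 0 < η) (hA : 0 < A) (h : 2 ≤ A * η) :
    2 * C ^ 4 / (η * A) ≤ C ^ 6 := by
  have hC0 : 0 < C := by linarith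
  rw [div_le_iff₀ (by positivity)]
  have h3 : C ^ 4 ≤ C ^ 6 := pow_le_pow_right₀ hC (by norm_num)
  calc 2 * C ^ 4 ≤ 2 * C ^ 6 := by linarith
    _ ≤ (A * η) * C ^ 6 := mul_le_mul_of_nonneg_right h (by positivity)
    _ = C ^ 6 * (η * A) := by ring

/-- Row T3. The choice of the constants, in this order (`κ = kap c0 a β`): `c` with `30 C³ √(c/C)/κ ≤ ρ/8`, for example `c = C (ρκ/(240 C³))²`;
`a2 = min a ((ρκ/(240 C³))²)`; `B = 160 C⁶/(ρκ)`; `C1 = 8 C/(√a2 ρ)`; `C2 = 2 (C1+1)/(a2 κ/(4 B²))`; `η = min 1 (min (1/a) (ρκ/(160 (C2+2) C⁵)))`;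
`δ = ρκ/(320 C³)`; finally `A0` as the maximum of the finitely many lower bounds: `1`, `1/η`, `256 C³/(β² a² η ρ)`, `320 C⁴/(B κ η ρ)`,
`1/√a2` (or `1/a2`, `A0 ≥ 1`), `√(C/c)` (or `C/c`), `a2 κ/(2 B²)`, `(2 log 2 + log (8/ρ) + 1)/η`. (7): `(a2 κ/(4B²)) C2 = 2 (C1+1)`, so the exponent is
`log 2 ((C1+1) η N + 2) - 2 (C1+1) η N ≤ 2 log 2 - η N ≤ log (ρ/8)` (`log 2 < 1`). -/
lemma choice (C c0 a β ρ : ℝ) (hC : 1 ≤ C) (hc0 : 0 < c0) (ha : 0 < a) (hβ : 0 < β) (hρ : 0 < ρ) :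
    ∃ η c B a2 C1 C2 δ A0 : ℝ, 0 < η ∧ η ≤ 1 ∧ η * a ≤ 1 ∧ 0 < c ∧ 0 < B ∧ 0 < a2 ∧ a2 ≤ a ∧ 0 < C1 ∧
      0 < C2 ∧ 0 < δ ∧ 1 ≤ A0 ∧
      32 * C ^ 3 / (β ^ 2 * a ^ 2 * η * A0) ≤ ρ / 8 ∧
      30 * C ^ 3 * Real.sqrt (c / C) / kap c0 a β ≤ ρ / 8 ∧
      10 / (B * kap c0 a β) * (C ^ 6 + 2 * C ^ 4 / (η * A0)) ≤ ρ / 8 ∧
      C / (Real.sqrt a2 * C1) ≤ ρ / 8 ∧
      10 / kap c0 a β * ((C2 + 2) * η * C ^ 5 + 2 * C ^ 3 * δ) ≤ ρ / 8 ∧
      30 * C ^ 3 * Real.sqrt a2 / kap c0 a β ≤ ρ / 8 ∧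
      (∀ N : ℝ, A0 ≤ N → Real.exp (Real.log 2 * ((C1 + 1) * η * N + 2) -
        a2 * kap c0 a β / (4 * B ^ 2) * C2 * η * N) ≤ ρ / 8) ∧
      1 ≤ a2 * A0 ^ 2 ∧ 1 ≤ c * A0 ^ 2 / C ∧ a2 * kap c0 a β / (2 * B ^ 2 * A0) ≤ 1 ∧ 1 / η ≤ A0 := by
  have hC0 : 0 < C := by linarith
  have hκ0 : 0 < kap c0 a β := by
    unfold kap; positivity
  generalize kap c0 a β = κ at hκ0 ⊢
  have hκ : 0 < κ := hκ0
  obtain ⟨r, hr⟩ : ∃ x : ℝ, x = ρ * κ / (240 * C ^ 3) := ⟨_, rfl⟩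
  have hr0 : 0 < r := by rw [hr]; positivity
  obtain ⟨c, hc⟩ : ∃ x : ℝ, x = C * r ^ 2 := ⟨_, rfl⟩
  have hc1 : 0 < c := by rw [hc]; positivity
  obtain ⟨a2, ha2⟩ : ∃ x : ℝ, x = min a (r ^ 2) := ⟨_, rfl⟩
  have ha2p : 0 < a2 := by rw [ha2]; exact lt_min ha (by positivity)
  have ha2a : a2 ≤ a := by rw [ha2]; exact min_le_left _ _
  have ha2r : a2 ≤ r ^ 2 := by rw [ha2]; exact min_le_right _ _
  have hsq : 0 < Real.sqrt a2 := Real.sqrt_pos.2 ha2p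
  have hsqr : Real.sqrt a2 ≤ r := by
    calc Real.sqrt a2 ≤ Real.sqrt (r ^ 2) := Real.sqrt_le_sqrt ha2r
      _ = r := Real.sqrt_sq hr0.le
  obtain ⟨B, hB⟩ : ∃ x : ℝ, x = 160 * C ^ 6 / (ρ * κ) := ⟨_, rfl⟩
  have hBp : 0 < B := by rw [hB]; positivity
  obtain ⟨C1, hC1⟩ : ∃ x : ℝ, x = 8 * C / (Real.sqrt a2 * ρ) := ⟨_, rfl⟩
  have hC1p : 0 < C1 := by rw [hC1]; positivity
  obtain ⟨C2, hC2⟩ : ∃ x : ℝ, x = 2 * (C1 + 1) / (a2 * κ / (4 * B ^ 2)) := ⟨_, rfl⟩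
  have hC2p : 0 < C2 := by rw [hC2]; positivity
  obtain ⟨q, hq⟩ : ∃ x : ℝ, x = ρ * κ / (160 * (C2 + 2) * C ^ 5) := ⟨_, rfl⟩
  have hqp : 0 < q := by rw [hq]; positivity
  obtain ⟨η, hη⟩ : ∃ x : ℝ, x = min 1 (min (1 / a) q) := ⟨_, rfl⟩
  have hηp : 0 < η := by
    rw [hη]; exact lt_min one_pos (lt_min (by positivity) hqp)
  have hη1 : η ≤ 1 := by rw [hη]; exact min_le_left _ _
  have hηa : η ≤ 1 / a := by rw [hη]; exact le_trans (min_le_right _ _) (min_le_left _ _)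
  have hηq : η ≤ q := by rw [hη]; exact le_trans (min_le_right _ _) (min_le_right _ _)
  obtain ⟨δ, hδ⟩ : ∃ x : ℝ, x = ρ * κ / (320 * C ^ 3) := ⟨_, rfl⟩
  have hδp : 0 < δ := by rw [hδ]; positivity
  obtain ⟨T1, hT1⟩ : ∃ x : ℝ, x = 256 * C ^ 3 / (β ^ 2 * a ^ 2 * η * ρ) := ⟨_, rfl⟩
  have hT1p : 0 < T1 := by rw [hT1]; positivity
  obtain ⟨T2, hT2⟩ : ∃ x : ℝ, x = a2 * κ / (2 * B ^ 2) := ⟨_, rfl⟩
  have hT2p : 0 < T2 := by rw [hT2]; positivity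
  obtain ⟨T3, hT3⟩ : ∃ x : ℝ, x = |2 - Real.log (ρ / 8)| / η := ⟨_, rfl⟩
  have hT3p : 0 ≤ T3 := by rw [hT3]; positivity
  have hT4p : 0 < 2 / η := by positivity
  have hT5p : 0 < 1 / a2 := by positivity
  have hT6p : 0 < C / c := by positivity
  obtain ⟨A0, hA0⟩ : ∃ x : ℝ, x = 1 + 2 / η + T1 + T2 + T3 + 1 / a2 + C / c := ⟨_, rfl⟩
  have hA1 : 1 ≤ A0 := by rw [hA0]; linarith
  have hA2 : 2 / η ≤ A0 := by rw [hA0]; linarith
  have hA3 : T1 ≤ A0 := by rw [hA0]; linarith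
  have hA4 : T2 ≤ A0 := by rw [hA0]; linarith
  have hA5 : T3 ≤ A0 := by rw [hA0]; linarith
  have hA6 : 1 / a2 ≤ A0 := by rw [hA0]; linarith
  have hA7 : C / c ≤ A0 := by rw [hA0]; linarith
  have hA0p : 0 < A0 := by linarith
  refine ⟨η, c, B, a2, C1, C2, δ, A0, hηp, hη1, ?_, hc1, hBp, ha2p, ha2a, hC1p, hC2p, hδp, hA1,
    ?_, ?_, ?_, ?_, ?_, ?_, ?_, ?_, ?_, ?_, ?_⟩
  · rw [le_div_iff₀ ha] at hηa
    exact hηa
  · -- (1)
    rw [hT1, div_le_iff₀ (by positivity)] at hA3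
    rw [div_le_iff₀ (by positivity)]
    linarith [hA3]
  · -- (2)
    have e1 : c / C = r ^ 2 := by rw [hc]; field_simp
    rw [e1, Real.sqrt_sq hr0.le]
    apply le_of_eq
    rw [hr]
    field_simp
    norm_num
  · -- (3)
    have h2 : 2 * C ^ 4 / (η * A0) ≤ C ^ 6 := by
      rw [div_le_iff₀ hηp] at hA2
      exact T3_frac hC hηp hA0p hA2
    calc 10 / (B * κ) * (C ^ 6 + 2 * C ^ 4 / (η * A0)) ≤ 10 / (B * κ) * (C ^ 6 + C ^ 6) := by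
          apply mul_le_mul_of_nonneg_left _ (by positivity)
          linarith
      _ = ρ / 8 := by
          rw [hB]
          field_simp
          norm_num
      _ ≤ ρ / 8 := le_refl _
  · -- (4)
    apply le_of_eq
    rw [hC1]
    field_simp
  · -- (5)
    have h2 : (C2 + 2) * η * C ^ 5 ≤ ρ * κ / 160 := by
      calc (C2 + 2) * η * C ^ 5 ≤ (C2 + 2) * q * C ^ 5 := by gcongr
        _ = ρ * κ / 160 := by rw [hq]; field_simp
    have h3 : 2 * C ^ 3 * δ = ρ * κ / 160 := by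
      rw [hδ]; field_simp; norm_num
    calc 10 / κ * ((C2 + 2) * η * C ^ 5 + 2 * C ^ 3 * δ) ≤ 10 / κ * (ρ * κ / 160 + ρ * κ / 160) := by
          apply mul_le_mul_of_nonneg_left _ (by positivity)
          linarith
      _ = ρ / 8 := by field_simp; norm_num
      _ ≤ ρ / 8 := le_refl _
  · -- (6)
    calc 30 * C ^ 3 * Real.sqrt a2 / κ ≤ 30 * C ^ 3 * r / κ := by gcongr
      _ = ρ / 8 := by
          rw [hr]; field_simp; norm_num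
      _ ≤ ρ / 8 := le_refl _
  · -- (7)
    intro N hN
    have hN0 : 0 < N := by linarith
    have e1 : a2 * κ / (4 * B ^ 2) * C2 = 2 * (C1 + 1) := by
      rw [hC2]
      field_simp
    have e2 : a2 * κ / (4 * B ^ 2) * C2 * η * N = 2 * (C1 + 1) * (η * N) := by
      rw [e1]; ring
    rw [e2]
    have h5 : |2 - Real.log (ρ / 8)| ≤ η * N := by
      have h6 : T3 ≤ N := le_trans hA5 hN
      rw [hT3, div_le_iff₀ hηp] at h6
      linarith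
    have h7 := le_trans (le_abs_self _) h5
    calc Real.exp (Real.log 2 * ((C1 + 1) * η * N + 2) - 2 * (C1 + 1) * (η * N)) ≤
          Real.exp (Real.log (ρ / 8)) := by
          exact Real.exp_le_exp.2 (T3_exp hC1p hηp hN0 h7)
      _ = ρ / 8 := Real.exp_log (by positivity)
  · -- a2
    rw [div_le_iff₀ ha2p] at hA6
    exact T3_sq hA1 ha2p.le hA6
  · -- c
    rw [div_le_iff₀ hc1] at hA7
    rw [le_div_iff₀ hC0]
    rw [one_mul]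
    exact T3_sq hA1 hc1.le hA7
  · -- T2
    rw [hT2, div_le_iff₀ (by positivity)] at hA4
    rw [div_le_iff₀ (by positivity)]
    linarith
  · refine le_trans ?_ hA2
    gcongr
    norm_num

lemma T4_exp {x r : ℝ} (hr : 0 < r) (h : 1 / r ≤ x) : Real.exp (-x) ≤ r := by
  have h0 : 0 < 1 / r := by positivity
  have hx : 0 < x := by linarith
  have h1 : x ≤ Real.exp x := by
    have := Real.add_one_le_exp x
    linarith
  rw [Real.exp_neg]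
  have h2 : 1 / r ≤ Real.exp x := h.trans h1
  rw [one_div, inv_le_comm₀ hr (Real.exp_pos x)] at h2
  exact h2

/-- Row T4. Constants for the contacts and the sprinkling. `K0 ≥ 1` is the constant of `surgery_all`. Choose `C6 = 3 C/(a2 √a2 ρ)`,
`κ1 = c5/(12 L K0)` (`L ≥ 1`), `K = 4 C6/κ1`, `M' = ⌊c5 v/(2 L χ²)⌋₊`, `kk = ⌊M'/(3 K0)⌋₊`, `n0 = ⌈C6 v/χ³⌉₊`. For `A1` large: `kk ≥ κ1 v/χ²` (this is large since
`v ≥ A1 χ³`), `n0 ≤ 2 C6 v/χ³`. Then: (second) `v C/(a2^(3/2) χ³ n0) ≤ C/(a2^(3/2) C6) = ρ/3`; (third) `K0 kk/M' ≤ 1/3 ≤ exp (-1)`, so the term is at most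
`exp (2 n0 log (v+1) - kk) ≤ exp (4 C6 v/(A1 χ²) - κ1 v/χ²) ≤ exp (-κ1 v/(2 χ²))`; (fourth) at most `exp (n0 log 2 - K kk/χ) ≤ exp ((2 log 2 - 4) C6 v/χ³)`. -/
lemma cut_const (C a2 c5 K0 ρ : ℝ) (L : ℕ) (hL : 1 ≤ L) (hC : 0 < C) (ha2 : 0 < a2) (hc5 : 0 < c5)
    (hK0 : 1 ≤ K0) (hρ : 0 < ρ) :
    ∃ K A1 : ℝ, 0 < K ∧ 1 ≤ A1 ∧ ∀ χ v : ℝ, A1 ≤ χ → A1 * χ ^ 3 ≤ v → A1 * Real.log (v + 1) ≤ χ →
      K / χ ≤ 1 ∧ ∃ M' kk n0 : ℕ, 1 ≤ kk ∧ kk ≤ M' ∧ 1 ≤ n0 ∧ 2 * ((L : ℝ) * M') ≤ c5 * v / χ ^ 2 ∧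
        v * (C / (a2 * χ ^ 2 * Real.sqrt (a2 * χ ^ 2))) / n0 ≤ ρ / 3 ∧
        (v + 1) ^ (2 * n0) * (K0 * ((kk : ℝ) / M')) ^ kk ≤ ρ / 3 ∧
        2 ^ n0 * (1 - K / χ) ^ kk ≤ ρ / 3 := by
  have hL1 : (1 : ℝ) ≤ (L : ℝ) := by exact_mod_cast hL
  have hL0 : (0 : ℝ) < (L : ℝ) := by linarith
  have hK00 : 0 < K0 := by linarith
  have hs0 : 0 < Real.sqrt a2 := Real.sqrt_pos.2 ha2
  obtain ⟨C6, hC6⟩ : ∃ C6 : ℝ, C6 = 3 * C / (a2 * Real.sqrt a2 * ρ) := ⟨_, rfl⟩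
  have hC60 : 0 < C6 := by rw [hC6]; positivity
  obtain ⟨κ, hκ⟩ : ∃ κ : ℝ, κ = c5 / (12 * L * K0) := ⟨_, rfl⟩
  have hκ0 : 0 < κ := by rw [hκ]; positivity
  obtain ⟨K, hK⟩ : ∃ K : ℝ, K = 4 * C6 / κ := ⟨_, rfl⟩
  have hK1 : 0 < K := by rw [hK]; positivity
  have p1 : 0 < 2 / κ := by positivity
  have p2 : 0 < 1 / C6 := by positivity
  have p3 : 0 < 8 * C6 / κ := by positivity
  have p4 : 0 < 6 / (ρ * κ) := by positivity
  have p5 : 0 < 3 / (C6 * ρ) := by positivity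
  refine ⟨K, 1 + K + 2 / κ + 1 / C6 + 8 * C6 / κ + 6 / (ρ * κ) + 3 / (C6 * ρ), hK1, by linarith, ?_⟩
  intro χ v h1 h2 h3
  obtain ⟨A1, hA1⟩ : ∃ A1 : ℝ, A1 = 1 + K + 2 / κ + 1 / C6 + 8 * C6 / κ + 6 / (ρ * κ) + 3 / (C6 * ρ) :=
    ⟨_, rfl⟩
  rw [← hA1] at h1 h2 h3
  have q0 : 1 ≤ A1 := by linarith
  have qK : K ≤ A1 := by linarith
  have q1 : 2 / κ ≤ A1 := by linarith
  have q2 : 1 / C6 ≤ A1 := by linarith
  have q3 : 8 * C6 / κ ≤ A1 := by linarith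
  have q4 : 6 / (ρ * κ) ≤ A1 := by linarith
  have q5 : 3 / (C6 * ρ) ≤ A1 := by linarith
  rw [div_le_iff₀ hκ0] at q1 q3
  rw [div_le_iff₀ hC60] at q2
  rw [div_le_iff₀ (by positivity)] at q4 q5
  have hA0 : 0 < A1 := by linarith
  have hχ1 : 1 ≤ χ := by linarith
  have hχ0 : 0 < χ := by linarith
  have hv0 : 0 < v := lt_of_lt_of_le (by positivity) h2
  -- the two ratios
  obtain ⟨X, hX⟩ : ∃ X : ℝ, X = v / χ ^ 2 := ⟨_, rfl⟩
  obtain ⟨N, hN⟩ : ∃ N : ℝ, N = v / χ ^ 3 := ⟨_, rfl⟩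
  have hXN : X = χ * N := by rw [hX, hN]; field_simp
  have hNA : A1 ≤ N := by
    rw [hN, le_div_iff₀ (by positivity)]
    exact h2
  have hN0 : 0 < N := by linarith
  have hXA : A1 ≤ X := by
    rw [hXN]
    exact le_trans hNA (le_mul_of_one_le_left hN0.le hχ1)
  have hX0 : 0 < X := by linarith
  have hKχ : K / χ ≤ 1 := by
    rw [div_le_one hχ0]
    linarith
  refine ⟨hKχ, ?_⟩
  obtain ⟨M', hM'⟩ : ∃ M' : ℕ, M' = ⌊c5 * X / (2 * L)⌋₊ := ⟨_, rfl⟩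
  obtain ⟨kk, hkk⟩ : ∃ kk : ℕ, kk = ⌊(M' : ℝ) / (3 * K0)⌋₊ := ⟨_, rfl⟩
  obtain ⟨n0, hn0⟩ : ∃ n0 : ℕ, n0 = ⌈C6 * N⌉₊ := ⟨_, rfl⟩
  have hM'le : (M' : ℝ) ≤ c5 * X / (2 * L) := by
    rw [hM']
    exact Nat.floor_le (by positivity)
  have hM'ge : c5 * X / (2 * L) - 1 ≤ (M' : ℝ) := by
    rw [hM']
    exact (Nat.sub_one_lt_floor _).le
  have hkkle : (kk : ℝ) ≤ (M' : ℝ) / (3 * K0) := by
    rw [hkk]
    exact Nat.floor_le (by positivity)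
  have hkkge : (M' : ℝ) / (3 * K0) - 1 ≤ (kk : ℝ) := by
    rw [hkk]
    exact (Nat.sub_one_lt_floor _).le
  have hn0ge : C6 * N ≤ (n0 : ℝ) := by
    rw [hn0]
    exact Nat.le_ceil _
  have hn0le : (n0 : ℝ) ≤ 2 * (C6 * N) := by
    have h4 : (n0 : ℝ) < C6 * N + 1 := by
      rw [hn0]
      exact Nat.ceil_lt_add_one (by positivity)
    have h5 : 1 ≤ C6 * N := by
      have h6 := mul_le_mul_of_nonneg_right hNA hC60.le
      linarith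
    linarith
  have hkkX : κ * X ≤ (kk : ℝ) := by
    refine le_trans ?_ hkkge
    have h4 : (c5 * X / (2 * L) - 1) / (3 * K0) ≤ (M' : ℝ) / (3 * K0) :=
      div_le_div_of_nonneg_right hM'ge (by positivity)
    have h5 : (c5 * X / (2 * L) - 1) / (3 * K0) = 2 * (κ * X) - 1 / (3 * K0) := by
      rw [hκ]
      field_simp
      ring
    have h6 : 1 / (3 * K0) ≤ 1 := by
      rw [div_le_one (by positivity)]
      linarith
    have h7 : 2 ≤ κ * X := by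
      have h8 := mul_le_mul_of_nonneg_right hXA hκ0.le
      linarith
    linarith
  have hκX0 : 0 < κ * X := by positivity
  have hkk0 : (0 : ℝ) < (kk : ℝ) := lt_of_lt_of_le hκX0 hkkX
  have hkk1 : 1 ≤ kk := by
    have : 0 < kk := by exact_mod_cast hkk0
    omega
  have hkkM : (kk : ℝ) ≤ (M' : ℝ) := by
    refine hkkle.trans ?_
    rw [div_le_iff₀ (by positivity)]
    have : (0 : ℝ) ≤ (M' : ℝ) := Nat.cast_nonneg _
    exact le_mul_of_one_le_right this (by linarith)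
  have hM'0 : (0 : ℝ) < (M' : ℝ) := lt_of_lt_of_le hkk0 hkkM
  have hn00 : (0 : ℝ) < (n0 : ℝ) := lt_of_lt_of_le (by positivity) hn0ge
  refine ⟨M', kk, n0, hkk1, by exact_mod_cast hkkM, ?_, ?_, ?_, ?_, ?_⟩
  · have : 0 < n0 := by exact_mod_cast hn00
    omega
  · have h4 : c5 * v / χ ^ 2 = c5 * X := by rw [hX]; ring
    rw [h4]
    rw [le_div_iff₀ (by positivity)] at hM'le
    linarith
  · -- the first term
    have h4 : Real.sqrt (a2 * χ ^ 2) = Real.sqrt a2 * χ := by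
      rw [Real.sqrt_mul ha2.le, Real.sqrt_sq hχ0.le]
    rw [h4]
    have h5 : v * (C / (a2 * χ ^ 2 * (Real.sqrt a2 * χ))) / n0 =
        (C / (a2 * Real.sqrt a2)) * N / n0 := by
      rw [hN]
      field_simp
    rw [h5, div_le_iff₀ hn00]
    have h6 : C / (a2 * Real.sqrt a2) = ρ / 3 * C6 := by
      rw [hC6]
      field_simp
    rw [h6]
    have h7 := mul_le_mul_of_nonneg_left hn0ge (by positivity : 0 ≤ ρ / 3)
    linarith
  · -- the second term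
    have hlog : Real.log (v + 1) ≤ χ / A1 := by
      rw [le_div_iff₀ hA0]
      linarith
    have hlog0 : 0 ≤ Real.log (v + 1) := Real.log_nonneg (by linarith)
    have e1 : (v + 1) ^ (2 * n0) = Real.exp ((2 * n0 : ℕ) * Real.log (v + 1)) := by
      rw [Real.exp_nat_mul, Real.exp_log (by linarith)]
    have e2 : ((2 * n0 : ℕ) : ℝ) * Real.log (v + 1) ≤ 4 * C6 * X / A1 := by
      push_cast
      calc 2 * (n0 : ℝ) * Real.log (v + 1) ≤ 2 * (2 * (C6 * N)) * (χ / A1) :=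
            mul_le_mul (by linarith) hlog hlog0 (by positivity)
        _ = 4 * C6 * X / A1 := by rw [hXN]; ring
    have e3 : K0 * ((kk : ℝ) / M') ≤ 1 / 3 := by
      rw [le_div_iff₀ (by positivity)] at hkkle
      rw [mul_div_assoc', div_le_iff₀ hM'0]
      linarith
    have e4 : (1 : ℝ) / 3 ≤ Real.exp (-1) := by
      rw [Real.exp_neg, one_div]
      apply inv_anti₀ (Real.exp_pos 1)
      have := Real.exp_one_lt_d9
      linarith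
    have e5 : (K0 * ((kk : ℝ) / M')) ^ kk ≤ Real.exp (-(kk : ℝ)) := by
      calc (K0 * ((kk : ℝ) / M')) ^ kk ≤ (Real.exp (-1)) ^ kk :=
            pow_le_pow_left₀ (by positivity) (e3.trans e4) _
        _ = Real.exp (-(kk : ℝ)) := by
            rw [← Real.exp_nat_mul]
            congr 1
            ring
    have e6 : 4 * C6 * X / A1 ≤ κ / 2 * X := by
      rw [div_le_iff₀ hA0]
      have h7 := mul_le_mul_of_nonneg_right q3 hX0.le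
      linarith
    calc (v + 1) ^ (2 * n0) * (K0 * ((kk : ℝ) / M')) ^ kk ≤
        Real.exp (κ / 2 * X) * Real.exp (-(κ * X)) := by
          apply mul_le_mul _ _ (by positivity) (Real.exp_pos _).le
          · rw [e1]
            exact Real.exp_le_exp.2 (e2.trans e6)
          · exact e5.trans (Real.exp_le_exp.2 (by linarith))
      _ = Real.exp (-(κ / 2 * X)) := by
          rw [← Real.exp_add]
          congr 1
          ring
      _ ≤ ρ / 3 := by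
          apply T4_exp (by positivity)
          have h8 : κ / 2 * A1 ≤ κ / 2 * X := mul_le_mul_of_nonneg_left hXA (by positivity)
          have h9 : 3 / ρ ≤ κ / 2 * A1 := by
            rw [div_le_iff₀ hρ]
            linarith
          have h10 : 1 / (ρ / 3) = 3 / ρ := by rw [one_div_div]
          rw [h10]
          linarith
  · -- the third term
    have f1 : (2 : ℝ) ^ n0 = Real.exp ((n0 : ℝ) * Real.log 2) := by
      rw [Real.exp_nat_mul, Real.exp_log (by norm_num)]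
    have f2 : (1 - K / χ) ^ kk ≤ Real.exp (-(K / χ * kk)) := by
      have h4 : 1 - K / χ ≤ Real.exp (-(K / χ)) := by
        have := Real.add_one_le_exp (-(K / χ))
        linarith
      calc (1 - K / χ) ^ kk ≤ (Real.exp (-(K / χ))) ^ kk :=
            pow_le_pow_left₀ (by linarith) h4 _
        _ = Real.exp (-(K / χ * kk)) := by
            rw [← Real.exp_nat_mul]
            congr 1
            ring
    have f3 : 4 * (C6 * N) ≤ K / χ * kk := by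
      have h4 : K / χ * (κ * X) = 4 * (C6 * N) := by
        rw [hK, hXN]
        field_simp
      rw [← h4]
      exact mul_le_mul_of_nonneg_left hkkX (by positivity)
    have hl2 : Real.log 2 < 1 := by
      have := Real.log_two_lt_d9
      linarith
    have hl20 : 0 ≤ Real.log 2 := Real.log_nonneg (by norm_num)
    have f4 : (n0 : ℝ) * Real.log 2 ≤ 2 * (C6 * N) := by
      have : (n0 : ℝ) * Real.log 2 ≤ (n0 : ℝ) * 1 := mul_le_mul_of_nonneg_left hl2.le hn00.le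
      linarith
    calc 2 ^ n0 * (1 - K / χ) ^ kk ≤ Real.exp (2 * (C6 * N)) * Real.exp (-(4 * (C6 * N))) := by
          apply mul_le_mul _ _ (pow_nonneg (by linarith) _) (Real.exp_pos _).le
          · rw [f1]
            exact Real.exp_le_exp.2 f4
          · exact f2.trans (Real.exp_le_exp.2 (by linarith))
      _ = Real.exp (-(2 * (C6 * N))) := by
          rw [← Real.exp_add]
          congr 1
          ring
      _ ≤ ρ / 3 := by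
          apply T4_exp (by positivity)
          have h8 : C6 * A1 ≤ C6 * N := mul_le_mul_of_nonneg_left hNA hC60.le
          have h9 : 3 / ρ ≤ C6 * A1 := by
            rw [div_le_iff₀ hρ]
            linarith
          have h10 : 1 / (ρ / 3) = 3 / ρ := by rw [one_div_div]
          have h11 : 0 < 3 / ρ := by positivity
          rw [h10]
          linarith

end Pool.Agent.PERC29.AE
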