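import Pool.Agent.Lib.MP_29e17e_pr.V.Xp

set_option autoImplicit false
set_option linter.unusedSectionVars false

/-! Rows 29v-S1, 29v-S2: many vertices have a large cluster. -/

open Finset

namespace Pool.Agent.PERC29.AE

variable {V : Type*} [Fintype V] [DecidableEq V] {E : Type*} [Fintype E] [DecidableEq E]
  {ends : E → Sym2 V}

open scoped Classical in
/-- Row S1. `c |B| ≤ ∑ y ∈ B, ta x y ≤ E |C(x)|` (`ta_sum`) and `|C| ≤ min |C| A2 + |C| 1[A2 ≤ |C|]`, `E min ≤ 3 C √A2` (`min_tail`), and by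
Cauchy-Schwarz (`Ex_csq`) `(E |C| 1[A2 ≤ |C|])² ≤ E |C|² P(A2 ≤ |C|) ≤ X³ P(A2 ≤ |C|)` (`second_moment2`). -/
lemma large_prob {p X C A2 c : ℝ} (h0 : 0 ≤ p) (h1 : p ≤ 1) (hC : 0 ≤ C) (hX0 : 0 < X) (hA : 1 ≤ A2)
    (hX : ∀ x, Ex p (fun ω => cz ends ω x) ≤ X)
    (hT : ∀ x, ∀ k : ℕ, 1 ≤ k → Ex p (fun ω => if (k : ℝ) ≤ cz ends ω x then (1 : ℝ) else 0) ≤
      C / Real.sqrt k) (B : Finset V) (x : V) (hB : ∀ y ∈ B, c ≤ ta ends p x y)
    (hc : 3 * C * Real.sqrt A2 ≤ c * (B.card : ℝ)) :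
    (c * (B.card : ℝ) - 3 * C * Real.sqrt A2) ^ 2 / X ^ 3 ≤
      Ex p (fun ω => if A2 ≤ cz ends ω x then (1 : ℝ) else 0) := by
  have h3 : c * (B.card : ℝ) ≤ Ex p (fun ω => cz ends ω x) := by
    rw [← ta_sum]
    calc c * (B.card : ℝ) = ∑ _y ∈ B, c := by rw [Finset.sum_const, nsmul_eq_mul, mul_comm]
      _ ≤ ∑ y ∈ B, ta ends p x y := Finset.sum_le_sum hB
      _ ≤ ∑ y, ta ends p x y :=
        Finset.sum_le_sum_of_subset_of_nonneg (Finset.subset_univ _) fun y _ _ => ta_nonneg h0 h1 x y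
  have h4 : Ex p (fun ω => cz ends ω x) ≤ Ex p (fun ω => min (cz ends ω x) A2) +
      Ex p (fun ω => cz ends ω x * (if A2 ≤ cz ends ω x then (1 : ℝ) else 0)) := by
    rw [← Ex_add]
    refine Ex_mono h0 h1 fun ω => ?_
    by_cases hA2 : A2 ≤ cz ends ω x
    · rw [if_pos hA2, mul_one]
      have : 0 ≤ min (cz ends ω x) A2 := le_min (cz_nonneg ω x) (by linarith)
      linarith
    · rw [if_neg hA2, mul_zero, add_zero, min_eq_left (by linarith [not_le.mp hA2])]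
  have h5 := min_tail (ends := ends) h0 h1 hC x (fun k hk => hT x k hk) hA
  have h6 := Ex_csq h0 h1 (fun ω => cz ends ω x) (fun ω => if A2 ≤ cz ends ω x then (1 : ℝ) else 0)
  have h7 := second_moment2 (ends := ends) h0 h1 hX x
  have h8 : Ex p (fun ω => (if A2 ≤ cz ends ω x then (1 : ℝ) else 0) ^ 2) =
      Ex p (fun ω => if A2 ≤ cz ends ω x then (1 : ℝ) else 0) := by
    refine Ex_congr fun ω => ?_
    split_ifs <;> norm_num
  rw [h8] at h6
  have h9 : 0 ≤ Ex p (fun ω => if A2 ≤ cz ends ω x then (1 : ℝ) else 0) :=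
    Ex_nonneg h0 h1 fun ω => by split_ifs <;> norm_num
  have h10 : 0 < X ^ 3 := by positivity
  have h11 : c * (B.card : ℝ) - 3 * C * Real.sqrt A2 ≤
      Ex p (fun ω => cz ends ω x * (if A2 ≤ cz ends ω x then (1 : ℝ) else 0)) := by linarith
  have h12 : (c * (B.card : ℝ) - 3 * C * Real.sqrt A2) ^ 2 ≤
      Ex p (fun ω => cz ends ω x * (if A2 ≤ cz ends ω x then (1 : ℝ) else 0)) ^ 2 :=
    pow_le_pow_left₀ (by linarith) h11 2
  rw [div_le_iff₀ h10]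
  calc (c * (B.card : ℝ) - 3 * C * Real.sqrt A2) ^ 2
      ≤ Ex p (fun ω => cz ends ω x ^ 2) *
        Ex p (fun ω => if A2 ≤ cz ends ω x then (1 : ℝ) else 0) := h12.trans h6
    _ ≤ X ^ 3 * Ex p (fun ω => if A2 ≤ cz ends ω x then (1 : ℝ) else 0) :=
        mul_le_mul_of_nonneg_right h7 h9
    _ = _ := mul_comm _ _

/-- The indicator of a large cluster at `x`. -/
private noncomputable def S2_I (A2 : ℝ) (A : Finset V) : ℝ := by
  classical
  exact if A2 ≤ (A.card : ℝ) then 1 else 0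

private lemma S2_I_nonneg (A2 : ℝ) (A : Finset V) : 0 ≤ S2_I A2 A := by
  unfold S2_I
  split_ifs <;> norm_num

private lemma S2_I_le (A2 : ℝ) (A : Finset V) : S2_I A2 A ≤ 1 := by
  unfold S2_I
  split_ifs <;> norm_num

private lemma S2_I_mono (A2 : ℝ) (A B : Finset V) (h : A ⊆ B) : S2_I A2 A ≤ S2_I A2 B := by
  unfold S2_I
  have hc : (A.card : ℝ) ≤ (B.card : ℝ) := by exact_mod_cast Finset.card_le_card h
  split_ifs with h1 h2
  · exact le_refl _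
  · exact absurd (h1.trans hc) h2
  · norm_num
  · exact le_refl _

/-- The pairs. -/
private lemma S2_pair {p : ℝ} (h0 : 0 ≤ p) (h1 : p ≤ 1) (A2 : ℝ) (x y : V) :
    Ex p (fun ω => S2_I A2 (cu ends ω x) * S2_I A2 (cu ends ω y)) ≤
      ta ends p x y + Ex p (fun ω => S2_I A2 (cu ends ω x)) * Ex p (fun ω => S2_I A2 (cu ends ω y)) := by
  have h2 := two (ends := ends) h0 h1 x y (S2_I A2) (S2_I_nonneg A2) (S2_I A2) (S2_I_nonneg A2) (S2_I_mono A2)
  have h3 : Ex p (fun ω => S2_I A2 (cu ends ω x) * S2_I A2 (cu ends ω y)) ≤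
      Ex p (fun ω => (if y ∈ cu ends ω x then (1 : ℝ) else 0) +
        (if y ∈ cu ends ω x then 0 else 1) * (S2_I A2 (cu ends ω x) * S2_I A2 (cu ends ω y))) := by
    apply Ex_mono h0 h1
    intro ω
    by_cases hy : y ∈ cu ends ω x
    · rw [if_pos hy, if_pos hy, zero_mul, add_zero]
      have ha := S2_I_le A2 (cu ends ω x)
      have hb := S2_I_le A2 (cu ends ω y)
      have hc := S2_I_nonneg A2 (cu ends ω x)
      have hd := S2_I_nonneg A2 (cu ends ω y)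
      nlinarith
    · rw [if_neg hy, if_neg hy, one_mul, zero_add]
  rw [Ex_add] at h3
  refine h3.trans ?_
  unfold ta
  linarith

open scoped Classical in
/-- Row S2. Second moment. `N = #{x ∈ B | A2 ≤ |C(x)|}`, `E N² = ∑ x y ∈ B, P(A2 ≤ |C(x)|, A2 ≤ |C(y)|)`; the pairs in the same cluster
contribute at most `∑ x, E |C(x)| ≤ |V| X`, the pairs in distinct clusters at most `P(A2 ≤ |C(x)|) P(A2 ≤ |C(y)|)` (`two` with the
indicators). So `Var N ≤ |V| X`; `E N ≥ P0 |B| ≥ 2 t`, and `N < t` implies `(N - E N)² ≥ t²`. -/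
lemma large_many {p X A2 t P0 : ℝ} (h0 : 0 ≤ p) (h1 : p ≤ 1) (ht : 0 < t)
    (hX : ∀ x, Ex p (fun ω => cz ends ω x) ≤ X) (B : Finset V)
    (hP : ∀ x ∈ B, P0 ≤ Ex p (fun ω => if A2 ≤ cz ends ω x then (1 : ℝ) else 0))
    (h2 : 2 * t ≤ P0 * (B.card : ℝ)) :
    Ex p (fun ω => if ((B.filter (fun x => A2 ≤ cz ends ω x)).card : ℝ) < t then (1 : ℝ) else 0) ≤
      Fintype.card V * X / t ^ 2 := by
  have hI : ∀ (ω : E → Bool) (x : V), (if A2 ≤ cz ends ω x then (1 : ℝ) else 0) = S2_I A2 (cu ends ω x) := by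
    intro ω x
    unfold S2_I cz
    by_cases h : A2 ≤ ((cu ends ω x).card : ℝ)
    · simp only [if_pos h]
    · simp only [if_neg h]
  have hN : ∀ ω : E → Bool, ((B.filter (fun x => A2 ≤ cz ends ω x)).card : ℝ) =
      ∑ x ∈ B, S2_I A2 (cu ends ω x) := by
    intro ω
    rw [Finset.card_filter]
    push_cast
    exact Finset.sum_congr rfl fun x _ => hI ω x
  have hP' : ∀ x ∈ B, P0 ≤ Ex p (fun ω => S2_I A2 (cu ends ω x)) := by
    intro x hx
    refine (hP x hx).trans (le_of_eq ?_)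
    exact Ex_congr fun ω => hI ω x
  obtain ⟨m, hm⟩ : ∃ m : ℝ, m = ∑ x ∈ B, Ex p (fun ω => S2_I A2 (cu ends ω x)) := ⟨_, rfl⟩
  have hm2 : 2 * t ≤ m := by
    have h3 : ∑ _x ∈ B, P0 ≤ ∑ x ∈ B, Ex p (fun ω => S2_I A2 (cu ends ω x)) := Finset.sum_le_sum hP'
    rw [Finset.sum_const, nsmul_eq_mul] at h3
    rw [hm]
    refine h2.trans (le_trans (le_of_eq ?_) h3)
    ring
  have hEN : Ex p (fun ω => ∑ x ∈ B, S2_I A2 (cu ends ω x)) = m := by
    rw [Ex_sum, hm]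
  have hta : ∑ x ∈ B, ∑ y ∈ B, ta ends p x y ≤ Fintype.card V * X := by
    have h3 : ∀ x : V, ∑ y ∈ B, ta ends p x y ≤ X := by
      intro x
      have h4 : ∑ y ∈ B, ta ends p x y ≤ ∑ y, ta ends p x y :=
        Finset.sum_le_sum_of_subset_of_nonneg (Finset.subset_univ _) fun y _ _ => ta_nonneg h0 h1 x y
      rw [ta_sum] at h4
      exact h4.trans (hX x)
    have h5 : ∑ x ∈ B, ∑ y ∈ B, ta ends p x y ≤ ∑ x : V, ∑ y ∈ B, ta ends p x y :=
      Finset.sum_le_sum_of_subset_of_nonneg (Finset.subset_univ _) fun x _ _ =>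
        Finset.sum_nonneg fun y _ => ta_nonneg h0 h1 x y
    have h6 : ∑ x : V, ∑ y ∈ B, ta ends p x y ≤ ∑ _x : V, X := Finset.sum_le_sum fun x _ => h3 x
    rw [Finset.sum_const, Finset.card_univ, nsmul_eq_mul] at h6
    exact h5.trans h6
  have hEN2 : Ex p (fun ω => (∑ x ∈ B, S2_I A2 (cu ends ω x)) * (∑ y ∈ B, S2_I A2 (cu ends ω y))) ≤
      Fintype.card V * X + m * m := by
    have h3 : Ex p (fun ω => (∑ x ∈ B, S2_I A2 (cu ends ω x)) * (∑ y ∈ B, S2_I A2 (cu ends ω y))) =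
        ∑ x ∈ B, ∑ y ∈ B, Ex p (fun ω => S2_I A2 (cu ends ω x) * S2_I A2 (cu ends ω y)) := by
      have h4 : ∀ ω : E → Bool, (∑ x ∈ B, S2_I A2 (cu ends ω x)) * (∑ y ∈ B, S2_I A2 (cu ends ω y)) =
          ∑ x ∈ B, ∑ y ∈ B, S2_I A2 (cu ends ω x) * S2_I A2 (cu ends ω y) := by
        intro ω
        rw [Finset.sum_mul_sum]
      rw [Ex_congr h4, Ex_sum]
      exact Finset.sum_congr rfl fun x _ => Ex_sum _ _ _
    rw [h3]
    have h5 : ∑ x ∈ B, ∑ y ∈ B, Ex p (fun ω => S2_I A2 (cu ends ω x) * S2_I A2 (cu ends ω y)) ≤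
        ∑ x ∈ B, ∑ y ∈ B, (ta ends p x y + Ex p (fun ω => S2_I A2 (cu ends ω x)) *
          Ex p (fun ω => S2_I A2 (cu ends ω y))) :=
      Finset.sum_le_sum fun x _ => Finset.sum_le_sum fun y _ => S2_pair h0 h1 A2 x y
    refine h5.trans ?_
    have h6 : ∑ x ∈ B, ∑ y ∈ B, (ta ends p x y + Ex p (fun ω => S2_I A2 (cu ends ω x)) *
          Ex p (fun ω => S2_I A2 (cu ends ω y))) = ∑ x ∈ B, ∑ y ∈ B, ta ends p x y + m * m := by
      rw [hm, Finset.sum_mul_sum, ← Finset.sum_add_distrib]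
      exact Finset.sum_congr rfl fun x _ => Finset.sum_add_distrib
    rw [h6]
    linarith
  have hvar : Ex p (fun ω => (∑ x ∈ B, S2_I A2 (cu ends ω x) - m) ^ 2) ≤ Fintype.card V * X := by
    have h3 : ∀ ω : E → Bool, (∑ x ∈ B, S2_I A2 (cu ends ω x) - m) ^ 2 =
        (∑ x ∈ B, S2_I A2 (cu ends ω x)) * (∑ y ∈ B, S2_I A2 (cu ends ω y)) +
          ((-2 * m) * (∑ x ∈ B, S2_I A2 (cu ends ω x)) + m ^ 2) := by
      intro ω
      ring
    rw [Ex_congr h3, Ex_add, Ex_add, Ex_mul_left, Ex_const, hEN]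
    nlinarith
  have hpt : ∀ ω : E → Bool, (if ((B.filter (fun x => A2 ≤ cz ends ω x)).card : ℝ) < t then (1 : ℝ) else 0) ≤
      1 / t ^ 2 * (∑ x ∈ B, S2_I A2 (cu ends ω x) - m) ^ 2 := by
    intro ω
    rw [hN ω]
    have ht2 : 0 < t ^ 2 := by positivity
    split_ifs with h
    · rw [one_div, ← div_eq_inv_mul, le_div_iff₀ ht2, one_mul]
      nlinarith
    · positivity
  refine (Ex_mono h0 h1 hpt).trans ?_
  rw [Ex_mul_left]
  have ht3 : 0 ≤ 1 / t ^ 2 := by positivity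
  refine (mul_le_mul_of_nonneg_left hvar ht3).trans (le_of_eq ?_)
  ring

end Pool.Agent.PERC29.AE
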