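import Pool.Agent.Lib.MP_29e17e_pr.U.Su

set_option autoImplicit false
set_option linter.unusedSectionVars false

/-! `surgery_all` with an arbitrary covering number `qc` instead of `r + 1` (the same proof). -/

open Finset

namespace Pool.Agent.PERC29

variable {V : Type*} [Fintype V] [DecidableEq V] {E : Type*} [Fintype E] [DecidableEq E]
  {ends : E → Sym2 V}

open scoped Classical in
/-- The number of the sites whose path uses a contact. -/
lemma G3_sites2 (π : V → ℕ → V) (r qc : ℕ)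
    (hedge : ∀ x, ∀ l < r, ∃ e, ends e = s(π x l, π x (l + 1)))
    (hcov : ∀ v, (Finset.univ.filter (fun x => ∃ l ≤ r, π x l = v)).card ≤ qc)
    (A B : Finset V) (Q : Finset V)
    (hQ : ∀ x ∈ Q, ∃ l < r, π x l ∈ A ∧ π x (l + 1) ∈ B) :
    Q.card ≤ 2 * qc * eb ends A B := by
  have hsub : Q ⊆
      (Finset.univ.filter (fun e => ∃ x ∈ A, ∃ y ∈ B, ends e = s(x, y))).biUnion
        (fun e => Finset.univ.filter (fun x => ∃ l ≤ r, π x l ∈ ends e)) := by
    intro x hx
    obtain ⟨l, hl, h1, h2⟩ := hQ x hx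
    obtain ⟨e, he⟩ := hedge x l hl
    simp only [Finset.mem_biUnion, Finset.mem_filter, Finset.mem_univ, true_and]
    refine ⟨e, ⟨_, h1, _, h2, he⟩, l, hl.le, ?_⟩
    rw [he]
    exact Sym2.mem_mk_left _ _
  calc Q.card ≤ _ := Finset.card_le_card hsub
    _ ≤ _ * (2 * qc) := by
      apply Finset.card_biUnion_le_card_mul
      intro e _
      induction h : ends e using Sym2.ind with
      | _ u v =>
        calc (Finset.univ.filter (fun x => ∃ l ≤ r, π x l ∈ s(u, v))).card
            ≤ (Finset.univ.filter (fun x => ∃ l ≤ r, π x l = u) ∪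
                Finset.univ.filter (fun x => ∃ l ≤ r, π x l = v)).card := by
              apply Finset.card_le_card
              intro x hx
              simp only [Finset.mem_filter, Finset.mem_univ, true_and, Sym2.mem_iff] at hx
              obtain ⟨l, hl, h1 | h1⟩ := hx
              · exact Finset.mem_union_left _ (by simpa using ⟨l, hl, h1⟩)
              · exact Finset.mem_union_right _ (by simpa using ⟨l, hl, h1⟩)
          _ ≤ _ := Finset.card_union_le _ _
          _ ≤ qc + qc := Nat.add_le_add (hcov u) (hcov v)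
          _ = 2 * qc := by ring
    _ = _ := by
      unfold eb
      ring

open scoped Classical in
/-- Row G3. The counting for fixed representatives. Let `S` be the set of the configurations of the event. For `ω ∈ S`
`greedy` (with the relation `Cft`, `R x x` holds) gives a conflict free `X' ω` with `M' ≤ |X' ω|`, `M1 ≤ L * M'..`; here we only
need `hM : M1 ≥ L * M'`, so `|X' ω| ≥ M'`. For every subset `Y` of `X' ω` with `k` elements choose `ω' = F ω Y` by `surgery_one`.
Then `∑_{ω ∈ S} wt p ω * (M'.choose k) ≤ ∑_{(ω,Y)} wt p ω ≤ c ^ (-(D (r+1) k)) ∑_{(ω,Y)} wt p (F ω Y)` (at most `D (r+1) k`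
edges are changed, each changes the weight by a factor at least `c = min p (1-p)`), and every `ω'` is `F ω Y` for at most
`2 ^ R * 2 ^ (D (r+1) k)` pairs: `Y` is a subset of `Q = {x | ∃ l < r, π x l ∈ UC ω' a ∧ π x (l+1) ∈ UC ω' b}`, which has at most
`2 (r+1) eb ≤ R` elements (each edge between the two sets is used by at most `2 (r+1)` sites, by `hcov`), and `ω` is determined
by `ω'`, `Y` and its values at the edges at the paths of `Y`. The sum of all weights is one. -/
lemma surgery_fixed2 {p c : ℝ} (hc0 : 0 < c) (hc1 : c ≤ 1) (hcp : c ≤ p) (hcp' : c ≤ 1 - p)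
    (π : V → ℕ → V) (r qc D L M' k k1 R : ℕ)
    (hedge : ∀ x, ∀ l < r, ∃ e, ends e = s(π x l, π x (l + 1)))
    (hdeg : ∀ v, (Finset.univ.filter (fun e => v ∈ ends e)).card ≤ D)
    (hconf : ∀ x, (Finset.univ.filter (fun x' => Cft ends π r x x')).card ≤ L)
    (hcov : ∀ v, (Finset.univ.filter (fun x => ∃ l ≤ r, π x l = v)).card ≤ qc)
    (hR : 2 * qc * (k1 + D * (r + 1) * k) ≤ R) (hL : 1 ≤ L) (a b : Finset V) :
    Ex p (fun ω => if Disjoint (UC ends ω a) (UC ends ω b) ∧
      L * M' ≤ (Finset.univ.filter (fun x => π x 0 ∈ UC ends ω a ∧ π x r ∈ UC ends ω b)).card ∧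
      eb ends (UC ends ω a) (UC ends ω b) ≤ k1 then (1 : ℝ) else 0) * (M'.choose k : ℝ) ≤
      (2 / c) ^ (D * (r + 1) * k) * 2 ^ R := by
  have hp0 : 0 < p := lt_of_lt_of_le hc0 hcp
  have hp1 : p ≤ 1 := by linarith
  have hg : ∀ ω : E → Bool, ∃ X' : Finset V,
      (L * M' ≤ (Finset.univ.filter
        (fun x => π x 0 ∈ UC ends ω a ∧ π x r ∈ UC ends ω b)).card → M' ≤ X'.card) ∧
      (∀ x ∈ X', π x 0 ∈ UC ends ω a ∧ π x r ∈ UC ends ω b) ∧
      (∀ x ∈ X', ∀ y ∈ X', x ≠ y → ¬ Cft ends π r x y) := by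
    intro ω
    obtain ⟨Y, h1, h2, h3⟩ := greedy (Cft ends π r)
      (fun x y ⟨l, hl, l', hl', h⟩ => ⟨l', hl', l, hl, by
        rcases h with h | ⟨e, he⟩
        · exact Or.inl h.symm
        · exact Or.inr ⟨e, by rw [he, Sym2.eq_swap]⟩⟩)
      (fun x => ⟨0, Nat.zero_le _, 0, Nat.zero_le _, Or.inl rfl⟩)
      (Finset.univ.filter (fun x => π x 0 ∈ UC ends ω a ∧ π x r ∈ UC ends ω b)) L
      (fun x _ => (Finset.card_le_card (by
        intro y hy
        simp only [Finset.mem_filter, Finset.mem_univ, true_and] at hy ⊢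
        exact hy.2)).trans (hconf x))
    refine ⟨Y, fun h => ?_, fun x hx => ?_, h2⟩
    · exact Nat.le_of_mul_le_mul_left (h.trans h3) (by omega)
    · simpa using h1 hx
  choose X' hX1 hX2 hX3 using hg
  have hs : ∀ (ω : E → Bool) (Y : Finset V), ∃ ω' : E → Bool,
      (Disjoint (UC ends ω a) (UC ends ω b) → Y ⊆ X' ω →
      (∀ e, (∀ x ∈ Y, ¬ Inc ends π r x e) → ω' e = ω e) ∧
      (∀ x ∈ Y, ∃ l < r, π x l ∈ UC ends ω' a ∧ π x (l + 1) ∈ UC ends ω' b) ∧
      eb ends (UC ends ω' a) (UC ends ω' b) ≤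
        eb ends (UC ends ω a) (UC ends ω b) + D * (r + 1) * Y.card) := by
    intro ω Y
    by_cases h1 : Disjoint (UC ends ω a) (UC ends ω b)
    · by_cases h2 : Y ⊆ X' ω
      · obtain ⟨ω', h⟩ := surgery_one π r D hedge hdeg ω a b Y h1 (fun x hx => hX2 ω x (h2 hx))
          (fun x hx x' hx' => hX3 ω x (h2 hx) x' (h2 hx'))
        exact ⟨ω', fun _ _ => h⟩
      · exact ⟨ω, fun _ h => absurd h h2⟩
    · exact ⟨ω, fun h => absurd h h1⟩
  choose F hF using hs
  obtain ⟨N, hN⟩ : ∃ N, N = D * (r + 1) * k := ⟨_, rfl⟩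
  rw [← hN]
  obtain ⟨S, hS⟩ : ∃ S : Finset (E → Bool), ∀ ω, ω ∈ S ↔ (Disjoint (UC ends ω a) (UC ends ω b) ∧
      L * M' ≤ (Finset.univ.filter (fun x => π x 0 ∈ UC ends ω a ∧ π x r ∈ UC ends ω b)).card ∧
      eb ends (UC ends ω a) (UC ends ω b) ≤ k1) :=
    ⟨Finset.univ.filter (fun ω => Disjoint (UC ends ω a) (UC ends ω b) ∧
      L * M' ≤ (Finset.univ.filter (fun x => π x 0 ∈ UC ends ω a ∧ π x r ∈ UC ends ω b)).card ∧
      eb ends (UC ends ω a) (UC ends ω b) ≤ k1), fun ω => by
        rw [Finset.mem_filter]; exact ⟨fun h => h.2, fun h => ⟨Finset.mem_univ _, h⟩⟩⟩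
  have e1 : Ex p (fun ω => if Disjoint (UC ends ω a) (UC ends ω b) ∧
      L * M' ≤ (Finset.univ.filter (fun x => π x 0 ∈ UC ends ω a ∧ π x r ∈ UC ends ω b)).card ∧
      eb ends (UC ends ω a) (UC ends ω b) ≤ k1 then (1 : ℝ) else 0) = ∑ ω ∈ S, wt p ω := by
    unfold Ex
    rw [← Finset.sum_subset (Finset.subset_univ S)]
    · apply Finset.sum_congr rfl
      intro ω hω
      beta_reduce
      rw [if_pos ((hS ω).1 hω), mul_one]
    · intro ω _ hω
      beta_reduce
      rw [if_neg (fun h => hω ((hS ω).2 h)), mul_zero]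
  rw [e1]
  obtain ⟨T, hT⟩ : ∃ T : Finset (Σ _ : E → Bool, Finset V),
      T = S.sigma (fun ω => (X' ω).powersetCard k) := ⟨_, rfl⟩
  have hTm : ∀ t ∈ T, t.1 ∈ S ∧ t.2 ⊆ X' t.1 ∧ t.2.card = k := by
    intro t ht
    rw [hT, Finset.mem_sigma, Finset.mem_powersetCard] at ht
    exact ⟨ht.1, ht.2.1, ht.2.2⟩
  have e2 : (∑ ω ∈ S, wt p ω) * (M'.choose k : ℝ) ≤ ∑ t ∈ T, wt p t.1 := by
    rw [hT, Finset.sum_sigma, Finset.sum_mul]
    apply Finset.sum_le_sum
    intro ω hω
    simp only [Finset.sum_const, Finset.card_powersetCard, nsmul_eq_mul]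
    rw [mul_comm]
    apply mul_le_mul_of_nonneg_right _ (wt_nonneg hp0.le hp1 ω)
    exact_mod_cast Nat.choose_le_choose k (hX1 ω ((hS ω).1 hω).2.1)
  have e3 : ∀ t ∈ T, wt p t.1 ≤ (1 / c) ^ N * wt p (F t.1 t.2) := by
    intro t ht
    obtain ⟨h1, h2, h3⟩ := hTm t ht
    have h4 := hF t.1 t.2 ((hS _).1 h1).1 h2
    have h5 := G3_wt hc0 hc1 hcp hcp' t.1 (F t.1 t.2)
      (Finset.univ.filter (fun e => ∃ x ∈ t.2, Inc ends π r x e)) N
      ((G3_edges π r D hdeg t.2).trans (by rw [h3, hN]))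
      (fun e he => h4.1 e (fun x hx hI => he (by
        rw [Finset.mem_filter]; exact ⟨Finset.mem_univ _, x, hx, hI⟩)))
    have hcN : 0 < c ^ N := pow_pos hc0 N
    rw [div_pow, one_pow, one_div, inv_mul_eq_div, le_div_iff₀ hcN]
    exact h5
  have e4 : ∀ ω' : E → Bool, (T.filter (fun t => F t.1 t.2 = ω')).card ≤ 2 ^ N * 2 ^ R := by
    intro ω'
    rcases (T.filter (fun t => F t.1 t.2 = ω')).eq_empty_or_nonempty with h0 | ⟨t0, ht0⟩
    · rw [h0, Finset.card_empty]
      exact Nat.zero_le _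
    obtain ⟨Q, hQ⟩ : ∃ Q : Finset V, Q = Finset.univ.filter
      (fun x => ∃ l < r, π x l ∈ UC ends ω' a ∧ π x (l + 1) ∈ UC ends ω' b) := ⟨_, rfl⟩
    have hQR : Q.card ≤ R := by
      rw [Finset.mem_filter] at ht0
      obtain ⟨h1, h2, h3⟩ := hTm t0 ht0.1
      have h4 := (hF t0.1 t0.2 ((hS _).1 h1).1 h2).2.2
      rw [ht0.2, h3] at h4
      have h5 := G3_sites2 π r qc hedge hcov (UC ends ω' a) (UC ends ω' b) Q (by
        intro x hx
        rw [hQ, Finset.mem_filter] at hx
        exact hx.2)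
      calc Q.card ≤ _ := h5
        _ ≤ 2 * qc * (k1 + D * (r + 1) * k) := by
          apply Nat.mul_le_mul_left
          exact h4.trans (Nat.add_le_add_right ((hS _).1 h1).2.2 _)
        _ ≤ R := hR
    have h6 : (T.filter (fun t => F t.1 t.2 = ω')).card ≤ 2 ^ N * Q.powerset.card := by
      apply Finset.card_le_mul_card_image_of_maps_to (f := fun t => t.2)
      · intro t ht
        rw [Finset.mem_filter] at ht
        obtain ⟨h1, h2, h3⟩ := hTm t ht.1
        have h4 := (hF t.1 t.2 ((hS _).1 h1).1 h2).2.1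
        rw [ht.2] at h4
        rw [Finset.mem_powerset]
        intro x hx
        rw [hQ, Finset.mem_filter]
        exact ⟨Finset.mem_univ _, h4 x hx⟩
      · intro Y _
        by_cases hY : Y.card = k
        · rw [← Finset.card_image_of_injOn (f := fun t : (Σ _ : E → Bool, Finset V) => t.1)]
          · apply G3_cnt (Finset.univ.filter (fun e => ∃ x ∈ Y, Inc ends π r x e)) N
              ((G3_edges π r D hdeg Y).trans (by rw [hY, hN])) ω'
            intro ω hω e he
            rw [Finset.mem_image] at hω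
            obtain ⟨t, ht, rfl⟩ := hω
            rw [Finset.mem_filter, Finset.mem_filter] at ht
            obtain ⟨⟨ht1, ht2⟩, ht3⟩ := ht
            obtain ⟨h1, h2, h3⟩ := hTm t ht1
            have h4 := (hF t.1 t.2 ((hS _).1 h1).1 h2).1
            rw [ht2, ht3] at h4
            exact h4 e (fun x hx hI => he (by
              rw [Finset.mem_filter]; exact ⟨Finset.mem_univ _, x, hx, hI⟩))
          · intro t ht t2 ht2 h
            rw [Finset.mem_coe, Finset.mem_filter] at ht ht2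
            obtain ⟨ω1, Y1⟩ := t
            obtain ⟨ω2, Y2⟩ := t2
            have h7 : Y1 = Y2 := ht.2.trans ht2.2.symm
            simp only at h
            rw [h, h7]
        · have : (T.filter (fun t => F t.1 t.2 = ω')).filter (fun t => t.2 = Y) = ∅ := by
            apply Finset.filter_eq_empty_iff.2
            intro t ht h
            rw [Finset.mem_filter] at ht
            exact hY (by rw [← h]; exact (hTm t ht.1).2.2)
          rw [this, Finset.card_empty]
          exact Nat.zero_le _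
    calc _ ≤ 2 ^ N * Q.powerset.card := h6
      _ ≤ 2 ^ N * 2 ^ R := by
        rw [Finset.card_powerset]
        exact Nat.mul_le_mul_left _ (Nat.pow_le_pow_right (by norm_num) hQR)
  have e5 : ∑ t ∈ T, wt p (F t.1 t.2) ≤ 2 ^ N * 2 ^ R := by
    rw [← Finset.sum_fiberwise T (fun t => F t.1 t.2) (fun t => wt p (F t.1 t.2))]
    calc ∑ ω' : E → Bool, ∑ t ∈ T.filter (fun t => F t.1 t.2 = ω'), wt p (F t.1 t.2)
        ≤ ∑ ω' : E → Bool, (2 ^ N * 2 ^ R) * wt p ω' := by
          apply Finset.sum_le_sum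
          intro ω' _
          have h1 : ∑ t ∈ T.filter (fun t => F t.1 t.2 = ω'), wt p (F t.1 t.2)
              = ((T.filter (fun t => F t.1 t.2 = ω')).card : ℝ) * wt p ω' := by
            rw [← nsmul_eq_mul, ← Finset.sum_const]
            apply Finset.sum_congr rfl
            intro t ht
            rw [(Finset.mem_filter.1 ht).2]
          rw [h1]
          apply mul_le_mul_of_nonneg_right _ (wt_nonneg hp0.le hp1 ω')
          exact_mod_cast e4 ω'
      _ = (2 ^ N * 2 ^ R) * 1 := by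
        rw [← Finset.mul_sum]
        congr 1
        have h1 := Ex_const (E := E) p 1
        unfold Ex at h1
        simpa using h1
      _ = 2 ^ N * 2 ^ R := mul_one _
  calc (∑ ω ∈ S, wt p ω) * (M'.choose k : ℝ) ≤ ∑ t ∈ T, wt p t.1 := e2
    _ ≤ ∑ t ∈ T, (1 / c) ^ N * wt p (F t.1 t.2) := Finset.sum_le_sum e3
    _ = (1 / c) ^ N * ∑ t ∈ T, wt p (F t.1 t.2) := by rw [Finset.mul_sum]
    _ ≤ (1 / c) ^ N * (2 ^ N * 2 ^ R) := by
      apply mul_le_mul_of_nonneg_left e5
      positivity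
    _ = (2 / c) ^ N * 2 ^ R := by
      rw [div_pow, div_pow, one_pow]
      ring

private lemma G4_choose2 (n k : ℕ) (hk : 1 ≤ k) (hkn : k ≤ n) :
    ((n : ℝ) / k) ^ k ≤ (n.choose k : ℝ) := by
  have hk0 : (0 : ℝ) < k := by exact_mod_cast hk
  have h1 : (n.choose k : ℝ) = (n.descFactorial k : ℝ) / (k.factorial : ℝ) := by
    rw [Nat.choose_eq_descFactorial_div_factorial, Nat.cast_div (Nat.factorial_dvd_descFactorial n k)]
    exact_mod_cast k.factorial_ne_zero
  have hf : (0 : ℝ) < (k.factorial : ℝ) := by exact_mod_cast k.factorial_pos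
  rw [h1, div_pow, div_le_div_iff₀ (by positivity) hf]
  have h2 : n ^ k * k.factorial ≤ n.descFactorial k * k ^ k := by
    rw [← Nat.descFactorial_self k, Nat.descFactorial_eq_prod_range, Nat.descFactorial_eq_prod_range]
    rw [← Finset.card_range k]
    simp only [Finset.card_range]
    have e1 : n ^ k = ∏ _i ∈ Finset.range k, n := by simp
    have e2 : k ^ k = ∏ _i ∈ Finset.range k, k := by simp
    rw [e1, e2, ← Finset.prod_mul_distrib, ← Finset.prod_mul_distrib]
    refine Finset.prod_le_prod' fun i hi => ?_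
    have hi' : i < k := Finset.mem_range.1 hi
    obtain ⟨m, rfl⟩ := Nat.exists_eq_add_of_lt hi'
    obtain ⟨t, rfl⟩ := Nat.exists_eq_add_of_le hkn
    have a1 : i + m + 1 - i = m + 1 := by omega
    have a2 : i + m + 1 + t - i = m + 1 + t := by omega
    rw [a1, a2]
    nlinarith
  exact_mod_cast h2

private lemma G4_count2 {V : Type*} [Fintype V] [DecidableEq V] (n0 : ℕ) :
    (Finset.univ.filter (fun a : Finset V => a.card ≤ n0)).card ≤ (Fintype.card V + 1) ^ n0 := by
  classical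
  have h : Finset.univ.filter (fun a : Finset V => a.card ≤ n0) ⊆
      Finset.univ.image (fun f : Fin n0 → Option V => Finset.univ.filter (fun v => ∃ i, f i = some v)) := by
    intro a ha
    rw [Finset.mem_filter] at ha
    rw [Finset.mem_image]
    refine ⟨fun i => a.toList[(i : ℕ)]?, Finset.mem_univ _, ?_⟩
    ext v
    simp only [Finset.mem_filter, Finset.mem_univ, true_and]
    constructor
    · rintro ⟨i, hi⟩
      have := List.mem_of_getElem? hi
      simpa using this
    · intro hv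
      have hv' : v ∈ a.toList := by simpa using hv
      obtain ⟨i, hi⟩ := List.mem_iff_getElem?.1 hv'
      have hlt : i < a.toList.length := by
        by_contra hcon
        rw [List.getElem?_eq_none (by omega)] at hi
        exact absurd hi (by simp)
      rw [Finset.length_toList] at hlt
      exact ⟨⟨i, by omega⟩, hi⟩
  calc _ ≤ _ := Finset.card_le_card h
    _ ≤ _ := Finset.card_image_le
    _ = _ := by simp

open scoped Classical in
/-- Row G4. The union bound over the representatives: there are at most `(|V| + 1) ^ n0` sets with at most `n0` elements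
(for example: the image of the maps `Fin n0 → Option V`), and `(M'.choose k) ≥ (M' / k) ^ k` (`Nat.choose` bounds:
`(n / k) ^ k ≤ n.choose k` for `k ≤ n`). -/
theorem surgery_all2 {p c : ℝ} (hc0 : 0 < c) (hc1 : c ≤ 1) (hcp : c ≤ p) (hcp' : c ≤ 1 - p)
    (π : V → ℕ → V) (r qc D L M' k n0 : ℕ) (hL : 1 ≤ L) (hk : 1 ≤ k) (hkM : k ≤ M')
    (hedge : ∀ x, ∀ l < r, ∃ e, ends e = s(π x l, π x (l + 1)))
    (hdeg : ∀ v, (Finset.univ.filter (fun e => v ∈ ends e)).card ≤ D)
    (hconf : ∀ x, (Finset.univ.filter (fun x' => Cft ends π r x x')).card ≤ L)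
    (hcov : ∀ v, (Finset.univ.filter (fun x => ∃ l ≤ r, π x l = v)).card ≤ qc) :
    Ex p (fun ω => if ∃ a b : Finset V, a.card ≤ n0 ∧ b.card ≤ n0 ∧
        Disjoint (UC ends ω a) (UC ends ω b) ∧
        L * M' ≤ (Finset.univ.filter (fun x => π x 0 ∈ UC ends ω a ∧ π x r ∈ UC ends ω b)).card ∧
        eb ends (UC ends ω a) (UC ends ω b) ≤ k then (1 : ℝ) else 0) ≤
      ((Fintype.card V : ℝ) + 1) ^ (2 * n0) *
        ((2 / c) ^ (D * (r + 1)) * 2 ^ (2 * qc * (1 + D * (r + 1))) * ((k : ℝ) / M')) ^ k := by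
  have hp0 : 0 ≤ p := hc0.le.trans hcp
  have hp1 : p ≤ 1 := by linarith
  have hM0 : (0 : ℝ) < M' := by exact_mod_cast (lt_of_lt_of_le (by omega) hkM : 0 < M')
  have hk0 : (0 : ℝ) < k := by exact_mod_cast (by omega : 0 < k)
  set B : ℝ := (2 / c) ^ (D * (r + 1)) * 2 ^ (2 * qc * (1 + D * (r + 1))) * ((k : ℝ) / M') with hB
  have hB0 : 0 ≤ B := by positivity
  set F : Finset (Finset V) := Finset.univ.filter (fun a : Finset V => a.card ≤ n0) with hF
  let g : Finset V × Finset V → (E → Bool) → ℝ := fun q ω =>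
    if Disjoint (UC ends ω q.1) (UC ends ω q.2) ∧
      L * M' ≤ (Finset.univ.filter (fun x => π x 0 ∈ UC ends ω q.1 ∧ π x r ∈ UC ends ω q.2)).card ∧
      eb ends (UC ends ω q.1) (UC ends ω q.2) ≤ k then (1 : ℝ) else 0
  have hg0 : ∀ q ω, 0 ≤ g q ω := by
    intro q ω
    simp only [g]
    split_ifs
    · exact zero_le_one
    · exact le_rfl
  have hfix : ∀ q, Ex p (g q) ≤ B ^ k := by
    intro q
    have h1 := surgery_fixed2 (E := E) hc0 hc1 hcp hcp' π r qc D L M' k k
      (2 * qc * (k + D * (r + 1) * k)) hedge hdeg hconf hcov le_rfl hL q.1 q.2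
    have h2 := G4_choose2 M' k hk hkM
    have h3 : 0 ≤ Ex p (g q) := Ex_nonneg hp0 hp1 (hg0 q)
    have h4 : Ex p (g q) * ((M' : ℝ) / k) ^ k ≤
        (2 / c) ^ (D * (r + 1) * k) * 2 ^ (2 * qc * (k + D * (r + 1) * k)) :=
      (mul_le_mul_of_nonneg_left h2 h3).trans h1
    have h5 : B ^ k * ((M' : ℝ) / k) ^ k =
        (2 / c) ^ (D * (r + 1) * k) * 2 ^ (2 * qc * (k + D * (r + 1) * k)) := by
      rw [hB, ← mul_pow]
      have e1 : (2 / c) ^ (D * (r + 1)) * 2 ^ (2 * qc * (1 + D * (r + 1))) * ((k : ℝ) / M') *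
          ((M' : ℝ) / k) = (2 / c) ^ (D * (r + 1)) * 2 ^ (2 * qc * (1 + D * (r + 1))) := by
        field_simp
      rw [e1, mul_pow, ← pow_mul, ← pow_mul]
      congr 2
      ring
    have h6 : (0 : ℝ) < ((M' : ℝ) / k) ^ k := by positivity
    rw [← h5] at h4
    exact le_of_mul_le_mul_right h4 h6
  have hun : ∀ ω : E → Bool, (if ∃ a b : Finset V, a.card ≤ n0 ∧ b.card ≤ n0 ∧
        Disjoint (UC ends ω a) (UC ends ω b) ∧
        L * M' ≤ (Finset.univ.filter (fun x => π x 0 ∈ UC ends ω a ∧ π x r ∈ UC ends ω b)).card ∧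
        eb ends (UC ends ω a) (UC ends ω b) ≤ k then (1 : ℝ) else 0) ≤ ∑ q ∈ F ×ˢ F, g q ω := by
    intro ω
    split_ifs with h
    · obtain ⟨a, b, ha, hb, hd, hl, he⟩ := h
      have hq : (a, b) ∈ F ×ˢ F := by
        rw [Finset.mem_product]
        exact ⟨Finset.mem_filter.2 ⟨Finset.mem_univ _, ha⟩, Finset.mem_filter.2 ⟨Finset.mem_univ _, hb⟩⟩
      have h1 : g (a, b) ω = 1 := if_pos ⟨hd, hl, he⟩
      rw [← h1]
      exact Finset.single_le_sum (f := fun q => g q ω) (fun q _ => hg0 q ω) hq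
    · exact Finset.sum_nonneg fun q _ => hg0 q ω
  refine (Ex_mono hp0 hp1 hun).trans ?_
  rw [Ex_sum]
  refine (Finset.sum_le_sum fun q _ => hfix q).trans ?_
  rw [Finset.sum_const, nsmul_eq_mul, Finset.card_product]
  have hcount : ((F.card * F.card : ℕ) : ℝ) ≤ ((Fintype.card V : ℝ) + 1) ^ (2 * n0) := by
    have h1 : F.card ≤ (Fintype.card V + 1) ^ n0 := G4_count2 n0
    have h2 : F.card * F.card ≤ (Fintype.card V + 1) ^ (2 * n0) := by
      rw [two_mul, pow_add]
      exact Nat.mul_le_mul h1 h1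
    exact_mod_cast h2
  exact mul_le_mul_of_nonneg_right hcount (pow_nonneg hB0 k)

end Pool.Agent.PERC29
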