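import Pool.Agent.Lib.MP_29e17e_pr.V.Bx
import Pool.Agent.Lib.MP_29e17e_pr.V.Co
import Pool.Agent.Lib.MP_29e17e_pr.V.Kc
import Pool.Agent.Lib.MP_29e17e_pr.V.La
import Pool.Agent.Lib.MP_29e17e_pr.V.Sg

set_option autoImplicit false
set_option linter.unusedSectionVars false

/-! Rows 29v-G1 .. 29v-G6: consequences of the three hypotheses in a box; the local theorem with constants. -/

open Finset

namespace Pool.Agent.PERC29.AE

section box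

variable {d l : ℕ} [Fintype (boxG d l).edgeSet]

private lemma G1_fk_nonneg (k : ℕ) (x y : Fin d → Fin l) : 0 ≤ fk k x y := by
  unfold fk
  positivity

private lemma G1_fk_symm (k : ℕ) (x y : Fin d → Fin l) : fk k x y = fk k y x := by
  unfold fk
  rw [nd_symm]

private lemma G1_C4_nonneg (d : ℕ) : 0 ≤ C4 d := by
  unfold C4
  positivity

private lemma G1_conv (hd : 9 ≤ d) {p C : ℝ} (h0 : 0 ≤ p) (h1 : p ≤ 1) (hC : 0 ≤ C)
    (hU : ∀ x y, ta (gends (boxG d l)) p x y ≤ C * fk (d - 2) x y) (x u : Fin d → Fin l) :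
    ∑ z, ta (gends (boxG d l)) p x z * ta (gends (boxG d l)) p z u ≤
      C ^ 2 * C4 d * fk (d - 4) x u := by
  have h := conv_f (d := d) (l := l) (by omega) x u
  calc ∑ z, ta (gends (boxG d l)) p x z * ta (gends (boxG d l)) p z u
      ≤ ∑ z, (C * fk (d - 2) x z) * (C * fk (d - 2) z u) :=
        Finset.sum_le_sum fun z _ => mul_le_mul (hU x z) (hU z u) (ta_nonneg h0 h1 z u)
          (mul_nonneg hC (G1_fk_nonneg _ _ _))
    _ = C ^ 2 * ∑ z, fk (d - 2) x z * fk (d - 2) z u := by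
        rw [Finset.mul_sum]
        exact Finset.sum_congr rfl fun z _ => by ring
    _ ≤ C ^ 2 * (C4 d * fk (d - 4) x u) := mul_le_mul_of_nonneg_left h (by positivity)
    _ = _ := by ring

private lemma G1_conv' (hd : 9 ≤ d) {p C : ℝ} (h0 : 0 ≤ p) (h1 : p ≤ 1) (hC : 0 ≤ C)
    (hU : ∀ x y, ta (gends (boxG d l)) p x y ≤ C * fk (d - 2) x y) (x u : Fin d → Fin l) :
    ∑ z, ta (gends (boxG d l)) p x z * ta (gends (boxG d l)) p u z ≤
      C ^ 2 * C4 d * fk (d - 4) x u := by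
  have h := conv_f (d := d) (l := l) (by omega) x u
  calc ∑ z, ta (gends (boxG d l)) p x z * ta (gends (boxG d l)) p u z
      ≤ ∑ z, (C * fk (d - 2) x z) * (C * fk (d - 2) z u) :=
        Finset.sum_le_sum fun z _ => mul_le_mul (hU x z) (by
          rw [G1_fk_symm (d - 2) z u]
          exact hU u z) (ta_nonneg h0 h1 u z)
          (mul_nonneg hC (G1_fk_nonneg _ _ _))
    _ = C ^ 2 * ∑ z, fk (d - 2) x z * fk (d - 2) z u := by
        rw [Finset.mul_sum]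
        exact Finset.sum_congr rfl fun z _ => by ring
    _ ≤ C ^ 2 * (C4 d * fk (d - 4) x u) := mul_le_mul_of_nonneg_left h (by positivity)
    _ = _ := by ring

/-- Row G1. `ta_sum`, `sum_f` (`fk (d-2)`). -/
lemma hyp_X (hd : 2 ≤ d) {p C : ℝ} (hC : 0 ≤ C)
    (hU : ∀ x y, ta (gends (boxG d l)) p x y ≤ C * fk (d - 2) x y) (x : Fin d → Fin l) :
    Ex p (fun ω => cz (gends (boxG d l)) ω x) ≤ C * (d * 2 ^ d) * (l : ℝ) ^ 2 := by
  rw [← ta_sum]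
  calc ∑ y, ta (gends (boxG d l)) p x y ≤ ∑ y, C * fk (d - 2) x y :=
        Finset.sum_le_sum fun y _ => hU x y
    _ = C * ∑ y, fk (d - 2) x y := by rw [Finset.mul_sum]
    _ ≤ C * ((d * 2 ^ d : ℝ) * (l : ℝ) ^ 2) := mul_le_mul_of_nonneg_left (sum_f hd x) hC
    _ = _ := by ring

/-- Row G1. `sqd x = ∑ u, (∑ z, ta x z * ta z u)^2 ≤ ∑ u, (C² C4 fk (d-4) x u)^2` (`conv_f`), then `sq_g` with `n = 0`. -/
lemma hyp_sq (hd : 9 ≤ d) {p C : ℝ} (h0 : 0 ≤ p) (h1 : p ≤ 1) (hC : 0 ≤ C)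
    (hU : ∀ x y, ta (gends (boxG d l)) p x y ≤ C * fk (d - 2) x y) (x : Fin d → Fin l) :
    sqd (gends (boxG d l)) p x ≤ (C ^ 2 * C4 d) ^ 2 * ((d * 2 ^ d) * 2) := by
  have h := sq_g hd x 0
  unfold sqd
  calc ∑ u, (∑ z, ta (gends (boxG d l)) p x z * ta (gends (boxG d l)) p z u) ^ 2
      ≤ ∑ u, (C ^ 2 * C4 d * fk (d - 4) x u) ^ 2 :=
        Finset.sum_le_sum fun u _ => pow_le_pow_left₀
          (Finset.sum_nonneg fun z _ => mul_nonneg (ta_nonneg h0 h1 x z) (ta_nonneg h0 h1 z u))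
          (G1_conv hd h0 h1 hC hU x u) 2
    _ = (C ^ 2 * C4 d) ^ 2 * ∑ u, (if 0 ≤ nd x u then fk (d - 4) x u ^ 2 else 0) := by
        rw [Finset.mul_sum]
        refine Finset.sum_congr rfl fun u _ => ?_
        rw [if_pos (Nat.zero_le _)]
        ring
    _ ≤ (C ^ 2 * C4 d) ^ 2 * ((d * 2 ^ d : ℝ) * (2 / (((0 : ℕ) : ℝ) + 1))) :=
        mul_le_mul_of_nonneg_left h (by positivity)
    _ = _ := by
        push_cast
        ring

/-- Row G1. `∑ w, ta x w * ta (sh u) w ≤ C² ∑ w, f x w * f w (sh u) ≤ C² C4 fk (d-4) x (sh u)` (`conv_f`; `fk` is symmetric), then `shift_f`. -/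
lemma hyp_del (hd : 9 ≤ d) {p C : ℝ} (h0 : 0 ≤ p) (h1 : p ≤ 1) (hC : 0 ≤ C)
    (hU : ∀ x y, ta (gends (boxG d l)) p x y ≤ C * fk (d - 2) x y) (W : Finset (Fin d → Fin l))
    (sh : (Fin d → Fin l) → (Fin d → Fin l)) (hW : Set.InjOn sh W) (r : ℕ)
    (hr : ∀ u ∈ W, nd u (sh u) = r) (x : Fin d → Fin l) :
    ∑ u ∈ W, ∑ w, ta (gends (boxG d l)) p x u * (ta (gends (boxG d l)) p x w *
      ta (gends (boxG d l)) p (sh u) w) ≤
      C ^ 3 * C4 d * ((d * 2 ^ d) * (6 / Real.sqrt ((r : ℝ) + 1))) := by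
  have h := shift_f hd x W sh hW r hr
  have hC4 : 0 ≤ C4 d := G1_C4_nonneg d
  calc ∑ u ∈ W, ∑ w, ta (gends (boxG d l)) p x u * (ta (gends (boxG d l)) p x w *
      ta (gends (boxG d l)) p (sh u) w)
      = ∑ u ∈ W, ta (gends (boxG d l)) p x u * ∑ w, ta (gends (boxG d l)) p x w *
          ta (gends (boxG d l)) p (sh u) w :=
        Finset.sum_congr rfl fun u _ => by rw [Finset.mul_sum]
    _ ≤ ∑ u ∈ W, (C * fk (d - 2) x u) * (C ^ 2 * C4 d * fk (d - 4) x (sh u)) :=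
        Finset.sum_le_sum fun u _ => mul_le_mul (hU x u) (G1_conv' hd h0 h1 hC hU x (sh u))
          (Finset.sum_nonneg fun w _ => mul_nonneg (ta_nonneg h0 h1 x w) (ta_nonneg h0 h1 _ w))
          (mul_nonneg hC (G1_fk_nonneg _ _ _))
    _ = C ^ 3 * C4 d * ∑ u ∈ W, fk (d - 2) x u * fk (d - 4) x (sh u) := by
        rw [Finset.mul_sum]
        exact Finset.sum_congr rfl fun u _ => by ring
    _ ≤ _ := mul_le_mul_of_nonneg_left h (mul_nonneg (pow_nonneg hC 3) hC4)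

end box

open scoped Classical in
/-- Row G2. In the box of side `m` (`A2 = a m⁴`, `t = 4 b0 m^(d-2)`) the number of vertices with a cluster of size at least `A2` is less than `t` with
small probability. With `B` = the bulk (`bul_card`), `c = c0/m^(d-2)`: `c |B| ≥ c0 m²/4^d`; choose `a` with `3 C √a ≤ c0/(2·4^d)`, so
`large_prob` gives `P0 = (c0 m²/(2·4^d))² / (C' m²)³ = c'/m²`, `C' = C d 2^d` (`hyp_X`); `b0 = c'/(8·4^d)` gives `2 t ≤ P0 |B|`; `large_many`: at most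
`m^d C' m²/(16 b0² m^(2d-4)) = (C'/(16 b0²)) m^(6-d)` (`B ⊆ univ`, so the number of vertices of the bulk with large cluster is at most the
number of all), which is at most `(C'/(16 b0²))/m ≤ ρ` for `m ≥ m0` (`d ≥ 7`). -/
theorem lam_small (d : ℕ) (hd : 9 ≤ d) (C c0 : ℝ) (hC : 0 < C) (hc0 : 0 < c0) :
    ∃ a b0 : ℝ, 0 < a ∧ 0 < b0 ∧ ∀ ρ : ℝ, 0 < ρ → ∃ m0 : ℕ, 2 ≤ m0 ∧ ∀ m : ℕ, m0 ≤ m →
      ∀ [Fintype (boxG d m).edgeSet], ∀ p : ℝ, 0 ≤ p → p ≤ 1 →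
      (∀ x y, ta (gends (boxG d m)) p x y ≤ C * fk (d - 2) x y) →
      (∀ x, ∀ k : ℕ, 1 ≤ k → Ex p (fun ω => if (k : ℝ) ≤ cz (gends (boxG d m)) ω x then (1 : ℝ)
        else 0) ≤ C / Real.sqrt k) →
      (∀ x y, bul x → bul y → c0 / (m : ℝ) ^ (d - 2) ≤ ta (gends (boxG d m)) p x y) →
      Ex p (fun ω => if ((Finset.univ.filter (fun x => a * (m : ℝ) ^ 4 ≤
        cz (gends (boxG d m)) ω x)).card : ℝ) < 4 * (b0 * (m : ℝ) ^ (d - 2)) then (1 : ℝ) else 0) ≤ ρ := by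
  have h4 : (0 : ℝ) < 4 ^ d := by positivity
  obtain ⟨q, hq⟩ : ∃ q : ℝ, q = c0 / (2 * 4 ^ d) := ⟨_, rfl⟩
  have hq0 : 0 < q := by rw [hq]; positivity
  have hd0 : (0 : ℝ) < d := by exact_mod_cast (by omega : 0 < d)
  obtain ⟨C', hC'⟩ : ∃ C' : ℝ, C' = C * (d * 2 ^ d) := ⟨_, rfl⟩
  have hC'0 : 0 < C' := by rw [hC']; positivity
  obtain ⟨a, ha⟩ : ∃ a : ℝ, a = (q / (3 * C)) ^ 2 := ⟨_, rfl⟩
  have ha0 : 0 < a := by rw [ha]; positivity
  have hsa : Real.sqrt a = q / (3 * C) := by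
    rw [ha]; exact Real.sqrt_sq (by positivity)
  obtain ⟨c', hc'⟩ : ∃ c' : ℝ, c' = q ^ 2 / C' ^ 3 := ⟨_, rfl⟩
  have hc'0 : 0 < c' := by rw [hc']; positivity
  obtain ⟨b0, hb0⟩ : ∃ b0 : ℝ, b0 = c' / (8 * 4 ^ d) := ⟨_, rfl⟩
  have hb00 : 0 < b0 := by rw [hb0]; positivity
  refine ⟨a, b0, ha0, hb00, ?_⟩
  intro ρ hρ
  obtain ⟨K, hK⟩ : ∃ K : ℝ, K = C' / (16 * b0 ^ 2) := ⟨_, rfl⟩
  have hK0 : 0 < K := by rw [hK]; positivity
  obtain ⟨n1, hn1⟩ := exists_nat_ge (1 / a)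
  obtain ⟨n2, hn2⟩ := exists_nat_ge (K / ρ)
  refine ⟨2 + n1 + n2, by omega, ?_⟩
  intro m hm inst p h0 h1 hU hT hL
  have hmR : (2 : ℝ) + n1 + n2 ≤ m := by exact_mod_cast hm
  have hn1' : (0 : ℝ) ≤ n1 := Nat.cast_nonneg _
  have hn2' : (0 : ℝ) ≤ n2 := Nat.cast_nonneg _
  have hm2 : (2 : ℝ) ≤ m := by linarith
  have hm0 : (0 : ℝ) < m := by linarith
  have hm1 : (1 : ℝ) ≤ m := by linarith
  have hma : 1 ≤ a * m := by
    have : 1 / a ≤ (m : ℝ) := by linarith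
    rwa [div_le_iff₀ ha0, mul_comm] at this
  have hmK : K / m ≤ ρ := by
    have : K / ρ ≤ (m : ℝ) := by linarith
    rw [div_le_iff₀ hρ] at this
    rw [div_le_iff₀ hm0]
    linarith
  have hA : 1 ≤ a * (m : ℝ) ^ 4 := by
    refine hma.trans ?_
    refine mul_le_mul_of_nonneg_left ?_ ha0.le
    exact le_self_pow₀ hm1 (by norm_num)
  have hmd : (m : ℝ) ^ d = m ^ (d - 2) * m ^ 2 := by
    rw [← pow_add]
    congr 1
    omega
  have hp0 : (0 : ℝ) < m ^ (d - 2) := by positivity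
  have hsA : Real.sqrt (a * (m : ℝ) ^ 4) = q / (3 * C) * m ^ 2 := by
    rw [Real.sqrt_mul ha0.le, hsa]
    congr 1
    rw [show (m : ℝ) ^ 4 = (m ^ 2) ^ 2 by ring]
    exact Real.sqrt_sq (by positivity)
  have hX : ∀ x, Ex p (fun ω => cz (gends (boxG d m)) ω x) ≤ C' * (m : ℝ) ^ 2 := by
    intro x
    rw [hC']
    exact hyp_X (by omega) hC.le hU x
  have hX0 : 0 < C' * (m : ℝ) ^ 2 := by positivity
  have hBc := bul_card (d := d) (l := m) (by omega)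
  obtain ⟨B, hB⟩ : ∃ B : Finset (Fin d → Fin m), B = Finset.univ.filter (fun x => bul x) := ⟨_, rfl⟩
  rw [← hB] at hBc
  have hcB : 2 * q * m ^ 2 ≤ c0 / (m : ℝ) ^ (d - 2) * (B.card : ℝ) := by
    have h5 : c0 / (m : ℝ) ^ (d - 2) * ((m : ℝ) / 4) ^ d ≤
        c0 / (m : ℝ) ^ (d - 2) * (B.card : ℝ) :=
      mul_le_mul_of_nonneg_left hBc (by positivity)
    have h6 : c0 / (m : ℝ) ^ (d - 2) * ((m : ℝ) / 4) ^ d = 2 * q * m ^ 2 := by
      rw [div_pow, hmd, hq]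
      field_simp
    linarith
  have h3C : 3 * C * Real.sqrt (a * (m : ℝ) ^ 4) = q * m ^ 2 := by
    rw [hsA]
    field_simp
  have hqm : 0 < q * (m : ℝ) ^ 2 := by positivity
  have hP : ∀ x ∈ B, c' / (m : ℝ) ^ 2 ≤
      Ex p (fun ω => if a * (m : ℝ) ^ 4 ≤ cz (gends (boxG d m)) ω x then (1 : ℝ) else 0) := by
    intro x hx
    have hbx : bul x := by
      rw [hB] at hx
      exact (Finset.mem_filter.1 hx).2
    have h7 := large_prob (ends := gends (boxG d m)) (c := c0 / (m : ℝ) ^ (d - 2)) h0 h1 hC.le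
      hX0 hA hX hT B x (by
        intro y hy
        have hby : bul y := by
          rw [hB] at hy
          exact (Finset.mem_filter.1 hy).2
        exact hL x y hbx hby) (by rw [h3C]; linarith)
    refine le_trans ?_ h7
    rw [h3C]
    have h8 : (q * (m : ℝ) ^ 2) ^ 2 ≤ (c0 / (m : ℝ) ^ (d - 2) * (B.card : ℝ) - q * m ^ 2) ^ 2 := by
      apply pow_le_pow_left₀ hqm.le
      linarith
    have h9 : c' / (m : ℝ) ^ 2 = (q * (m : ℝ) ^ 2) ^ 2 / (C' * (m : ℝ) ^ 2) ^ 3 := by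
      rw [hc']
      field_simp
    rw [h9]
    exact div_le_div_of_nonneg_right h8 (by positivity)
  have h10 := large_many (ends := gends (boxG d m)) (t := 4 * (b0 * (m : ℝ) ^ (d - 2)))
    (A2 := a * (m : ℝ) ^ 4) h0 h1 (by positivity) hX B hP (by
      have h5 : c' / (m : ℝ) ^ 2 * ((m : ℝ) / 4) ^ d ≤ c' / (m : ℝ) ^ 2 * (B.card : ℝ) :=
        mul_le_mul_of_nonneg_left hBc (by positivity)
      have h6 : c' / (m : ℝ) ^ 2 * ((m : ℝ) / 4) ^ d = 2 * (4 * (b0 * (m : ℝ) ^ (d - 2))) := by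
        rw [div_pow, hmd, hb0]
        field_simp
        ring
      linarith)
  have h11 : Ex p (fun ω => if ((Finset.univ.filter (fun x => a * (m : ℝ) ^ 4 ≤
        cz (gends (boxG d m)) ω x)).card : ℝ) < 4 * (b0 * (m : ℝ) ^ (d - 2)) then (1 : ℝ) else 0) ≤
      Ex p (fun ω => if ((B.filter (fun x => a * (m : ℝ) ^ 4 ≤
        cz (gends (boxG d m)) ω x)).card : ℝ) < 4 * (b0 * (m : ℝ) ^ (d - 2)) then (1 : ℝ) else 0) := by
    apply Ex_mono h0 h1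
    intro ω
    have hle : ((B.filter (fun x => a * (m : ℝ) ^ 4 ≤ cz (gends (boxG d m)) ω x)).card : ℝ) ≤
        ((Finset.univ.filter (fun x => a * (m : ℝ) ^ 4 ≤
          cz (gends (boxG d m)) ω x)).card : ℝ) := by
      exact_mod_cast Finset.card_le_card (Finset.filter_subset_filter _ (Finset.subset_univ _))
    by_cases h : ((Finset.univ.filter (fun x => a * (m : ℝ) ^ 4 ≤
        cz (gends (boxG d m)) ω x)).card : ℝ) < 4 * (b0 * (m : ℝ) ^ (d - 2))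
    · rw [if_pos h, if_pos (lt_of_le_of_lt hle h)]
    · rw [if_neg h]
      split_ifs <;> norm_num
  refine h11.trans (h10.trans (le_trans ?_ hmK))
  have hcard : (Fintype.card (Fin d → Fin m) : ℝ) = (m : ℝ) ^ d := by
    rw [Fintype.card_fun, Fintype.card_fin, Fintype.card_fin]
    push_cast
    rfl
  rw [hcard, hmd, hK]
  have hd6 : (m : ℝ) ^ (d - 2) = m ^ (d - 7) * m ^ 5 := by
    rw [← pow_add]
    congr 1
    omega
  have hd7 : (1 : ℝ) ≤ m ^ (d - 7) := one_le_pow₀ hm1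
  have h12 : (m : ℝ) ^ (d - 2) * m ^ 2 * (C' * m ^ 2) / (4 * (b0 * m ^ (d - 2))) ^ 2 =
      C' / (16 * b0 ^ 2) / m * (1 / m ^ (d - 7)) := by
    rw [hd6]
    field_simp
    ring
  rw [h12]
  have h13 : 1 / (m : ℝ) ^ (d - 7) ≤ 1 := by
    rw [div_le_one (by positivity)]
    exact hd7
  have h14 : 0 ≤ C' / (16 * b0 ^ 2) / m := by positivity
  calc C' / (16 * b0 ^ 2) / m * (1 / m ^ (d - 7)) ≤ C' / (16 * b0 ^ 2) / m * 1 :=
        mul_le_mul_of_nonneg_left h13 h14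
    _ = _ := mul_one _

open scoped Classical in
/-- Row G3. Lemma 1 of the page with constants: `choice`, then `nc_sum` with `g = η/χ²`, `X = C χ`, `Qs = C`, `k2 = a2 χ²`, `A2 = a χ²`, `β|V|/χ`, `h = c η χ`,
`H = B η χ`, `b1 = β η a |V|/(4 χ)`, `s0 = κ η² |V|/χ`, `c1 = c0 χ/|V|`, `n1 = ⌈C1 η |V|/χ³⌉₊`, `k = ⌈η |V|/χ³⌉₊`, `J = ⌈C2 η |V|/χ²⌉₊`, `c5 = c η²`
(`c5 |V|/χ² ≤ h k`, `BadNC` is monotone in `nr`), `term1` .. `term7`; the sum of the seven terms is at most `7 ρ/8`. -/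
theorem loc (C c0 a β ρ : ℝ) (hC : 1 ≤ C) (hc0 : 0 < c0) (ha : 0 < a) (hβ : 0 < β) (hρ : 0 < ρ) :
    ∃ a2 c5 δ A0 : ℝ, 0 < a2 ∧ a2 ≤ a ∧ 0 < c5 ∧ 0 < δ ∧ 1 ≤ A0 ∧
      ∀ (V : Type) [Fintype V] [DecidableEq V] [Nonempty V] (E : Type) [Fintype E] [DecidableEq E]
        (ends : E → Sym2 V) (p χ : ℝ) (sh : V → V) (W : Finset V), 0 ≤ p → p ≤ 1 → A0 ≤ χ →
        A0 * χ ^ 3 ≤ Fintype.card V →
        (∀ x, Ex p (fun ω => cz ends ω x) ≤ C * χ) →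
        (∀ x, ∀ k : ℕ, 1 ≤ k → Ex p (fun ω => if (k : ℝ) ≤ cz ends ω x then (1 : ℝ) else 0) ≤
          C / Real.sqrt k) →
        (∀ x, sqd ends p x ≤ C) → Set.InjOn sh W →
        (∀ x, ∑ u ∈ W, ∑ w, ta ends p x u * (ta ends p x w * ta ends p (sh u) w) ≤ δ) →
        (∀ u ∈ W, ∀ v ∈ W, c0 * χ / Fintype.card V ≤ ta ends p (sh u) (sh v)) →
        Ex p (fun ω => if BadNC ends ω sh W (a2 * χ ^ 2) (a * χ ^ 2) (β * Fintype.card V / χ)
          (c5 * Fintype.card V / χ ^ 2) then (1 : ℝ) else 0) ≤ ρ := by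
  obtain ⟨η, c, B, a2, C1, C2, δ, A0, hη, hη1, hηa, hc, hB, ha2, ha2a, hC1, hC2, hδ0, hA01, e1, e2, e3,
    e4, e5, e6, e7, e8, e9, e10, e11⟩ := choice C c0 a β ρ hC hc0 ha hβ hρ
  have hC0 : 0 < C := by linarith
  have hA0 : 0 < A0 := by linarith
  have hκ : 0 < kap c0 a β := by
    unfold kap
    positivity
  refine ⟨a2, c * η ^ 2, δ, A0, ha2, ha2a, by positivity, hδ0, hA01, ?_⟩
  intro V _ _ _ E _ _ ends p χ sh W h0 h1 hχA hvA hX hT hQ hW hδ hτ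
  obtain ⟨v, hv⟩ : ∃ v : ℝ, v = (Fintype.card V : ℝ) := ⟨_, rfl⟩
  rw [← hv] at hvA hτ ⊢
  have hχ1 : 1 ≤ χ := by linarith
  have hχ : 0 < χ := by linarith
  have hχ3 : 0 < χ ^ 3 := by positivity
  have hv0 : 0 < v := lt_of_lt_of_le (by positivity) hvA
  have hN : A0 ≤ v / χ ^ 3 := by
    rw [le_div_iff₀ hχ3]
    exact hvA
  have hχ2 : 1 ≤ χ ^ 2 := one_le_pow₀ hχ1
  have hAχ2 : A0 ^ 2 ≤ χ ^ 2 := by nlinarith
  obtain ⟨κ, hκd⟩ : ∃ κ : ℝ, κ = kap c0 a β := ⟨_, rfl⟩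
  rw [← hκd] at e2 e3 e5 e6 e7 e10 hκ
  have hκv : κ = c0 * a ^ 2 * β ^ 2 / 16 := by rw [hκd]; rfl
  obtain ⟨n1, hn1⟩ : ∃ n : ℕ, n = ⌈C1 * η * v / χ ^ 3⌉₊ := ⟨_, rfl⟩
  obtain ⟨k, hk⟩ : ∃ n : ℕ, n = ⌈η * v / χ ^ 3⌉₊ := ⟨_, rfl⟩
  obtain ⟨J, hJ⟩ : ∃ n : ℕ, n = ⌈C2 * η * v / χ ^ 2⌉₊ := ⟨_, rfl⟩
  have hn1l : C1 * η * v / χ ^ 3 ≤ (n1 : ℝ) := by rw [hn1]; exact Nat.le_ceil _
  have hn1u : (n1 : ℝ) ≤ C1 * η * v / χ ^ 3 + 1 := by
    rw [hn1]; exact (Nat.ceil_lt_add_one (by positivity)).le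
  have hkl : η * v / χ ^ 3 ≤ (k : ℝ) := by rw [hk]; exact Nat.le_ceil _
  have hku : (k : ℝ) ≤ η * v / χ ^ 3 + 1 := by
    rw [hk]; exact (Nat.ceil_lt_add_one (by positivity)).le
  have hJl : C2 * η * v / χ ^ 2 ≤ (J : ℝ) := by rw [hJ]; exact Nat.le_ceil _
  have hJu : (J : ℝ) ≤ C2 * η * v / χ ^ 2 + 1 := by
    rw [hJ]; exact (Nat.ceil_lt_add_one (by positivity)).le
  have hn11 : 1 ≤ n1 := by
    rw [hn1]
    exact Nat.one_le_ceil_iff.2 (by positivity)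
  have hg0 : 0 < η / χ ^ 2 := by positivity
  have hg1 : η / χ ^ 2 ≤ 1 := by
    rw [div_le_one (by positivity)]
    linarith
  have hv2 : 1 / v ≤ η / χ ^ 2 := by
    rw [div_le_div_iff₀ hv0 (by positivity)]
    have h11 : 1 ≤ A0 * η := by
      rw [div_le_iff₀ hη] at e11
      exact e11
    have h12 : χ ^ 2 ≤ χ ^ 3 := pow_le_pow_right₀ hχ1 (by norm_num)
    calc 1 * χ ^ 2 ≤ 1 * χ ^ 3 := by linarith
      _ ≤ (A0 * η) * χ ^ 3 := mul_le_mul_of_nonneg_right h11 hχ3.le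
      _ = η * (A0 * χ ^ 3) := by ring
      _ ≤ η * v := mul_le_mul_of_nonneg_left hvA hη.le
  have hk2 : 1 ≤ a2 * χ ^ 2 := le_trans e8 (mul_le_mul_of_nonneg_left hAχ2 ha2.le)
  have hhX : 1 ≤ c * η * χ / (η / χ ^ 2 * (C * χ)) := by
    have : c * η * χ / (η / χ ^ 2 * (C * χ)) = c * χ ^ 2 / C := by field_simp
    rw [this]
    refine le_trans e9 ?_
    gcongr
  have hgA : η / χ ^ 2 * (a * χ ^ 2) ≤ 1 := by
    have : η / χ ^ 2 * (a * χ ^ 2) = η * a := by field_simp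
    rw [this]
    exact hηa
  have hb : β * η * a * v / (4 * χ) ≤ β * v / χ * (η / χ ^ 2 * (a * χ ^ 2)) / 4 := by
    have : β * v / χ * (η / χ ^ 2 * (a * χ ^ 2)) / 4 = β * η * a * v / (4 * χ) := by field_simp
    rw [this]
  have hs0 : κ * η ^ 2 * v / χ ≤ c0 * χ / v * (β * η * a * v / (4 * χ)) ^ 2 := by
    have : c0 * χ / v * (β * η * a * v / (4 * χ)) ^ 2 = κ * η ^ 2 * v / χ := by
      rw [hκv]
      field_simp
      ring
    rw [this]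
  have hth0 : a2 * κ / (2 * B ^ 2 * χ) ≤ 1 := by
    refine le_trans ?_ e10
    gcongr
  have hth : a2 * χ ^ 2 * (κ * η ^ 2 * v / χ) / (2 * (B * η * χ) ^ 2 * (Fintype.card V : ℝ)) ≤ 1 := by
    rw [← hv]
    have : a2 * χ ^ 2 * (κ * η ^ 2 * v / χ) / (2 * (B * η * χ) ^ 2 * v) = a2 * κ / (2 * B ^ 2 * χ) := by
      field_simp
    rw [this]
    exact hth0
  have hmain := nc_sum (ends := ends) (p := p) (g := η / χ ^ 2) (X := C * χ) (C := C) (δ := δ) (Qs := C)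
    (c1 := c0 * χ / v) (b1 := β * η * a * v / (4 * χ)) (s0 := κ * η ^ 2 * v / χ) (k2 := a2 * χ ^ 2)
    (h := c * η * χ) (H := B * η * χ) (A2 := a * χ ^ 2) (β := β * v / χ) h0 h1 hg0 hg1 hC0.le
    (by positivity) hk2 (by positivity) hhX (by positivity) (by positivity) (by positivity) hgA
    (by positivity) hb (by positivity) hs0 hth hX hT hQ sh W hW hδ hτ n1 k J hn11
  rw [← hv] at hmain
  have hmono : Ex p (fun ω => if BadNC ends ω sh W (a2 * χ ^ 2) (a * χ ^ 2) (β * v / χ)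
      (c * η ^ 2 * v / χ ^ 2) then (1 : ℝ) else 0) ≤
      Ex p (fun ω => if BadNC ends ω sh W (a2 * χ ^ 2) (a * χ ^ 2) (β * v / χ)
      (c * η * χ * k) then (1 : ℝ) else 0) := by
    refine Ex_mono h0 h1 ?_
    intro ω
    have hle : c * η ^ 2 * v / χ ^ 2 ≤ c * η * χ * k := by
      calc c * η ^ 2 * v / χ ^ 2 = c * η * χ * (η * v / χ ^ 3) := by field_simp
        _ ≤ c * η * χ * k := mul_le_mul_of_nonneg_left hkl (by positivity)
    by_cases hbad : BadNC ends ω sh W (a2 * χ ^ 2) (a * χ ^ 2) (β * v / χ) (c * η ^ 2 * v / χ ^ 2)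
    · have hbad' : BadNC ends ω sh W (a2 * χ ^ 2) (a * χ ^ 2) (β * v / χ) (c * η * χ * k) := by
        obtain ⟨𝒮, hS, hS1, hS2, hS3⟩ := hbad
        exact ⟨𝒮, hS, hS1, hS2, lt_of_lt_of_le hS3 hle⟩
      rw [if_pos hbad, if_pos hbad']
    · rw [if_neg hbad]
      split_ifs
      · norm_num
      · norm_num
  -- the seven terms
  have q1 : 2 * (η / χ ^ 2 * (v * (C * χ) ^ 3) / (β * η * a * v / (4 * χ)) ^ 2) ≤ ρ / 8 := by
    rw [term1 hC0 ha hβ hη hχ hv0]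
    refine le_trans ?_ e1
    rw [div_le_div_iff₀ (by positivity) (by positivity)]
    calc 32 * C ^ 3 * χ ^ 3 * (β ^ 2 * a ^ 2 * η * A0) = 32 * C ^ 3 * (β ^ 2 * a ^ 2 * η) * (A0 * χ ^ 3) := by
          ring
      _ ≤ 32 * C ^ 3 * (β ^ 2 * a ^ 2 * η) * v := mul_le_mul_of_nonneg_left hvA (by positivity)
      _ = 32 * C ^ 3 * (β ^ 2 * a ^ 2 * η * v) := by ring
  have q2 : v * ((η / χ ^ 2) ^ 2 * (C * χ) ^ 2 * (3 * C * Real.sqrt (c * η * χ / (η / χ ^ 2 * (C * χ))))) /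
      (κ * η ^ 2 * v / χ / 10) ≤ ρ / 8 := by
    rw [term2 hC0 hκ hη hχ hv0 hc]
    exact e2
  have q3 : v * ((η / χ ^ 2) ^ 3 * (C * χ) ^ 6 + 2 * (η / χ ^ 2) ^ 2 * (C * χ) ^ 3 * C) /
      (B * η * χ * (κ * η ^ 2 * v / χ / 10)) ≤ ρ / 8 := by
    rw [term3 hC0 hκ hη hχ hv0 hB]
    refine le_trans ?_ e3
    gcongr
  have q4 : v * (η / χ ^ 2 * C / Real.sqrt (a2 * χ ^ 2)) / n1 ≤ ρ / 8 :=
    le_trans (term4 hC0 hη hχ hv0 ha2 hC1 hn1l) e4
  have q5 : v * ((η / χ ^ 2) ^ 2 * (η / χ ^ 2 + J / v) * (C * χ) ^ 5 + 2 * (η / χ ^ 2) ^ 2 * (C * χ) ^ 3 * δ) /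
      (κ * η ^ 2 * v / χ / 10) ≤ ρ / 8 :=
    le_trans (term5 hC0 hκ hη hχ hv0 hC2 hJu hv2) e5
  have q6 : v * ((η / χ ^ 2) ^ 2 * (C * χ) ^ 2 * (3 * C * Real.sqrt (a2 * χ ^ 2))) /
      (κ * η ^ 2 * v / χ / 10) ≤ ρ / 8 := by
    rw [term6 hC0 hκ hη hχ hv0 ha2]
    exact e6
  have q7 : 2 ^ (n1 + k) * (1 - a2 * χ ^ 2 * (κ * η ^ 2 * v / χ) / (4 * (B * η * χ) ^ 2 * v)) ^ J ≤
      ρ / 8 :=
    le_trans (term7 n1 k J hκ hη hχ hv0 ha2 hB hC1 hC2 hn1u hku hJl hth0) (e7 _ hN)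
  refine le_trans hmono (le_trans hmain ?_)
  linarith

open scoped Classical in
/-- Row G4. Contacts and sprinkling with constants: `cut_const` with `K0 = (2/c)^(D(r+1)) 2^(2 qc (1 + D (r+1)))` (it is at least one); then `main_comp`,
`cut_edges` (with `nr = c5 |V|/χ²`), `gc_many`, `surgery_all2` (Sg.lean), each at most `ρ/4` or as given by `cut_const` with `ρ/4` (apply it with
`ρ := 3 ρ/4`; `gc_many` is used twice). `BadNC` is monotone in `nr`. -/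
theorem loc_cut (C a2 c5 cp ρ : ℝ) (r qc D L : ℕ) (hL : 1 ≤ L) (hC : 0 < C) (ha2 : 0 < a2)
    (hc5 : 0 < c5) (hcp : 0 < cp) (hcp1 : cp ≤ 1) (hρ : 0 < ρ) :
    ∃ K A1 : ℝ, 0 < K ∧ 1 ≤ A1 ∧
      ∀ (V : Type) [Fintype V] [DecidableEq V] [Nonempty V] (E : Type) [Fintype E] [DecidableEq E]
        (ends : E → Sym2 V) (p χ A2 β : ℝ) (sh : V → V) (W : Finset V) (π : V → ℕ → V), cp ≤ p →
        cp ≤ 1 - p → A1 ≤ χ → A1 * χ ^ 3 ≤ Fintype.card V →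
        A1 * Real.log ((Fintype.card V : ℝ) + 1) ≤ χ → a2 * χ ^ 2 ≤ A2 → 0 < β →
        (∀ x, ∀ k : ℕ, 1 ≤ k → Ex p (fun ω => if (k : ℝ) ≤ cz ends ω x then (1 : ℝ) else 0) ≤
          C / Real.sqrt k) →
        (∀ u ∈ W, π u 0 = u) → (∀ u ∈ W, π u r = sh u) →
        (∀ x, ∀ j < r, ∃ e, ends e = s(π x j, π x (j + 1))) →
        (∀ v, (Finset.univ.filter (fun e => v ∈ ends e)).card ≤ D) →
        (∀ x, (Finset.univ.filter (fun x' => Cft ends π r x x')).card ≤ L) →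
        (∀ v, (Finset.univ.filter (fun x => ∃ j ≤ r, π x j = v)).card ≤ qc) →
        K / χ ≤ 1 ∧
        Ex p (fun ω => Ex (K / χ) (fun η => if 3 * β ≤ vol ends ω W A2 Finset.univ ∧
          ¬ ∃ y, ((W.filter (fun x => A2 ≤ cz ends ω x ∧ x ∉ cu ends (orc ω η) y)).card : ℝ) < β
          then (1 : ℝ) else 0)) ≤
          Ex p (fun ω => if BadNC ends ω sh W (a2 * χ ^ 2) A2 β (c5 * Fintype.card V / χ ^ 2)
            then (1 : ℝ) else 0) + ρ := by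
  have hcp2 : (1 : ℝ) ≤ 2 / cp := by
    rw [le_div_iff₀ hcp]
    linarith
  have hK0 : (1 : ℝ) ≤ (2 / cp) ^ (D * (r + 1)) * 2 ^ (2 * qc * (1 + D * (r + 1))) :=
    one_le_mul_of_one_le_of_one_le (one_le_pow₀ hcp2) (one_le_pow₀ (by norm_num))
  obtain ⟨K, A1, hK, hA1, hcc⟩ := cut_const C a2 c5
    ((2 / cp) ^ (D * (r + 1)) * 2 ^ (2 * qc * (1 + D * (r + 1)))) (3 * ρ / 4) L hL hC ha2 hc5 hK0 (by positivity)
  refine ⟨K, max A1 (1 / a2), hK, le_max_of_le_left hA1, ?_⟩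
  intro V _ _ _ E _ _ ends p χ A2 β sh W π hp hp' hχ hv hlog hA2 hβ hT hπ0 hπr hedge hdeg hconf hcov
  have h0 : 0 ≤ p := hcp.le.trans hp
  have h1 : p ≤ 1 := by linarith
  have hχ1 : A1 ≤ χ := (le_max_left _ _).trans hχ
  have hχa : 1 / a2 ≤ χ := (le_max_right _ _).trans hχ
  have hχ0 : (1 : ℝ) ≤ χ := hA1.trans hχ1
  have hχp : 0 < χ := lt_of_lt_of_le one_pos hχ0
  have hvn : (0 : ℝ) ≤ (Fintype.card V : ℝ) := Nat.cast_nonneg _
  have hlog0 : 0 ≤ Real.log ((Fintype.card V : ℝ) + 1) := Real.log_nonneg (by linarith)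
  have hv1 : A1 * χ ^ 3 ≤ (Fintype.card V : ℝ) :=
    (mul_le_mul_of_nonneg_right (le_max_left _ _) (by positivity)).trans hv
  have hlog1 : A1 * Real.log ((Fintype.card V : ℝ) + 1) ≤ χ :=
    (mul_le_mul_of_nonneg_right (le_max_left _ _) hlog0).trans hlog
  obtain ⟨hKχ, M', kk, n0, hkk, hkM, hn0, hLM, t1, t2, t3⟩ := hcc χ (Fintype.card V) hχ1 hv1 hlog1
  refine ⟨hKχ, ?_⟩
  have hk2 : 1 ≤ a2 * χ ^ 2 := by
    have e1 : 1 ≤ a2 * χ := by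
      rw [div_le_iff₀ ha2] at hχa
      linarith
    have e2 : a2 * χ ≤ a2 * χ ^ 2 := by
      apply mul_le_mul_of_nonneg_left _ ha2.le
      nlinarith
    linarith
  have m1 := main_comp (ends := ends) (s := K / χ) (k2 := a2 * χ ^ 2) (A2 := A2) (β := β) h0 h1
    (div_nonneg hK.le hχp.le) hKχ hβ hA2 W kk n0
  have m2 := cut_edges (ends := ends) (nr := c5 * Fintype.card V / χ ^ 2) (k2 := a2 * χ ^ 2) (A2 := A2) (β := β) h0 h1
    sh W π r L M' kk n0 hπ0 hπr hLM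
  have m3 := gc_many (ends := ends) (C := C) (k2 := a2 * χ ^ 2) h0 h1 hC.le hk2 hT n0 hn0
  have m4 := surgery_all2 (ends := ends) hcp hcp1 hp hp' π r qc D L M' kk n0 hL hkk hkM hedge hdeg hconf hcov
  linarith

end Pool.Agent.PERC29.AE
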