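import Pool.Agent.Lib.MP_29e17e_pr.Bridge
import Pool.Agent.Lib.MP_29e17e_pr.U.Su
import Pool.Agent.Lib.MP_29e17e_pr.V.Df
import Pool.Agent.Lib.MP_29e17e_pr.V.Hp
import Pool.Agent.Lib.MP_29e17e_pr.V.Lt

set_option autoImplicit false
set_option linter.unusedSectionVars false

/-! Rows 29v-B1 .. 29v-B7: good boxes, transfer by an embedding of graphs, boxes and tori. -/

open Finset

namespace Pool.Agent.PERC29.AE

section gen

variable {V : Type*} [Fintype V] [DecidableEq V] {E : Type*} [Fintype E] [DecidableEq E]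
  {ends : E → Sym2 V}

open scoped Classical in
/-- The points of the cube `T` whose cluster inside `T` has at least `A2` points. -/
noncomputable def Lam (ends : E → Sym2 V) (ω : E → Bool) (T : Finset V) (A2 : ℝ) : Finset V :=
  T.filter (fun x => A2 ≤ ((cl ends ω (T : Set V) x).card : ℝ))

open scoped Classical in
/-- A good box: the cluster of some `y` in the box `Q` (for `orc ω η`) contains all but at most `b` of the points of
`Lam (T c)`, for each of the cubes `T c`, and these sets have at least `4 b` points. -/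
def GoodB (ends : E → Sym2 V) (ω η : E → Bool) (Q : Set V) {ι : Type} (T : ι → Finset V) (A2 b : ℝ) :
    Prop :=
  ∃ y ∈ Q, ∀ c, 4 * b ≤ ((Lam ends ω (T c) A2).card : ℝ) ∧
    (((Lam ends ω (T c) A2).filter (fun x => x ∉ cl ends (orc ω η) Q y)).card : ℝ) ≤ b

/-- Row B1. Dependence on the edges with both ends in `Q` (`cl_dep`, cubes inside `Q`). -/
lemma good_dep {ω ω' η η' : E → Bool} (Q : Set V) {ι : Type} (T : ι → Finset V) (A2 b : ℝ)
    (hT : ∀ c, ∀ x ∈ T c, x ∈ Q) (h : ∀ e, (∀ v ∈ ends e, v ∈ Q) → ω e = ω' e)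
    (h' : ∀ e, (∀ v ∈ ends e, v ∈ Q) → η e = η' e) :
    GoodB ends ω η Q T A2 b ↔ GoodB ends ω' η' Q T A2 b := by
  have hin : ∀ (ρ ρ' : E → Bool) (S : Set V), (∀ x ∈ S, x ∈ Q) →
      (∀ e, (∀ v ∈ ends e, v ∈ Q) → ρ e = ρ' e) → ∀ x, cl ends ρ S x = cl ends ρ' S x := by
    intro ρ ρ' S hS hr x
    refine cl_dep fun e a b2 he ha hb2 => hr e fun v hv => ?_
    rw [he, Sym2.mem_iff] at hv
    rcases hv with hv | hv
    · rw [hv]; exact hS a ha
    · rw [hv]; exact hS b2 hb2
  have h1 : ∀ c, Lam ends ω (T c) A2 = Lam ends ω' (T c) A2 := by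
    intro c
    unfold Lam
    refine Finset.filter_congr fun x _ => ?_
    rw [hin ω ω' ((T c : Finset V) : Set V) (fun x hx => hT c x (Finset.mem_coe.1 hx)) h x]
  have h2 : ∀ y, cl ends (orc ω η) Q y = cl ends (orc ω' η') Q y := by
    intro y
    refine hin _ _ Q (fun x hx => hx) (fun e he => ?_) y
    unfold orc
    rw [h e he, h' e he]
  unfold GoodB
  simp only [h1, h2]

/-- Row B1. Two good boxes with a common cube have the same main component in the whole graph: the set `Lam (T c)` has at least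
`4 b` points, at most `b` of them are outside each of the two clusters, so some point is in both; `cl ⊆ cu` (`cl_mono`), `cu_eq`. -/
lemma good_adj {ω η : E → Bool} (Q Q' : Set V) {ι : Type} (T T' : ι → Finset V) (A2 b : ℝ) (hb : 0 < b)
    (c c' : ι) (hc : T c = T' c') (y y' : V)
    (hy : ∀ c, 4 * b ≤ ((Lam ends ω (T c) A2).card : ℝ) ∧
      ((open scoped Classical in (Lam ends ω (T c) A2).filter
        (fun x => x ∉ cl ends (orc ω η) Q y)).card : ℝ) ≤ b)
    (hy' : ∀ c, 4 * b ≤ ((Lam ends ω (T' c) A2).card : ℝ) ∧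
      ((open scoped Classical in (Lam ends ω (T' c) A2).filter
        (fun x => x ∉ cl ends (orc ω η) Q' y')).card : ℝ) ≤ b) :
    cu ends (orc ω η) y = cu ends (orc ω η) y' := by
  classical
  have h1 := hy c
  have h2 := hy' c'
  rw [← hc] at h2
  obtain ⟨h1a, h1b⟩ := h1
  obtain ⟨h2a, h2b⟩ := h2
  have hex : ∃ x, x ∈ cl ends (orc ω η) Q y ∧ x ∈ cl ends (orc ω η) Q' y' := by
    by_contra hno
    push Not at hno
    have hsub : Lam ends ω (T c) A2 ⊆
        (Lam ends ω (T c) A2).filter (fun x => x ∉ cl ends (orc ω η) Q y) ∪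
        (Lam ends ω (T c) A2).filter (fun x => x ∉ cl ends (orc ω η) Q' y') := by
      intro x hx
      rw [Finset.mem_union, Finset.mem_filter, Finset.mem_filter]
      by_cases hxq : x ∈ cl ends (orc ω η) Q y
      · exact Or.inr ⟨hx, hno x hxq⟩
      · exact Or.inl ⟨hx, hxq⟩
    have hcard := (Finset.card_le_card hsub).trans (Finset.card_union_le _ _)
    have hcr : ((Lam ends ω (T c) A2).card : ℝ) ≤
        (((Lam ends ω (T c) A2).filter (fun x => x ∉ cl ends (orc ω η) Q y)).card : ℝ) +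
        (((Lam ends ω (T c) A2).filter (fun x => x ∉ cl ends (orc ω η) Q' y')).card : ℝ) := by
      exact_mod_cast hcard
    have e1 : (((Lam ends ω (T c) A2).filter (fun x => x ∉ cl ends (orc ω η) Q y)).card : ℝ) ≤ b := by
      refine le_trans (le_of_eq ?_) h1b
      congr
    have e2 : (((Lam ends ω (T c) A2).filter (fun x => x ∉ cl ends (orc ω η) Q' y')).card : ℝ) ≤ b := by
      refine le_trans (le_of_eq ?_) h2b
      congr
    linarith
  obtain ⟨x, hx, hx'⟩ := hex
  have a1 : x ∈ cu ends (orc ω η) y := cl_mono (fun _ h => h) (Set.subset_univ _) hx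
  have a2 : x ∈ cu ends (orc ω η) y' := cl_mono (fun _ h => h) (Set.subset_univ _) hx'
  rw [← cu_eq a1, ← cu_eq a2]

/-- Row B2. Counting: the sites `z ∈ K` have disjoint cubes `T z`, and all have the same component; then this component has at
least `3 b |K|` points (the points of `Lam (T z)` in `cl (Q z) (y z) ⊆ cu (y z)`, at least `4 b - b` of them). -/
lemma good_count {ω η : E → Bool} {κ : Type*} [DecidableEq κ] (K : Finset κ) (Q : κ → Set V)
    (T : κ → Finset V) (y : κ → V) (A2 b : ℝ)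
    (hT : ∀ z ∈ K, ∀ z' ∈ K, z ≠ z' → Disjoint (T z) (T z'))
    (hy : ∀ z ∈ K, 4 * b ≤ ((Lam ends ω (T z) A2).card : ℝ) ∧
      ((open scoped Classical in (Lam ends ω (T z) A2).filter
        (fun x => x ∉ cl ends (orc ω η) (Q z) (y z))).card : ℝ) ≤ b)
    (hK : ∀ z ∈ K, ∀ z' ∈ K, cu ends (orc ω η) (y z) = cu ends (orc ω η) (y z')) (z0 : κ) (hz0 : z0 ∈ K) :
    3 * b * (K.card : ℝ) ≤ cz ends (orc ω η) (y z0) := by
  classical
  set S : κ → Finset V := fun z => (Lam ends ω (T z) A2).filter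
    (fun x => ¬ x ∉ cl ends (orc ω η) (Q z) (y z)) with hS
  have hS1 : ∀ z ∈ K, 3 * b ≤ ((S z).card : ℝ) := by
    intro z hz
    obtain ⟨h1, h2⟩ := hy z hz
    have h3 := Finset.card_filter_add_card_filter_not (s := Lam ends ω (T z) A2)
      (fun x => x ∉ cl ends (orc ω η) (Q z) (y z))
    have h4 : (((Lam ends ω (T z) A2).filter (fun x => x ∉ cl ends (orc ω η) (Q z) (y z))).card : ℝ) +
        ((S z).card : ℝ) = ((Lam ends ω (T z) A2).card : ℝ) := by
      rw [hS]
      exact_mod_cast h3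
    linarith
  have hS2 : ∀ z ∈ K, S z ⊆ cu ends (orc ω η) (y z0) := by
    intro z hz x hx
    rw [hS, Finset.mem_filter, not_not] at hx
    rw [← hK z hz z0 hz0]
    exact cl_mono (fun _ h => h) (Set.subset_univ _) hx.2
  have hS3 : ∀ z ∈ K, ∀ z' ∈ K, z ≠ z' → Disjoint (S z) (S z') := by
    intro z hz z' hz' hne
    have hsub : ∀ z, S z ⊆ T z := by
      intro z x hx
      rw [hS, Finset.mem_filter] at hx
      unfold Lam at hx
      exact (Finset.mem_filter.1 hx.1).1
    exact Finset.disjoint_of_subset_left (hsub z) (Finset.disjoint_of_subset_right (hsub z')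
      (hT z hz z' hz' hne))
  have h5 : K.biUnion S ⊆ cu ends (orc ω η) (y z0) := Finset.biUnion_subset.2 hS2
  have h6 : (K.biUnion S).card = ∑ z ∈ K, (S z).card := Finset.card_biUnion hS3
  calc 3 * b * (K.card : ℝ) = ∑ z ∈ K, 3 * b := by
        rw [Finset.sum_const, nsmul_eq_mul]; ring
    _ ≤ ∑ z ∈ K, ((S z).card : ℝ) := Finset.sum_le_sum hS1
    _ = ((K.biUnion S).card : ℝ) := by rw [h6]; push_cast; rfl
    _ ≤ cz ends (orc ω η) (y z0) := by
        unfold cz
        exact_mod_cast Finset.card_le_card h5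

end gen

section emb

variable {V V' : Type} [Fintype V] [DecidableEq V] [Fintype V'] [DecidableEq V']
  {G : SimpleGraph V} {G' : SimpleGraph V'} [Fintype G.edgeSet] [Fintype G'.edgeSet]

/-- The configuration seen by the embedded graph. -/
def pul (φ : G ↪g G') (ω : G'.edgeSet → Bool) : G.edgeSet → Bool := fun e => ω (φ.mapEdgeSet e)

private lemma B3_step (φ : G ↪g G') (ω : G'.edgeSet → Bool) (S : Set V) (a b : V) :
    Step (gends G') ω (φ '' S) (φ a) (φ b) ↔ Step (gends G) (pul φ ω) S a b := by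
  constructor
  · rintro ⟨ha, hb, e, he, hend⟩
    obtain ⟨a', ha', haa⟩ := ha
    obtain ⟨b', hb', hbb⟩ := hb
    have h1 : a' = a := φ.injective haa
    have h2 : b' = b := φ.injective hbb
    subst h1 h2
    have h3 : s(φ a', φ b') ∈ G'.edgeSet := hend ▸ e.2
    have h4 : G.Adj a' b' := φ.map_rel_iff.1 (show G'.Adj (φ a') (φ b') from h3)
    refine ⟨ha', hb', ⟨s(a', b'), h4⟩, ?_, rfl⟩
    have h5 : φ.mapEdgeSet ⟨s(a', b'), h4⟩ = e := by
      apply Subtype.ext
      have : (e : Sym2 V') = s(φ a', φ b') := hend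
      rw [this]
      rfl
    show ω (φ.mapEdgeSet ⟨s(a', b'), h4⟩) = true
    rw [h5]
    exact he
  · rintro ⟨ha, hb, e, he, hend⟩
    refine ⟨⟨a, ha, rfl⟩, ⟨b, hb, rfl⟩, φ.mapEdgeSet e, he, ?_⟩
    have h1 : (e : Sym2 V) = s(a, b) := hend
    show Sym2.map φ (e : Sym2 V) = s(φ a, φ b)
    rw [h1]
    rfl

private lemma B3_rch (φ : G ↪g G') (ω : G'.edgeSet → Bool) (S : Set V) (x : V) {y' : V'} :
    Rch (gends G') ω (φ '' S) (φ x) y' ↔ ∃ y, φ y = y' ∧ Rch (gends G) (pul φ ω) S x y := by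
  constructor
  · intro h
    induction h with
    | refl => exact ⟨x, rfl, Rch.refl x⟩
    | tail _ hbc ih =>
      obtain ⟨y, hy, hr⟩ := ih
      obtain ⟨z, hz, hzz⟩ := hbc.2.1
      subst hy
      subst hzz
      exact ⟨z, rfl, hr.tail ((B3_step φ ω S y z).1 hbc)⟩
  · rintro ⟨y, rfl, h⟩
    induction h with
    | refl => exact Rch.refl _
    | tail _ hbc ih => exact Relation.ReflTransGen.tail ih ((B3_step φ ω S _ _).2 hbc)

/-- Row B3. Clusters inside the image of an induced embedding. `Step (gends G') ω (φ '' S) (φ a) (φ b) ↔ Step (gends G) (pul φ ω) S a b`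
(an edge of `G'` between `φ a` and `φ b` is the image of an edge of `G`: `φ.map_rel_iff`), and a path inside `φ '' S` from `φ x` stays in the image:
induction on `Relation.ReflTransGen` in both directions. -/
lemma cl_emb (φ : G ↪g G') (ω : G'.edgeSet → Bool) (S : Set V) (x : V) :
    cl (gends G') ω (φ '' S) (φ x) = (cl (gends G) (pul φ ω) S x).map φ.toEmbedding := by
  ext y'
  rw [mem_cl, B3_rch, Finset.mem_map]
  constructor
  · rintro ⟨y, hy, h⟩
    exact ⟨y, mem_cl.2 h, hy⟩
  · rintro ⟨y, hy, h⟩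
    exact ⟨y, h, mem_cl.1 hy⟩

/-- Row B4. By `cl_emb` with `S = T`: `Lam (gends G') ω (T.map φ) A2 = (Lam (gends G) (pul φ ω) T A2).map φ`; with `S = univ`
(`Set.image_univ`) the cluster inside `Set.range φ`; `orc (pul ω) (pul η) = pul (orc ω η)`; `y ∈ Set.range φ`. -/
lemma lam_emb (φ : G ↪g G') (ω : G'.edgeSet → Bool) (T : Finset V) (A2 : ℝ) :
    Lam (gends G') ω (T.map φ.toEmbedding) A2 = (Lam (gends G) (pul φ ω) T A2).map φ.toEmbedding := by
  classical
  have hT : ((T.map φ.toEmbedding : Finset V') : Set V') = φ '' (T : Set V) := by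
    rw [Finset.coe_map]
    rfl
  have hc : ∀ x : V, (cl (gends G') ω ((T.map φ.toEmbedding : Finset V') : Set V') (φ x)).card =
      (cl (gends G) (pul φ ω) (T : Set V) x).card := by
    intro x
    rw [hT, cl_emb, Finset.card_map]
  unfold Lam
  ext z
  simp only [Finset.mem_filter, Finset.mem_map]
  constructor
  · rintro ⟨⟨x, hx, rfl⟩, hz⟩
    refine ⟨x, ⟨hx, ?_⟩, rfl⟩
    have h := hc x
    rw [← h]
    exact hz
  · rintro ⟨x, ⟨hx, hz⟩, rfl⟩
    refine ⟨⟨x, hx, rfl⟩, ?_⟩
    have h := hc x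
    rw [← h] at hz
    exact hz

private lemma B4_fil (φ : G ↪g G') (S C : Finset V) (C' : Finset V') (h : C' = C.map φ.toEmbedding)
    [DecidablePred (fun x : V' => x ∉ C')] [DecidablePred (fun x : V => x ∉ C)] :
    ((S.map φ.toEmbedding).filter (fun x => x ∉ C')).card = (S.filter (fun x => x ∉ C)).card := by
  have h2 : (S.map φ.toEmbedding).filter (fun x => x ∉ C') =
      (S.filter (fun x => x ∉ C)).map φ.toEmbedding := by
    ext z
    simp only [Finset.mem_filter, Finset.mem_map]
    constructor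
    · rintro ⟨⟨x, hx, rfl⟩, hz⟩
      refine ⟨x, ⟨hx, fun hxC => hz ?_⟩, rfl⟩
      rw [h]
      exact Finset.mem_map_of_mem _ hxC
    · rintro ⟨x, ⟨hx, hz⟩, rfl⟩
      refine ⟨⟨x, hx, rfl⟩, fun hxC => hz ?_⟩
      rw [h] at hxC
      exact (Finset.mem_map' _).1 hxC
  rw [h2, Finset.card_map]

lemma good_emb (φ : G ↪g G') (ω η : G'.edgeSet → Bool) {ι : Type} (T : ι → Finset V) (A2 b : ℝ) :
    GoodB (gends G') ω η (Set.range φ) (fun c => (T c).map φ.toEmbedding) A2 b ↔
      GoodB (gends G) (pul φ ω) (pul φ η) Set.univ T A2 b := by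
  classical
  have hcl : ∀ y : V, cl (gends G') (orc ω η) (Set.range φ) (φ y) =
      (cl (gends G) (orc (pul φ ω) (pul φ η)) Set.univ y).map φ.toEmbedding := by
    intro y
    have h := cl_emb φ (orc ω η) Set.univ y
    rw [Set.image_univ] at h
    exact h
  have key : ∀ (c : ι) (y : V),
      (4 * b ≤ ((Lam (gends G') ω ((T c).map φ.toEmbedding) A2).card : ℝ) ∧
        (((Lam (gends G') ω ((T c).map φ.toEmbedding) A2).filter
          (fun x => x ∉ cl (gends G') (orc ω η) (Set.range φ) (φ y))).card : ℝ) ≤ b) ↔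
      (4 * b ≤ ((Lam (gends G) (pul φ ω) (T c) A2).card : ℝ) ∧
        (((Lam (gends G) (pul φ ω) (T c) A2).filter
          (fun x => x ∉ cl (gends G) (orc (pul φ ω) (pul φ η)) Set.univ y)).card : ℝ) ≤ b) := by
    intro c y
    rw [lam_emb, Finset.card_map, B4_fil φ _ _ _ (hcl y)]
  unfold GoodB
  constructor
  · rintro ⟨y', ⟨y, rfl⟩, hy⟩
    exact ⟨y, Set.mem_univ y, fun c => (key c y).1 (hy c)⟩
  · rintro ⟨y, -, hy⟩
    exact ⟨φ y, ⟨y, rfl⟩, fun c => (key c y).2 (hy c)⟩

/-- Row B4 (end). `Ex_pull` with the injective map `φ.mapEdgeSet`, twice. -/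
lemma Ex_pul (φ : G ↪g G') (p : ℝ) (F : (G.edgeSet → Bool) → ℝ) :
    Ex p (fun ω : G'.edgeSet → Bool => F (pul φ ω)) = Ex p F := by
  exact Ex_pull p (fun e => φ.mapEdgeSet e) φ.mapEdgeSet.injective F

lemma P2_pul (φ : G ↪g G') (p s : ℝ) (A : (G.edgeSet → Bool) → (G.edgeSet → Bool) → Prop) :
    P2 p s (fun ω η : G'.edgeSet → Bool => A (pul φ ω) (pul φ η)) = P2 p s A := by
  classical
  unfold P2
  have h1 : ∀ ω : G'.edgeSet → Bool, Ex s (fun η : G'.edgeSet → Bool =>
      if A (pul φ ω) (pul φ η) then (1 : ℝ) else 0) =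
      Ex s (fun η : G.edgeSet → Bool => if A (pul φ ω) η then (1 : ℝ) else 0) := fun ω =>
    Ex_pul φ s (fun η => if A (pul φ ω) η then (1 : ℝ) else 0)
  rw [Ex_congr h1]
  exact Ex_pul φ p (fun ω => Ex s (fun η => if A ω η then (1 : ℝ) else 0))

end emb

section box

private lemma B5_cast {n a b : ℕ} (ha : a < n) (hb : b < n) (h : (a : ZMod n) = (b : ZMod n)) :
    a = b := by
  rw [ZMod.natCast_eq_natCast_iff'] at h
  rwa [Nat.mod_eq_of_lt ha, Nat.mod_eq_of_lt hb] at h

private lemma B5_succ {n a b : ℕ} (ha : a < n) (hb : b + 1 < n) (h : (a : ZMod n) = (b : ZMod n) + 1) :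
    a = b + 1 := by
  refine B5_cast ha hb ?_
  rw [h]
  push_cast
  rfl

private lemma B5_succ' {n l z a b : ℕ} (hz : z + l ≤ n) (hl : l < n) (ha : a < l) (hb : b < l)
    (h : ((z + a : ℕ) : ZMod n) = ((z + b : ℕ) : ZMod n) + 1) : a = b + 1 := by
  by_cases hc : z + b + 1 < n
  · have h1 := B5_succ (by omega : z + a < n) hc h
    omega
  · exfalso
    have h1 : z + b + 1 = n := by omega
    have h2 : ((z + b : ℕ) : ZMod n) + 1 = ((0 : ℕ) : ZMod n) := by
      have h3 : (((z + b + 1 : ℕ)) : ZMod n) = ((n : ℕ) : ZMod n) := by rw [h1]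
      rw [ZMod.natCast_self] at h3
      rw [← Nat.cast_succ, Nat.succ_eq_add_one, h3]
      simp
    rw [h2] at h
    have h4 := B5_cast (by omega : z + a < n) (by omega : 0 < n) h
    omega

/-- The box, or a box in a torus, at `z` (`z i + l ≤ n`). -/
lemma box_box {d l n : ℕ} (z : Fin d → ℕ) (hz : ∀ i, z i + l ≤ n) :
    ∃ φ : boxG d l ↪g boxG d n, ∀ x i, ((φ x i : Fin n) : ℕ) = z i + (x i : ℕ) := by
  have hlt : ∀ (x : Fin d → Fin l) (i : Fin d), z i + (x i : ℕ) < n := by
    intro x i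
    have h1 := hz i
    have h2 := (x i).2
    omega
  refine ⟨⟨⟨fun x i => ⟨z i + (x i : ℕ), hlt x i⟩, ?_⟩, ?_⟩, fun x i => rfl⟩
  · intro x y hxy
    funext i
    have h1 := congrArg Fin.val (congrFun hxy i)
    dsimp only at h1
    exact Fin.ext (by omega)
  · intro x y
    change (∃ i, (z i + (x i : ℕ) + 1 = z i + (y i : ℕ) ∨ z i + (y i : ℕ) + 1 = z i + (x i : ℕ)) ∧
      ∀ j, j ≠ i → (⟨z j + (x j : ℕ), hlt x j⟩ : Fin n) = ⟨z j + (y j : ℕ), hlt y j⟩) ↔
      ∃ i, ((x i : ℕ) + 1 = (y i : ℕ) ∨ (y i : ℕ) + 1 = (x i : ℕ)) ∧ ∀ j, j ≠ i → x j = y j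
    constructor
    · rintro ⟨i, h1, h2⟩
      refine ⟨i, by omega, fun j hj => ?_⟩
      have h3 := congrArg Fin.val (h2 j hj)
      dsimp only at h3
      exact Fin.ext (by omega)
    · rintro ⟨i, h1, h2⟩
      refine ⟨i, by omega, fun j hj => ?_⟩
      rw [Fin.mk.injEq, h2 j hj]

/-- Row B5. The embeddings exist. Torus: `φ x i = ((z i + x i : ℕ) : ZMod n)`. It is injective: the numbers `z i + x i` are less than `n`
(`ZMod.natCast_self_eq_zero`, `ZMod.val_cast_of_lt`). Adjacency: if the images are adjacent in the torus in direction `i`, then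
`z j + x j ≡ z j + y j` for `j ≠ i` and `z i + y i ≡ z i + x i ± 1` mod `n`; since `|y i - x i| < l < n`, `y i = x i ± 1` (this is where `l < n` is used). -/
lemma box_tor {d l n : ℕ} [NeZero n] (z : Fin d → ℕ) (hz : ∀ i, z i + l ≤ n) (hl : l < n) :
    ∃ φ : boxG d l ↪g torG d n, ∀ x i, φ x i = ((z i + (x i : ℕ) : ℕ) : ZMod n) := by
  have hlt : ∀ (x : Fin d → Fin l) (i : Fin d), z i + (x i : ℕ) < n := by
    intro x i
    have h1 := hz i
    have h2 := (x i).2
    omega
  have hinj : ∀ (x y : Fin d → Fin l) (i : Fin d),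
      ((z i + (x i : ℕ) : ℕ) : ZMod n) = ((z i + (y i : ℕ) : ℕ) : ZMod n) → x i = y i := by
    intro x y i h
    have h1 := B5_cast (hlt x i) (hlt y i) h
    exact Fin.ext (by omega)
  have hdir : ∀ (x y : Fin d → Fin l) (i : Fin d),
      ((fun j => ((z j + (y j : ℕ) : ℕ) : ZMod n)) =
        (fun j => ((z j + (x j : ℕ) : ℕ) : ZMod n)) + Pi.single i 1) ↔
      ((x i : ℕ) + 1 = (y i : ℕ) ∧ ∀ j, j ≠ i → x j = y j) := by
    intro x y i
    constructor
    · intro h
      constructor
      · have h1 := congrFun h i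
        rw [Pi.add_apply, Pi.single_eq_same] at h1
        have h2 := B5_succ' (hz i) hl (y i).2 (x i).2 h1
        omega
      · intro j hj
        have h1 := congrFun h j
        rw [Pi.add_apply, Pi.single_eq_of_ne hj, add_zero] at h1
        exact (hinj y x j h1).symm
    · rintro ⟨h1, h2⟩
      funext j
      rw [Pi.add_apply]
      by_cases hj : j = i
      · subst hj
        rw [Pi.single_eq_same, ← h1]
        push_cast
        ring
      · rw [Pi.single_eq_of_ne hj, add_zero, h2 j hj]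
  refine ⟨⟨⟨fun x i => ((z i + (x i : ℕ) : ℕ) : ZMod n), ?_⟩, ?_⟩, fun x i => rfl⟩
  · intro x y hxy
    funext i
    exact hinj x y i (congrFun hxy i)
  · intro x y
    change ((fun j => ((z j + (x j : ℕ) : ℕ) : ZMod n)) ≠ (fun j => ((z j + (y j : ℕ) : ℕ) : ZMod n)) ∧
      ∃ i, ((fun j => ((z j + (y j : ℕ) : ℕ) : ZMod n)) =
        (fun j => ((z j + (x j : ℕ) : ℕ) : ZMod n)) + Pi.single i 1 ∨
        (fun j => ((z j + (x j : ℕ) : ℕ) : ZMod n)) =
        (fun j => ((z j + (y j : ℕ) : ℕ) : ZMod n)) + Pi.single i 1)) ↔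
      ∃ i, ((x i : ℕ) + 1 = (y i : ℕ) ∨ (y i : ℕ) + 1 = (x i : ℕ)) ∧ ∀ j, j ≠ i → x j = y j
    constructor
    · rintro ⟨_, i, h1 | h1⟩
      · obtain ⟨h2, h3⟩ := (hdir x y i).1 h1
        exact ⟨i, Or.inl h2, h3⟩
      · obtain ⟨h2, h3⟩ := (hdir y x i).1 h1
        exact ⟨i, Or.inr h2, fun j hj => (h3 j hj).symm⟩
    · rintro ⟨i, h1, h2⟩
      refine ⟨?_, i, ?_⟩
      · intro h3
        have h4 := hinj x y i (congrFun h3 i)
        have h5 := congrArg Fin.val h4
        omega
      · rcases h1 with h1 | h1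
        · exact Or.inl ((hdir x y i).2 ⟨h1, h2⟩)
        · exact Or.inr ((hdir y x i).2 ⟨h1, fun j hj => (h2 j hj).symm⟩)

/-- The cube with index `c` in the box of side `8 m`: coordinates in `[3m, 4m)` or `[4m, 5m)`. -/
def bT (d m : ℕ) (c : Fin d → Bool) : Finset (Fin d → Fin (8 * m)) :=
  Finset.univ.filter (fun x => ∀ i, m * (if c i = true then 4 else 3) ≤ (x i : ℕ) ∧
    (x i : ℕ) < m * (if c i = true then 5 else 4))

/-- Row B6. The cube is the image of the box of side `m` (`box_box` with `l = m`, `n = 8 m`, `z i = m * (3 or 4)`). -/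
lemma bT_map (d m : ℕ) (c : Fin d → Bool) (φ : boxG d m ↪g boxG d (8 * m))
    (hφ : ∀ x i, ((φ x i : Fin (8 * m)) : ℕ) = m * (if c i = true then 4 else 3) + (x i : ℕ)) :
    bT d m c = (Finset.univ : Finset (Fin d → Fin m)).map φ.toEmbedding := by
  classical
  ext x
  rw [bT, Finset.mem_filter, Finset.mem_map]
  constructor
  · rintro ⟨-, hx⟩
    have hlt : ∀ i, (x i : ℕ) - m * (if c i = true then 4 else 3) < m := by
      intro i
      obtain ⟨h1, h2⟩ := hx i
      by_cases hc : c i = true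
      · simp only [hc, if_true] at h1 h2 ⊢
        omega
      · simp only [hc, if_false, Bool.false_eq_true] at h1 h2 ⊢
        omega
    refine ⟨fun i => ⟨(x i : ℕ) - m * (if c i = true then 4 else 3), hlt i⟩, Finset.mem_univ _, ?_⟩
    funext i
    apply Fin.ext
    show ((φ _ i : Fin (8 * m)) : ℕ) = (x i : ℕ)
    rw [hφ]
    obtain ⟨h1, h2⟩ := hx i
    show m * (if c i = true then 4 else 3) + ((x i : ℕ) - m * (if c i = true then 4 else 3)) = (x i : ℕ)
    omega
  · rintro ⟨y, -, rfl⟩
    refine ⟨Finset.mem_univ _, fun i => ?_⟩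
    show m * (if c i = true then 4 else 3) ≤ ((φ y i : Fin (8 * m)) : ℕ) ∧
      ((φ y i : Fin (8 * m)) : ℕ) < m * (if c i = true then 5 else 4)
    rw [hφ]
    have h := (y i).isLt
    by_cases hc : c i = true
    · simp only [hc, if_true]
      omega
    · simp only [hc, if_false, Bool.false_eq_true]
      omega

private lemma B6_cast {n a b : ℕ} [NeZero n] (ha : a < n) (hb : b < n) (h : (a : ZMod n) = (b : ZMod n)) : a = b := by
  have := (ZMod.natCast_eq_natCast_iff' a b n).1 h
  rwa [Nat.mod_eq_of_lt ha, Nat.mod_eq_of_lt hb] at this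

private lemma B6_eq {d m n : ℕ} [NeZero n] (z z' : Fin d → ℕ) (hz : ∀ i, m * z i + 8 * m ≤ n)
    (hz' : ∀ i, m * z' i + 8 * m ≤ n) (φ φ' : boxG d (8 * m) ↪g torG d n)
    (hφ : ∀ x i, φ x i = ((m * z i + (x i : ℕ) : ℕ) : ZMod n))
    (hφ' : ∀ x i, φ' x i = ((m * z' i + (x i : ℕ) : ℕ) : ZMod n)) (x y : Fin d → Fin (8 * m)) (h : φ x = φ' y)
    (i : Fin d) : m * z i + (x i : ℕ) = m * z' i + (y i : ℕ) := by
  have h1 : φ x i = φ' y i := by rw [h]
  rw [hφ, hφ'] at h1
  have h2 := (x i).isLt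
  have h3 := (y i).isLt
  have h4 := hz i
  have h5 := hz' i
  exact B6_cast (by omega) (by omega) h1

/-- Row B6. Boxes at distance at least `8` are disjoint in the torus; the cubes with `c = false` of different sites are disjoint; the
cube `c` of `z` is the cube `c'` of the neighbour `z'` if `c i = true`, `c' i = false` and `c`, `c'` agree at the other indices. All coordinates
are natural numbers less than `n` (use `hφ` and the injectivity of the cast on them). -/
lemma tor_far {d m n : ℕ} [NeZero n] (z z' : Fin d → ℕ) (hz : ∀ i, m * z i + 8 * m ≤ n)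
    (hz' : ∀ i, m * z' i + 8 * m ≤ n) (φ φ' : boxG d (8 * m) ↪g torG d n)
    (hφ : ∀ x i, φ x i = ((m * z i + (x i : ℕ) : ℕ) : ZMod n))
    (hφ' : ∀ x i, φ' x i = ((m * z' i + (x i : ℕ) : ℕ) : ZMod n)) (h : ∃ i, z i + 8 ≤ z' i) :
    Disjoint (Set.range φ) (Set.range φ') := by
  rw [Set.disjoint_left]
  rintro _ ⟨x, rfl⟩ ⟨y, hy⟩
  obtain ⟨i, hi⟩ := h
  have h1 := B6_eq z z' hz hz' φ φ' hφ hφ' x y hy.symm i
  have h2 := (x i).isLt
  have h3 : m * (z i + 8) ≤ m * z' i := Nat.mul_le_mul_left m hi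
  have h4 : m * (z i + 8) = m * z i + 8 * m := by ring
  omega

lemma tor_cube {d m n : ℕ} [NeZero n] (z z' : Fin d → ℕ) (hz : ∀ i, m * z i + 8 * m ≤ n)
    (hz' : ∀ i, m * z' i + 8 * m ≤ n) (φ φ' : boxG d (8 * m) ↪g torG d n)
    (hφ : ∀ x i, φ x i = ((m * z i + (x i : ℕ) : ℕ) : ZMod n))
    (hφ' : ∀ x i, φ' x i = ((m * z' i + (x i : ℕ) : ℕ) : ZMod n)) (h : z ≠ z') :
    Disjoint ((bT d m (fun _ => false)).map φ.toEmbedding)
      ((bT d m (fun _ => false)).map φ'.toEmbedding) := by
  rw [Finset.disjoint_left]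
  intro v hv hv'
  obtain ⟨x, hx, rfl⟩ := Finset.mem_map.1 hv
  obtain ⟨y, hy, hxy⟩ := Finset.mem_map.1 hv'
  obtain ⟨i, hi⟩ := Function.ne_iff.1 h
  have h1 := B6_eq z z' hz hz' φ φ' hφ hφ' x y hxy.symm i
  have hx1 := (Finset.mem_filter.1 hx).2 i
  have hy1 := (Finset.mem_filter.1 hy).2 i
  simp only [Bool.false_eq_true, if_false] at hx1 hy1
  rcases Nat.lt_or_gt_of_ne hi with h2 | h2
  · have h3 : m * (z i + 1) ≤ m * z' i := Nat.mul_le_mul_left m h2
    have h4 : m * (z i + 1) = m * z i + m := by ring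
    omega
  · have h3 : m * (z' i + 1) ≤ m * z i := Nat.mul_le_mul_left m h2
    have h4 : m * (z' i + 1) = m * z' i + m := by ring
    omega

lemma tor_share {d m n : ℕ} [NeZero n] (z z' : Fin d → ℕ) (i : Fin d) (hi : z' i = z i + 1)
    (hj : ∀ j, j ≠ i → z' j = z j) (hz : ∀ i, m * z i + 8 * m ≤ n)
    (hz' : ∀ i, m * z' i + 8 * m ≤ n) (φ φ' : boxG d (8 * m) ↪g torG d n)
    (hφ : ∀ x i, φ x i = ((m * z i + (x i : ℕ) : ℕ) : ZMod n))
    (hφ' : ∀ x i, φ' x i = ((m * z' i + (x i : ℕ) : ℕ) : ZMod n)) :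
    (bT d m (fun j => decide (j = i))).map φ.toEmbedding =
      (bT d m (fun _ => false)).map φ'.toEmbedding := by
  classical
  ext v
  rw [Finset.mem_map, Finset.mem_map]
  constructor
  · rintro ⟨x, hx, rfl⟩
    have hx1 := (Finset.mem_filter.1 hx).2
    have hxi := hx1 i
    simp only [decide_true, if_true] at hxi
    have hxj : ∀ j, j ≠ i → m * 3 ≤ (x j : ℕ) ∧ (x j : ℕ) < m * 4 := by
      intro j hji
      have := hx1 j
      simp only [hji, decide_false, Bool.false_eq_true, if_false] at this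
      exact this
    have hlt : (x i : ℕ) - m < 8 * m := by
      have := (x i).isLt
      omega
    refine ⟨Function.update x i ⟨(x i : ℕ) - m, hlt⟩, ?_, ?_⟩
    · refine Finset.mem_filter.2 ⟨Finset.mem_univ _, fun j => ?_⟩
      simp only [Bool.false_eq_true, if_false]
      by_cases hji : j = i
      · subst hji
        rw [Function.update_self]
        show m * 3 ≤ (x j : ℕ) - m ∧ (x j : ℕ) - m < m * 4
        omega
      · rw [Function.update_of_ne hji]
        exact hxj j hji
    · funext j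
      show φ' _ j = φ x j
      rw [hφ, hφ']
      congr 1
      by_cases hji : j = i
      · subst hji
        rw [Function.update_self, hi]
        show m * (z j + 1) + ((x j : ℕ) - m) = m * z j + (x j : ℕ)
        have h4 : m * (z j + 1) = m * z j + m := by ring
        omega
      · rw [Function.update_of_ne hji, hj j hji]
  · rintro ⟨y, hy, rfl⟩
    have hy1 := (Finset.mem_filter.1 hy).2
    have hyj : ∀ j, m * 3 ≤ (y j : ℕ) ∧ (y j : ℕ) < m * 4 := by
      intro j
      have := hy1 j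
      simp only [Bool.false_eq_true, if_false] at this
      exact this
    have hyi := hyj i
    have hlt : (y i : ℕ) + m < 8 * m := by omega
    refine ⟨Function.update y i ⟨(y i : ℕ) + m, hlt⟩, ?_, ?_⟩
    · refine Finset.mem_filter.2 ⟨Finset.mem_univ _, fun j => ?_⟩
      by_cases hji : j = i
      · subst hji
        rw [Function.update_self]
        simp only [decide_true, if_true]
        show m * 4 ≤ (y j : ℕ) + m ∧ (y j : ℕ) + m < m * 5
        omega
      · rw [Function.update_of_ne hji]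
        simp only [hji, decide_false, Bool.false_eq_true, if_false]
        exact hyj j
    · funext j
      show φ _ j = φ' y j
      rw [hφ, hφ']
      congr 1
      by_cases hji : j = i
      · subst hji
        rw [Function.update_self, hi]
        show m * z j + ((y j : ℕ) + m) = m * (z j + 1) + (y j : ℕ)
        ring
      · rw [Function.update_of_ne hji, hj j hji]

/-- Change of the coordinate `i0`. -/
def upd {d l : ℕ} (i0 : Fin d) (x : Fin d → Fin l) (k : ℕ) : Fin d → Fin l :=
  Function.update x i0 (if h : k < l then ⟨k, h⟩ else x i0)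

/-- The path of `x`: straight in direction `i0` if there is room, otherwise straight in the opposite direction. -/
def bpi {d l : ℕ} (i0 : Fin d) (r : ℕ) (x : Fin d → Fin l) (j : ℕ) : Fin d → Fin l :=
  if (x i0 : ℕ) + r < l then upd i0 x ((x i0 : ℕ) + j) else upd i0 x ((x i0 : ℕ) - j)

lemma B7_upd_same {d l : ℕ} (i0 : Fin d) (x : Fin d → Fin l) (k : ℕ) (h : k < l) :
    ((upd i0 x k i0 : Fin l) : ℕ) = k := by
  simp [upd, h]

lemma B7_upd_ne {d l : ℕ} (i0 : Fin d) (x : Fin d → Fin l) (k : ℕ) (j : Fin d) (h : j ≠ i0) :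
    upd i0 x k j = x j := by
  simp [upd, h]

/-- Row B7. The paths `bpi` in the box (`2 r ≤ l`). All values `(x i0) ± j`, `j ≤ r`, are in `[0, l)`. A vertex `v` is on the path of `x` only
if `x = v` except at `i0` and `|x i0 - v i0| ≤ r`: at most `2 r + 1` such `x`. -/
lemma bpi_zero {d l : ℕ} (i0 : Fin d) (r : ℕ) (x : Fin d → Fin l) : bpi i0 r x 0 = x := by
  have h : upd i0 x (x i0 : ℕ) = x := by
    funext j
    by_cases hj : j = i0
    · subst hj
      apply Fin.ext
      exact B7_upd_same j x _ (x j).2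
    · exact B7_upd_ne i0 x _ j hj
  unfold bpi
  split_ifs <;> simpa using h

lemma bpi_edge {d l : ℕ} (i0 : Fin d) (r : ℕ) (hl : 2 * r ≤ l) (x : Fin d → Fin l)
    (j : ℕ) (hj : j < r) :
    ∃ e : (boxG d l).edgeSet, gends (boxG d l) e = s(bpi i0 r x j, bpi i0 r x (j + 1)) := by
  have hadj : (boxG d l).Adj (bpi i0 r x j) (bpi i0 r x (j + 1)) := by
    refine ⟨i0, ?_, ?_⟩
    · have hx := (x i0).2
      unfold bpi
      split_ifs with h
      · left
        rw [B7_upd_same _ _ _ (by omega), B7_upd_same _ _ _ (by omega)]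
        omega
      · right
        rw [B7_upd_same _ _ _ (by omega), B7_upd_same _ _ _ (by omega)]
        omega
    · intro k hk
      unfold bpi
      split_ifs with h <;> rw [B7_upd_ne _ _ _ _ hk, B7_upd_ne _ _ _ _ hk]
  exact ⟨⟨s(bpi i0 r x j, bpi i0 r x (j + 1)), hadj⟩, rfl⟩

open scoped Classical in
lemma bpi_cov {d l : ℕ} (i0 : Fin d) (r : ℕ) (hl : 2 * r ≤ l) (v : Fin d → Fin l) :
    (Finset.univ.filter (fun x => ∃ j ≤ r, bpi i0 r x j = v)).card ≤ 2 * r + 1 := by
  have key : ∀ x : Fin d → Fin l, (∃ j ≤ r, bpi i0 r x j = v) →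
      (∀ k, k ≠ i0 → x k = v k) ∧ (x i0 : ℕ) ≤ (v i0 : ℕ) + r ∧ (v i0 : ℕ) ≤ (x i0 : ℕ) + r := by
    rintro x ⟨j, hj, rfl⟩
    have hx := (x i0).2
    unfold bpi
    split_ifs with h
    · refine ⟨fun k hk => (B7_upd_ne _ _ _ _ hk).symm, ?_, ?_⟩ <;>
        rw [B7_upd_same _ _ _ (by omega)] <;> omega
    · refine ⟨fun k hk => (B7_upd_ne _ _ _ _ hk).symm, ?_, ?_⟩ <;>
        rw [B7_upd_same _ _ _ (by omega)] <;> omega
  have hc : (Finset.univ.filter (fun x => ∃ j ≤ r, bpi i0 r x j = v)).card ≤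
      (Finset.Icc ((v i0 : ℕ) - r) ((v i0 : ℕ) + r)).card := by
    apply Finset.card_le_card_of_injOn (fun x => (x i0 : ℕ))
    · intro x hx
      have hx' := key x (by simpa using hx)
      simp only [Finset.coe_Icc, Set.mem_Icc]
      omega
    · intro x hx y hy hxy
      have hx' := key x (by simpa using hx)
      have hy' := key y (by simpa using hy)
      funext k
      by_cases hk : k = i0
      · subst hk
        exact Fin.ext hxy
      · rw [hx'.1 k hk, hy'.1 k hk]
  refine hc.trans ?_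
  rw [Nat.card_Icc]
  omega

open scoped Classical in
/-- Row B8. Every vertex of the box is in at most `2 d` edges (an edge at `v` is determined by a direction and a sign). And the
general bound for the conflicts: if `Cft π r x x'` then some vertex `v` of the path of `x` (at most `r + 1`) is on the path of `x'` or
is joined by an edge `e` (at most `D`) to a vertex on the path of `x'`: at most `(r+1) (1 + D) q` such `x'`. -/
lemma box_deg {d l : ℕ} [Fintype (boxG d l).edgeSet] (v : Fin d → Fin l) :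
    (Finset.univ.filter (fun e : (boxG d l).edgeSet => v ∈ gends (boxG d l) e)).card ≤ 2 * d := by
  let nb : Fin d × Bool → (Fin d → Fin l) := fun p =>
    if p.2 = true then Function.update v p.1 (if h : (v p.1 : ℕ) + 1 < l then ⟨(v p.1 : ℕ) + 1, h⟩ else v p.1)
    else Function.update v p.1 ⟨(v p.1 : ℕ) - 1, lt_of_le_of_lt (Nat.sub_le _ _) (v p.1).isLt⟩
  have hsub : (Finset.univ.filter (fun e : (boxG d l).edgeSet => v ∈ gends (boxG d l) e)).image Subtype.val ⊆
      (Finset.univ : Finset (Fin d × Bool)).image (fun p => s(v, nb p)) := by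
    intro z hz
    obtain ⟨e, he, rfl⟩ := Finset.mem_image.1 hz
    have hv : v ∈ (e : Sym2 (Fin d → Fin l)) := (Finset.mem_filter.1 he).2
    obtain ⟨w, hw⟩ := Sym2.mem_iff_exists.1 hv
    have hadj : (boxG d l).Adj v w := by
      have h1 := e.2
      rw [hw] at h1
      exact (SimpleGraph.mem_edgeSet _).1 h1
    rw [Finset.mem_image]
    obtain ⟨i, h1, h2⟩ := hadj
    rcases h1 with h1 | h1
    · refine ⟨(i, true), Finset.mem_univ _, ?_⟩
      rw [hw]
      congr 1
      have hlt : (v i : ℕ) + 1 < l := by rw [h1]; exact (w i).isLt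
      have e1 : nb (i, true) = Function.update v i ⟨(v i : ℕ) + 1, hlt⟩ := by
        show (if (true : Bool) = true then Function.update v i
          (if h : (v i : ℕ) + 1 < l then ⟨(v i : ℕ) + 1, h⟩ else v i) else _) = _
        rw [if_pos rfl, dif_pos hlt]
      rw [e1]
      funext j
      by_cases hj : j = i
      · subst hj
        rw [Function.update_self]
        exact Fin.ext h1
      · rw [Function.update_of_ne hj]
        exact h2 j hj
    · refine ⟨(i, false), Finset.mem_univ _, ?_⟩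
      rw [hw]
      congr 1
      have e1 : nb (i, false) = Function.update v i
          ⟨(v i : ℕ) - 1, lt_of_le_of_lt (Nat.sub_le _ _) (v i).isLt⟩ := rfl
      rw [e1]
      funext j
      by_cases hj : j = i
      · subst hj
        rw [Function.update_self]
        apply Fin.ext
        show (v j : ℕ) - 1 = (w j : ℕ)
        omega
      · rw [Function.update_of_ne hj]
        exact h2 j hj
  have h1 := Finset.card_le_card hsub
  rw [Finset.card_image_of_injective _ Subtype.val_injective] at h1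
  have h2 : ((Finset.univ : Finset (Fin d × Bool)).image (fun p => s(v, nb p))).card ≤ 2 * d := by
    refine Finset.card_image_le.trans ?_
    rw [Finset.card_univ, Fintype.card_prod, Fintype.card_fin, Fintype.card_bool, mul_comm]
  exact h1.trans h2

open scoped Classical in
lemma conf_le {V : Type*} [Fintype V] [DecidableEq V] {E : Type*} [Fintype E] [DecidableEq E]
    {ends : E → Sym2 V} (π : V → ℕ → V) (r D qc : ℕ)
    (hdeg : ∀ v, (Finset.univ.filter (fun e => v ∈ ends e)).card ≤ D)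
    (hcov : ∀ v, (Finset.univ.filter (fun x => ∃ l ≤ r, π x l = v)).card ≤ qc) (x : V) :
    (Finset.univ.filter (fun x' => Cft ends π r x x')).card ≤ (r + 1) * ((1 + D) * qc) := by
  let oth : V → E → V := fun u e => if h : u ∈ ends e then Sym2.Mem.other h else u
  let N : V → Finset V := fun u => insert u ((Finset.univ.filter (fun e => u ∈ ends e)).image (oth u))
  have hN : ∀ u, (N u).card ≤ 1 + D := by
    intro u
    have h1 : (N u).card ≤ ((Finset.univ.filter (fun e => u ∈ ends e)).image (oth u)).card + 1 :=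
      Finset.card_insert_le _ _
    have h2 : ((Finset.univ.filter (fun e => u ∈ ends e)).image (oth u)).card ≤
        (Finset.univ.filter (fun e => u ∈ ends e)).card := Finset.card_image_le
    have h3 := hdeg u
    omega
  have hsub : Finset.univ.filter (fun x' => Cft ends π r x x') ⊆ (Finset.range (r + 1)).biUnion
      (fun l => (N (π x l)).biUnion (fun v => Finset.univ.filter (fun x' => ∃ l' ≤ r, π x' l' = v))) := by
    intro x' hx'
    obtain ⟨l, hl, l', hl', h⟩ := (Finset.mem_filter.1 hx').2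
    rw [Finset.mem_biUnion]
    refine ⟨l, Finset.mem_range.2 (by omega), ?_⟩
    rw [Finset.mem_biUnion]
    refine ⟨π x' l', ?_, Finset.mem_filter.2 ⟨Finset.mem_univ _, l', hl', rfl⟩⟩
    rcases h with h | ⟨e, he⟩
    · rw [← h]
      exact Finset.mem_insert_self _ _
    · apply Finset.mem_insert_of_mem
      rw [Finset.mem_image]
      have hmem : π x l ∈ ends e := by
        rw [he]
        exact Sym2.mem_mk_left _ _
      refine ⟨e, Finset.mem_filter.2 ⟨Finset.mem_univ _, hmem⟩, ?_⟩
      show (if h : π x l ∈ ends e then Sym2.Mem.other h else π x l) = π x' l'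
      rw [dif_pos hmem]
      exact Sym2.congr_right.1 ((Sym2.other_spec hmem).trans he)
  calc (Finset.univ.filter (fun x' => Cft ends π r x x')).card
      ≤ _ := Finset.card_le_card hsub
    _ ≤ ∑ l ∈ Finset.range (r + 1), ((N (π x l)).biUnion
        (fun v => Finset.univ.filter (fun x' => ∃ l' ≤ r, π x' l' = v))).card := Finset.card_biUnion_le
    _ ≤ ∑ _l ∈ Finset.range (r + 1), (1 + D) * qc := by
        apply Finset.sum_le_sum
        intro l _
        calc _ ≤ ∑ v ∈ N (π x l), (Finset.univ.filter (fun x' => ∃ l' ≤ r, π x' l' = v)).card :=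
              Finset.card_biUnion_le
          _ ≤ ∑ _v ∈ N (π x l), qc := Finset.sum_le_sum fun v _ => hcov v
          _ = (N (π x l)).card * qc := by rw [Finset.sum_const, smul_eq_mul]
          _ ≤ (1 + D) * qc := Nat.mul_le_mul_right _ (hN _)
    _ = (r + 1) * ((1 + D) * qc) := by rw [Finset.sum_const, smul_eq_mul, Finset.card_range]

/-- Row B9. The shift: on the core `W` (coordinates in `[3m, 5m)`, `r ≤ m`) it is injective, the image is in the bulk of the box of
side `8 m` (all coordinates in `[2m, 6m]`), `nd x (sh x) = r`, and the path of `x` ends there. -/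
def bul {d l : ℕ} (x : Fin d → Fin l) : Prop := ∀ i, l ≤ 4 * (x i : ℕ) ∧ 4 * (x i : ℕ) ≤ 3 * l

def cor (d m : ℕ) : Finset (Fin d → Fin (8 * m)) :=
  Finset.univ.filter (fun x => ∀ i, 3 * m ≤ (x i : ℕ) ∧ (x i : ℕ) < 5 * m)

private lemma B9_lt {d m : ℕ} (i0 : Fin d) (r : ℕ) (hr : r ≤ m) (x : Fin d → Fin (8 * m))
    (hx : x ∈ cor d m) : (x i0 : ℕ) + r < 8 * m := by
  have h1 := (Finset.mem_filter.mp hx).2 i0
  omega

lemma sh_inj {d m : ℕ} (i0 : Fin d) (r : ℕ) (hr : r ≤ m) :
    Set.InjOn (fun x : Fin d → Fin (8 * m) => upd i0 x ((x i0 : ℕ) + r)) (cor d m) := by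
  intro x hx y hy hxy
  have hx' := B9_lt i0 r hr x hx
  have hy' := B9_lt i0 r hr y hy
  simp only [upd, dif_pos hx', dif_pos hy'] at hxy
  funext i
  by_cases hi : i = i0
  · subst hi
    have h1 := congrFun hxy i
    rw [Function.update_self, Function.update_self] at h1
    have h2 := congrArg Fin.val h1
    simp only at h2
    exact Fin.ext (by omega)
  · have h1 := congrFun hxy i
    rwa [Function.update_of_ne hi, Function.update_of_ne hi] at h1

lemma sh_bul {d m : ℕ} (i0 : Fin d) (r : ℕ) (hr : r ≤ m) (x : Fin d → Fin (8 * m)) (hx : x ∈ cor d m) :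
    bul (upd i0 x ((x i0 : ℕ) + r)) ∧ nd x (upd i0 x ((x i0 : ℕ) + r)) = r ∧
      bpi i0 r x r = upd i0 x ((x i0 : ℕ) + r) := by
  have hx' := B9_lt i0 r hr x hx
  have hc := (Finset.mem_filter.mp hx).2
  refine ⟨?_, ?_, ?_⟩
  · intro i
    by_cases hi : i = i0
    · subst hi
      simp only [upd, dif_pos hx', Function.update_self]
      have h1 := hc i
      omega
    · simp only [upd, dif_pos hx', Function.update_of_ne hi]
      have h1 := hc i
      omega
  · unfold nd
    apply le_antisymm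
    · apply Finset.sup_le
      intro i _
      by_cases hi : i = i0
      · subst hi
        simp only [upd, dif_pos hx', Function.update_self]
        omega
      · simp only [upd, dif_pos hx', Function.update_of_ne hi]
        omega
    · have h2 := Finset.le_sup (f := fun i => ((x i : ℕ) - (upd i0 x ((x i0 : ℕ) + r) i : ℕ)) +
        ((upd i0 x ((x i0 : ℕ) + r) i : ℕ) - (x i : ℕ))) (Finset.mem_univ i0)
      refine le_trans ?_ h2
      simp only [upd, dif_pos hx', Function.update_self]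
      omega
  · unfold bpi
    rw [if_pos hx']

lemma bT_cor {d m : ℕ} (c : Fin d → Bool) : bT d m c ⊆ cor d m := by
  intro x hx
  have h1 := (Finset.mem_filter.mp hx).2
  refine Finset.mem_filter.mpr ⟨Finset.mem_univ _, fun i => ?_⟩
  have h2 := h1 i
  split_ifs at h2 <;> constructor <;> omega

open scoped Classical in
/-- The bulk of the box of side `l ≥ 2` has at least `(l/4)^d` points: it is the product of the sets `{k | l ≤ 4 k ≤ 3 l}`, each with at
least `l/4` elements (`Fintype.piFinset`, `Fintype.card_piFinset_const`; the numbers from `⌈l/4⌉` to `⌊3l/4⌋`). -/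
lemma bul_card {d l : ℕ} (hl : 2 ≤ l) :
    ((l : ℝ) / 4) ^ d ≤ ((Finset.univ.filter (fun x : Fin d → Fin l => bul x)).card : ℝ) := by
  have h1 : (Finset.univ.filter (fun x : Fin d → Fin l => bul x)) =
      Fintype.piFinset (fun _ : Fin d => Finset.univ.filter
        (fun k : Fin l => l ≤ 4 * (k : ℕ) ∧ 4 * (k : ℕ) ≤ 3 * l)) := by
    ext x
    rw [Finset.mem_filter, Fintype.mem_piFinset]
    constructor
    · intro h i
      exact Finset.mem_filter.mpr ⟨Finset.mem_univ _, h.2 i⟩
    · intro h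
      exact ⟨Finset.mem_univ _, fun i => (Finset.mem_filter.mp (h i)).2⟩
  have h2 : (Finset.Icc ((l + 3) / 4) (3 * l / 4)).card ≤ (Finset.univ.filter
        (fun k : Fin l => l ≤ 4 * (k : ℕ) ∧ 4 * (k : ℕ) ≤ 3 * l)).card := by
    refine le_trans (Finset.card_le_card ?_) (Finset.card_image_le (s := Finset.univ.filter
        (fun k : Fin l => l ≤ 4 * (k : ℕ) ∧ 4 * (k : ℕ) ≤ 3 * l)) (f := fun k : Fin l => (k : ℕ)))
    intro k hk
    have h3 := Finset.mem_Icc.mp hk
    refine Finset.mem_image.mpr ⟨⟨k, by omega⟩, Finset.mem_filter.mpr ⟨Finset.mem_univ _, ?_⟩, rfl⟩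
    simp only
    omega
  rw [Nat.card_Icc] at h2
  have h4 : l ≤ 4 * (Finset.univ.filter
        (fun k : Fin l => l ≤ 4 * (k : ℕ) ∧ 4 * (k : ℕ) ≤ 3 * l)).card := by omega
  have h5 : (l : ℝ) / 4 ≤ ((Finset.univ.filter
        (fun k : Fin l => l ≤ 4 * (k : ℕ) ∧ 4 * (k : ℕ) ≤ 3 * l)).card : ℝ) := by
    have h6 : (l : ℝ) ≤ 4 * ((Finset.univ.filter
        (fun k : Fin l => l ≤ 4 * (k : ℕ) ∧ 4 * (k : ℕ) ≤ 3 * l)).card : ℝ) := by exact_mod_cast h4
    linarith
  rw [h1, Fintype.card_piFinset_const]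
  push_cast
  exact pow_le_pow_left₀ (by positivity) h5 d

end box

end Pool.Agent.PERC29.AE
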