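import Pool.Agent.Lib.MP_29e17e_pr.Spr

set_option autoImplicit false
set_option linter.unusedSectionVars false

/-! Rows 29v-K1 .. 29v-K4: marked vertices. `b : V → Bool` has the law `Ex g`: every vertex is marked with probability `g`. -/

open Finset

namespace Pool.Agent.PERC29.AE

variable {V : Type*} [Fintype V] [DecidableEq V]

/-- The set `A` contains a marked vertex. -/
def hit (b : V → Bool) (A : Finset V) : Prop := ∃ x ∈ A, b x = true

open scoped Classical in
/-- Row K1. The probability that `A` is marked is `1 - (1 - g) ^ |A|` (`Ex_closed` of Spr.lean: `¬ hit b A` says that all `b x`,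
`x ∈ A`, are `false`). Then `1 - (1 - g) ^ n ≤ g n` (`one_add_mul_le_pow`) and `(1 - g) ^ n ≤ exp (- g n)`. -/
lemma hit_eq (g : ℝ) (A : Finset V) :
    Ex g (fun b : V → Bool => if hit b A then (1 : ℝ) else 0) = 1 - (1 - g) ^ A.card := by
  have h1 := Ex_closed g A
  have h2 : Ex g (fun b : V → Bool => if hit b A then (1 : ℝ) else 0) +
      Ex g (fun b : V → Bool => if ∀ e ∈ A, b e = false then (1 : ℝ) else 0) = 1 := by
    rw [← Ex_add]
    refine (Ex_congr fun b => ?_).trans (Ex_const (E := V) g 1)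
    by_cases h : hit b A
    · rw [if_pos h, if_neg ?_, add_zero]
      rintro h3
      obtain ⟨x, hx, hb⟩ := h
      rw [h3 x hx] at hb
      exact Bool.false_ne_true hb
    · rw [if_neg h, if_pos ?_, zero_add]
      intro e he
      by_contra h4
      exact h ⟨e, he, by simpa using h4⟩
  linarith

open scoped Classical in
lemma hit_le {g : ℝ} (h0 : 0 ≤ g) (h1 : g ≤ 1) (A : Finset V) :
    Ex g (fun b : V → Bool => if hit b A then (1 : ℝ) else 0) ≤ g * A.card := by
  rw [hit_eq]
  have h2 := one_add_mul_le_pow (a := -g) (by linarith) A.card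
  have h3 : (1 : ℝ) + -g = 1 - g := by ring
  rw [h3] at h2
  nlinarith [h2]

open scoped Classical in
/-- Lower bound, for `g n ≤ 1`: `1 - exp (-t) ≥ t / 2` for `0 ≤ t ≤ 1`. Here `t = g * m`, `m ≤ |A|`. -/
lemma hit_low {g m : ℝ} (h0 : 0 ≤ g) (h1 : g ≤ 1) (hm0 : 0 ≤ m) (hm : g * m ≤ 1) (A : Finset V)
    (hA : m ≤ (A.card : ℝ)) :
    g * m / 2 ≤ Ex g (fun b : V → Bool => if hit b A then (1 : ℝ) else 0) := by
  rw [hit_eq]
  have ht0 : 0 ≤ g * m := mul_nonneg h0 hm0
  have h2 : (1 - g) ^ A.card ≤ Real.exp (-(g * m)) := by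
    calc (1 - g) ^ A.card ≤ (Real.exp (-g)) ^ A.card := by
          apply pow_le_pow_left₀ (by linarith)
          have := Real.add_one_le_exp (-g)
          linarith
      _ = Real.exp (A.card * (-g)) := by rw [Real.exp_nat_mul]
      _ ≤ Real.exp (-(g * m)) := by
          apply Real.exp_le_exp.mpr
          nlinarith [mul_le_mul_of_nonneg_left hA h0]
  have h3 : Real.exp (-(g * m)) ≤ 1 - g * m / 2 := by
    have h4 := Real.add_one_le_exp (g * m)
    have h5 : 0 < Real.exp (g * m) := Real.exp_pos _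
    have h6 : Real.exp (-(g * m)) * Real.exp (g * m) = 1 := by
      rw [← Real.exp_add]
      simp
    have h7 : 0 < Real.exp (-(g * m)) := Real.exp_pos _
    have h8 : Real.exp (-(g * m)) * (g * m + 1) ≤ 1 := by
      calc Real.exp (-(g * m)) * (g * m + 1) ≤ Real.exp (-(g * m)) * Real.exp (g * m) :=
            mul_le_mul_of_nonneg_left h4 h7.le
        _ = 1 := h6
    have h9 : 1 ≤ (1 - g * m / 2) * (g * m + 1) := by nlinarith
    have h10 : Real.exp (-(g * m)) * (g * m + 1) ≤ (1 - g * m / 2) * (g * m + 1) := le_trans h8 h9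
    exact le_of_mul_le_mul_right h10 (by linarith)
  linarith

/-- The event depends only on the coordinates of `A`. -/
lemma K2_dep (A : Finset V) (b b' : V → Bool) (h : ∀ x ∈ A, b x = b' x) : hit b A ↔ hit b' A := by
  unfold hit
  constructor
  · rintro ⟨x, hx, hb⟩
    exact ⟨x, hx, by rw [← h x hx]; exact hb⟩
  · rintro ⟨x, hx, hb⟩
    exact ⟨x, hx, by rw [h x hx]; exact hb⟩

open scoped Classical in
lemma K2_mul {g : ℝ} (A : Finset V) (Q : (V → Bool) → Prop)
    (hQ : ∀ b b' : V → Bool, (∀ x, x ∉ A → b x = b' x) → (Q b ↔ Q b')) :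
    Ex g (fun b : V → Bool => if hit b A ∧ Q b then (1 : ℝ) else 0) =
      Ex g (fun b : V → Bool => if hit b A then (1 : ℝ) else 0) *
        Ex g (fun b : V → Bool => if Q b then (1 : ℝ) else 0) := by
  rw [← Ex_indep g (A : Set V) (fun b : V → Bool => if hit b A then (1 : ℝ) else 0)
    (fun b : V → Bool => if Q b then (1 : ℝ) else 0)]
  · apply Ex_congr
    intro b
    by_cases h1 : hit b A <;> by_cases h2 : Q b <;> simp [h1, h2]
  · intro b b' h
    have h3 := K2_dep A b b' (fun x hx => h x (Finset.mem_coe.2 hx))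
    by_cases h1 : hit b A
    · rw [if_pos h1, if_pos (h3.1 h1)]
    · rw [if_neg h1, if_neg (fun h4 => h1 (h3.2 h4))]
  · intro b b' h
    have h3 := hQ b b' (fun x hx => h x (fun h4 => hx (Finset.mem_coe.1 h4)))
    by_cases h1 : Q b
    · rw [if_pos h1, if_pos (h3.1 h1)]
    · rw [if_neg h1, if_neg (fun h4 => h1 (h3.2 h4))]

open scoped Classical in
lemma K2_nonneg {g : ℝ} (h0 : 0 ≤ g) (h1 : g ≤ 1) (Q : (V → Bool) → Prop) :
    0 ≤ Ex g (fun b : V → Bool => if Q b then (1 : ℝ) else 0) := by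
  apply Ex_nonneg h0 h1
  intro b
  split_ifs <;> norm_num

open scoped Classical in
/-- Row K2. Disjoint sets: the events are independent (`Ex_indep` with the set of coordinates `A`), then `hit_le`. -/
lemma hit_two {g : ℝ} (h0 : 0 ≤ g) (h1 : g ≤ 1) (A B : Finset V) (hAB : Disjoint A B) :
    Ex g (fun b : V → Bool => if hit b A ∧ hit b B then (1 : ℝ) else 0) ≤ g ^ 2 * (A.card * B.card) := by
  have hd : ∀ x ∈ B, x ∉ A := fun x hx hA => (Finset.disjoint_left.1 hAB) hA hx
  rw [K2_mul A (fun b => hit b B) (fun b b' h => K2_dep B b b' (fun x hx => h x (hd x hx)))]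
  calc _ ≤ (g * A.card) * (g * B.card) :=
        mul_le_mul (hit_le h0 h1 A) (hit_le h0 h1 B) (K2_nonneg h0 h1 _)
          (mul_nonneg h0 (Nat.cast_nonneg _))
    _ = _ := by ring

open scoped Classical in
lemma hit_three {g : ℝ} (h0 : 0 ≤ g) (h1 : g ≤ 1) (A B C : Finset V) (hAB : Disjoint A B)
    (hAC : Disjoint A C) (hBC : Disjoint B C) :
    Ex g (fun b : V → Bool => if hit b A ∧ hit b B ∧ hit b C then (1 : ℝ) else 0) ≤
      g ^ 3 * (A.card * (B.card * C.card)) := by
  have hd : ∀ x ∈ B, x ∉ A := fun x hx hA => (Finset.disjoint_left.1 hAB) hA hx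
  have hd' : ∀ x ∈ C, x ∉ A := fun x hx hA => (Finset.disjoint_left.1 hAC) hA hx
  obtain ⟨Q, hQ⟩ : ∃ Q : (V → Bool) → Prop, ∀ b, Q b ↔ (hit b B ∧ hit b C) := ⟨_, fun _ => Iff.rfl⟩
  have h3 := K2_mul (g := g) A Q (fun b b' h => (hQ b).trans ((and_congr
    (K2_dep B b b' (fun x hx => h x (hd x hx))) (K2_dep C b b' (fun x hx => h x (hd' x hx)))).trans
      (hQ b').symm))
  have h4 : Ex g (fun b : V → Bool => if Q b then (1 : ℝ) else 0) ≤
      g ^ 2 * (B.card * C.card) := by
    refine le_trans (le_of_eq (Ex_congr fun b => ?_)) (hit_two h0 h1 B C hBC)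
    by_cases hb : hit b B <;> by_cases hc : hit b C <;> simp [hQ, hb, hc]
  have h5 : Ex g (fun b : V → Bool => if hit b A ∧ hit b B ∧ hit b C then (1 : ℝ) else 0) =
      Ex g (fun b : V → Bool => if hit b A then (1 : ℝ) else 0) *
        Ex g (fun b : V → Bool => if Q b then (1 : ℝ) else 0) := by
    refine Eq.trans (Ex_congr fun b => ?_) h3
    by_cases ha : hit b A <;> by_cases hb : hit b B <;> by_cases hc : hit b C <;>
      simp [hQ, ha, hb, hc]
  rw [h5]
  calc _ ≤ (g * A.card) * (g ^ 2 * (B.card * C.card)) :=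
        mul_le_mul (hit_le h0 h1 A) h4 (K2_nonneg h0 h1 _)
          (mul_nonneg h0 (Nat.cast_nonneg _))
    _ = _ := by ring

open scoped Classical in
/-- Row K3. Chebyshev for the marked part of a family of disjoint sets with weights `c A ≥ 0`. With `q A` the probability that
`A` is marked: `Ex (∑ c A (1[A] - q A))² = ∑ c A² q A (1 - q A) ≤ ∑ c A² g |A|` (for `A ≠ B` the covariance is zero: `A`, `B`
disjoint, `Ex_indep`). If `∑ c A 1[A] < t` and `2 t ≤ ∑ c A q A` then the square is at least `t²`. -/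
lemma cheb {g t : ℝ} (h0 : 0 ≤ g) (h1 : g ≤ 1) (ht : 0 < t) (Fm : Finset (Finset V))
    (hF : ∀ A ∈ Fm, ∀ B ∈ Fm, A ≠ B → Disjoint A B) (c : Finset V → ℝ) (hc : ∀ A, 0 ≤ c A)
    (hmean : 2 * t ≤ ∑ A ∈ Fm, c A * Ex g (fun b : V → Bool => if hit b A then (1 : ℝ) else 0)) :
    Ex g (fun b : V → Bool => if (∑ A ∈ Fm, c A * (if hit b A then (1 : ℝ) else 0)) < t
      then (1 : ℝ) else 0) ≤ (∑ A ∈ Fm, c A ^ 2 * (g * A.card)) / t ^ 2 := by
  set I : Finset V → (V → Bool) → ℝ := fun A b => if hit b A then (1 : ℝ) else 0 with hI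
  set q : Finset V → ℝ := fun A => Ex g (I A) with hq
  have hmean' : 2 * t ≤ ∑ A ∈ Fm, c A * q A := hmean
  have hzero : ∀ A, Ex g (fun b => I A b - q A) = 0 := by
    intro A
    have h := Ex_add g (fun b => I A b) (fun _ => - q A)
    rw [Ex_const] at h
    have e : ∀ b, I A b - q A = I A b + - q A := fun b => by ring
    rw [Ex_congr e, h]
    simp [hq]
  have hdep : ∀ (A : Finset V) (ω ω' : V → Bool), (∀ e ∈ A, ω e = ω' e) → I A ω = I A ω' := by
    intro A ω ω' h
    have : hit ω A ↔ hit ω' A := by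
      unfold hit
      constructor
      · rintro ⟨x, hx, hb⟩
        exact ⟨x, hx, by rw [← h x hx]; exact hb⟩
      · rintro ⟨x, hx, hb⟩
        exact ⟨x, hx, by rw [h x hx]; exact hb⟩
    simp only [hI, this]
  have hoff : ∀ A B, Disjoint A B → Ex g (fun b => (I A b - q A) * (I B b - q B)) = 0 := by
    intro A B hAB
    have h := Ex_indep g (A : Set V) (fun b => I A b - q A) (fun b => I B b - q B)
      (fun ω ω' h => by rw [hdep A ω ω' (fun e he => h e (by exact_mod_cast he))])
      (fun ω ω' h => by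
        rw [hdep B ω ω' (fun e he => h e (by
          intro h2
          exact (Finset.disjoint_left.1 hAB (by exact_mod_cast h2)) he))])
    rw [h, hzero A, zero_mul]
  have hdiag : ∀ A, Ex g (fun b => (I A b - q A) * (I A b - q A)) ≤ g * A.card := by
    intro A
    have e : ∀ b, (I A b - q A) * (I A b - q A) = (1 - 2 * q A) * I A b + q A ^ 2 := by
      intro b
      have h1 : I A b * I A b = I A b := by
        simp only [hI]
        split_ifs <;> norm_num
      calc (I A b - q A) * (I A b - q A) = I A b * I A b - 2 * q A * I A b + q A ^ 2 := by ring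
        _ = (1 - 2 * q A) * I A b + q A ^ 2 := by rw [h1]; ring
    rw [Ex_congr e, Ex_add g (fun b => (1 - 2 * q A) * I A b) (fun _ => q A ^ 2), Ex_const,
      Ex_mul_left g (1 - 2 * q A) (I A)]
    have h2 : q A ≤ g * A.card := hit_le h0 h1 A
    have h3 : Ex g (I A) = q A := rfl
    rw [h3]
    nlinarith [h2, sq_nonneg (q A)]
  have hsq : Ex g (fun b => (∑ A ∈ Fm, c A * (I A b - q A)) ^ 2) ≤ ∑ A ∈ Fm, c A ^ 2 * (g * A.card) := by
    have e : ∀ b, (∑ A ∈ Fm, c A * (I A b - q A)) ^ 2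
        = ∑ A ∈ Fm, ∑ B ∈ Fm, (c A * c B) * ((I A b - q A) * (I B b - q B)) := by
      intro b
      rw [sq, Finset.sum_mul_sum]
      exact Finset.sum_congr rfl fun A _ => Finset.sum_congr rfl fun B _ => by ring
    rw [Ex_congr e, Ex_sum Fm g]
    apply Finset.sum_le_sum
    intro A hA
    rw [Ex_sum Fm g (fun B b => (c A * c B) * ((I A b - q A) * (I B b - q B))),
      Finset.sum_eq_single A]
    · rw [Ex_mul_left g (c A * c A) (fun b => (I A b - q A) * (I A b - q A))]
      have h2 := hdiag A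
      have h3 : 0 ≤ c A * c A := mul_self_nonneg _
      calc c A * c A * Ex g (fun b => (I A b - q A) * (I A b - q A)) ≤ c A * c A * (g * A.card) :=
            mul_le_mul_of_nonneg_left h2 h3
        _ = c A ^ 2 * (g * A.card) := by ring
    · intro B hB hBA
      rw [Ex_mul_left g (c A * c B) (fun b => (I A b - q A) * (I B b - q B)),
        hoff A B (hF A hA B hB (Ne.symm hBA)), mul_zero]
    · intro h
      exact absurd hA h
  have hpt : ∀ b : V → Bool, (if (∑ A ∈ Fm, c A * (if hit b A then (1 : ℝ) else 0)) < t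
      then (1 : ℝ) else 0) ≤ 1 / t ^ 2 * (∑ A ∈ Fm, c A * (I A b - q A)) ^ 2 := by
    intro b
    split_ifs with h
    · have h' : (∑ A ∈ Fm, c A * I A b) < t := h
      have e : ∑ A ∈ Fm, c A * (I A b - q A) = (∑ A ∈ Fm, c A * I A b) - ∑ A ∈ Fm, c A * q A := by
        rw [← Finset.sum_sub_distrib]
        exact Finset.sum_congr rfl fun A _ => by ring
      rw [e]
      have h2 : t ≤ (∑ A ∈ Fm, c A * q A) - ∑ A ∈ Fm, c A * I A b := by linarith
      have h3 : t ^ 2 ≤ ((∑ A ∈ Fm, c A * I A b) - ∑ A ∈ Fm, c A * q A) ^ 2 := by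
        nlinarith [h2, ht]
      have ht2 : 0 < t ^ 2 := by positivity
      rw [one_div, inv_mul_eq_div, le_div_iff₀ ht2, one_mul]
      exact h3
    · positivity
  calc Ex g (fun b : V → Bool => if (∑ A ∈ Fm, c A * (if hit b A then (1 : ℝ) else 0)) < t
      then (1 : ℝ) else 0)
      ≤ Ex g (fun b => 1 / t ^ 2 * (∑ A ∈ Fm, c A * (I A b - q A)) ^ 2) := Ex_mono h0 h1 hpt
    _ = 1 / t ^ 2 * Ex g (fun b => (∑ A ∈ Fm, c A * (I A b - q A)) ^ 2) := Ex_mul_left _ _ _
    _ ≤ 1 / t ^ 2 * ∑ A ∈ Fm, c A ^ 2 * (g * A.card) :=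
        mul_le_mul_of_nonneg_left hsq (by positivity)
    _ = (∑ A ∈ Fm, c A ^ 2 * (g * A.card)) / t ^ 2 := by ring

end Pool.Agent.PERC29.AE
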