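import Pool.Agent.Lib.MP_29e17e_pr.V.Ea
import Pool.Agent.Lib.MP_29e17e_pr.V.Mk

set_option autoImplicit false
set_option linter.unusedSectionVars false

/-! Rows 29v-C1 .. 29v-C5: the cluster off an explored set. -/

open Finset

namespace Pool.Agent.PERC29.AE

variable {V : Type*} [Fintype V] [DecidableEq V] {E : Type*} [Fintype E] [DecidableEq E]
  {ends : E → Sym2 V}

open scoped Classical in
/-- The cluster of `x` in the configuration restricted to the complement of `R` (empty if `x ∈ R`). -/
noncomputable def cr (ends : E → Sym2 V) (ω : E → Bool) (R : Finset V) (x : V) : Finset V :=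
  if x ∈ R then ∅ else cl ends ω ((R : Set V)ᶜ) x

/-- The set `R` is a union of clusters of `ω`. -/
def Ful (ends : E → Sym2 V) (ω : E → Bool) (R : Finset V) : Prop :=
  ∀ x ∈ R, cu ends ω x ⊆ R

/-- Two configurations agree at all edges which have no endpoint in `R`. -/
def Off (ends : E → Sym2 V) (R : Finset V) (ω ω' : E → Bool) : Prop :=
  ∀ e, (∀ v ∈ ends e, v ∉ R) → ω e = ω' e

/-- Row C1. Elementary facts (unfold `cr`, `mem_cl`, `Rch.mem`, `Rch.refl`, `Rch.symm`, `Rch.trans`, `cl_dep`, `cl_mono`). -/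
lemma cr_not_mem {ω : E → Bool} {R : Finset V} {x y : V} (h : y ∈ cr ends ω R x) : y ∉ R := by
  unfold cr at h
  split_ifs at h with hx
  · simp at h
  · have h2 := (mem_cl.1 h).mem' (S := ((R : Set V)ᶜ)) (by simpa using hx)
    simpa using h2

lemma cr_self {ω : E → Bool} {R : Finset V} {x : V} (h : x ∉ R) : x ∈ cr ends ω R x := by
  unfold cr
  rw [if_neg h]
  exact mem_cl.2 (Rch.refl x)

lemma cr_eq {ω : E → Bool} {R : Finset V} {x y : V} (h : y ∈ cr ends ω R x) :
    cr ends ω R y = cr ends ω R x := by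
  have hy := cr_not_mem h
  unfold cr at h ⊢
  by_cases hx : x ∈ R
  · rw [if_pos hx] at h
    simp at h
  · rw [if_neg hx] at h
    rw [if_neg hx, if_neg hy]
    have h1 := mem_cl.1 h
    ext z
    rw [mem_cl, mem_cl]
    exact ⟨fun h2 => h1.trans h2, fun h2 => h1.symm.trans h2⟩

lemma cr_sub (ω : E → Bool) (R : Finset V) (x : V) : cr ends ω R x ⊆ cu ends ω x := by
  unfold cr cu
  split_ifs with hx
  · exact Finset.empty_subset _
  · exact cl_mono (fun _ h => h) (Set.subset_univ _)

lemma cr_dep {ω ω' : E → Bool} {R : Finset V} (h : Off ends R ω ω') (x : V) :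
    cr ends ω R x = cr ends ω' R x := by
  unfold cr
  split_ifs with hx
  · rfl
  · apply cl_dep
    intro e a b he ha hb
    apply h e
    intro v hv
    rw [he, Sym2.mem_iff] at hv
    rcases hv with rfl | rfl
    · simpa using ha
    · simpa using hb

open scoped Classical in
/-- Row C2. Removing the whole cluster of `y` (off `R`) does not change the cluster of `x` off `R`, if `x` is not in it.
If `x ∈ R` or `x ∈ cr y` both sides are empty. Otherwise a path from `x` off `R` never meets `cr y` (else `x ∈ cr y`), so it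
is a path off `R ∪ cr y` (induction on `Rch`); conversely `cl_mono`. -/
lemma cr_off (ω : E → Bool) (R : Finset V) (x y : V) :
    cr ends ω (R ∪ cr ends ω R y) x = if x ∈ cr ends ω R y then ∅ else cr ends ω R x := by
  have hmem : ∀ a z : V, z ∈ cr ends ω R a ↔ a ∉ R ∧ Rch ends ω ((R : Set V)ᶜ) a z := by
    intro a z
    unfold cr
    split_ifs with h
    · simp [h]
    · rw [mem_cl]
      simp [h]
  by_cases hxA : x ∈ cr ends ω R y
  · rw [if_pos hxA]
    unfold cr
    unfold cr at hxA
    rw [if_pos (Finset.mem_union_right _ hxA)]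
  · rw [if_neg hxA]
    by_cases hxR : x ∈ R
    · unfold cr
      rw [if_pos (Finset.mem_union_left _ hxR), if_pos hxR]
    · have hx : x ∉ R ∪ cr ends ω R y := by
        rw [Finset.mem_union]
        rintro (h | h)
        · exact hxR h
        · exact hxA h
      have e1 : cr ends ω (R ∪ cr ends ω R y) x =
          cl ends ω (((R ∪ cr ends ω R y : Finset V) : Set V)ᶜ) x := by
        rw [cr, if_neg hx]
      have e2 : cr ends ω R x = cl ends ω ((R : Set V)ᶜ) x := by
        rw [cr, if_neg hxR]
      rw [e1, e2]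
      apply Finset.Subset.antisymm
      · apply cl_mono (fun _ h => h)
        intro z hz hzR
        apply hz
        exact Finset.mem_coe.2 (Finset.mem_union_left _ (Finset.mem_coe.1 hzR))
      · intro z hz
        rw [mem_cl] at hz ⊢
        have key : ∀ d, Rch ends ω ((R : Set V)ᶜ) x d →
            d ∈ ((((R ∪ cr ends ω R y : Finset V) : Set V)ᶜ) : Set V) := by
          intro d hd hdU
          rcases Finset.mem_union.1 (Finset.mem_coe.1 hdU) with h | h
          · exact (hd.mem' (by simpa using hxR)) (Finset.mem_coe.2 h)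
          · have h1 := (hmem y d).1 h
            exact hxA ((hmem y x).2 ⟨h1.1, h1.2.trans hd.symm⟩)
        induction hz with
        | refl => exact Rch.refl x
        | @tail c d hc hcd ih =>
          obtain ⟨h1, h2, e, h3, h4⟩ := hcd
          exact Relation.ReflTransGen.tail ih
            ⟨key c hc, key d (Relation.ReflTransGen.tail hc ⟨h1, h2, e, h3, h4⟩), e, h3, h4⟩

open scoped Classical in
/-- Row C3. If `R` is a union of clusters the cluster off `R` is the true cluster (a path from `x ∉ R` never meets `R`), and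
`R ∪ cr y` is again a union of clusters. -/
lemma cr_full {ω : E → Bool} {R : Finset V} (hR : Ful ends ω R) (x : V) :
    cr ends ω R x = if x ∈ R then ∅ else cu ends ω x := by
  unfold cr
  by_cases hx : x ∈ R
  · rw [if_pos hx, if_pos hx]
  · rw [if_neg hx, if_neg hx]
    ext z
    rw [mem_cl, mem_cu]
    constructor
    · intro h
      exact h.mono (fun _ h => h) (Set.subset_univ _)
    · intro h
      have hxS : x ∈ {w : V | ¬ ∃ b ∈ (R : Set V), Rch ends ω Set.univ b w} := by
        rintro ⟨b, hb, hbx⟩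
        exact hx (hR b hb (mem_cu.2 hbx))
      have h1 := (inside (ends := ends) (ω := ω) (B := (R : Set V))
        (S := {w : V | ¬ ∃ b ∈ (R : Set V), Rch ends ω Set.univ b w}) (o := x) (z := z)
        (fun w => Iff.rfl) hxS).1 h
      refine h1.mono (fun _ h => h) ?_
      intro w hw hwR
      exact hw ⟨w, hwR, Rch.refl w⟩

lemma Ful_step {ω : E → Bool} {R : Finset V} (hR : Ful ends ω R) (y : V) :
    Ful ends ω (R ∪ cr ends ω R y) := by
  classical
  intro x hx
  rcases Finset.mem_union.1 hx with hx | hx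
  · exact (hR x hx).trans Finset.subset_union_left
  · have hf := cr_full (ends := ends) hR y
    by_cases hy : y ∈ R
    · rw [if_pos hy] at hf
      rw [hf] at hx
      exact absurd hx (Finset.notMem_empty x)
    · rw [if_neg hy] at hf
      rw [hf] at hx ⊢
      rw [cu_eq hx]
      exact Finset.subset_union_right

/-- Row C4. Exploration of one cluster off `R`. Proof: `explore_gen` with `X ω = cr ends ω R y`,
`D A = {e | (∀ v ∈ ends e, v ∉ R) ∧ ∃ v ∈ ends e, v ∈ A}`. `hX`: `cl_eq_dep` of Dct.lean with `S = Rᶜ` (if `y ∈ R` both are empty).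
`Fn A ω := if Disjoint A R ∧ ... then ..` is not needed: but the function `Φ A` depends only on edges without endpoint in `R ∪ A`;
those `e ∉ D A` contain all of them. -/
lemma explore_cr (p : ℝ) (R : Finset V) (y : V) (Φ : Finset V → (E → Bool) → ℝ)
    (hΦ : ∀ A, ∀ ω ω' : E → Bool, Off ends (R ∪ A) ω ω' → Φ A ω = Φ A ω') :
    Ex p (fun ω => Φ (cr ends ω R y) ω) = Ex p (fun ω => Ex p (fun ω' => Φ (cr ends ω R y) ω')) := by
  classical
  refine explore_gen p (fun ω => cr ends ω R y)
    (fun A => {e | (∀ v ∈ ends e, v ∉ R) ∧ ∃ v ∈ ends e, v ∈ A}) ?_ Φ ?_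
  · intro ω ω' h
    simp only [Set.mem_ofPred_eq] at h
    by_cases hy : y ∈ R
    · simp only [cr, if_pos hy]
    · simp only [cr, if_neg hy] at h ⊢
      refine cl_eq_dep (ω := ω) (A := cl ends ω ((R : Set V)ᶜ) y) ?_ rfl
      intro e a b he ha hb haA
      refine h e ⟨?_, a, ?_, haA⟩
      · intro v hv
        rw [he, Sym2.mem_iff] at hv
        rcases hv with hv | hv
        · rw [hv]
          intro haR
          exact ha (Finset.mem_coe.mpr haR)
        · rw [hv]
          intro hbR
          exact hb (Finset.mem_coe.mpr hbR)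
      · rw [he]
        exact Sym2.mem_mk_left a b
  · intro A ω ω' h
    apply hΦ A ω ω'
    intro e he
    apply h e
    intro hD
    obtain ⟨_, v, hv, hvA⟩ := hD
    exact he v hv (Finset.mem_union_right _ hvA)

/-- The clusters of the marked vertices, and their union. -/
noncomputable def MC (ends : E → Sym2 V) (ω : E → Bool) (b : V → Bool) : Finset (Finset V) :=
  (Finset.univ.filter (fun x => b x = true)).image (cu ends ω)

/-- The union of a family. -/
def Un (𝒞 : Finset (Finset V)) : Finset V := 𝒞.biUnion id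

/-- Row C5. Exploration of the clusters of the marked vertices. Proof: `explore_gen` with `X ω = MC ends ω b`,
`D 𝒞 = {e | ∃ v ∈ ends e, v ∈ Un 𝒞}`. `hX`: if `ω = ω'` at all edges with an endpoint in `Un (MC ω b)` then for every marked `x`
`cu ω' x = cu ω x` (`cl_eq_dep` with `S = Set.univ`, `A = cu ends ω x ⊆ Un`), so the images agree. -/
lemma explore_MC (p : ℝ) (b : V → Bool) (Φ : Finset (Finset V) → (E → Bool) → ℝ)
    (hΦ : ∀ 𝒞, ∀ ω ω' : E → Bool, Off ends (Un 𝒞) ω ω' → Φ 𝒞 ω = Φ 𝒞 ω') :
    Ex p (fun ω => Φ (MC ends ω b) ω) = Ex p (fun ω => Ex p (fun ω' => Φ (MC ends ω b) ω')) := by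
  classical
  refine explore_gen p (fun ω => MC ends ω b) (fun 𝒞 => {e | ∃ v ∈ ends e, v ∈ Un 𝒞}) ?_ Φ ?_
  · intro ω ω' h
    have key : ∀ x, b x = true → cu ends ω' x = cu ends ω x := by
      intro x hx
      have hxm : cu ends ω x ∈ MC ends ω b := by
        unfold MC
        exact Finset.mem_image_of_mem _ (Finset.mem_filter.mpr ⟨Finset.mem_univ _, hx⟩)
      refine cl_eq_dep (S := Set.univ) (ω := ω) (ω' := ω') (A := cu ends ω x) ?_ rfl
      intro e u v he _ _ hu
      refine h e ⟨u, ?_, ?_⟩
      · rw [he]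
        exact Sym2.mem_mk_left u v
      · unfold Un
        exact Finset.mem_biUnion.mpr ⟨cu ends ω x, hxm, hu⟩
    change MC ends ω' b = MC ends ω b
    unfold MC
    refine Finset.image_congr ?_
    intro x hx
    exact key x (Finset.mem_filter.mp (Finset.mem_coe.mp hx)).2
  · intro 𝒞 ω ω' h
    refine hΦ 𝒞 ω ω' ?_
    intro e he
    refine h e ?_
    rintro ⟨v, hv, hvU⟩
    exact he v hv hvU

/-- Row C6. Membership (`x ∈ cu ω y ↔ cu ω y = cu ω x`), the union is a union of clusters, the clusters are disjoint. -/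
lemma mem_MC {ω : E → Bool} {b : V → Bool} {A : Finset V} :
    A ∈ MC ends ω b ↔ ∃ x, b x = true ∧ cu ends ω x = A := by
  unfold MC
  rw [Finset.mem_image]
  constructor
  · rintro ⟨x, hx, h⟩
    exact ⟨x, (Finset.mem_filter.1 hx).2, h⟩
  · rintro ⟨x, hx, h⟩
    exact ⟨x, Finset.mem_filter.2 ⟨Finset.mem_univ _, hx⟩, h⟩

lemma mem_Un_MC {ω : E → Bool} {b : V → Bool} {x : V} :
    x ∈ Un (MC ends ω b) ↔ hit b (cu ends ω x) := by
  unfold Un
  rw [Finset.mem_biUnion]
  constructor
  · rintro ⟨A, hA, hx⟩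
    obtain ⟨y, hy, rfl⟩ := mem_MC.1 hA
    exact ⟨y, cu_symm.1 hx, hy⟩
  · rintro ⟨y, hy, hb⟩
    exact ⟨cu ends ω y, mem_MC.2 ⟨y, hb, rfl⟩, cu_symm.1 hy⟩

lemma Ful_MC (ω : E → Bool) (b : V → Bool) : Ful ends ω (Un (MC ends ω b)) := by
  intro x hx y hy
  rw [mem_Un_MC] at hx ⊢
  rw [cu_eq hy]
  exact hx

lemma cu_mem_MC {ω : E → Bool} {b : V → Bool} {x : V} :
    cu ends ω x ∈ MC ends ω b ↔ hit b (cu ends ω x) := by
  rw [mem_MC]
  constructor
  · rintro ⟨y, hy, h⟩
    refine ⟨y, ?_, hy⟩
    rw [← h]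
    exact self_mem_cu ω y
  · rintro ⟨y, hy, hb⟩
    exact ⟨y, hb, cu_eq hy⟩

lemma cu_disj {ω : E → Bool} {x y : V} (h : y ∉ cu ends ω x) :
    Disjoint (cu ends ω x) (cu ends ω y) := by
  rw [Finset.disjoint_left]
  intro z hz hz'
  refine h ?_
  rw [← cu_eq hz, cu_eq hz']
  exact self_mem_cu ω y

end Pool.Agent.PERC29.AE
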