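import Pool.Agent.Lib.MP_29e17e_pr.V.To

set_option autoImplicit false
set_option linter.unusedSectionVars false

/-! The giant component of the torus, in terms of `ε`. -/

open Finset

namespace Pool.Agent.PERC29.AE

lemma hyp_of {d : ℕ} {C c0 p : ℝ} (l : ℕ) [Fintype (boxG d l).edgeSet]
    (hU : ∀ x y : Fin d → Fin l, tau (boxG d l) p x y ≤ C / (1 + (nd x y : ℝ)) ^ (d - 2))
    (hT : ∀ (x : Fin d → Fin l) (k : ℕ), 1 ≤ k →
      prob (boxG d l) p (fun ω => k ≤ clusterSize (boxG d l) ω x) ≤ C / Real.sqrt k)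
    (hL : ∀ x y : Fin d → Fin l, bul x → bul y → c0 / (l : ℝ) ^ (d - 2) ≤ tau (boxG d l) p x y) :
    Hyp d C c0 p l := by
  refine ⟨?_, ?_, ?_⟩
  · intro x y
    have h := hU x y
    rw [tau_eq] at h
    unfold fk
    rw [mul_one_div]
    exact h
  · intro x k hk
    have h := hT x k hk
    rw [tail_eq] at h
    exact h
  · intro x y hx hy
    have h := hL x y hx hy
    rw [tau_eq] at h
    exact h

theorem giant_eps (d : ℕ) (C c₀ p₁ η : ℝ) (hd : 9 ≤ d) (hc₀ : 0 < c₀) (hp₁ : 0 < p₁) (hη : 0 < η) :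
    ∃ c A ε₀ : ℝ, 0 < c ∧ 0 < ε₀ ∧ ∀ p : ℝ, p₁ ≤ p → p ≤ 1 - p₁ →
      (∀ (l : ℕ) (x y : Fin d → Fin l), tau (boxG d l) p x y ≤ C / (1 + (nd x y : ℝ)) ^ (d - 2)) →
      (∀ (l : ℕ) (x : Fin d → Fin l) (k : ℕ), 1 ≤ k →
        prob (boxG d l) p (fun ω => k ≤ clusterSize (boxG d l) ω x) ≤ C / Real.sqrt k) →
      (∀ (l : ℕ) (x y : Fin d → Fin l), bul x → bul y →
        c₀ / (l : ℝ) ^ (d - 2) ≤ tau (boxG d l) p x y) →
      ∀ (n : ℕ) [NeZero n] (ε : ℝ), 0 < ε → ε ≤ ε₀ → A ≤ n * Real.sqrt ε → p + ε ≤ 1 →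
        1 - η ≤ prob (torG d n) (p + ε)
          (fun ω => c * ε * (n : ℝ) ^ d ≤ (maxCluster (torG d n) ω : ℝ)) := by
  classical
  obtain ⟨K, c, m0, hK, hc, hm0, hmain⟩ := tor_giant d hd (max C 1) c₀ (min p₁ 1)
    (lt_of_lt_of_le one_pos (le_max_right _ _)) hc₀ (lt_min hp₁ one_pos) (min_le_right _ _) η hη
  have hm0R : (1 : ℝ) ≤ m0 := by exact_mod_cast hm0
  refine ⟨c / (4 * K), 17 * Real.sqrt K, K / (m0 : ℝ) ^ 2, by positivity, by positivity, ?_⟩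
  intro p hp hp1 hU hT hL n _ ε hε hε0 hA hpε
  have hsε : 0 < Real.sqrt ε := Real.sqrt_pos.2 hε
  have hsK : 0 < Real.sqrt K := Real.sqrt_pos.2 hK
  set t : ℝ := Real.sqrt K / Real.sqrt ε with ht
  have ht0 : 0 < t := div_pos hsK hsε
  have ht2 : t ^ 2 = K / ε := by
    rw [ht, div_pow, Real.sq_sqrt hK.le, Real.sq_sqrt hε.le]
  have htm0 : (m0 : ℝ) ≤ t := by
    refine (pow_le_pow_iff_left₀ (by positivity) ht0.le two_ne_zero).1 ?_
    rw [ht2, le_div_iff₀ hε]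
    rw [le_div_iff₀ (by positivity)] at hε0
    linarith
  obtain ⟨m, hm⟩ : ∃ m : ℕ, m = ⌈t⌉₊ := ⟨_, rfl⟩
  have hmt : t ≤ m := by rw [hm]; exact Nat.le_ceil t
  have hmt2 : (m : ℝ) < t + 1 := by rw [hm]; exact Nat.ceil_lt_add_one ht0.le
  have hm0m : m0 ≤ m := by exact_mod_cast htm0.trans hmt
  have hmR : (1 : ℝ) ≤ m := hm0R.trans (by exact_mod_cast hm0m)
  have hm2 : (m : ℝ) ≤ 2 * t := by linarith
  have h8 : 8 * m < n := by
    have h1 : 8 * (m : ℝ) < n := by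
      have h2 : 17 * t ≤ n := by
        rw [ht, mul_div_assoc', div_le_iff₀ hsε]
        exact hA
      linarith
    exact_mod_cast h1
  have hKm : K / (m : ℝ) ^ 2 ≤ ε := by
    rw [div_le_iff₀ (by positivity)]
    have h1 : K = ε * t ^ 2 := by rw [ht2]; field_simp
    have h2 : t ^ 2 ≤ (m : ℝ) ^ 2 := pow_le_pow_left₀ ht0.le hmt 2
    rw [h1]
    exact mul_le_mul_of_nonneg_left h2 hε.le
  have hlow : c / (4 * K) * ε * (n : ℝ) ^ d ≤ c * (n : ℝ) ^ d / (m : ℝ) ^ 2 := by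
    rw [le_div_iff₀ (by positivity)]
    have h2 : (m : ℝ) ^ 2 ≤ 4 * (K / ε) := by
      calc (m : ℝ) ^ 2 ≤ (2 * t) ^ 2 := pow_le_pow_left₀ (by positivity) hm2 2
        _ = 4 * (K / ε) := by rw [mul_pow, ht2]; norm_num
    have h3 : 0 ≤ c / (4 * K) * ε * (n : ℝ) ^ d := by positivity
    calc c / (4 * K) * ε * (n : ℝ) ^ d * (m : ℝ) ^ 2 ≤ c / (4 * K) * ε * (n : ℝ) ^ d * (4 * (K / ε)) :=
          mul_le_mul_of_nonneg_left h2 h3
      _ = c * (n : ℝ) ^ d := by field_simp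
  have hpp0 : 0 ≤ p := hp₁.le.trans hp
  have hmain2 := hmain m n hm0m h8 p (p + ε) ((min_le_left _ _).trans hp)
    (by have := min_le_left p₁ 1; linarith) (fun l => hyp_of l (fun x y =>
      (hU l x y).trans (div_le_div_of_nonneg_right (le_max_left _ _) (by positivity)))
      (fun x k hk => (hT l x k hk).trans (div_le_div_of_nonneg_right (le_max_left _ _)
        (Real.sqrt_nonneg _))) (fun x y hx hy => hL l x y hx hy)) (by linarith) hpε
  refine hmain2.trans ?_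
  unfold prob
  rw [expect_eq]
  apply Ex_mono (by linarith) hpε
  intro ω
  unfold fm
  by_cases hx : ∃ x, c * (n : ℝ) ^ d / (m : ℝ) ^ 2 ≤ cz (gends (torG d n)) ω x
  · rw [if_pos hx]
    obtain ⟨x, hx⟩ := hx
    have h1 : c / (4 * K) * ε * (n : ℝ) ^ d ≤ (maxCluster (torG d n) ω : ℝ) := by
      rw [maxCluster_eq]
      exact hlow.trans (hx.trans (cz_le_mxc ω x))
    rw [if_pos h1]
  · rw [if_neg hx]
    split_ifs <;> norm_num

end Pool.Agent.PERC29.AE
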