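import Pool.Agent.Lib.MP_29e17e_pr.Tree
import Pool.Agent.Lib.MP_29e17e_pr.V.Cr

set_option autoImplicit false
set_option linter.unusedSectionVars false

/-! Rows 29v-L1 .. 29v-L6: one exploration step is successful with probability at least `th` (Lemma 2 of the page).
`W` is the core, `sh : V → V` the shift. `𝒞` is a family of sets (the marked clusters). -/

open Finset

namespace Pool.Agent.PERC29.AE

variable {V : Type*} [Fintype V] [DecidableEq V] {E : Type*} [Fintype E] [DecidableEq E]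
  {ends : E → Sym2 V}

open scoped Classical in
/-- The pairs of points of `W` in two different sets of the family. -/
noncomputable def Pi2 (W : Finset V) (𝒞 : Finset (Finset V)) : Finset (V × V) :=
  Finset.univ.filter (fun q => q.1 ∈ W ∧ q.2 ∈ W ∧ ∃ A ∈ 𝒞, ∃ B ∈ 𝒞, A ≠ B ∧ q.1 ∈ A ∧ q.2 ∈ B)

/-- The number of `u ∈ P` with `sh u ∈ D`. -/
noncomputable def Xc (sh : V → V) (P D : Finset V) : ℝ := ((P.filter (fun u => sh u ∈ D)).card : ℝ)

noncomputable def GG (ends : E → Sym2 V) (p : ℝ) (sh : V → V) (W : Finset V) (𝒞 : Finset (Finset V))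
    (R : Finset V) : ℝ :=
  ∑ q ∈ Pi2 W 𝒞, ∑ w ∈ R, ta ends p (sh q.1) w * ta ends p w (sh q.2)

open scoped Classical in
noncomputable def MM (ends : E → Sym2 V) (p : ℝ) (sh : V → V) (W : Finset V) (𝒞 : Finset (Finset V))
    (k2 : ℝ) (R : Finset V) : ℝ :=
  ∑ q ∈ Pi2 W 𝒞, Ex p (fun ω => if sh q.2 ∈ cr ends ω R (sh q.1) ∧
    ((cr ends ω R (sh q.1)).card : ℝ) < k2 then (1 : ℝ) else 0)

open scoped Classical in
noncomputable def ZZ (ends : E → Sym2 V) (p : ℝ) (sh : V → V) (W : Finset V) (𝒞 : Finset (Finset V))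
    (h : ℝ) : ℝ :=
  ∑ v ∈ W, Ex p (fun ω => min ((Finset.univ.filter (fun u => (u, v) ∈ Pi2 W 𝒞 ∧
    sh u ∈ cu ends ω (sh v))).card : ℝ) h)

open scoped Classical in
noncomputable def TH (ends : E → Sym2 V) (p : ℝ) (sh : V → V) (W : Finset V)
    (𝒞 : Finset (Finset V)) : ℝ :=
  ∑ q ∈ Pi2 W 𝒞, Ex p (fun ω => (if sh q.2 ∈ cu ends ω (sh q.1) then (1 : ℝ) else 0) *
    Xc sh (W ∩ Un 𝒞) (cu ends ω (sh q.1)))

/-- The successful clusters. -/
def GDp (sh : V → V) (P Q W1 : Finset V) (k2 h H : ℝ) (D : Finset V) : Prop :=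
  k2 ≤ (D.card : ℝ) ∧ h ≤ Xc sh P D ∧ h ≤ Xc sh Q D ∧ Xc sh W1 D ≤ H

/-- Row L1. Elementary properties: `Pi2` is symmetric, `GG` increases with `R` (`ta_nonneg`), all are nonnegative. -/
lemma Pi2_symm {W : Finset V} {𝒞 : Finset (Finset V)} {u v : V} (h : (u, v) ∈ Pi2 W 𝒞) :
    (v, u) ∈ Pi2 W 𝒞 := by
  classical
  unfold Pi2 at h ⊢
  rw [Finset.mem_filter] at h ⊢
  obtain ⟨-, h1, h2, A, hA, B, hB, hAB, h3, h4⟩ := h
  exact ⟨Finset.mem_univ _, h2, h1, B, hB, A, hA, hAB.symm, h4, h3⟩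

lemma GG_mono {p : ℝ} (h0 : 0 ≤ p) (h1 : p ≤ 1) (sh : V → V) (W : Finset V) (𝒞 : Finset (Finset V))
    {R R' : Finset V} (hR : R ⊆ R') : GG ends p sh W 𝒞 R ≤ GG ends p sh W 𝒞 R' := by
  unfold GG
  refine Finset.sum_le_sum fun q _ => ?_
  exact Finset.sum_le_sum_of_subset_of_nonneg hR fun w _ _ =>
    mul_nonneg (ta_nonneg h0 h1 _ _) (ta_nonneg h0 h1 _ _)

lemma GG_nonneg {p : ℝ} (h0 : 0 ≤ p) (h1 : p ≤ 1) (sh : V → V) (W : Finset V) (𝒞 : Finset (Finset V))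
    (R : Finset V) : 0 ≤ GG ends p sh W 𝒞 R := by
  unfold GG
  exact Finset.sum_nonneg fun q _ => Finset.sum_nonneg fun w _ =>
    mul_nonneg (ta_nonneg h0 h1 _ _) (ta_nonneg h0 h1 _ _)

lemma MM_nonneg {p : ℝ} (h0 : 0 ≤ p) (h1 : p ≤ 1) (sh : V → V) (W : Finset V) (𝒞 : Finset (Finset V))
    (k2 : ℝ) (R : Finset V) : 0 ≤ MM ends p sh W 𝒞 k2 R := by
  unfold MM
  exact Finset.sum_nonneg fun q _ => Ex_nonneg h0 h1 fun ω => by
    split_ifs <;> norm_num

lemma ZZ_nonneg {p h : ℝ} (h0 : 0 ≤ p) (h1 : p ≤ 1) (hh : 0 ≤ h) (sh : V → V) (W : Finset V)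
    (𝒞 : Finset (Finset V)) : 0 ≤ ZZ ends p sh W 𝒞 h := by
  unfold ZZ
  exact Finset.sum_nonneg fun v _ => Ex_nonneg h0 h1 fun ω => le_min (Nat.cast_nonneg _) hh

lemma TH_nonneg {p : ℝ} (h0 : 0 ≤ p) (h1 : p ≤ 1) (sh : V → V) (W : Finset V) (𝒞 : Finset (Finset V)) :
    0 ≤ TH ends p sh W 𝒞 := by
  unfold TH Xc
  exact Finset.sum_nonneg fun q _ => Ex_nonneg h0 h1 fun ω =>
    mul_nonneg (by split_ifs <;> norm_num) (Nat.cast_nonneg _)

/-- Row L2. `MM` is a supermartingale. By `explore_cr` (used from right to left, with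
`Φ A ω = 1[sh v ∈ cr ω (R ∪ A) (sh u) ∧ |..| < k2]`, which depends on the edges off `R ∪ A` by `cr_dep`)
`Ex p (fun ω => Ex p (fun ω' => Φ (cr ω R y) ω')) = Ex p (fun ω => Φ (cr ω R y) ω)`; by `cr_off` the set
`cr ω (R ∪ cr ω R y) (sh u)` is empty (then the indicator is zero) or `cr ω R (sh u)`. -/
lemma MM_super {p : ℝ} (h0 : 0 ≤ p) (h1 : p ≤ 1) (sh : V → V) (W : Finset V) (𝒞 : Finset (Finset V))
    (k2 : ℝ) (R : Finset V) (y : V) :
    Ex p (fun ω => MM ends p sh W 𝒞 k2 (R ∪ cr ends ω R y)) ≤ MM ends p sh W 𝒞 k2 R := by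
  classical
  unfold MM
  rw [Ex_sum]
  refine Finset.sum_le_sum fun q _ => ?_
  have h2 := explore_cr (ends := ends) p R y
    (fun A ω' => if sh q.2 ∈ cr ends ω' (R ∪ A) (sh q.1) ∧
      ((cr ends ω' (R ∪ A) (sh q.1)).card : ℝ) < k2 then (1 : ℝ) else 0)
    (by
      intro A ω ω' hO
      have h3 := cr_dep (ends := ends) (R := R ∪ A) hO (sh q.1)
      simp only [h3])
  rw [← h2]
  refine Ex_mono h0 h1 fun ω => ?_
  by_cases hx : sh q.1 ∈ cr ends ω R y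
  · have h4 : cr ends ω (R ∪ cr ends ω R y) (sh q.1) = ∅ := by rw [cr_off, if_pos hx]
    rw [h4]
    have h5 : ¬ (sh q.2 ∈ (∅ : Finset V) ∧ (((∅ : Finset V).card : ℕ) : ℝ) < k2) := by simp
    rw [if_neg h5]
    split_ifs <;> norm_num
  · have h4 : cr ends ω (R ∪ cr ends ω R y) (sh q.1) = cr ends ω R (sh q.1) := by
      rw [cr_off, if_neg hx]
    rw [h4]

/-- A walk which avoids `R` is a chain of steps inside the complement of `R`. -/
lemma L3_avoid {ω : E → Bool} {R : Finset V} {a b : V} (q : (openG ends ω).Walk a b)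
    (h : ∀ w ∈ q.support, w ∉ R) : Rch ends ω ((R : Set V)ᶜ) a b := by
  induction q with
  | nil => exact Rch.refl _
  | @cons a c b hadj q ih =>
    have hadj2 := hadj
    obtain ⟨-, e, h3, h4⟩ := hadj2
    have ha : a ∉ R := h a (by simp)
    have hc : c ∉ R := h c (by simp)
    refine Relation.ReflTransGen.head ⟨?_, ?_, e, h3, h4⟩ (ih (fun w hw => h w ?_))
    · simpa using ha
    · simpa using hc
    · rw [SimpleGraph.Walk.support_cons]
      exact List.mem_cons_of_mem _ hw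

lemma L3_hit {ω : E → Bool} {R : Finset V} {x y : V} (hx : x ∉ R) (hy : y ∈ cu ends ω x)
    (hn : y ∉ cr ends ω R x) :
    ∃ w ∈ R, opn (dsj (Pth ends x w) (Pth ends w y)) ω = 1 := by
  classical
  obtain ⟨p0⟩ := exists_walk (mem_cu.1 hy)
  obtain ⟨q, hq⟩ : ∃ q : (openG ends ω).Walk x y, q.IsPath := ⟨_, p0.bypass_isPath⟩
  by_cases hall : ∀ w ∈ q.support, w ∉ R
  · exfalso
    apply hn
    unfold cr
    rw [if_neg hx, mem_cl]
    exact L3_avoid q hall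
  · push Not at hall
    obtain ⟨w, hw, hwR⟩ := hall
    refine ⟨w, hwR, ?_⟩
    have hnd : (q.takeUntil w hw).edges.Disjoint (q.dropUntil w hw).edges := by
      have h1 : q.edges.Nodup := hq.isTrail.edges_nodup
      rw [← q.take_spec hw, SimpleGraph.Walk.edges_append] at h1
      exact (List.nodup_append'.1 h1).2.2
    unfold opn
    rw [if_pos]
    refine ⟨opL ends ω (q.takeUntil w hw).edges ∪ opL ends ω (q.dropUntil w hw).edges,
      ⟨_, walk_mem_Pth _ _ (fun s hs => hs), _, walk_mem_Pth _ _ (fun s hs => hs),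
        opL_disjoint (fun s hs hs' => hnd hs hs'), rfl⟩, ?_⟩
    intro e he
    simp only [Finset.mem_union, opL, Finset.mem_filter] at he
    tauto

open scoped Classical in
/-- Row L3. Lower bound for the two-point function off `R`. If `x ∈ R` then `w = x` alone gives `τ(x,x) τ(x,y) = τ(x,y)`
(`ta_self`). If `x ∉ R` and `y ∈ cu ω x` but `y ∉ cr ω R x` then an open self-avoiding path (a `Path` of `openG`, `exists_walk`,
`Walk.toPath`) from `x` to `y` meets some `w ∈ R` (otherwise `y ∈ cl ω Rᶜ x`), so `x ↔ w` and `w ↔ y` occur disjointly: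
`opn (dsj (Pth ends x w) (Pth ends w y)) ω = 1`; then `bk`, `opn_Pth`. See `remove_low` (U/Lo.lean) and `Tree.lean` for the same
argument. -/
lemma tau_off {p : ℝ} (h0 : 0 ≤ p) (h1 : p ≤ 1) (R : Finset V) (x y : V) :
    ta ends p x y - ∑ w ∈ R, ta ends p x w * ta ends p w y ≤
      Ex p (fun ω => if y ∈ cr ends ω R x then (1 : ℝ) else 0) := by
  have hR0 : 0 ≤ Ex p (fun ω => if y ∈ cr ends ω R x then (1 : ℝ) else 0) :=
    Ex_nonneg h0 h1 fun ω => by split_ifs <;> norm_num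
  by_cases hx : x ∈ R
  · have h2 : ta ends p x x * ta ends p x y ≤ ∑ w ∈ R, ta ends p x w * ta ends p w y :=
      Finset.single_le_sum (f := fun w => ta ends p x w * ta ends p w y)
        (fun w _ => mul_nonneg (ta_nonneg h0 h1 x w) (ta_nonneg h0 h1 w y)) hx
    rw [ta_self, one_mul] at h2
    linarith
  · have hnn : ∀ (ω : E → Bool) (w : V), 0 ≤ opn (dsj (Pth ends x w) (Pth ends w y)) ω := by
      intro ω w
      unfold opn
      split_ifs <;> norm_num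
    have hpt : ∀ ω : E → Bool, (if y ∈ cu ends ω x then (1 : ℝ) else 0) ≤
        (if y ∈ cr ends ω R x then (1 : ℝ) else 0) +
          ∑ w ∈ R, opn (dsj (Pth ends x w) (Pth ends w y)) ω := by
      intro ω
      have hs : 0 ≤ ∑ w ∈ R, opn (dsj (Pth ends x w) (Pth ends w y)) ω :=
        Finset.sum_nonneg fun w _ => hnn ω w
      by_cases hc : y ∈ cr ends ω R x
      · rw [if_pos hc]
        split_ifs <;> linarith
      · rw [if_neg hc, zero_add]
        by_cases hy : y ∈ cu ends ω x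
        · rw [if_pos hy]
          obtain ⟨w, hw, h3⟩ := L3_hit hx hy hc
          rw [← h3]
          exact Finset.single_le_sum (f := fun w => opn (dsj (Pth ends x w) (Pth ends w y)) ω)
            (fun w _ => hnn ω w) hw
        · rw [if_neg hy]
          exact hs
    have e1 : ∀ a b : V, Ex p (opn (Pth ends a b)) = ta ends p a b := by
      intro a b
      unfold ta
      exact Ex_congr fun ω => opn_Pth a b ω
    have h4 : Ex p (fun ω => ∑ w ∈ R, opn (dsj (Pth ends x w) (Pth ends w y)) ω) ≤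
        ∑ w ∈ R, ta ends p x w * ta ends p w y := by
      rw [Ex_sum]
      refine Finset.sum_le_sum fun w _ => ?_
      have h3 := bk h0 h1 (Pth ends x w) (Pth ends w y)
      rw [e1, e1] at h3
      exact h3
    have h5 : ta ends p x y ≤ Ex p (fun ω => if y ∈ cr ends ω R x then (1 : ℝ) else 0) +
        Ex p (fun ω => ∑ w ∈ R, opn (dsj (Pth ends x w) (Pth ends w y)) ω) := by
      rw [← Ex_add]
      unfold ta
      exact Ex_mono h0 h1 hpt
    linarith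

lemma L4_symm {ω : E → Bool} {R : Finset V} {x y : V} (h : y ∈ cr ends ω R x) :
    x ∈ cr ends ω R y := by
  rw [cr_eq h]
  apply cr_self
  intro hx
  unfold cr at h
  simp [hx] at h

open scoped Classical in
lemma L4_aux {h : ℝ} (hh : 0 ≤ h) (sh : V → V) (W P : Finset V)
    (𝒞 : Finset (Finset V)) (v : V) (hP : ∀ u ∈ P, (u, v) ∈ Pi2 W 𝒞) (R : Finset V) (ω : E → Bool) :
    ∑ u ∈ P, (if sh u ∈ cr ends ω R (sh v) ∧ Xc sh P (cr ends ω R (sh v)) < h then (1 : ℝ) else 0) ≤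
      min ((Finset.univ.filter (fun u => (u, v) ∈ Pi2 W 𝒞 ∧ sh u ∈ cu ends ω (sh v))).card : ℝ) h := by
  by_cases hX : Xc sh P (cr ends ω R (sh v)) < h
  · have e1 : ∑ u ∈ P, (if sh u ∈ cr ends ω R (sh v) ∧ Xc sh P (cr ends ω R (sh v)) < h
        then (1 : ℝ) else 0) = Xc sh P (cr ends ω R (sh v)) := by
      have hXc : Xc sh P (cr ends ω R (sh v)) =
          ∑ u ∈ P, (if sh u ∈ cr ends ω R (sh v) then (1 : ℝ) else 0) := by
        unfold Xc
        rw [Finset.card_filter]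
        push_cast
        rfl
      refine Eq.trans (Finset.sum_congr rfl fun u _ => ?_) hXc.symm
      by_cases hu : sh u ∈ cr ends ω R (sh v)
      · rw [if_pos ⟨hu, hX⟩, if_pos hu]
      · rw [if_neg (fun hc => hu hc.1), if_neg hu]
    rw [e1]
    refine le_min ?_ hX.le
    unfold Xc
    have : (P.filter (fun u => sh u ∈ cr ends ω R (sh v))).card ≤
        (Finset.univ.filter (fun u => (u, v) ∈ Pi2 W 𝒞 ∧ sh u ∈ cu ends ω (sh v))).card := by
      refine Finset.card_le_card fun u hu => ?_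
      rw [Finset.mem_filter] at hu
      rw [Finset.mem_filter]
      exact ⟨Finset.mem_univ _, hP u hu.1, cr_sub ω R (sh v) hu.2⟩
    exact_mod_cast this
  · have e1 : ∑ u ∈ P, (if sh u ∈ cr ends ω R (sh v) ∧ Xc sh P (cr ends ω R (sh v)) < h
        then (1 : ℝ) else 0) = 0 := by
      refine Finset.sum_eq_zero fun u _ => ?_
      rw [if_neg (fun hc => hX hc.2)]
    rw [e1]
    exact le_min (Nat.cast_nonneg _) hh

open scoped Classical in
/-- Row L4. Small clusters. For fixed `ω` and `v ∈ Q`: the pairs with `sh v ∈ cr ω R (sh u)` have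
`cr ω R (sh u) = cr ω R (sh v) =: D` (`cr_eq`), and `sh v ∈ D ↔ sh u ∈ cr ω R (sh v)`; so
`∑ u ∈ P, 1[..] 1[Xc P D < h] = Xc P D * 1[Xc P D < h] ≤ min (number of u with (u,v) ∈ Pi2, sh u ∈ cu ω (sh v)) h`
(`cr_sub`, `P × Q ⊆ Pi2`). -/
lemma few_P {p h : ℝ} (h0 : 0 ≤ p) (h1 : p ≤ 1) (hh : 0 ≤ h) (sh : V → V) (W P Q : Finset V)
    (𝒞 : Finset (Finset V)) (hPQ : ∀ u ∈ P, ∀ v ∈ Q, (u, v) ∈ Pi2 W 𝒞) (R : Finset V) :
    ∑ u ∈ P, ∑ v ∈ Q, Ex p (fun ω => if sh v ∈ cr ends ω R (sh u) ∧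
      Xc sh P (cr ends ω R (sh u)) < h then (1 : ℝ) else 0) ≤ ZZ ends p sh W 𝒞 h := by
  rcases P.eq_empty_or_nonempty with rfl | ⟨u0, hu0⟩
  · simpa using ZZ_nonneg h0 h1 hh sh W 𝒞
  have hQW : Q ⊆ W := by
    intro v hv
    have h2 := hPQ u0 hu0 v hv
    unfold Pi2 at h2
    exact (Finset.mem_filter.mp h2).2.2.1
  rw [Finset.sum_comm]
  unfold ZZ
  refine le_trans (Finset.sum_le_sum fun v hv => ?_) (Finset.sum_le_sum_of_subset_of_nonneg hQW
    (fun v _ _ => Ex_nonneg h0 h1 (fun ω => le_min (Nat.cast_nonneg _) hh)))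
  rw [← Ex_sum]
  refine Ex_mono h0 h1 fun ω => ?_
  refine le_trans (Finset.sum_le_sum fun u _ => ?_)
    (L4_aux hh sh W P 𝒞 v (fun u hu => hPQ u hu v hv) R ω)
  by_cases hc : sh v ∈ cr ends ω R (sh u) ∧ Xc sh P (cr ends ω R (sh u)) < h
  · rw [if_pos hc, if_pos]
    refine ⟨L4_symm hc.1, ?_⟩
    rw [cr_eq hc.1]
    exact hc.2
  · rw [if_neg hc]
    split_ifs <;> norm_num

open scoped Classical in
lemma few_Q {p h : ℝ} (h0 : 0 ≤ p) (h1 : p ≤ 1) (hh : 0 ≤ h) (sh : V → V) (W P Q : Finset V)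
    (𝒞 : Finset (Finset V)) (hPQ : ∀ u ∈ P, ∀ v ∈ Q, (u, v) ∈ Pi2 W 𝒞) (R : Finset V) :
    ∑ u ∈ P, ∑ v ∈ Q, Ex p (fun ω => if sh v ∈ cr ends ω R (sh u) ∧
      Xc sh Q (cr ends ω R (sh u)) < h then (1 : ℝ) else 0) ≤ ZZ ends p sh W 𝒞 h := by
  rcases Q.eq_empty_or_nonempty with rfl | ⟨v0, hv0⟩
  · simpa using ZZ_nonneg h0 h1 hh sh W 𝒞
  have hPW : P ⊆ W := by
    intro u hu
    have h2 := hPQ u hu v0 hv0
    unfold Pi2 at h2
    exact (Finset.mem_filter.mp h2).2.1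
  unfold ZZ
  refine le_trans (Finset.sum_le_sum fun u hu => ?_) (Finset.sum_le_sum_of_subset_of_nonneg hPW
    (fun v _ _ => Ex_nonneg h0 h1 (fun ω => le_min (Nat.cast_nonneg _) hh)))
  rw [← Ex_sum]
  refine Ex_mono h0 h1 fun ω => ?_
  exact L4_aux hh sh W Q 𝒞 u (fun v hv => Pi2_symm (hPQ u hu v hv)) R ω

lemma L5_Xc_mono (sh : V → V) (P : Finset V) {D D' : Finset V} (h : D ⊆ D') : Xc sh P D ≤ Xc sh P D' := by
  unfold Xc
  have : (P.filter (fun u => sh u ∈ D)).card ≤ (P.filter (fun u => sh u ∈ D')).card := by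
    apply Finset.card_le_card
    intro u hu
    rw [Finset.mem_filter] at hu ⊢
    exact ⟨hu.1, h hu.2⟩
  exact_mod_cast this

lemma L5_Xc_mono_left (sh : V → V) {P P' : Finset V} (D : Finset V) (h : P ⊆ P') : Xc sh P D ≤ Xc sh P' D := by
  unfold Xc
  have : (P.filter (fun u => sh u ∈ D)).card ≤ (P'.filter (fun u => sh u ∈ D)).card := by
    apply Finset.card_le_card
    intro u hu
    rw [Finset.mem_filter] at hu ⊢
    exact ⟨h hu.1, hu.2⟩
  exact_mod_cast this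

lemma L5_Xc_nonneg (sh : V → V) (P D : Finset V) : 0 ≤ Xc sh P D := by
  unfold Xc
  exact Nat.cast_nonneg _

open scoped Classical in
/-- Row L5. Large hits: `1[H < X] ≤ X / H`, `cr_sub`, `Xc` is monotone in `D`, and `P × Q ⊆ Pi2`. -/
lemma many_W {p H : ℝ} (h0 : 0 ≤ p) (h1 : p ≤ 1) (hH : 0 < H) (sh : V → V) (W P Q : Finset V)
    (𝒞 : Finset (Finset V)) (hPQ : ∀ u ∈ P, ∀ v ∈ Q, (u, v) ∈ Pi2 W 𝒞) (R : Finset V) :
    ∑ u ∈ P, ∑ v ∈ Q, Ex p (fun ω => if sh v ∈ cr ends ω R (sh u) ∧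
      H < Xc sh (W ∩ Un 𝒞) (cr ends ω R (sh u)) then (1 : ℝ) else 0) ≤ TH ends p sh W 𝒞 / H := by
  have hpt : ∀ u v : V, Ex p (fun ω => if sh v ∈ cr ends ω R (sh u) ∧
      H < Xc sh (W ∩ Un 𝒞) (cr ends ω R (sh u)) then (1 : ℝ) else 0) ≤
      Ex p (fun ω => (if sh v ∈ cu ends ω (sh u) then (1 : ℝ) else 0) *
        Xc sh (W ∩ Un 𝒞) (cu ends ω (sh u))) / H := by
    intro u v
    rw [le_div_iff₀ hH, mul_comm, ← Ex_mul_left]
    apply Ex_mono h0 h1
    intro ω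
    have hsub := cr_sub (ends := ends) ω R (sh u)
    by_cases h2 : sh v ∈ cr ends ω R (sh u) ∧ H < Xc sh (W ∩ Un 𝒞) (cr ends ω R (sh u))
    · rw [if_pos h2, if_pos (hsub h2.1), mul_one, one_mul]
      exact h2.2.le.trans (L5_Xc_mono sh _ hsub)
    · rw [if_neg h2, mul_zero]
      apply mul_nonneg
      · split_ifs <;> norm_num
      · exact L5_Xc_nonneg _ _ _
  have hsub : P ×ˢ Q ⊆ Pi2 W 𝒞 := by
    intro q hq
    rw [Finset.mem_product] at hq
    exact hPQ q.1 hq.1 q.2 hq.2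
  unfold TH
  rw [Finset.sum_div]
  refine le_trans ?_ (Finset.sum_le_sum_of_subset_of_nonneg hsub fun q _ _ => ?_)
  · rw [Finset.sum_product]
    exact Finset.sum_le_sum fun u _ => Finset.sum_le_sum fun v _ => hpt u v
  · apply div_nonneg _ hH.le
    apply Ex_nonneg h0 h1
    intro ω
    apply mul_nonneg
    · split_ifs <;> norm_num
    · exact L5_Xc_nonneg _ _ _

open scoped Classical in
/-- Row L5 (second half). Deterministic. `∑ v ∈ Q, 1[sh v ∈ D_u] = Xc Q D_u ≤ Xc W1 D_u ≤ H` for `D_u = cr ω R (sh u)`; and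
`1[GD D_u] ≤ (1/k2) ∑ y, 1[y ∈ D_u] 1[GD (cr ω R y)]` (`|D_u| ≥ k2`, `cr_eq`), `y ∈ D_u ↔ sh u ∈ cr ω R y`; sum over `u ∈ P`:
`Xc P (cr ω R y) ≤ H`. -/
lemma gd_count {k2 h H : ℝ} (hk : 0 < k2) (hH : 0 ≤ H) (sh : V → V) (P Q W1 : Finset V) (hP : P ⊆ W1)
    (hQ : Q ⊆ W1) (ω : E → Bool) (R : Finset V) :
    ∑ u ∈ P, ∑ v ∈ Q, (if sh v ∈ cr ends ω R (sh u) ∧ GDp sh P Q W1 k2 h H (cr ends ω R (sh u))
      then (1 : ℝ) else 0) ≤
      H ^ 2 / k2 * ∑ y, (if GDp sh P Q W1 k2 h H (cr ends ω R y) then (1 : ℝ) else 0) := by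
  have hg0 : ∀ y, (0 : ℝ) ≤ (if GDp sh P Q W1 k2 h H (cr ends ω R y) then (1 : ℝ) else 0) := by
    intro y
    split_ifs <;> norm_num
  have hs1 : ∀ u ∈ P, ∑ v ∈ Q, (if sh v ∈ cr ends ω R (sh u) ∧ GDp sh P Q W1 k2 h H (cr ends ω R (sh u))
      then (1 : ℝ) else 0) ≤ H * (if GDp sh P Q W1 k2 h H (cr ends ω R (sh u)) then (1 : ℝ) else 0) := by
    intro u _
    by_cases hG : GDp sh P Q W1 k2 h H (cr ends ω R (sh u))
    · rw [if_pos hG, mul_one]
      have h1 : ∑ v ∈ Q, (if sh v ∈ cr ends ω R (sh u) ∧ GDp sh P Q W1 k2 h H (cr ends ω R (sh u))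
          then (1 : ℝ) else 0) = Xc sh Q (cr ends ω R (sh u)) := by
        rw [Finset.sum_boole]
        unfold Xc
        congr 2
        ext v
        simp only [Finset.mem_filter]
        constructor
        · rintro ⟨a, b, _⟩
          exact ⟨a, b⟩
        · rintro ⟨a, b⟩
          exact ⟨a, b, hG⟩
      rw [h1]
      exact (L5_Xc_mono_left sh _ hQ).trans hG.2.2.2
    · rw [if_neg hG, mul_zero]
      apply le_of_eq
      apply Finset.sum_eq_zero
      intro v _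
      rw [if_neg]
      exact fun h2 => hG h2.2
  have hs2 : ∀ u ∈ P, k2 * (if GDp sh P Q W1 k2 h H (cr ends ω R (sh u)) then (1 : ℝ) else 0) ≤
      ∑ y, (if y ∈ cr ends ω R (sh u) then
        (if GDp sh P Q W1 k2 h H (cr ends ω R y) then (1 : ℝ) else 0) else 0) := by
    intro u _
    by_cases hG : GDp sh P Q W1 k2 h H (cr ends ω R (sh u))
    · rw [if_pos hG, mul_one]
      have h1 : ∑ y, (if y ∈ cr ends ω R (sh u) then
          (if GDp sh P Q W1 k2 h H (cr ends ω R y) then (1 : ℝ) else 0) else 0) =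
          ((cr ends ω R (sh u)).card : ℝ) := by
        rw [← Finset.sum_filter]
        have h2 : Finset.univ.filter (fun y => y ∈ cr ends ω R (sh u)) = cr ends ω R (sh u) := by
          ext y
          simp
        rw [h2]
        have h3 : ∀ y ∈ cr ends ω R (sh u),
            (if GDp sh P Q W1 k2 h H (cr ends ω R y) then (1 : ℝ) else 0) = 1 := by
          intro y hy
          rw [cr_eq hy, if_pos hG]
        rw [Finset.sum_congr rfl h3]
        simp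
      rw [h1]
      exact hG.1
    · rw [if_neg hG, mul_zero]
      apply Finset.sum_nonneg
      intro y _
      split_ifs <;> norm_num
  have hs3 : ∑ u ∈ P, ∑ y, (if y ∈ cr ends ω R (sh u) then
        (if GDp sh P Q W1 k2 h H (cr ends ω R y) then (1 : ℝ) else 0) else 0) ≤
      H * ∑ y, (if GDp sh P Q W1 k2 h H (cr ends ω R y) then (1 : ℝ) else 0) := by
    rw [Finset.sum_comm, Finset.mul_sum]
    apply Finset.sum_le_sum
    intro y _
    by_cases hG : GDp sh P Q W1 k2 h H (cr ends ω R y)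
    · rw [if_pos hG, mul_one, Finset.sum_boole]
      refine le_trans ?_ ((L5_Xc_mono_left sh (cr ends ω R y) hP).trans hG.2.2.2)
      unfold Xc
      have : (P.filter (fun u => y ∈ cr ends ω R (sh u))).card ≤
          (P.filter (fun u => sh u ∈ cr ends ω R y)).card := by
        apply Finset.card_le_card
        intro u hu
        rw [Finset.mem_filter] at hu ⊢
        refine ⟨hu.1, ?_⟩
        rw [cr_eq hu.2]
        apply cr_self
        intro hR
        have h4 := hu.2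
        unfold cr at h4
        rw [if_pos hR] at h4
        exact absurd h4 (Finset.notMem_empty y)
      exact_mod_cast this
    · rw [if_neg hG, mul_zero]
      apply le_of_eq
      apply Finset.sum_eq_zero
      intro u _
      split_ifs <;> rfl
  have hs4 : k2 * ∑ u ∈ P, (if GDp sh P Q W1 k2 h H (cr ends ω R (sh u)) then (1 : ℝ) else 0) ≤
      H * ∑ y, (if GDp sh P Q W1 k2 h H (cr ends ω R y) then (1 : ℝ) else 0) := by
    rw [Finset.mul_sum]
    exact (Finset.sum_le_sum hs2).trans hs3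
  have hs5 : ∑ u ∈ P, (if GDp sh P Q W1 k2 h H (cr ends ω R (sh u)) then (1 : ℝ) else 0) ≤
      H * (∑ y, (if GDp sh P Q W1 k2 h H (cr ends ω R y) then (1 : ℝ) else 0)) / k2 := by
    rw [le_div_iff₀ hk, mul_comm]
    exact hs4
  calc ∑ u ∈ P, ∑ v ∈ Q, (if sh v ∈ cr ends ω R (sh u) ∧ GDp sh P Q W1 k2 h H (cr ends ω R (sh u))
        then (1 : ℝ) else 0)
      ≤ ∑ u ∈ P, H * (if GDp sh P Q W1 k2 h H (cr ends ω R (sh u)) then (1 : ℝ) else 0) :=
        Finset.sum_le_sum hs1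
    _ = H * ∑ u ∈ P, (if GDp sh P Q W1 k2 h H (cr ends ω R (sh u)) then (1 : ℝ) else 0) := by
        rw [Finset.mul_sum]
    _ ≤ H * (H * (∑ y, (if GDp sh P Q W1 k2 h H (cr ends ω R y) then (1 : ℝ) else 0)) / k2) :=
        mul_le_mul_of_nonneg_left hs5 hH
    _ = H ^ 2 / k2 * ∑ y, (if GDp sh P Q W1 k2 h H (cr ends ω R y) then (1 : ℝ) else 0) := by
        ring

open scoped Classical in
/-- Row L6. Lemma 2 of the page. Sum `tau_off` over `u ∈ P`, `v ∈ Q` at `(sh u, sh v)`: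
`∑ P(sh v ∈ cr R (sh u)) ≥ c1 |P| |Q| - GG ≥ s0 - s0/10`. An indicator of `sh v ∈ cr` is at most `1[.., GD] + 1[.., |cr| < k2] +
1[.., Xc P < h] + 1[.., Xc Q < h] + 1[.., H < Xc W1]` (`W1 = W ∩ Un 𝒞`); the sums of the last four are at most `MM ≤ s0/10` (each
pair of `P × Q` is in `Pi2`), `ZZ`, `ZZ ≤ s0/10`, `TH / H ≤ s0/10`. So the sum of the first ones is at least `s0/2`, and
`gd_count` gives `s0/2 ≤ H²/k2 * ∑ y P(GD)`. -/
lemma lem2 {p c1 b1 s0 k2 h H : ℝ} (h0 : 0 ≤ p) (h1 : p ≤ 1) (hk : 0 < k2) (hh : 0 ≤ h) (hH : 0 < H)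
    (hc1 : 0 ≤ c1) (hb1 : 0 ≤ b1) (sh : V → V) (W P Q : Finset V) (𝒞 : Finset (Finset V))
    (hPW : P ⊆ W ∩ Un 𝒞) (hQW : Q ⊆ W ∩ Un 𝒞)
    (hPQ : ∀ u ∈ P, ∀ v ∈ Q, (u, v) ∈ Pi2 W 𝒞)
    (hτ : ∀ u ∈ W, ∀ v ∈ W, c1 ≤ ta ends p (sh u) (sh v))
    (hP : b1 ≤ (P.card : ℝ)) (hQ : b1 ≤ (Q.card : ℝ)) (hs0 : s0 ≤ c1 * b1 ^ 2)
    (R : Finset V) (hG : GG ends p sh W 𝒞 R ≤ s0 / 10) (hM : MM ends p sh W 𝒞 k2 R ≤ s0 / 10)
    (hZ : ZZ ends p sh W 𝒞 h ≤ s0 / 10) (hT : TH ends p sh W 𝒞 ≤ H * (s0 / 10)) :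
    k2 * s0 / (2 * H ^ 2) ≤
      ∑ y, Ex p (fun ω => if GDp sh P Q (W ∩ Un 𝒞) k2 h H (cr ends ω R y) then (1 : ℝ) else 0) := by
  classical
  have hsub : P ×ˢ Q ⊆ Pi2 W 𝒞 := by
    intro q hq
    rw [Finset.mem_product] at hq
    exact hPQ q.1 hq.1 q.2 hq.2
  -- step 1
  have hg : ∑ u ∈ P, ∑ v ∈ Q, ∑ w ∈ R, ta ends p (sh u) w * ta ends p w (sh v) ≤ s0 / 10 := by
    refine le_trans ?_ hG
    unfold GG
    rw [← Finset.sum_product (s := P) (t := Q)
      (f := fun q : V × V => ∑ w ∈ R, ta ends p (sh q.1) w * ta ends p w (sh q.2))]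
    refine Finset.sum_le_sum_of_subset_of_nonneg hsub ?_
    intro q _ _
    exact Finset.sum_nonneg fun w _ => mul_nonneg (ta_nonneg h0 h1 _ _) (ta_nonneg h0 h1 _ _)
  have hm : ∑ u ∈ P, ∑ v ∈ Q, Ex p (fun ω => if sh v ∈ cr ends ω R (sh u) ∧
      ((cr ends ω R (sh u)).card : ℝ) < k2 then (1 : ℝ) else 0) ≤ s0 / 10 := by
    refine le_trans ?_ hM
    unfold MM
    rw [← Finset.sum_product (s := P) (t := Q)
      (f := fun q : V × V => Ex p (fun ω => if sh q.2 ∈ cr ends ω R (sh q.1) ∧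
      ((cr ends ω R (sh q.1)).card : ℝ) < k2 then (1 : ℝ) else 0))]
    refine Finset.sum_le_sum_of_subset_of_nonneg hsub ?_
    intro q _ _
    exact Ex_nonneg h0 h1 fun ω => by split_ifs <;> norm_num
  have hS : c1 * b1 ^ 2 - s0 / 10 ≤
      ∑ u ∈ P, ∑ v ∈ Q, Ex p (fun ω => if sh v ∈ cr ends ω R (sh u) then (1 : ℝ) else 0) := by
    have h2 : ∑ u ∈ P, ∑ v ∈ Q, (c1 - ∑ w ∈ R, ta ends p (sh u) w * ta ends p w (sh v)) ≤
        ∑ u ∈ P, ∑ v ∈ Q, Ex p (fun ω => if sh v ∈ cr ends ω R (sh u) then (1 : ℝ) else 0) := by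
      refine Finset.sum_le_sum fun u hu => Finset.sum_le_sum fun v hv => ?_
      refine le_trans ?_ (tau_off h0 h1 R (sh u) (sh v))
      have := hτ u (Finset.mem_inter.1 (hPW hu)).1 v (Finset.mem_inter.1 (hQW hv)).1
      linarith
    have h3 : ∑ u ∈ P, ∑ v ∈ Q, (c1 - ∑ w ∈ R, ta ends p (sh u) w * ta ends p w (sh v)) =
        (P.card : ℝ) * ((Q.card : ℝ) * c1) -
          ∑ u ∈ P, ∑ v ∈ Q, ∑ w ∈ R, ta ends p (sh u) w * ta ends p w (sh v) := by
      simp only [Finset.sum_sub_distrib, Finset.sum_const, nsmul_eq_mul]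
    have h4 : b1 ^ 2 ≤ (P.card : ℝ) * (Q.card : ℝ) := by
      rw [pow_two]
      exact mul_le_mul hP hQ hb1 (hb1.trans hP)
    have h5 : c1 * b1 ^ 2 ≤ (P.card : ℝ) * ((Q.card : ℝ) * c1) := by
      calc c1 * b1 ^ 2 ≤ c1 * ((P.card : ℝ) * (Q.card : ℝ)) := mul_le_mul_of_nonneg_left h4 hc1
        _ = _ := by ring
    linarith
  -- step 2
  have hpt : ∀ u v : V, ∀ ω : E → Bool, (if sh v ∈ cr ends ω R (sh u) then (1 : ℝ) else 0) ≤
      (if sh v ∈ cr ends ω R (sh u) ∧ GDp sh P Q (W ∩ Un 𝒞) k2 h H (cr ends ω R (sh u)) then (1 : ℝ) else 0) +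
      ((if sh v ∈ cr ends ω R (sh u) ∧ ((cr ends ω R (sh u)).card : ℝ) < k2 then (1 : ℝ) else 0) +
      ((if sh v ∈ cr ends ω R (sh u) ∧ Xc sh P (cr ends ω R (sh u)) < h then (1 : ℝ) else 0) +
      ((if sh v ∈ cr ends ω R (sh u) ∧ Xc sh Q (cr ends ω R (sh u)) < h then (1 : ℝ) else 0) +
      (if sh v ∈ cr ends ω R (sh u) ∧ H < Xc sh (W ∩ Un 𝒞) (cr ends ω R (sh u)) then (1 : ℝ) else 0)))) := by
    intro u v ω
    by_cases hi : sh v ∈ cr ends ω R (sh u)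
    · by_cases hgd : GDp sh P Q (W ∩ Un 𝒞) k2 h H (cr ends ω R (sh u))
      · simp only [hi, hgd, and_self, if_true, true_and]
        have a1 : (0 : ℝ) ≤ (if ((cr ends ω R (sh u)).card : ℝ) < k2 then (1 : ℝ) else 0) := by
          split_ifs <;> norm_num
        have a2 : (0 : ℝ) ≤ (if Xc sh P (cr ends ω R (sh u)) < h then (1 : ℝ) else 0) := by
          split_ifs <;> norm_num
        have a3 : (0 : ℝ) ≤ (if Xc sh Q (cr ends ω R (sh u)) < h then (1 : ℝ) else 0) := by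
          split_ifs <;> norm_num
        have a4 : (0 : ℝ) ≤ (if H < Xc sh (W ∩ Un 𝒞) (cr ends ω R (sh u)) then (1 : ℝ) else 0) := by
          split_ifs <;> norm_num
        linarith
      · simp only [hi, hgd, true_and, if_true, if_false]
        have hor : ((cr ends ω R (sh u)).card : ℝ) < k2 ∨ Xc sh P (cr ends ω R (sh u)) < h ∨
            Xc sh Q (cr ends ω R (sh u)) < h ∨ H < Xc sh (W ∩ Un 𝒞) (cr ends ω R (sh u)) := by
          by_contra hno
          push Not at hno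
          exact hgd ⟨hno.1, hno.2.1, hno.2.2.1, hno.2.2.2⟩
        have a1 : (0 : ℝ) ≤ (if ((cr ends ω R (sh u)).card : ℝ) < k2 then (1 : ℝ) else 0) := by
          split_ifs <;> norm_num
        have a2 : (0 : ℝ) ≤ (if Xc sh P (cr ends ω R (sh u)) < h then (1 : ℝ) else 0) := by
          split_ifs <;> norm_num
        have a3 : (0 : ℝ) ≤ (if Xc sh Q (cr ends ω R (sh u)) < h then (1 : ℝ) else 0) := by
          split_ifs <;> norm_num
        have a4 : (0 : ℝ) ≤ (if H < Xc sh (W ∩ Un 𝒞) (cr ends ω R (sh u)) then (1 : ℝ) else 0) := by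
          split_ifs <;> norm_num
        rcases hor with q | q | q | q
        · rw [if_pos q]; linarith
        · rw [if_pos q]; linarith
        · rw [if_pos q]; linarith
        · rw [if_pos q]; linarith
    · simp [hi]
  have hsplit : ∑ u ∈ P, ∑ v ∈ Q, Ex p (fun ω => if sh v ∈ cr ends ω R (sh u) then (1 : ℝ) else 0) ≤
      (∑ u ∈ P, ∑ v ∈ Q, Ex p (fun ω => if sh v ∈ cr ends ω R (sh u) ∧
        GDp sh P Q (W ∩ Un 𝒞) k2 h H (cr ends ω R (sh u)) then (1 : ℝ) else 0)) +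
      ((∑ u ∈ P, ∑ v ∈ Q, Ex p (fun ω => if sh v ∈ cr ends ω R (sh u) ∧
        ((cr ends ω R (sh u)).card : ℝ) < k2 then (1 : ℝ) else 0)) +
      ((∑ u ∈ P, ∑ v ∈ Q, Ex p (fun ω => if sh v ∈ cr ends ω R (sh u) ∧
        Xc sh P (cr ends ω R (sh u)) < h then (1 : ℝ) else 0)) +
      ((∑ u ∈ P, ∑ v ∈ Q, Ex p (fun ω => if sh v ∈ cr ends ω R (sh u) ∧
        Xc sh Q (cr ends ω R (sh u)) < h then (1 : ℝ) else 0)) +
      (∑ u ∈ P, ∑ v ∈ Q, Ex p (fun ω => if sh v ∈ cr ends ω R (sh u) ∧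
        H < Xc sh (W ∩ Un 𝒞) (cr ends ω R (sh u)) then (1 : ℝ) else 0))))) := by
    simp only [← Finset.sum_add_distrib, ← Ex_add]
    exact Finset.sum_le_sum fun u _ => Finset.sum_le_sum fun v _ => Ex_mono h0 h1 (hpt u v)
  have hfP := few_P (ends := ends) h0 h1 hh sh W P Q 𝒞 hPQ R
  have hfQ := few_Q (ends := ends) h0 h1 hh sh W P Q 𝒞 hPQ R
  have hmW := many_W (ends := ends) h0 h1 hH sh W P Q 𝒞 hPQ R
  have hT' : TH ends p sh W 𝒞 / H ≤ s0 / 10 := by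
    rw [div_le_iff₀ hH]
    linarith
  have hG2 : s0 / 2 ≤ ∑ u ∈ P, ∑ v ∈ Q, Ex p (fun ω => if sh v ∈ cr ends ω R (sh u) ∧
        GDp sh P Q (W ∩ Un 𝒞) k2 h H (cr ends ω R (sh u)) then (1 : ℝ) else 0) := by
    linarith
  -- step 3
  have hend : ∑ u ∈ P, ∑ v ∈ Q, Ex p (fun ω => if sh v ∈ cr ends ω R (sh u) ∧
        GDp sh P Q (W ∩ Un 𝒞) k2 h H (cr ends ω R (sh u)) then (1 : ℝ) else 0) ≤
      H ^ 2 / k2 * ∑ y, Ex p (fun ω => if GDp sh P Q (W ∩ Un 𝒞) k2 h H (cr ends ω R y) then (1 : ℝ) else 0) := by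
    have e1 : ∑ u ∈ P, ∑ v ∈ Q, Ex p (fun ω => if sh v ∈ cr ends ω R (sh u) ∧
        GDp sh P Q (W ∩ Un 𝒞) k2 h H (cr ends ω R (sh u)) then (1 : ℝ) else 0) =
        Ex p (fun ω => ∑ u ∈ P, ∑ v ∈ Q, if sh v ∈ cr ends ω R (sh u) ∧
        GDp sh P Q (W ∩ Un 𝒞) k2 h H (cr ends ω R (sh u)) then (1 : ℝ) else 0) := by
      rw [Ex_sum]
      refine Finset.sum_congr rfl fun u _ => ?_
      rw [Ex_sum]
    have e2 : H ^ 2 / k2 * ∑ y, Ex p (fun ω => if GDp sh P Q (W ∩ Un 𝒞) k2 h H (cr ends ω R y) then (1 : ℝ) else 0) =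
        Ex p (fun ω => H ^ 2 / k2 * ∑ y, if GDp sh P Q (W ∩ Un 𝒞) k2 h H (cr ends ω R y) then (1 : ℝ) else 0) := by
      rw [Ex_mul_left, Ex_sum]
    rw [e1, e2]
    exact Ex_mono h0 h1 fun ω => gd_count hk hH.le sh P Q (W ∩ Un 𝒞) hPW hQW ω R
  have hfin := le_trans hG2 hend
  rw [div_le_iff₀ (by positivity)]
  have hk' : s0 / 2 * k2 ≤ H ^ 2 *
      ∑ y, Ex p (fun ω => if GDp sh P Q (W ∩ Un 𝒞) k2 h H (cr ends ω R y) then (1 : ℝ) else 0) := by
    have := mul_le_mul_of_nonneg_right hfin hk.le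
    calc s0 / 2 * k2 ≤ _ := this
      _ = _ := by field_simp
  linarith

end Pool.Agent.PERC29.AE
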