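import Pool.Agent.Lib.MP_29e17e_pr.V.Xp

set_option autoImplicit false
set_option linter.unusedSectionVars false

/-! Rows 29v-N1 .. 29v-N6: near contacts for all cuts (Lemma 1 of the page). -/

open Finset

namespace Pool.Agent.PERC29.AE

variable {V : Type*} [Fintype V] [DecidableEq V] {E : Type*} [Fintype E] [DecidableEq E]
  {ends : E → Sym2 V}

open scoped Classical in
/-- The volume of `U`: points of `W` in `U` with a cluster of size at least `A2`. -/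
noncomputable def vol (ends : E → Sym2 V) (ω : E → Bool) (W : Finset V) (A2 : ℝ) (U : Finset V) : ℝ :=
  ((W.filter (fun x => x ∈ U ∧ A2 ≤ cz ends ω x)).card : ℝ)

open scoped Classical in
/-- The number of near contacts. -/
noncomputable def nrc (sh : V → V) (W U1 U2 : Finset V) : ℝ :=
  ((W.filter (fun u => (u ∈ U1 ∧ sh u ∈ U2) ∨ (u ∈ U2 ∧ sh u ∈ U1))).card : ℝ)

/-- The bad event: a cut of the clusters of size at least `k2` with two large sides and few near contacts. -/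
def BadNC (ends : E → Sym2 V) (ω : E → Bool) (sh : V → V) (W : Finset V) (k2 A2 β nr : ℝ) : Prop :=
  ∃ 𝒮 ∈ (GC ends ω k2).powerset, β ≤ vol ends ω W A2 (Un 𝒮) ∧
    β ≤ vol ends ω W A2 (Un (GC ends ω k2 \ 𝒮)) ∧ nrc sh W (Un 𝒮) (Un (GC ends ω k2 \ 𝒮)) < nr

open scoped Classical in
/-- The part of `W` in the marked clusters of the family `𝒮`. -/
noncomputable def Pm (W : Finset V) (b : V → Bool) (𝒮 : Finset (Finset V)) : Finset V :=
  W ∩ Un (𝒮.filter (fun A => hit b A))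

/-- The explored sets which are fine. -/
def OKp (ends : E → Sym2 V) (p : ℝ) (sh : V → V) (W : Finset V) (k2 s0 : ℝ) (𝒞 : Finset (Finset V))
    (R : Finset V) : Prop :=
  GG ends p sh W 𝒞 R ≤ s0 / 10 ∧ MM ends p sh W 𝒞 k2 R ≤ s0 / 10

/-- the union of a family -/
lemma N1_mem_Un {𝒞 : Finset (Finset V)} {x : V} : x ∈ Un 𝒞 ↔ ∃ A ∈ 𝒞, x ∈ A := by
  unfold Un
  rw [Finset.mem_biUnion]
  rfl

open scoped Classical in
/-- the size of the marked part -/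
lemma N1_card {k2 : ℝ} (ω : E → Bool) (W : Finset V) (𝒮 : Finset (Finset V)) (h𝒮 : 𝒮 ⊆ GC ends ω k2)
    (b : V → Bool) :
    ((Pm W b 𝒮).card : ℝ) = ∑ A ∈ 𝒮, ((W ∩ A).card : ℝ) * (if hit b A then (1 : ℝ) else 0) := by
  have h1 : Pm W b 𝒮 = (𝒮.filter (fun A => hit b A)).biUnion (fun A => W ∩ A) := by
    ext x
    unfold Pm
    rw [Finset.mem_inter, N1_mem_Un, Finset.mem_biUnion]
    constructor
    · rintro ⟨hx, A, hA, hxA⟩
      exact ⟨A, hA, Finset.mem_inter.mpr ⟨hx, hxA⟩⟩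
    · rintro ⟨A, hA, hxA⟩
      exact ⟨(Finset.mem_inter.mp hxA).1, A, hA, (Finset.mem_inter.mp hxA).2⟩
  rw [h1, Finset.card_biUnion]
  · push_cast
    rw [Finset.sum_filter]
    refine Finset.sum_congr rfl (fun A _ => ?_)
    split_ifs <;> ring
  · intro A hA B hB hAB
    have hA' := h𝒮 (Finset.mem_filter.mp hA).1
    have hB' := h𝒮 (Finset.mem_filter.mp hB).1
    exact (GC_disj hA' hB' hAB).mono Finset.inter_subset_right Finset.inter_subset_right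

open scoped Classical in
/-- the volume is carried by the large sets of the family -/
lemma N1_vol {k2 A2 : ℝ} (ω : E → Bool) (W : Finset V) (𝒮 : Finset (Finset V)) (h𝒮 : 𝒮 ⊆ GC ends ω k2) :
    vol ends ω W A2 (Un 𝒮) ≤ ∑ A ∈ 𝒮.filter (fun A => A2 ≤ (A.card : ℝ)), ((W ∩ A).card : ℝ) := by
  unfold vol
  have h1 : (W.filter (fun x => x ∈ Un 𝒮 ∧ A2 ≤ cz ends ω x)) ⊆
      (𝒮.filter (fun A => A2 ≤ (A.card : ℝ))).biUnion (fun A => W ∩ A) := by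
    intro x hx
    obtain ⟨hxW, hxU, hxc⟩ := Finset.mem_filter.mp hx
    obtain ⟨A, hA, hxA⟩ := N1_mem_Un.mp hxU
    rw [Finset.mem_biUnion]
    refine ⟨A, Finset.mem_filter.mpr ⟨hA, ?_⟩, Finset.mem_inter.mpr ⟨hxW, hxA⟩⟩
    obtain ⟨⟨y, hy⟩, -⟩ := mem_GC.1 (h𝒮 hA)
    rw [← hy] at hxA
    have h2 := cu_eq hxA
    unfold cz at hxc
    rw [h2, hy] at hxc
    exact hxc
  calc ((W.filter (fun x => x ∈ Un 𝒮 ∧ A2 ≤ cz ends ω x)).card : ℝ) ≤
        (((𝒮.filter (fun A => A2 ≤ (A.card : ℝ))).biUnion (fun A => W ∩ A)).card : ℝ) := by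
        exact_mod_cast Finset.card_le_card h1
    _ ≤ ((∑ A ∈ 𝒮.filter (fun A => A2 ≤ (A.card : ℝ)), (W ∩ A).card : ℕ) : ℝ) := by
        exact_mod_cast Finset.card_biUnion_le
    _ = _ := by push_cast; rfl

open scoped Classical in
/-- Row N1. `|Pm| = ∑ A ∈ 𝒮, |A ∩ W| 1[hit b A]` (the sets of `𝒮 ⊆ GC` are disjoint clusters). Mean: by `hit_low` (with `m = A2`)
the sets with `A2 ≤ |A|` give at least `(g A2 / 2) vol ≥ g A2 β / 2 ≥ 2 b1`. Then `cheb` with `c A = |A ∩ W|`, and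
`∑ A ∈ 𝒮, |A ∩ W|² g |A| ≤ g ∑ A ∈ GC, |A|³ ≤ g ∑ x, |C(x)|²` (`GC_sum`). -/
lemma mark_vol {g k2 A2 β b1 : ℝ} (hg0 : 0 ≤ g) (hg1 : g ≤ 1) (hA : 0 ≤ A2) (hgA : g * A2 ≤ 1)
    (hb1 : 0 < b1) (hb : b1 ≤ β * (g * A2) / 4) (ω : E → Bool) (W : Finset V) (𝒮 : Finset (Finset V))
    (h𝒮 : 𝒮 ⊆ GC ends ω k2) (hvol : β ≤ vol ends ω W A2 (Un 𝒮)) :
    Ex g (fun b : V → Bool => if ((Pm W b 𝒮).card : ℝ) < b1 then (1 : ℝ) else 0) ≤
      g * (∑ x, cz ends ω x ^ 2) / b1 ^ 2 := by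
  have hdis : ∀ A ∈ 𝒮, ∀ B ∈ 𝒮, A ≠ B → Disjoint A B := fun A hA B hB hAB => GC_disj (h𝒮 hA) (h𝒮 hB) hAB
  have hq0 : ∀ A : Finset V, 0 ≤ Ex g (fun b : V → Bool => if hit b A then (1 : ℝ) else 0) := by
    intro A
    exact Ex_nonneg hg0 hg1 (fun b => by split_ifs <;> norm_num)
  have hmean : 2 * b1 ≤ ∑ A ∈ 𝒮, ((W ∩ A).card : ℝ) *
      Ex g (fun b : V → Bool => if hit b A then (1 : ℝ) else 0) := by
    have h1 := N1_vol (k2 := k2) (A2 := A2) ω W 𝒮 h𝒮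
    have h2 : ∑ A ∈ 𝒮.filter (fun A => A2 ≤ (A.card : ℝ)), ((W ∩ A).card : ℝ) * (g * A2 / 2) ≤
        ∑ A ∈ 𝒮, ((W ∩ A).card : ℝ) *
          Ex g (fun b : V → Bool => if hit b A then (1 : ℝ) else 0) := by
      calc ∑ A ∈ 𝒮.filter (fun A => A2 ≤ (A.card : ℝ)), ((W ∩ A).card : ℝ) * (g * A2 / 2)
          ≤ ∑ A ∈ 𝒮.filter (fun A => A2 ≤ (A.card : ℝ)), ((W ∩ A).card : ℝ) *
            Ex g (fun b : V → Bool => if hit b A then (1 : ℝ) else 0) := by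
            refine Finset.sum_le_sum (fun A hAm => ?_)
            exact mul_le_mul_of_nonneg_left (hit_low hg0 hg1 hA hgA A (Finset.mem_filter.mp hAm).2)
              (Nat.cast_nonneg _)
        _ ≤ _ := by
            refine Finset.sum_le_sum_of_subset_of_nonneg (Finset.filter_subset _ _) (fun A _ _ => ?_)
            exact mul_nonneg (Nat.cast_nonneg _) (hq0 A)
    rw [← Finset.sum_mul] at h2
    have h3 : 0 ≤ g * A2 / 2 := by positivity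
    have h4 : β * (g * A2 / 2) ≤ (∑ A ∈ 𝒮.filter (fun A => A2 ≤ (A.card : ℝ)), ((W ∩ A).card : ℝ)) *
        (g * A2 / 2) := mul_le_mul_of_nonneg_right (hvol.trans h1) h3
    have h5 : 2 * b1 ≤ β * (g * A2 / 2) := by linarith
    linarith
  have hch := cheb hg0 hg1 hb1 𝒮 hdis (fun A => ((W ∩ A).card : ℝ)) (fun A => Nat.cast_nonneg _) hmean
  have e1 : Ex g (fun b : V → Bool => if ((Pm W b 𝒮).card : ℝ) < b1 then (1 : ℝ) else 0) =
      Ex g (fun b : V → Bool => if (∑ A ∈ 𝒮, ((W ∩ A).card : ℝ) * (if hit b A then (1 : ℝ) else 0)) < b1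
        then (1 : ℝ) else 0) := by
    refine Ex_congr (fun b => ?_)
    rw [N1_card ω W 𝒮 h𝒮 b]
  rw [e1]
  refine hch.trans ?_
  have hb2 : 0 < b1 ^ 2 := by positivity
  rw [div_le_div_iff_of_pos_right hb2]
  have h6 : ∑ A ∈ 𝒮, ((W ∩ A).card : ℝ) ^ 2 * (g * A.card) ≤
      ∑ A ∈ GC ends ω k2, g * ∑ x ∈ A, (A.card : ℝ) ^ 2 := by
    calc ∑ A ∈ 𝒮, ((W ∩ A).card : ℝ) ^ 2 * (g * A.card)
        ≤ ∑ A ∈ 𝒮, g * ∑ x ∈ A, (A.card : ℝ) ^ 2 := by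
          refine Finset.sum_le_sum (fun A _ => ?_)
          rw [Finset.sum_const, nsmul_eq_mul]
          have h7 : ((W ∩ A).card : ℝ) ≤ (A.card : ℝ) := by
            exact_mod_cast Finset.card_le_card Finset.inter_subset_right
          have h8 : ((W ∩ A).card : ℝ) ^ 2 ≤ (A.card : ℝ) ^ 2 := by gcongr
          have h9 : (0 : ℝ) ≤ g * A.card := by positivity
          calc ((W ∩ A).card : ℝ) ^ 2 * (g * A.card) ≤ (A.card : ℝ) ^ 2 * (g * A.card) :=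
                mul_le_mul_of_nonneg_right h8 h9
            _ = _ := by ring
      _ ≤ _ := by
          refine Finset.sum_le_sum_of_subset_of_nonneg h𝒮 (fun A _ _ => ?_)
          exact mul_nonneg hg0 (Finset.sum_nonneg (fun x _ => by positivity))
  refine h6.trans ?_
  rw [← Finset.mul_sum, GC_sum ω k2 (fun A _ => (A.card : ℝ) ^ 2)]
  refine mul_le_mul_of_nonneg_left (Finset.sum_le_sum (fun x _ => ?_)) hg0
  split_ifs
  · exact le_refl _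
  · positivity

open scoped Classical in
private lemma N2_iff {k2 : ℝ} {ω : E → Bool} {b : V → Bool} {A : Finset V} :
    A ∈ (MC ends ω b).filter (fun A => k2 ≤ (A.card : ℝ)) ↔ A ∈ GC ends ω k2 ∧ hit b A := by
  rw [Finset.mem_filter, mem_GC]
  constructor
  · rintro ⟨h1, h2⟩
    obtain ⟨x, hx, rfl⟩ := mem_MC.1 h1
    exact ⟨⟨⟨x, rfl⟩, h2⟩, x, self_mem_cu ω x, hx⟩
  · rintro ⟨⟨⟨x, rfl⟩, h2⟩, h3⟩
    exact ⟨cu_mem_MC.2 h3, h2⟩

open scoped Classical in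
/-- Row N2. With `𝒞 = MC ends ω b`, `𝒮 ⊆ GC ω k2`, `𝒬 = 𝒮.filter (hit b)`: this is the family of the `A ∈ 𝒞` with `A ∈ 𝒮`, it is a
subset of `𝒞.filter (k2 ≤ |A|)`, and the complement of it there is `(GC ω k2 \ 𝒮).filter (hit b)` (`cu_mem_MC`, `mem_MC`, `mem_GC`). -/
lemma lab_fam {k2 : ℝ} (ω : E → Bool) (b : V → Bool) (𝒮 : Finset (Finset V)) (h𝒮 : 𝒮 ⊆ GC ends ω k2) :
    𝒮.filter (fun A => hit b A) ∈ ((MC ends ω b).filter (fun A => k2 ≤ (A.card : ℝ))).powerset ∧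
    ((MC ends ω b).filter (fun A => k2 ≤ (A.card : ℝ))) \ (𝒮.filter (fun A => hit b A)) =
      (GC ends ω k2 \ 𝒮).filter (fun A => hit b A) := by
  constructor
  · rw [Finset.mem_powerset]
    intro A hA
    rw [Finset.mem_filter] at hA
    exact N2_iff.2 ⟨h𝒮 hA.1, hA.2⟩
  · ext A
    rw [Finset.mem_sdiff, N2_iff, Finset.mem_filter, Finset.mem_filter, Finset.mem_sdiff]
    constructor
    · rintro ⟨⟨h1, h2⟩, h3⟩
      exact ⟨⟨h1, fun h => h3 ⟨h, h2⟩⟩, h2⟩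
    · rintro ⟨⟨h1, h2⟩, h3⟩
      exact ⟨⟨h1, h3⟩, fun h => h2 h.1⟩

/-- Row N3. If the cut has few near contacts then no run has `k` successes: `ns_near` with `U1 = Un 𝒮`, `U2 = Un (GC \ 𝒮)`,
`P = Pm W b 𝒮`, `Q = Pm W b (GC \ 𝒮)`, `R = Un (MC ends ω b)` (`Ful_MC`); a cluster `D` with `GDp` has `k2 ≤ |D|`, so it is in `GC ω k2`
and in one of the two families. So `h * ns ≤ nrc < h * k`. -/
lemma lab_ns {k2 h H : ℝ} (hk : 0 < k2) (hh : 0 < h) (ω : E → Bool) (b : V → Bool) (sh : V → V)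
    (W : Finset V) (𝒮 : Finset (Finset V)) (h𝒮 : 𝒮 ⊆ GC ends ω k2) (k : ℕ)
    (hnr : nrc sh W (Un 𝒮) (Un (GC ends ω k2 \ 𝒮)) < h * k) (L : List V) :
    ns ends (GDp sh (Pm W b 𝒮) (Pm W b (GC ends ω k2 \ 𝒮)) (W ∩ Un (MC ends ω b)) k2 h H) ω
      (Un (MC ends ω b)) L < k := by
  classical
  have hsub : ∀ 𝒯 : Finset (Finset V), Pm W b 𝒯 ⊆ Un 𝒯 := by
    intro 𝒯 x hx
    unfold Pm Un at hx
    rw [Finset.mem_inter, Finset.mem_biUnion] at hx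
    obtain ⟨_, A, hA, hxA⟩ := hx
    unfold Un
    rw [Finset.mem_biUnion]
    exact ⟨A, (Finset.mem_filter.1 hA).1, hxA⟩
  have hmem : ∀ (𝒯 : Finset (Finset V)) (A : Finset V), A ∈ 𝒯 → A ⊆ Un 𝒯 := by
    intro 𝒯 A hA x hx
    unfold Un
    rw [Finset.mem_biUnion]
    exact ⟨A, hA, hx⟩
  have hkey := ns_near (ends := ends) (ω := ω) (h := h) hh.le
    (GDp sh (Pm W b 𝒮) (Pm W b (GC ends ω k2 \ 𝒮)) (W ∩ Un (MC ends ω b)) k2 h H) sh W
    (Pm W b 𝒮) (Pm W b (GC ends ω k2 \ 𝒮)) (Un 𝒮) (Un (GC ends ω k2 \ 𝒮))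
    (by unfold Pm; exact Finset.inter_subset_left) (by unfold Pm; exact Finset.inter_subset_left)
    (hsub _) (hsub _)
    (by
      intro D hD
      rw [← Finset.card_pos]
      have h1 : (0 : ℝ) < (D.card : ℝ) := lt_of_lt_of_le hk hD.1
      exact_mod_cast h1)
    (by
      intro y hD
      have h1 : cu ends ω y ∈ GC ends ω k2 := mem_GC.2 ⟨⟨y, rfl⟩, hD.1⟩
      by_cases h2 : cu ends ω y ∈ 𝒮
      · exact Or.inl (hmem _ _ h2)
      · exact Or.inr (hmem _ _ (Finset.mem_sdiff.2 ⟨h1, h2⟩)))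
    (by
      intro D hD
      obtain ⟨_, h1, h2, _⟩ := hD
      unfold Xc at h1 h2
      exact ⟨h1, h2⟩)
    L (Un (MC ends ω b)) (Ful_MC ω b)
  unfold nrc at hnr
  have h3 := lt_of_le_of_lt hkey hnr
  have h4 := lt_of_mul_lt_mul_left h3 hh.le
  exact_mod_cast h4

/-- Row N3 (second half). Induction on the list, `GG_mono`, `rn_sub`. -/
lemma aok_of {p s0 k2 : ℝ} (h0 : 0 ≤ p) (h1 : p ≤ 1) (sh : V → V) (W : Finset V) (𝒞 : Finset (Finset V))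
    (ω : E → Bool) (L : List V) (R : Finset V) (hG : GG ends p sh W 𝒞 (rn ends ω R L) ≤ s0 / 10)
    (hM : ¬ exM ends (MM ends p sh W 𝒞 k2) (s0 / 10) ω R L) :
    aok ends (OKp ends p sh W k2 s0 𝒞) ω R L := by
  induction L generalizing R with
  | nil => trivial
  | cons y L ih =>
    unfold exM at hM
    rw [not_or, not_lt] at hM
    refine ⟨⟨le_trans (GG_mono h0 h1 sh W 𝒞 (rn_sub ω R (y :: L))) hG, hM.1⟩, ?_⟩
    exact ih (R ∪ cr ends ω R y) hG hM.2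

open scoped Classical in
/-- The number of labellings for which the run is fine and has fewer than `k` successes. -/
noncomputable def FF (ends : E → Sym2 V) (p : ℝ) (sh : V → V) (W : Finset V) (k2 h H b1 s0 : ℝ) (n1 k : ℕ)
    (𝒞 : Finset (Finset V)) (ω : E → Bool) (L : List V) : ℝ :=
  ∑ 𝒬 ∈ (𝒞.filter (fun A => k2 ≤ (A.card : ℝ))).powerset,
    if (b1 ≤ ((W ∩ Un 𝒬).card : ℝ) ∧
        b1 ≤ ((W ∩ Un (𝒞.filter (fun A => k2 ≤ (A.card : ℝ)) \ 𝒬)).card : ℝ) ∧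
        ZZ ends p sh W 𝒞 h ≤ s0 / 10 ∧ TH ends p sh W 𝒞 ≤ H * (s0 / 10) ∧
        (𝒞.filter (fun A => k2 ≤ (A.card : ℝ))).card ≤ n1) ∧
      aok ends (OKp ends p sh W k2 s0 𝒞) ω (Un 𝒞) L ∧
      ns ends (GDp sh (W ∩ Un 𝒬) (W ∩ Un (𝒞.filter (fun A => k2 ≤ (A.card : ℝ)) \ 𝒬)) (W ∩ Un 𝒞)
        k2 h H) ω (Un 𝒞) L < k
    then (1 : ℝ) else 0

open scoped Classical in
/-- `FF` depends on the edges off the union only -/
lemma N4_dep (p : ℝ) (sh : V → V) (W : Finset V) (k2 h H b1 s0 : ℝ) (n1 k : ℕ)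
    (𝒞 : Finset (Finset V)) (L : List V) {ω ω' : E → Bool} (hω : Off ends (Un 𝒞) ω ω') :
    FF ends p sh W k2 h H b1 s0 n1 k 𝒞 ω L = FF ends p sh W k2 h H b1 s0 n1 k 𝒞 ω' L := by
  unfold FF
  refine Finset.sum_congr rfl (fun 𝒬 _ => ?_)
  have k1 := aok_dep (OKp ends p sh W k2 s0 𝒞) L (Un 𝒞) hω
  rw [ns_dep _ L (Un 𝒞) hω]
  exact if_congr (and_congr Iff.rfl (and_congr k1 Iff.rfl)) rfl rfl

/-- the union of a family -/
lemma N4_mem_Un {𝒞 : Finset (Finset V)} {x : V} : x ∈ Un 𝒞 ↔ ∃ A ∈ 𝒞, x ∈ A := by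
  unfold Un
  rw [Finset.mem_biUnion]
  rfl

open scoped Classical in
/-- the bound for a fixed family -/
lemma N4_fix [Nonempty V] {p c1 b1 s0 k2 h H : ℝ} (h0 : 0 ≤ p) (h1 : p ≤ 1) (hk : 0 < k2) (hh : 0 ≤ h)
    (hH : 0 < H) (hc1 : 0 ≤ c1) (hb1 : 0 ≤ b1) (hs00 : 0 ≤ s0) (hs0 : s0 ≤ c1 * b1 ^ 2)
    (hth : k2 * s0 / (2 * H ^ 2 * Fintype.card V) ≤ 1) (sh : V → V) (W : Finset V)
    (hτ : ∀ u ∈ W, ∀ v ∈ W, c1 ≤ ta ends p (sh u) (sh v)) (n1 k J : ℕ) (𝒞 : Finset (Finset V)) :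
    al J (fun L : List V => Ex p (fun ω => FF ends p sh W k2 h H b1 s0 n1 k 𝒞 ω L)) ≤
      2 ^ (n1 + k) * (1 - k2 * s0 / (4 * H ^ 2 * Fintype.card V)) ^ J := by
  have hV : (0 : ℝ) < (Fintype.card V : ℝ) := by exact_mod_cast Fintype.card_pos
  obtain ⟨th, hthd⟩ : ∃ th : ℝ, th = k2 * s0 / (2 * H ^ 2 * Fintype.card V) := ⟨_, rfl⟩
  have hth0 : 0 ≤ th := by
    rw [hthd]
    positivity
  have hth1 : th ≤ 1 := by
    rw [hthd]
    exact hth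
  have hth2 : 1 - k2 * s0 / (4 * H ^ 2 * Fintype.card V) = 1 - th / 2 := by
    rw [hthd]
    have h4 : (4 : ℝ) * H ^ 2 * Fintype.card V = (2 * H ^ 2 * Fintype.card V) * 2 := by ring
    rw [h4, ← div_div]
  have hthV : th * Fintype.card V = k2 * s0 / (2 * H ^ 2) := by
    rw [hthd]
    field_simp
  have hb0 : 0 ≤ 1 - th / 2 := by linarith
  have hB0 : (0 : ℝ) ≤ 2 ^ k * (1 - th / 2) ^ J := by positivity
  rw [hth2]
  obtain ⟨𝒟, h𝒟⟩ : ∃ 𝒟 : Finset (Finset V), 𝒟 = 𝒞.filter (fun A => k2 ≤ (A.card : ℝ)) := ⟨_, rfl⟩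
  have hsub𝒟 : 𝒟 ⊆ 𝒞 := by
    rw [h𝒟]
    exact Finset.filter_subset _ _
  have hterm : ∀ 𝒬 ∈ 𝒟.powerset, al J (fun L : List V => Ex p (fun ω =>
      if (b1 ≤ ((W ∩ Un 𝒬).card : ℝ) ∧
        b1 ≤ ((W ∩ Un (𝒟 \ 𝒬)).card : ℝ) ∧
        ZZ ends p sh W 𝒞 h ≤ s0 / 10 ∧ TH ends p sh W 𝒞 ≤ H * (s0 / 10) ∧
        𝒟.card ≤ n1) ∧
      aok ends (OKp ends p sh W k2 s0 𝒞) ω (Un 𝒞) L ∧
      ns ends (GDp sh (W ∩ Un 𝒬) (W ∩ Un (𝒟 \ 𝒬)) (W ∩ Un 𝒞)
        k2 h H) ω (Un 𝒞) L < k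
      then (1 : ℝ) else 0)) ≤ if 𝒟.card ≤ n1 then 2 ^ k * (1 - th / 2) ^ J else 0 := by
    intro 𝒬 h𝒬
    rw [Finset.mem_powerset] at h𝒬
    by_cases hc : b1 ≤ ((W ∩ Un 𝒬).card : ℝ) ∧
        b1 ≤ ((W ∩ Un (𝒟 \ 𝒬)).card : ℝ) ∧
        ZZ ends p sh W 𝒞 h ≤ s0 / 10 ∧ TH ends p sh W 𝒞 ≤ H * (s0 / 10) ∧
        𝒟.card ≤ n1
    · rw [if_pos hc.2.2.2.2]
      refine (al_mono J _ _ (fun L _ => Ex_mono h0 h1 (fun ω => ?_))).trans
        (chern (ends := ends) h0 h1 hth1 (GDp sh (W ∩ Un 𝒬) (W ∩ Un (𝒟 \ 𝒬)) (W ∩ Un 𝒞) k2 h H)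
          (OKp ends p sh W k2 s0 𝒞) (fun R hR => ?_) k J (Un 𝒞))
      · by_cases hx : aok ends (OKp ends p sh W k2 s0 𝒞) ω (Un 𝒞) L ∧
          ns ends (GDp sh (W ∩ Un 𝒬) (W ∩ Un (𝒟 \ 𝒬)) (W ∩ Un 𝒞) k2 h H) ω (Un 𝒞) L < k
        · rw [if_pos hx]
          split_ifs <;> norm_num
        · rw [if_neg hx, if_neg (fun hy => hx hy.2)]
      · rw [hthV]
        refine lem2 h0 h1 hk hh hH hc1 hb1 sh W (W ∩ Un 𝒬) (W ∩ Un (𝒟 \ 𝒬)) 𝒞 ?_ ?_ ?_ hτ hc.1 hc.2.1 hs0 R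
          hR.1 hR.2 hc.2.2.1 hc.2.2.2.1
        · intro u hu
          rw [Finset.mem_inter, N4_mem_Un] at hu ⊢
          obtain ⟨hu1, A, hA, huA⟩ := hu
          exact ⟨hu1, A, hsub𝒟 (h𝒬 hA), huA⟩
        · intro u hu
          rw [Finset.mem_inter, N4_mem_Un] at hu ⊢
          obtain ⟨hu1, A, hA, huA⟩ := hu
          exact ⟨hu1, A, hsub𝒟 (Finset.mem_sdiff.mp hA).1, huA⟩
        · intro u hu v hv
          rw [Finset.mem_inter, N4_mem_Un] at hu hv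
          obtain ⟨hu1, A, hA, huA⟩ := hu
          obtain ⟨hv1, A', hA', hvA'⟩ := hv
          unfold Pi2
          rw [Finset.mem_filter]
          refine ⟨Finset.mem_univ _, hu1, hv1, A, hsub𝒟 (h𝒬 hA), A', hsub𝒟 (Finset.mem_sdiff.mp hA').1, ?_, huA, hvA'⟩
          intro hAA
          rw [← hAA] at hA'
          exact (Finset.mem_sdiff.mp hA').2 hA
    · have hz : al J (fun L : List V => Ex p (fun ω =>
          if (b1 ≤ ((W ∩ Un 𝒬).card : ℝ) ∧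
            b1 ≤ ((W ∩ Un (𝒟 \ 𝒬)).card : ℝ) ∧
            ZZ ends p sh W 𝒞 h ≤ s0 / 10 ∧ TH ends p sh W 𝒞 ≤ H * (s0 / 10) ∧
            𝒟.card ≤ n1) ∧
          aok ends (OKp ends p sh W k2 s0 𝒞) ω (Un 𝒞) L ∧
          ns ends (GDp sh (W ∩ Un 𝒬) (W ∩ Un (𝒟 \ 𝒬)) (W ∩ Un 𝒞)
            k2 h H) ω (Un 𝒞) L < k
          then (1 : ℝ) else 0)) ≤ al J (fun _ : List V => (0 : ℝ)) := by
        refine al_mono J _ _ (fun L _ => le_of_eq (Ex_zero_of (fun ω => ?_)))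
        rw [if_neg (fun hy => hc hy.1)]
      rw [al_const] at hz
      refine hz.trans ?_
      split_ifs
      · exact hB0
      · exact le_refl _
  have e1 : (fun L : List V => Ex p (fun ω => FF ends p sh W k2 h H b1 s0 n1 k 𝒞 ω L)) =
      fun L : List V => ∑ 𝒬 ∈ 𝒟.powerset, Ex p (fun ω =>
      if (b1 ≤ ((W ∩ Un 𝒬).card : ℝ) ∧
        b1 ≤ ((W ∩ Un (𝒟 \ 𝒬)).card : ℝ) ∧
        ZZ ends p sh W 𝒞 h ≤ s0 / 10 ∧ TH ends p sh W 𝒞 ≤ H * (s0 / 10) ∧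
        𝒟.card ≤ n1) ∧
      aok ends (OKp ends p sh W k2 s0 𝒞) ω (Un 𝒞) L ∧
      ns ends (GDp sh (W ∩ Un 𝒬) (W ∩ Un (𝒟 \ 𝒬)) (W ∩ Un 𝒞)
        k2 h H) ω (Un 𝒞) L < k
      then (1 : ℝ) else 0) := by
    funext L
    rw [← Ex_sum, h𝒟]
    rfl
  rw [e1, al_sum]
  refine (Finset.sum_le_sum hterm).trans ?_
  rw [Finset.sum_const, Finset.card_powerset, nsmul_eq_mul]
  push_cast
  split_ifs with hn
  · have h5 : (2 : ℝ) ^ 𝒟.card ≤ 2 ^ n1 := pow_le_pow_right₀ (by norm_num) hn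
    calc (2 : ℝ) ^ 𝒟.card * (2 ^ k * (1 - th / 2) ^ J) ≤ 2 ^ n1 * (2 ^ k * (1 - th / 2) ^ J) :=
          mul_le_mul_of_nonneg_right h5 hB0
      _ = 2 ^ (n1 + k) * (1 - th / 2) ^ J := by rw [pow_add]; ring
  · rw [mul_zero]
    positivity

/-- Row N4. For fixed `b`: by `explore_MC` (`aok_dep`, `ns_dep`) and `al_Ex` replace the configuration of the run by an independent
`ω'`. For a fixed family `𝒞` and `𝒬` with the five conditions: `lem2` with `P = W ∩ Un 𝒬`, `Q` the other one, gives for every `R`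
with `OKp` the hypothesis of `chern` with `th = k2 s0 / (2 H² |V|)` (the pairs of `P × Q` are in `Pi2 W 𝒞`), so the average of the
term is at most `2^k (1 - th/2)^J`; there are at most `2^n1` subsets `𝒬`. -/
lemma FF_mean [Nonempty V] {p c1 b1 s0 k2 h H : ℝ} (h0 : 0 ≤ p) (h1 : p ≤ 1) (hk : 0 < k2) (hh : 0 ≤ h)
    (hH : 0 < H) (hc1 : 0 ≤ c1) (hb1 : 0 ≤ b1) (hs00 : 0 ≤ s0) (hs0 : s0 ≤ c1 * b1 ^ 2)
    (hth : k2 * s0 / (2 * H ^ 2 * Fintype.card V) ≤ 1) (sh : V → V) (W : Finset V)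
    (hτ : ∀ u ∈ W, ∀ v ∈ W, c1 ≤ ta ends p (sh u) (sh v)) (n1 k J : ℕ) (b : V → Bool) :
    al J (fun L : List V => Ex p (fun ω => FF ends p sh W k2 h H b1 s0 n1 k (MC ends ω b) ω L)) ≤
      2 ^ (n1 + k) * (1 - k2 * s0 / (4 * H ^ 2 * Fintype.card V)) ^ J := by
  have e1 : ∀ L : List V, Ex p (fun ω => FF ends p sh W k2 h H b1 s0 n1 k (MC ends ω b) ω L) =
      Ex p (fun ω => Ex p (fun ω' => FF ends p sh W k2 h H b1 s0 n1 k (MC ends ω b) ω' L)) := by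
    intro L
    exact explore_MC p b (fun 𝒞 ω => FF ends p sh W k2 h H b1 s0 n1 k 𝒞 ω L)
      (fun 𝒞 ω ω' hω => N4_dep p sh W k2 h H b1 s0 n1 k 𝒞 L hω)
  have e2 : al J (fun L : List V => Ex p (fun ω => FF ends p sh W k2 h H b1 s0 n1 k (MC ends ω b) ω L)) =
      Ex p (fun ω => al J (fun L : List V => Ex p (fun ω' => FF ends p sh W k2 h H b1 s0 n1 k (MC ends ω b) ω' L))) := by
    rw [al_Ex]
    congr 1
    funext L
    exact e1 L
  rw [e2]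
  refine (Ex_mono h0 h1 (fun ω => N4_fix h0 h1 hk hh hH hc1 hb1 hs00 hs0 hth sh W hτ n1 k J (MC ends ω b))).trans ?_
  rw [Ex_const]

open scoped Classical in
/-- Row N5. Pointwise. Let `𝒮` be the family of the bad event. If none of the other indicators is one then `aok_of` applies, and
the term of `𝒬 = 𝒮.filter (hit b)` in `FF` is one (`lab_fam`, `lab_ns`). -/
lemma nc_pt {p b1 s0 k2 h H A2 β : ℝ} (h0 : 0 ≤ p) (h1 : p ≤ 1) (hk : 0 < k2) (hh : 0 < h)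
    (sh : V → V) (W : Finset V) (n1 k : ℕ) (ω : E → Bool) (b : V → Bool) (L : List V)
    (𝒮 : Finset (Finset V)) (h𝒮 : 𝒮 ⊆ GC ends ω k2)
    (hnr : nrc sh W (Un 𝒮) (Un (GC ends ω k2 \ 𝒮)) < h * k) :
    (1 : ℝ) ≤ (if ((Pm W b 𝒮).card : ℝ) < b1 then 1 else 0) +
      (if ((Pm W b (GC ends ω k2 \ 𝒮)).card : ℝ) < b1 then 1 else 0) +
      (if s0 / 10 < ZZ ends p sh W (MC ends ω b) h then 1 else 0) +
      (if H * (s0 / 10) < TH ends p sh W (MC ends ω b) then 1 else 0) +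
      (if (n1 : ℝ) < (((MC ends ω b).filter (fun A => k2 ≤ (A.card : ℝ))).card : ℝ) then 1 else 0) +
      (if s0 / 10 < GG ends p sh W (MC ends ω b) (rn ends ω (Un (MC ends ω b)) L) then 1 else 0) +
      (if exM ends (MM ends p sh W (MC ends ω b) k2) (s0 / 10) ω (Un (MC ends ω b)) L then 1 else 0) +
      FF ends p sh W k2 h H b1 s0 n1 k (MC ends ω b) ω L := by
  have hFF0 : 0 ≤ FF ends p sh W k2 h H b1 s0 n1 k (MC ends ω b) ω L := by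
    unfold FF
    exact Finset.sum_nonneg (fun _ _ => by split_ifs <;> norm_num)
  have hite : ∀ P : Prop, (0 : ℝ) ≤ (if P then (1 : ℝ) else 0) := by
    intro P
    split_ifs <;> norm_num
  have e1 := hite (((Pm W b 𝒮).card : ℝ) < b1)
  have e2 := hite (((Pm W b (GC ends ω k2 \ 𝒮)).card : ℝ) < b1)
  have e3 := hite (s0 / 10 < ZZ ends p sh W (MC ends ω b) h)
  have e4 := hite (H * (s0 / 10) < TH ends p sh W (MC ends ω b))
  have e5 := hite ((n1 : ℝ) < (((MC ends ω b).filter (fun A => k2 ≤ (A.card : ℝ))).card : ℝ))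
  have e6 := hite (s0 / 10 < GG ends p sh W (MC ends ω b) (rn ends ω (Un (MC ends ω b)) L))
  have e7 := hite (exM ends (MM ends p sh W (MC ends ω b) k2) (s0 / 10) ω (Un (MC ends ω b)) L)
  by_cases c1 : ((Pm W b 𝒮).card : ℝ) < b1
  · rw [if_pos c1]; linarith
  by_cases c2 : ((Pm W b (GC ends ω k2 \ 𝒮)).card : ℝ) < b1
  · rw [if_pos c2]; linarith
  by_cases c3 : s0 / 10 < ZZ ends p sh W (MC ends ω b) h
  · rw [if_pos c3]; linarith
  by_cases c4 : H * (s0 / 10) < TH ends p sh W (MC ends ω b)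
  · rw [if_pos c4]; linarith
  by_cases c5 : (n1 : ℝ) < (((MC ends ω b).filter (fun A => k2 ≤ (A.card : ℝ))).card : ℝ)
  · rw [if_pos c5]; linarith
  by_cases c6 : s0 / 10 < GG ends p sh W (MC ends ω b) (rn ends ω (Un (MC ends ω b)) L)
  · rw [if_pos c6]; linarith
  by_cases c7 : exM ends (MM ends p sh W (MC ends ω b) k2) (s0 / 10) ω (Un (MC ends ω b)) L
  · rw [if_pos c7]; linarith
  have hlf := lab_fam (ends := ends) (k2 := k2) ω b 𝒮 h𝒮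
  have hns := lab_ns (ends := ends) (H := H) hk hh ω b sh W 𝒮 h𝒮 k hnr L
  have haok := aok_of (ends := ends) (s0 := s0) (k2 := k2) h0 h1 sh W (MC ends ω b) ω L
    (Un (MC ends ω b)) (not_lt.mp c6) c7
  have hone : (1 : ℝ) ≤ FF ends p sh W k2 h H b1 s0 n1 k (MC ends ω b) ω L := by
    unfold FF
    refine le_trans ?_ (Finset.single_le_sum (f := fun 𝒬 => if (b1 ≤ ((W ∩ Un 𝒬).card : ℝ) ∧
        b1 ≤ ((W ∩ Un ((MC ends ω b).filter (fun A => k2 ≤ (A.card : ℝ)) \ 𝒬)).card : ℝ) ∧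
        ZZ ends p sh W (MC ends ω b) h ≤ s0 / 10 ∧ TH ends p sh W (MC ends ω b) ≤ H * (s0 / 10) ∧
        ((MC ends ω b).filter (fun A => k2 ≤ (A.card : ℝ))).card ≤ n1) ∧
      aok ends (OKp ends p sh W k2 s0 (MC ends ω b)) ω (Un (MC ends ω b)) L ∧
      ns ends (GDp sh (W ∩ Un 𝒬) (W ∩ Un ((MC ends ω b).filter (fun A => k2 ≤ (A.card : ℝ)) \ 𝒬))
        (W ∩ Un (MC ends ω b)) k2 h H) ω (Un (MC ends ω b)) L < k
      then (1 : ℝ) else 0) (fun i _ => by split_ifs <;> norm_num) hlf.1)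
    rw [hlf.2]
    rw [if_pos]
    refine ⟨⟨not_lt.mp c1, not_lt.mp c2, not_lt.mp c3, not_lt.mp c4, ?_⟩, haok, hns⟩
    have := not_lt.mp c5
    exact_mod_cast this
  linarith

open scoped Classical in
/-- Row N6. The first two terms: `mark_vol` for every `ω` with the two conditions (otherwise the indicator is zero), then
`Ex p (∑ x, cz ω x ^ 2) ≤ |V| X³` (`second_moment2`). -/
lemma t_mark {p g X k2 A2 β b1 : ℝ} (h0 : 0 ≤ p) (h1 : p ≤ 1) (hg0 : 0 ≤ g) (hg1 : g ≤ 1) (hA : 0 ≤ A2)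
    (hgA : g * A2 ≤ 1) (hb1 : 0 < b1) (hb : b1 ≤ β * (g * A2) / 4)
    (hX : ∀ x, Ex p (fun ω => cz ends ω x) ≤ X) (W : Finset V)
    (𝒮 : (E → Bool) → Finset (Finset V)) :
    Ex p (fun ω => Ex g (fun b : V → Bool => if 𝒮 ω ⊆ GC ends ω k2 ∧ β ≤ vol ends ω W A2 (Un (𝒮 ω)) ∧
      ((Pm W b (𝒮 ω)).card : ℝ) < b1 then (1 : ℝ) else 0)) ≤ g * (Fintype.card V * X ^ 3) / b1 ^ 2 := by
  have hpt : ∀ ω : E → Bool, Ex g (fun b : V → Bool => if 𝒮 ω ⊆ GC ends ω k2 ∧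
      β ≤ vol ends ω W A2 (Un (𝒮 ω)) ∧ ((Pm W b (𝒮 ω)).card : ℝ) < b1 then (1 : ℝ) else 0) ≤
      g / b1 ^ 2 * ∑ x, cz ends ω x ^ 2 := by
    intro ω
    by_cases hc : 𝒮 ω ⊆ GC ends ω k2 ∧ β ≤ vol ends ω W A2 (Un (𝒮 ω))
    · have h2 := mark_vol hg0 hg1 hA hgA hb1 hb ω W (𝒮 ω) hc.1 hc.2
      have h3 : Ex g (fun b : V → Bool => if 𝒮 ω ⊆ GC ends ω k2 ∧
          β ≤ vol ends ω W A2 (Un (𝒮 ω)) ∧ ((Pm W b (𝒮 ω)).card : ℝ) < b1 then (1 : ℝ) else 0) =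
          Ex g (fun b : V → Bool => if ((Pm W b (𝒮 ω)).card : ℝ) < b1 then (1 : ℝ) else 0) := by
        apply Ex_congr
        intro b
        by_cases hb3 : ((Pm W b (𝒮 ω)).card : ℝ) < b1
        · rw [if_pos hb3, if_pos ⟨hc.1, hc.2, hb3⟩]
        · rw [if_neg hb3, if_neg (fun hx => hb3 hx.2.2)]
      rw [h3]
      refine h2.trans (le_of_eq ?_)
      ring
    · have h3 : Ex g (fun b : V → Bool => if 𝒮 ω ⊆ GC ends ω k2 ∧
          β ≤ vol ends ω W A2 (Un (𝒮 ω)) ∧ ((Pm W b (𝒮 ω)).card : ℝ) < b1 then (1 : ℝ) else 0) = 0 := by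
        apply Ex_zero_of
        intro b
        rw [if_neg (fun hx => hc ⟨hx.1, hx.2.1⟩)]
      rw [h3]
      exact mul_nonneg (div_nonneg hg0 (sq_nonneg _)) (Finset.sum_nonneg fun x _ => sq_nonneg _)
  refine (Ex_mono h0 h1 hpt).trans ?_
  rw [Ex_mul_left, Ex_sum]
  have hs : ∑ x : V, Ex p (fun ω => cz ends ω x ^ 2) ≤ (Fintype.card V : ℝ) * X ^ 3 := by
    have h4 : ∑ x : V, Ex p (fun ω => cz ends ω x ^ 2) ≤ ∑ _x : V, X ^ 3 :=
      Finset.sum_le_sum fun x _ => second_moment2 h0 h1 hX x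
    rw [Finset.sum_const, Finset.card_univ, nsmul_eq_mul] at h4
    exact h4
  have hg2 : 0 ≤ g / b1 ^ 2 := div_nonneg hg0 (sq_nonneg _)
  refine (mul_le_mul_of_nonneg_left hs hg2).trans (le_of_eq ?_)
  ring

open scoped Classical in
/-- Row N7. The term `exM`: exchange (`al_Ex`, `Ex_swap`), fix `b`, `L`; by `explore_MC` (the event of the run depends only on the
edges off `Un 𝒞`, `exM_dep`) and `maxi` (`MM_super`, `MM_nonneg`) the probability is at most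
`Ex p (MM (MC ω b) (Un (MC ω b))) / (s0/10)`; then `xM` (`al_const`). -/
lemma t_exM [Nonempty V] {p g X C k2 s0 : ℝ} (h0 : 0 ≤ p) (h1 : p ≤ 1) (hg0 : 0 ≤ g) (hg1 : g ≤ 1)
    (hC : 0 ≤ C) (hk : 1 ≤ k2) (hs0 : 0 < s0)
    (hX : ∀ x, Ex p (fun ω => cz ends ω x) ≤ X)
    (hT : ∀ x, ∀ k : ℕ, 1 ≤ k → Ex p (fun ω => if (k : ℝ) ≤ cz ends ω x then (1 : ℝ) else 0) ≤
      C / Real.sqrt k) (sh : V → V) (W : Finset V) (hW : Set.InjOn sh W) (J : ℕ) :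
    al J (fun L : List V => Ex p (fun ω => Ex g (fun b : V → Bool =>
      if exM ends (MM ends p sh W (MC ends ω b) k2) (s0 / 10) ω (Un (MC ends ω b)) L
      then (1 : ℝ) else 0))) ≤
      Fintype.card V * (g ^ 2 * X ^ 2 * (3 * C * Real.sqrt k2)) / (s0 / 10) := by
  have hl : 0 < s0 / 10 := by positivity
  have hM := xM h0 h1 hg0 hg1 hC hk hX hT sh W hW
  have key : ∀ L : List V, Ex p (fun ω => Ex g (fun b : V → Bool =>
      if exM ends (MM ends p sh W (MC ends ω b) k2) (s0 / 10) ω (Un (MC ends ω b)) L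
      then (1 : ℝ) else 0)) ≤
      Fintype.card V * (g ^ 2 * X ^ 2 * (3 * C * Real.sqrt k2)) / (s0 / 10) := by
    intro L
    rw [Ex_swap]
    have hb : ∀ b : V → Bool, Ex p (fun ω =>
        if exM ends (MM ends p sh W (MC ends ω b) k2) (s0 / 10) ω (Un (MC ends ω b)) L
        then (1 : ℝ) else 0) ≤
        Ex p (fun ω => (s0 / 10)⁻¹ * MM ends p sh W (MC ends ω b) k2 (Un (MC ends ω b))) := by
      intro b
      have hex := explore_MC (ends := ends) p b (fun 𝒞 ω =>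
        if exM ends (MM ends p sh W 𝒞 k2) (s0 / 10) ω (Un 𝒞) L then (1 : ℝ) else 0)
        (fun 𝒞 ω ω' hoff => if_congr (exM_dep _ _ L _ hoff) rfl rfl)
      rw [hex]
      refine Ex_mono h0 h1 (fun ω => ?_)
      refine le_trans (maxi h0 h1 hl (MM ends p sh W (MC ends ω b) k2)
        (fun R => MM_nonneg h0 h1 sh W _ k2 R)
        (fun R y => MM_super h0 h1 sh W _ k2 R y) L (Un (MC ends ω b))) ?_
      rw [div_eq_inv_mul]
    refine le_trans (Ex_mono hg0 hg1 hb) ?_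
    rw [← Ex_swap]
    have he : Ex p (fun ω => Ex g (fun b : V → Bool =>
        (s0 / 10)⁻¹ * MM ends p sh W (MC ends ω b) k2 (Un (MC ends ω b)))) =
        (s0 / 10)⁻¹ * Ex p (fun ω => Ex g (fun b : V → Bool =>
          MM ends p sh W (MC ends ω b) k2 (Un (MC ends ω b)))) := by
      rw [← Ex_mul_left]
      congr 1
      funext ω
      rw [Ex_mul_left]
    rw [he]
    refine le_trans (mul_le_mul_of_nonneg_left hM (inv_nonneg.mpr hl.le)) (le_of_eq ?_)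
    rw [mul_comm, ← div_eq_mul_inv]
  calc _ ≤ al J (fun _ : List V =>
        Fintype.card V * (g ^ 2 * X ^ 2 * (3 * C * Real.sqrt k2)) / (s0 / 10)) :=
        al_mono J _ _ (fun L _ => key L)
    _ = _ := al_const J _

private lemma N8_ind {lam f : ℝ} (hl : 0 < lam) (hf : 0 ≤ f) :
    (if lam < f then (1 : ℝ) else 0) ≤ f / lam := by
  split_ifs with h
  · rw [le_div_iff₀ hl, one_mul]
    exact h.le
  · exact div_nonneg hf hl.le

/-- The average over the starts, the configuration and the marks. -/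
private noncomputable def N8_A (p g : ℝ) (J : ℕ) (F : (E → Bool) → (V → Bool) → List V → ℝ) : ℝ :=
  al J (fun L => Ex p (fun ω => Ex g (fun b => F ω b L)))

private lemma N8_mono {p g : ℝ} (h0 : 0 ≤ p) (h1 : p ≤ 1) (hg0 : 0 ≤ g) (hg1 : g ≤ 1) (J : ℕ)
    (F G : (E → Bool) → (V → Bool) → List V → ℝ) (h : ∀ ω b L, F ω b L ≤ G ω b L) :
    N8_A p g J F ≤ N8_A p g J G :=
  al_mono J _ _ fun L _ => Ex_mono h0 h1 fun ω => Ex_mono hg0 hg1 fun b => h ω b L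

private lemma N8_add (p g : ℝ) (J : ℕ) (F G : (E → Bool) → (V → Bool) → List V → ℝ) :
    N8_A p g J (fun ω b L => F ω b L + G ω b L) = N8_A p g J F + N8_A p g J G := by
  unfold N8_A
  rw [← al_add]
  congr 1
  funext L
  rw [← Ex_add]
  congr 1
  funext ω
  rw [Ex_add]

private lemma N8_mul (p g : ℝ) (J : ℕ) (c : ℝ) (F : (E → Bool) → (V → Bool) → List V → ℝ) :
    N8_A p g J (fun ω b L => c * F ω b L) = c * N8_A p g J F := by
  unfold N8_A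
  rw [← al_mul]
  congr 1
  funext L
  rw [← Ex_mul_left]
  congr 1
  funext ω
  rw [Ex_mul_left]

private lemma N8_noL [Nonempty V] (p g : ℝ) (J : ℕ) (F : (E → Bool) → (V → Bool) → ℝ) :
    N8_A p g J (fun ω b _ => F ω b) = Ex p (fun ω => Ex g (fun b => F ω b)) := by
  unfold N8_A
  rw [al_const]

private lemma N8_swap (p g : ℝ) (J : ℕ) (F : (E → Bool) → (V → Bool) → List V → ℝ) :
    N8_A p g J F = Ex g (fun b => al J (fun L => Ex p (fun ω => F ω b L))) := by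
  unfold N8_A
  rw [al_Ex]
  congr 1
  funext L
  rw [Ex_swap]

/-- Markov for a term with a known mean. -/
private lemma N8_mkv {p g : ℝ} (h0 : 0 ≤ p) (h1 : p ≤ 1) (hg0 : 0 ≤ g) (hg1 : g ≤ 1) (J : ℕ)
    (F : (E → Bool) → (V → Bool) → List V → ℝ) (hF : ∀ ω b L, 0 ≤ F ω b L) {lam m : ℝ} (hl : 0 < lam)
    (hm : N8_A p g J F ≤ m) :
    N8_A p g J (fun ω b L => if lam < F ω b L then (1 : ℝ) else 0) ≤ m / lam := by
  have h2 : N8_A p g J (fun ω b L => if lam < F ω b L then (1 : ℝ) else 0) ≤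
      N8_A p g J (fun ω b L => lam⁻¹ * F ω b L) := by
    refine N8_mono h0 h1 hg0 hg1 J _ _ fun ω b L => ?_
    have := N8_ind hl (hF ω b L)
    rwa [div_eq_inv_mul] at this
  rw [N8_mul] at h2
  refine h2.trans ?_
  rw [div_eq_inv_mul]
  exact mul_le_mul_of_nonneg_left hm (inv_nonneg.2 hl.le)

private lemma N8_FF {p : ℝ} (sh : V → V) (W : Finset V) (k2 h H b1 s0 : ℝ) (n1 k : ℕ)
    (𝒞 : Finset (Finset V)) (ω : E → Bool) (L : List V) :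
    0 ≤ FF ends p sh W k2 h H b1 s0 n1 k 𝒞 ω L := by
  unfold FF
  refine Finset.sum_nonneg fun 𝒬 _ => ?_
  split_ifs
  · exact zero_le_one
  · exact le_rfl

open scoped Classical in
/-- Row N8. Expectation of `nc_pt` (multiplied by the indicator of `BadNC`; the family is a choice depending on `ω`). First two:
`t_mark` (for `𝒮 ω` and for `GC \ 𝒮 ω`). `ZZ`, `TH`, the number of marked clusters, `GG`: Markov (`Ex_mkv`, or `1[lam < f] ≤ f / lam`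
pointwise) with `xZ`, `xT`, `xN`, `xG`. `exM`: `t_exM`. The last one: `FF_mean`. (`al_mono`, `al_add`, `al_const`, `al_Ex`, `Ex_swap`.) -/
theorem nc_sum [Nonempty V] {p g X C δ Qs c1 b1 s0 k2 h H A2 β : ℝ} (h0 : 0 ≤ p) (h1 : p ≤ 1)
    (hg0 : 0 < g) (hg1 : g ≤ 1) (hC : 0 ≤ C) (hX0 : 0 < X) (hk : 1 ≤ k2) (hh : 0 < h)
    (hhX : 1 ≤ h / (g * X)) (hH : 0 < H) (hc1 : 0 ≤ c1) (hA : 0 ≤ A2) (hgA : g * A2 ≤ 1)
    (hb1 : 0 < b1) (hb : b1 ≤ β * (g * A2) / 4) (hs00 : 0 < s0) (hs0 : s0 ≤ c1 * b1 ^ 2)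
    (hth : k2 * s0 / (2 * H ^ 2 * Fintype.card V) ≤ 1)
    (hX : ∀ x, Ex p (fun ω => cz ends ω x) ≤ X)
    (hT : ∀ x, ∀ k : ℕ, 1 ≤ k → Ex p (fun ω => if (k : ℝ) ≤ cz ends ω x then (1 : ℝ) else 0) ≤
      C / Real.sqrt k)
    (hQ : ∀ x, sqd ends p x ≤ Qs) (sh : V → V) (W : Finset V) (hW : Set.InjOn sh W)
    (hδ : ∀ x, ∑ u ∈ W, ∑ w, ta ends p x u * (ta ends p x w * ta ends p (sh u) w) ≤ δ)
    (hτ : ∀ u ∈ W, ∀ v ∈ W, c1 ≤ ta ends p (sh u) (sh v)) (n1 k J : ℕ) (hn1 : 1 ≤ n1) :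
    Ex p (fun ω => if BadNC ends ω sh W k2 A2 β (h * k) then (1 : ℝ) else 0) ≤
      2 * (g * (Fintype.card V * X ^ 3) / b1 ^ 2) +
      Fintype.card V * (g ^ 2 * X ^ 2 * (3 * C * Real.sqrt (h / (g * X)))) / (s0 / 10) +
      Fintype.card V * (g ^ 3 * X ^ 6 + 2 * g ^ 2 * X ^ 3 * Qs) / (H * (s0 / 10)) +
      Fintype.card V * (g * C / Real.sqrt k2) / n1 +
      Fintype.card V * (g ^ 2 * (g + J / Fintype.card V) * X ^ 5 + 2 * g ^ 2 * X ^ 3 * δ) / (s0 / 10) +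
      Fintype.card V * (g ^ 2 * X ^ 2 * (3 * C * Real.sqrt k2)) / (s0 / 10) +
      2 ^ (n1 + k) * (1 - k2 * s0 / (4 * H ^ 2 * Fintype.card V)) ^ J := by
  have hg0' : 0 ≤ g := hg0.le
  have hk0 : 0 < k2 := lt_of_lt_of_le one_pos hk
  have hs10 : 0 < s0 / 10 := by positivity
  have hch : ∀ ω : E → Bool, ∃ 𝒮 : Finset (Finset V), BadNC ends ω sh W k2 A2 β (h * k) →
      𝒮 ⊆ GC ends ω k2 ∧ β ≤ vol ends ω W A2 (Un 𝒮) ∧
      β ≤ vol ends ω W A2 (Un (GC ends ω k2 \ 𝒮)) ∧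
      nrc sh W (Un 𝒮) (Un (GC ends ω k2 \ 𝒮)) < h * k := by
    intro ω
    by_cases hB : BadNC ends ω sh W k2 A2 β (h * k)
    · obtain ⟨𝒮, h2, h3, h4, h5⟩ := hB
      exact ⟨𝒮, fun _ => ⟨Finset.mem_powerset.1 h2, h3, h4, h5⟩⟩
    · exact ⟨∅, fun h6 => absurd h6 hB⟩
  choose S hS using hch
  obtain ⟨T1, hT1⟩ : ∃ T : (E → Bool) → (V → Bool) → ℝ, T = fun ω b =>
      if S ω ⊆ GC ends ω k2 ∧ β ≤ vol ends ω W A2 (Un (S ω)) ∧
      ((Pm W b (S ω)).card : ℝ) < b1 then (1 : ℝ) else 0 := ⟨_, rfl⟩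
  obtain ⟨T2, hT2⟩ : ∃ T : (E → Bool) → (V → Bool) → ℝ, T = fun ω b =>
      if GC ends ω k2 \ S ω ⊆ GC ends ω k2 ∧ β ≤ vol ends ω W A2 (Un (GC ends ω k2 \ S ω)) ∧
      ((Pm W b (GC ends ω k2 \ S ω)).card : ℝ) < b1 then (1 : ℝ) else 0 := ⟨_, rfl⟩
  obtain ⟨T3, hT3⟩ : ∃ T : (E → Bool) → (V → Bool) → ℝ, T = fun ω b =>
      if s0 / 10 < ZZ ends p sh W (MC ends ω b) h then (1 : ℝ) else 0 := ⟨_, rfl⟩
  obtain ⟨T4, hT4⟩ : ∃ T : (E → Bool) → (V → Bool) → ℝ, T = fun ω b =>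
      if H * (s0 / 10) < TH ends p sh W (MC ends ω b) then (1 : ℝ) else 0 := ⟨_, rfl⟩
  obtain ⟨T5, hT5⟩ : ∃ T : (E → Bool) → (V → Bool) → ℝ, T = fun ω b =>
      if (n1 : ℝ) < (((MC ends ω b).filter (fun A => k2 ≤ (A.card : ℝ))).card : ℝ)
      then (1 : ℝ) else 0 := ⟨_, rfl⟩
  obtain ⟨T6, hT6⟩ : ∃ T : (E → Bool) → (V → Bool) → List V → ℝ, T = fun ω b L =>
      if s0 / 10 < GG ends p sh W (MC ends ω b) (rn ends ω (Un (MC ends ω b)) L)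
      then (1 : ℝ) else 0 := ⟨_, rfl⟩
  obtain ⟨T7, hT7⟩ : ∃ T : (E → Bool) → (V → Bool) → List V → ℝ, T = fun ω b L =>
      if exM ends (MM ends p sh W (MC ends ω b) k2) (s0 / 10) ω (Un (MC ends ω b)) L
      then (1 : ℝ) else 0 := ⟨_, rfl⟩
  obtain ⟨T8, hT8⟩ : ∃ T : (E → Bool) → (V → Bool) → List V → ℝ, T = fun ω b L =>
      FF ends p sh W k2 h H b1 s0 n1 k (MC ends ω b) ω L := ⟨_, rfl⟩
  -- the pointwise inequality
  have key : ∀ (ω : E → Bool) (b : V → Bool) (L : List V),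
      (if BadNC ends ω sh W k2 A2 β (h * k) then (1 : ℝ) else 0) ≤
        T1 ω b + T2 ω b + T3 ω b + T4 ω b + T5 ω b + T6 ω b L + T7 ω b L + T8 ω b L := by
    intro ω b L
    have n1' : 0 ≤ T1 ω b := by rw [hT1]; dsimp only; split_ifs <;> norm_num
    have n2' : 0 ≤ T2 ω b := by rw [hT2]; dsimp only; split_ifs <;> norm_num
    have n3' : 0 ≤ T3 ω b := by rw [hT3]; dsimp only; split_ifs <;> norm_num
    have n4' : 0 ≤ T4 ω b := by rw [hT4]; dsimp only; split_ifs <;> norm_num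
    have n5' : 0 ≤ T5 ω b := by rw [hT5]; dsimp only; split_ifs <;> norm_num
    have n6' : 0 ≤ T6 ω b L := by rw [hT6]; dsimp only; split_ifs <;> norm_num
    have n7' : 0 ≤ T7 ω b L := by rw [hT7]; dsimp only; split_ifs <;> norm_num
    have n8' : 0 ≤ T8 ω b L := by rw [hT8]; exact N8_FF sh W k2 h H b1 s0 n1 k _ ω L
    by_cases hB : BadNC ends ω sh W k2 A2 β (h * k)
    · obtain ⟨h2, h3, h4, h5⟩ := hS ω hB
      have h6 := nc_pt (ends := ends) (b1 := b1) (s0 := s0) (H := H) (A2 := A2) (β := β) h0 h1 hk0 hh sh W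
        n1 k ω b L (S ω) h2 h5
      rw [if_pos hB]
      refine h6.trans ?_
      have e1 : (if ((Pm W b (S ω)).card : ℝ) < b1 then (1 : ℝ) else 0) ≤ T1 ω b := by
        rw [hT1]
        dsimp only
        split_ifs with c1 c2 c2
        · exact le_rfl
        · exact absurd ⟨h2, h3, c1⟩ c2
        · norm_num
        · exact le_rfl
      have e2 : (if ((Pm W b (GC ends ω k2 \ S ω)).card : ℝ) < b1 then (1 : ℝ) else 0) ≤ T2 ω b := by
        rw [hT2]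
        dsimp only
        split_ifs with c1 c2 c2
        · exact le_rfl
        · exact absurd ⟨Finset.sdiff_subset, h4, c1⟩ c2
        · norm_num
        · exact le_rfl
      rw [hT3, hT4, hT5, hT6, hT7, hT8]
      dsimp only
      gcongr
    · rw [if_neg hB]
      positivity
  -- the eight means
  have m1 : N8_A p g J (fun ω b _ => T1 ω b) ≤ g * (Fintype.card V * X ^ 3) / b1 ^ 2 := by
    rw [N8_noL, hT1]
    exact t_mark h0 h1 hg0' hg1 hA hgA hb1 hb hX W S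
  have m2 : N8_A p g J (fun ω b _ => T2 ω b) ≤ g * (Fintype.card V * X ^ 3) / b1 ^ 2 := by
    rw [N8_noL, hT2]
    exact t_mark h0 h1 hg0' hg1 hA hgA hb1 hb hX W (fun ω => GC ends ω k2 \ S ω)
  have m3 : N8_A p g J (fun ω b _ => T3 ω b) ≤
      Fintype.card V * (g ^ 2 * X ^ 2 * (3 * C * Real.sqrt (h / (g * X)))) / (s0 / 10) := by
    rw [hT3]
    refine N8_mkv h0 h1 hg0' hg1 J (fun ω b _ => ZZ ends p sh W (MC ends ω b) h)
      (fun ω b _ => ZZ_nonneg h0 h1 hh.le sh W _) hs10 ?_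
    rw [N8_noL]
    exact xZ h0 h1 hg0 hg1 hC hX0 hhX hX hT sh W hW
  have m4 : N8_A p g J (fun ω b _ => T4 ω b) ≤
      Fintype.card V * (g ^ 3 * X ^ 6 + 2 * g ^ 2 * X ^ 3 * Qs) / (H * (s0 / 10)) := by
    rw [hT4]
    refine N8_mkv h0 h1 hg0' hg1 J (fun ω b _ => TH ends p sh W (MC ends ω b))
      (fun ω b _ => TH_nonneg h0 h1 sh W _) (mul_pos hH hs10) ?_
    rw [N8_noL]
    exact xT h0 h1 hg0' hg1 hX hQ sh W hW
  have m5 : N8_A p g J (fun ω b _ => T5 ω b) ≤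
      Fintype.card V * (g * C / Real.sqrt k2) / n1 := by
    rw [hT5]
    have hn : (0 : ℝ) < (n1 : ℝ) := by exact_mod_cast hn1
    have h5 : N8_A p g J (fun ω b _ => (((MC ends ω b).filter (fun A => k2 ≤ (A.card : ℝ))).card : ℝ)) ≤
        Fintype.card V * (g * C / Real.sqrt k2) := by
      rw [N8_noL]
      exact xN h0 h1 hg0' hg1 hC hk hT
    exact N8_mkv h0 h1 hg0' hg1 J _ (fun ω b L => Nat.cast_nonneg _) hn h5
  have m6 : N8_A p g J T6 ≤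
      Fintype.card V * (g ^ 2 * (g + J / Fintype.card V) * X ^ 5 + 2 * g ^ 2 * X ^ 3 * δ) / (s0 / 10) := by
    rw [hT6]
    refine N8_mkv h0 h1 hg0' hg1 J
      (fun ω b L => GG ends p sh W (MC ends ω b) (rn ends ω (Un (MC ends ω b)) L))
      (fun ω b L => GG_nonneg h0 h1 sh W _ _) hs10 ?_
    exact xG h0 h1 hg0' hg1 hX sh W hW hδ J
  have m7 : N8_A p g J T7 ≤
      Fintype.card V * (g ^ 2 * X ^ 2 * (3 * C * Real.sqrt k2)) / (s0 / 10) := by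
    rw [hT7]
    exact t_exM h0 h1 hg0' hg1 hC hk hs00 hX hT sh W hW J
  have m8 : N8_A p g J T8 ≤
      2 ^ (n1 + k) * (1 - k2 * s0 / (4 * H ^ 2 * Fintype.card V)) ^ J := by
    rw [N8_swap, hT8]
    have h3 : ∀ b : V → Bool, al J (fun L : List V => Ex p (fun ω =>
        FF ends p sh W k2 h H b1 s0 n1 k (MC ends ω b) ω L)) ≤
        2 ^ (n1 + k) * (1 - k2 * s0 / (4 * H ^ 2 * Fintype.card V)) ^ J := fun b =>
      FF_mean (ends := ends) h0 h1 hk0 hh.le hH hc1 hb1.le hs00.le hs0 hth sh W hτ n1 k J b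
    refine (Ex_mono hg0' hg1 h3).trans (le_of_eq ?_)
    rw [Ex_const]
  -- the sum
  have hL : Ex p (fun ω => if BadNC ends ω sh W k2 A2 β (h * k) then (1 : ℝ) else 0) =
      N8_A (V := V) p g J (fun ω _ _ => if BadNC ends ω sh W k2 A2 β (h * k) then (1 : ℝ) else 0) := by
    rw [N8_noL]
    congr 1
    funext ω
    rw [Ex_const]
  rw [hL]
  refine (N8_mono h0 h1 hg0' hg1 J _ (fun ω b L =>
    T1 ω b + T2 ω b + T3 ω b + T4 ω b + T5 ω b + T6 ω b L + T7 ω b L + T8 ω b L) key).trans ?_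
  rw [N8_add p g J (fun ω b L => T1 ω b + T2 ω b + T3 ω b + T4 ω b + T5 ω b + T6 ω b L + T7 ω b L) T8,
    N8_add p g J (fun ω b L => T1 ω b + T2 ω b + T3 ω b + T4 ω b + T5 ω b + T6 ω b L) T7,
    N8_add p g J (fun ω b _ => T1 ω b + T2 ω b + T3 ω b + T4 ω b + T5 ω b) T6,
    N8_add p g J (fun ω b _ => T1 ω b + T2 ω b + T3 ω b + T4 ω b) (fun ω b _ => T5 ω b),
    N8_add p g J (fun ω b _ => T1 ω b + T2 ω b + T3 ω b) (fun ω b _ => T4 ω b),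
    N8_add p g J (fun ω b _ => T1 ω b + T2 ω b) (fun ω b _ => T3 ω b),
    N8_add p g J (fun ω b _ => T1 ω b) (fun ω b _ => T2 ω b)]
  linarith

end Pool.Agent.PERC29.AE
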