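import Pool.Agent.Lib.MP_29e17e_pr.V.Cr

set_option autoImplicit false
set_option linter.unusedSectionVars false

/-! Rows 29v-R1 .. 29v-R7: the run of the exploration along a list of starts. -/

open Finset

namespace Pool.Agent.PERC29.AE

variable {V : Type*} [Fintype V] [DecidableEq V] {E : Type*} [Fintype E] [DecidableEq E]
  {ends : E → Sym2 V}

/-- The explored set after the starts of the list. -/
noncomputable def rn (ends : E → Sym2 V) (ω : E → Bool) : Finset V → List V → Finset V
  | R, [] => R
  | R, y :: L => rn ends ω (R ∪ cr ends ω R y) L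

open scoped Classical in
/-- The number of explored clusters which satisfy `GD`. -/
noncomputable def ns (ends : E → Sym2 V) (GD : Finset V → Prop) (ω : E → Bool) : Finset V → List V → ℕ
  | _, [] => 0
  | R, y :: L => (if GD (cr ends ω R y) then 1 else 0) + ns ends GD ω (R ∪ cr ends ω R y) L

/-- All explored sets before a step satisfy `OK`. -/
def aok (ends : E → Sym2 V) (OK : Finset V → Prop) (ω : E → Bool) : Finset V → List V → Prop
  | _, [] => True
  | R, y :: L => OK R ∧ aok ends OK ω (R ∪ cr ends ω R y) L

/-- Some explored set has `lam < M`. -/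
def exM (ends : E → Sym2 V) (M : Finset V → ℝ) (lam : ℝ) (ω : E → Bool) : Finset V → List V → Prop
  | R, [] => lam < M R
  | R, y :: L => lam < M R ∨ exM ends M lam ω (R ∪ cr ends ω R y) L

/-- The average over the lists of `J` vertices. -/
noncomputable def al : ℕ → (List V → ℝ) → ℝ
  | 0, f => f []
  | J + 1, f => (∑ y : V, al J (fun L => f (y :: L))) / Fintype.card V

/-- Row R1. Elementary facts on the average (induction on `J`). `al` only uses lists of length `J`. -/
lemma al_mono (J : ℕ) (f h : List V → ℝ) (hfh : ∀ L : List V, L.length = J → f L ≤ h L) :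
    al J f ≤ al J h := by
  induction J generalizing f h with
  | zero => exact hfh [] rfl
  | succ J ih =>
    simp only [al]
    apply div_le_div_of_nonneg_right _ (Nat.cast_nonneg _)
    apply Finset.sum_le_sum
    intro y _
    apply ih
    intro L hL
    apply hfh
    simp [hL]

lemma al_add (J : ℕ) (f h : List V → ℝ) : al J (fun L => f L + h L) = al J f + al J h := by
  induction J generalizing f h with
  | zero => rfl
  | succ J ih =>
    simp only [al]
    rw [← add_div, ← Finset.sum_add_distrib]
    congr 1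
    apply Finset.sum_congr rfl
    intro y _
    exact ih (fun L => f (y :: L)) (fun L => h (y :: L))

lemma al_mul (J : ℕ) (c : ℝ) (f : List V → ℝ) : al J (fun L => c * f L) = c * al J f := by
  induction J generalizing f with
  | zero => rfl
  | succ J ih =>
    simp only [al]
    rw [← mul_div_assoc, Finset.mul_sum]
    congr 1
    apply Finset.sum_congr rfl
    intro y _
    exact ih (fun L => f (y :: L))

lemma al_const [Nonempty V] (J : ℕ) (c : ℝ) : al J (fun _ : List V => c) = c := by
  have hV : (Fintype.card V : ℝ) ≠ 0 := Nat.cast_ne_zero.mpr Fintype.card_ne_zero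
  induction J with
  | zero => rfl
  | succ J ih =>
    simp only [al]
    rw [ih, Finset.sum_const, Finset.card_univ, nsmul_eq_mul]
    field_simp

lemma al_sum {ι : Type*} (s : Finset ι) (J : ℕ) (f : ι → List V → ℝ) :
    al J (fun L => ∑ i ∈ s, f i L) = ∑ i ∈ s, al J (f i) := by
  induction J generalizing f with
  | zero => rfl
  | succ J ih =>
    simp only [al]
    rw [← Finset.sum_div, Finset.sum_comm]
    congr 1
    apply Finset.sum_congr rfl
    intro y _
    exact ih (fun i L => f i (y :: L))

lemma al_Ex (p : ℝ) (J : ℕ) (f : (E → Bool) → List V → ℝ) :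
    Ex p (fun ω => al J (fun L => f ω L)) = al J (fun L => Ex p (fun ω => f ω L)) := by
  unfold Ex
  rw [al_sum]
  apply Finset.sum_congr rfl
  intro ω _
  exact (al_mul J (wt p ω) (f ω)).symm

open scoped Classical in
/-- Row R2. A uniform start hits `A` with probability `|A| / |V|`; union bound, induction on `J`. -/
lemma al_hit [Nonempty V] (J : ℕ) (A : Finset V) :
    al J (fun L : List V => if ∃ z ∈ L, z ∈ A then (1 : ℝ) else 0) ≤
      J * (A.card : ℝ) / Fintype.card V := by
  have hV : (0 : ℝ) < Fintype.card V := by exact_mod_cast Fintype.card_pos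
  induction J with
  | zero => simp [al]
  | succ J ih =>
    have hy : ∀ y : V, al J (fun L : List V => if ∃ z ∈ y :: L, z ∈ A then (1 : ℝ) else 0) ≤
        (if y ∈ A then (1 : ℝ) else 0) + J * (A.card : ℝ) / Fintype.card V := by
      intro y
      have h1 : al J (fun L : List V => if ∃ z ∈ y :: L, z ∈ A then (1 : ℝ) else 0) ≤
          al J (fun L : List V => (if y ∈ A then (1 : ℝ) else 0) +
            (if ∃ z ∈ L, z ∈ A then (1 : ℝ) else 0)) := by
        apply al_mono
        intro L _
        by_cases hyA : y ∈ A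
        · rw [if_pos hyA]
          split_ifs <;> norm_num
        · rw [if_neg hyA, zero_add]
          by_cases hL : ∃ z ∈ L, z ∈ A
          · rw [if_pos hL]
            split_ifs <;> norm_num
          · rw [if_neg hL, if_neg]
            rintro ⟨z, hz, hzA⟩
            rcases List.mem_cons.mp hz with rfl | hz'
            · exact hyA hzA
            · exact hL ⟨z, hz', hzA⟩
      rw [al_add, al_const] at h1
      linarith
    have e : al (J + 1) (fun L : List V => if ∃ z ∈ L, z ∈ A then (1 : ℝ) else 0) =
        (∑ y : V, al J (fun L : List V => if ∃ z ∈ y :: L, z ∈ A then (1 : ℝ) else 0)) /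
          Fintype.card V := rfl
    rw [e]
    apply div_le_div_of_nonneg_right _ hV.le
    calc (∑ y : V, al J (fun L : List V => if ∃ z ∈ y :: L, z ∈ A then (1 : ℝ) else 0))
        ≤ ∑ y : V, ((if y ∈ A then (1 : ℝ) else 0) + J * (A.card : ℝ) / Fintype.card V) :=
          sum_le_sum fun y _ => hy y
      _ = ((J + 1 : ℕ) : ℝ) * (A.card : ℝ) := by
          rw [sum_add_distrib, sum_const, card_univ, nsmul_eq_mul, sum_ite_mem, univ_inter,
            sum_const, nsmul_eq_mul, mul_one, mul_div_cancel₀ _ hV.ne']
          push_cast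
          ring

lemma R3_off {ω ω' : E → Bool} {R : Finset V} (h : Off ends R ω ω') (A : Finset V) :
    Off ends (R ∪ A) ω ω' := by
  intro e he
  exact h e fun v hv hvR => he v hv (Finset.mem_union_left _ hvR)

/-- Row R3. The run depends only on the edges without endpoint in the explored set (induction on the list, `cr_dep`;
`Off R ω ω'` implies `Off (R ∪ cr ..) ω ω'`), and the explored set increases. -/
lemma rn_sub (ω : E → Bool) (R : Finset V) (L : List V) : R ⊆ rn ends ω R L := by
  induction L generalizing R with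
  | nil => exact Finset.Subset.refl R
  | cons y L ih => exact Finset.subset_union_left.trans (ih _)

lemma rn_dep {ω ω' : E → Bool} (L : List V) (R : Finset V) (h : Off ends R ω ω') :
    rn ends ω R L = rn ends ω' R L := by
  induction L generalizing R with
  | nil => rfl
  | cons y L ih =>
    simp only [rn]
    rw [← cr_dep h y]
    exact ih _ (R3_off h _)

lemma ns_dep (GD : Finset V → Prop) {ω ω' : E → Bool} (L : List V) (R : Finset V) (h : Off ends R ω ω') :
    ns ends GD ω R L = ns ends GD ω' R L := by
  induction L generalizing R with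
  | nil => rfl
  | cons y L ih =>
    simp only [ns]
    rw [← cr_dep h y, ih _ (R3_off h _)]

lemma aok_dep (OK : Finset V → Prop) {ω ω' : E → Bool} (L : List V) (R : Finset V)
    (h : Off ends R ω ω') : aok ends OK ω R L ↔ aok ends OK ω' R L := by
  induction L generalizing R with
  | nil => exact Iff.rfl
  | cons y L ih =>
    simp only [aok]
    rw [← cr_dep h y, ih _ (R3_off h _)]

lemma exM_dep (M : Finset V → ℝ) (lam : ℝ) {ω ω' : E → Bool} (L : List V) (R : Finset V)
    (h : Off ends R ω ω') : exM ends M lam ω R L ↔ exM ends M lam ω' R L := by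
  induction L generalizing R with
  | nil => exact Iff.rfl
  | cons y L ih =>
    simp only [exM]
    rw [← cr_dep h y, ih _ (R3_off h _)]

open scoped Classical in
lemma R4_main [Nonempty V] {p th : ℝ} (h0 : 0 ≤ p) (h1 : p ≤ 1) (hth1 : th ≤ 1) (GD OK : Finset V → Prop)
    (hth : ∀ R, OK R → th * Fintype.card V ≤
      ∑ y, Ex p (fun ω => if GD (cr ends ω R y) then (1 : ℝ) else 0)) (J : ℕ) :
    ∀ R : Finset V, al J (fun L => Ex p (fun ω => if aok ends OK ω R L then
      (1 / 2 : ℝ) ^ ns ends GD ω R L else 0)) ≤ (1 - th / 2) ^ J := by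
  induction J with
  | zero =>
    intro R
    simp only [al, aok, ns, if_true, pow_zero]
    rw [Ex_const]
  | succ J ih =>
    intro R
    have hV : (0 : ℝ) < Fintype.card V := by
      have := Fintype.card_pos (α := V)
      exact_mod_cast this
    have hq : 0 ≤ 1 - th / 2 := by linarith
    by_cases hOK : OK R
    · -- the rest after one step
      have hy : ∀ y : V, al J (fun L => Ex p (fun ω => if aok ends OK ω R (y :: L) then
          (1 / 2 : ℝ) ^ ns ends GD ω R (y :: L) else 0)) ≤
          Ex p (fun ω => (if GD (cr ends ω R y) then (1 / 2 : ℝ) else 1)) * (1 - th / 2) ^ J := by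
        intro y
        have e1 : ∀ L : List V, Ex p (fun ω => if aok ends OK ω R (y :: L) then
            (1 / 2 : ℝ) ^ ns ends GD ω R (y :: L) else 0) =
            Ex p (fun ω => (if GD (cr ends ω R y) then (1 / 2 : ℝ) else 1) *
              Ex p (fun ω' => if aok ends OK ω' (R ∪ cr ends ω R y) L then
                (1 / 2 : ℝ) ^ ns ends GD ω' (R ∪ cr ends ω R y) L else 0)) := by
          intro L
          have hx := explore_cr (ends := ends) p R y
            (fun A ω => (if GD A then (1 / 2 : ℝ) else 1) *
              (if aok ends OK ω (R ∪ A) L then (1 / 2 : ℝ) ^ ns ends GD ω (R ∪ A) L else 0)) (by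
              intro A ω ω' hoff
              have a1 := aok_dep OK L (R ∪ A) hoff
              have a2 := ns_dep GD L (R ∪ A) hoff
              simp only [a1, a2])
          have e2 : Ex p (fun ω => if aok ends OK ω R (y :: L) then
              (1 / 2 : ℝ) ^ ns ends GD ω R (y :: L) else 0) =
              Ex p (fun ω => (if GD (cr ends ω R y) then (1 / 2 : ℝ) else 1) *
              (if aok ends OK ω (R ∪ cr ends ω R y) L then
                (1 / 2 : ℝ) ^ ns ends GD ω (R ∪ cr ends ω R y) L else 0)) := by
            apply Ex_congr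
            intro ω
            simp only [aok, ns, hOK, true_and]
            by_cases ha : aok ends OK ω (R ∪ cr ends ω R y) L
            · rw [if_pos ha, if_pos ha, pow_add]
              by_cases hg : GD (cr ends ω R y)
              · simp only [hg, if_true, pow_one]
              · simp only [hg, if_false, pow_zero]
            · rw [if_neg ha, if_neg ha, mul_zero]
          rw [e2, hx]
          apply Ex_congr
          intro ω
          rw [Ex_mul_left]
        have e3 : al J (fun L => Ex p (fun ω => if aok ends OK ω R (y :: L) then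
            (1 / 2 : ℝ) ^ ns ends GD ω R (y :: L) else 0)) =
            Ex p (fun ω => (if GD (cr ends ω R y) then (1 / 2 : ℝ) else 1) *
              al J (fun L => Ex p (fun ω' => if aok ends OK ω' (R ∪ cr ends ω R y) L then
                (1 / 2 : ℝ) ^ ns ends GD ω' (R ∪ cr ends ω R y) L else 0))) := by
          rw [funext e1, ← al_Ex]
          apply Ex_congr
          intro ω
          rw [al_mul]
        rw [e3, mul_comm, ← Ex_mul_left]
        apply Ex_mono h0 h1
        intro ω
        rw [mul_comm ((1 - th / 2) ^ J)]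
        apply mul_le_mul_of_nonneg_left (ih _)
        split_ifs <;> norm_num
      have hs : ∑ y : V, Ex p (fun ω => (if GD (cr ends ω R y) then (1 / 2 : ℝ) else 1)) ≤
          Fintype.card V * (1 - th / 2) := by
        have e4 : ∀ y : V, Ex p (fun ω => (if GD (cr ends ω R y) then (1 / 2 : ℝ) else 1)) =
            1 + (-(1 / 2)) * Ex p (fun ω => if GD (cr ends ω R y) then (1 : ℝ) else 0) := by
          intro y
          have c1 : Ex (E := E) p (fun _ => (1 : ℝ)) = 1 := Ex_const p 1
          have c2 : Ex p (fun ω : E → Bool => (1 : ℝ) +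
              (-(1 / 2)) * (if GD (cr ends ω R y) then (1 : ℝ) else 0)) =
              1 + (-(1 / 2)) * Ex p (fun ω => if GD (cr ends ω R y) then (1 : ℝ) else 0) := by
            rw [Ex_add p (fun _ => (1 : ℝ)), c1, Ex_mul_left]
          rw [← c2]
          apply Ex_congr
          intro ω
          split_ifs <;> norm_num
        rw [sum_congr rfl (fun y _ => e4 y), sum_add_distrib, ← mul_sum]
        have := hth R hOK
        simp only [sum_const, card_univ, nsmul_eq_mul, mul_one]
        nlinarith
      have hal : al (J + 1) (fun L => Ex p (fun ω => if aok ends OK ω R L then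
          (1 / 2 : ℝ) ^ ns ends GD ω R L else 0)) =
          (∑ y : V, al J (fun L => Ex p (fun ω => if aok ends OK ω R (y :: L) then
          (1 / 2 : ℝ) ^ ns ends GD ω R (y :: L) else 0))) / Fintype.card V := rfl
      rw [hal, div_le_iff₀ hV]
      calc (∑ y : V, al J (fun L => Ex p (fun ω => if aok ends OK ω R (y :: L) then
          (1 / 2 : ℝ) ^ ns ends GD ω R (y :: L) else 0)))
          ≤ ∑ y : V, Ex p (fun ω => (if GD (cr ends ω R y) then (1 / 2 : ℝ) else 1)) * (1 - th / 2) ^ J :=
            sum_le_sum (fun y _ => hy y)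
        _ = (∑ y : V, Ex p (fun ω => (if GD (cr ends ω R y) then (1 / 2 : ℝ) else 1))) * (1 - th / 2) ^ J := by
            rw [sum_mul]
        _ ≤ (Fintype.card V * (1 - th / 2)) * (1 - th / 2) ^ J :=
            mul_le_mul_of_nonneg_right hs (pow_nonneg hq J)
        _ = (1 - th / 2) ^ (J + 1) * Fintype.card V := by ring
    · have hz : ∀ y : V, al J (fun L => Ex p (fun ω => if aok ends OK ω R (y :: L) then
          (1 / 2 : ℝ) ^ ns ends GD ω R (y :: L) else 0)) = 0 := by
        intro y
        have : (fun L : List V => Ex p (fun ω : E → Bool => if aok ends OK ω R (y :: L) then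
          (1 / 2 : ℝ) ^ ns ends GD ω R (y :: L) else 0)) = fun _ => 0 := by
          funext L
          apply Ex_zero_of
          intro ω
          simp only [aok, hOK, false_and, if_false]
        rw [this, al_const]
      have hal : al (J + 1) (fun L => Ex p (fun ω => if aok ends OK ω R L then
          (1 / 2 : ℝ) ^ ns ends GD ω R L else 0)) =
          (∑ y : V, al J (fun L => Ex p (fun ω => if aok ends OK ω R (y :: L) then
          (1 / 2 : ℝ) ^ ns ends GD ω R (y :: L) else 0))) / Fintype.card V := rfl
      rw [hal, sum_congr rfl (fun y _ => hz y)]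
      simp only [sum_const_zero, zero_div]
      exact pow_nonneg hq _

open scoped Classical in
/-- Row R4. Chernoff. Proof: show by induction on `J`, for all `R`,
`al J (fun L => Ex p (fun ω => if aok OK ω R L then (1/2) ^ ns GD ω R L else 0)) ≤ (1 - th/2)^J`.
Step: if `¬ OK R` everything is zero. Otherwise, for each `y`, by `explore_cr` (the rest depends only on the edges off
`R ∪ cr y`, by `aok_dep`, `ns_dep`) the expectation is
`Ex p (fun ω => (if GD (cr ω R y) then 1/2 else 1) * Ex p (fun ω' => [the same for R ∪ cr ω R y, L]))`; average over `L`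
(`al_Ex`, `al_mul`), use the induction hypothesis, and then the average over `y`:
`(1/|V|) ∑ y, Ex p (1 - 1[GD]/2) ≤ 1 - th/2` by `hth`. Finally `1[ns < k] ≤ 2^k (1/2)^ns`. -/
lemma chern [Nonempty V] {p th : ℝ} (h0 : 0 ≤ p) (h1 : p ≤ 1) (hth1 : th ≤ 1) (GD OK : Finset V → Prop)
    (hth : ∀ R, OK R → th * Fintype.card V ≤
      ∑ y, Ex p (fun ω => if GD (cr ends ω R y) then (1 : ℝ) else 0)) (k J : ℕ) (R : Finset V) :
    al J (fun L => Ex p (fun ω => if aok ends OK ω R L ∧ ns ends GD ω R L < k then (1 : ℝ) else 0)) ≤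
      2 ^ k * (1 - th / 2) ^ J := by
  have key := R4_main (ends := ends) h0 h1 hth1 GD OK hth J R
  have step : al J (fun L => Ex p (fun ω => if aok ends OK ω R L ∧ ns ends GD ω R L < k then (1 : ℝ) else 0)) ≤
      al J (fun L => 2 ^ k * Ex p (fun ω => if aok ends OK ω R L then (1 / 2 : ℝ) ^ ns ends GD ω R L else 0)) := by
    apply al_mono
    intro L _
    rw [← Ex_mul_left]
    apply Ex_mono h0 h1
    intro ω
    by_cases ha : aok ends OK ω R L
    · by_cases hn : ns ends GD ω R L < k
      · rw [if_pos ⟨ha, hn⟩, if_pos ha]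
        have h2 : (1 / 2 : ℝ) ^ k ≤ (1 / 2 : ℝ) ^ ns ends GD ω R L :=
          pow_le_pow_of_le_one (by norm_num) (by norm_num) hn.le
        calc (1 : ℝ) = 2 ^ k * (1 / 2 : ℝ) ^ k := by rw [← mul_pow]; norm_num
          _ ≤ 2 ^ k * (1 / 2 : ℝ) ^ ns ends GD ω R L := mul_le_mul_of_nonneg_left h2 (by positivity)
      · rw [if_neg (fun h => hn h.2), if_pos ha]
        positivity
    · rw [if_neg (fun h => ha h.1), if_neg ha, mul_zero]
  refine step.trans ?_
  rw [al_mul]
  exact mul_le_mul_of_nonneg_left key (by positivity)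

open scoped Classical in
/-- Row R5. Maximal inequality for a supermartingale. Induction on the list (all `R`). If `lam < M R` the right hand side is
at least one. Otherwise `exM .. R (y :: L) ↔ exM .. (R ∪ cr y) L`, and by `explore_cr` (with `exM_dep`) and the induction
hypothesis the probability is at most `Ex p (fun ω => M (R ∪ cr ω R y) / lam) ≤ M R / lam`. -/
lemma maxi {p lam : ℝ} (h0 : 0 ≤ p) (h1 : p ≤ 1) (hl : 0 < lam) (M : Finset V → ℝ) (hM0 : ∀ R, 0 ≤ M R)
    (hM : ∀ R y, Ex p (fun ω => M (R ∪ cr ends ω R y)) ≤ M R) (L : List V) (R : Finset V) :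
    Ex p (fun ω => if exM ends M lam ω R L then (1 : ℝ) else 0) ≤ M R / lam := by
  have hbig : ∀ (L : List V) (R : Finset V), lam < M R →
      Ex p (fun ω => if exM ends M lam ω R L then (1 : ℝ) else 0) ≤ M R / lam := by
    intro L R h
    refine le_trans (Ex_mono h0 h1 (g := fun _ => (1 : ℝ)) fun ω => ?_) ?_
    · split_ifs
      · exact le_rfl
      · exact zero_le_one
    · rw [Ex_const, one_le_div hl]
      exact h.le
  induction L generalizing R with
  | nil =>
    by_cases h : lam < M R
    · exact hbig [] R h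
    · refine le_of_eq_of_le (Ex_zero_of (f := fun ω => if exM ends M lam ω R [] then (1 : ℝ) else 0)
        fun ω => if_neg h) ?_
      exact div_nonneg (hM0 R) hl.le
  | cons y L ih =>
    by_cases h : lam < M R
    · exact hbig (y :: L) R h
    · have h2 : Ex p (fun ω => if exM ends M lam ω R (y :: L) then (1 : ℝ) else 0) =
          Ex p (fun ω => if exM ends M lam ω (R ∪ cr ends ω R y) L then (1 : ℝ) else 0) := by
        refine Ex_congr fun ω => ?_
        have h3 : exM ends M lam ω R (y :: L) ↔ exM ends M lam ω (R ∪ cr ends ω R y) L := by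
          show (lam < M R ∨ exM ends M lam ω (R ∪ cr ends ω R y) L) ↔ _
          exact ⟨fun h4 => h4.resolve_left h, Or.inr⟩
        exact if_congr h3 rfl rfl
      have h5 := explore_cr (ends := ends) p R y
        (fun A ω => if exM ends M lam ω (R ∪ A) L then (1 : ℝ) else 0)
        (fun A ω ω' hoff => if_congr (exM_dep M lam L (R ∪ A) hoff) rfl rfl)
      rw [h2]
      refine (le_of_eq h5).trans ?_
      refine (Ex_mono h0 h1 fun ω => ih (R ∪ cr ends ω R y)).trans ?_
      have h6 : Ex p (fun ω => M (R ∪ cr ends ω R y) / lam) = lam⁻¹ * Ex p (fun ω => M (R ∪ cr ends ω R y)) := by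
        rw [← Ex_mul_left]
        exact Ex_congr fun ω => by rw [div_eq_inv_mul]
      rw [h6, div_eq_inv_mul]
      exact mul_le_mul_of_nonneg_left (hM R y) (inv_nonneg.2 hl.le)

/-- Row R6. If `R` is a union of clusters, then so is the explored set, and its points are in `R` or in the cluster of a
start (induction on the list, `cr_full`, `Ful_step`). -/
lemma rn_mem {ω : E → Bool} (L : List V) (R : Finset V) (hR : Ful ends ω R) {w : V}
    (hw : w ∈ rn ends ω R L) : w ∈ R ∨ ∃ z ∈ L, z ∈ cu ends ω w := by
  induction L generalizing R with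
  | nil => exact Or.inl hw
  | cons y L ih =>
    have hw' : w ∈ rn ends ω (R ∪ cr ends ω R y) L := hw
    rcases ih (R ∪ cr ends ω R y) (Ful_step hR y) hw' with h | ⟨z, hz, hzw⟩
    · rcases Finset.mem_union.mp h with h1 | h1
      · exact Or.inl h1
      · exact Or.inr ⟨y, List.mem_cons_self, cu_symm.mp (cr_sub ω R y h1)⟩
    · exact Or.inr ⟨z, List.mem_cons_of_mem y hz, hzw⟩

open scoped Classical in
/-- Row R7. Successful clusters produce near contacts. `U1`, `U2` disjoint sets, every cluster `D` of `ω` with `GD D` is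
inside one of them, `P ⊆ U1`, `Q ⊆ U2`. Proof by induction on the list, for all `R` which are unions of clusters:
`h * ns R L ≤` the number of `u ∈ W` with (..) and `sh u ∉ R`. Step: if `GD D`, `D = cr ω R y`: `D` is nonempty (`hGne`), so
`y ∉ R`, `D = cu ω y`. If `D ⊆ U1` the points `u ∈ Q` with `sh u ∈ D` are counted (`u ∈ U2`, `sh u ∈ U1`), at least `h` of them, and
they are not counted for `R ∪ D` (`sh u ∈ D`); if `D ⊆ U2` use `P`. `D` is disjoint from `R`. -/
lemma ns_near {ω : E → Bool} {h : ℝ} (hh : 0 ≤ h) (GD : Finset V → Prop) (sh : V → V)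
    (W P Q U1 U2 : Finset V) (hP : P ⊆ W) (hQ : Q ⊆ W) (hPU : P ⊆ U1) (hQU : Q ⊆ U2)
    (hGne : ∀ D, GD D → D.Nonempty)
    (hGU : ∀ y, GD (cu ends ω y) → cu ends ω y ⊆ U1 ∨ cu ends ω y ⊆ U2)
    (hGP : ∀ D, GD D → h ≤ ((P.filter (fun u => sh u ∈ D)).card : ℝ) ∧
      h ≤ ((Q.filter (fun u => sh u ∈ D)).card : ℝ))
    (L : List V) (R : Finset V) (hR : Ful ends ω R) :
    h * (ns ends GD ω R L : ℝ) ≤
      ((W.filter (fun u => (u ∈ U1 ∧ sh u ∈ U2) ∨ (u ∈ U2 ∧ sh u ∈ U1))).card : ℝ) := by
  have key : ∀ (L : List V) (R : Finset V), Ful ends ω R → h * (ns ends GD ω R L : ℝ) ≤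
      ((W.filter (fun u => ((u ∈ U1 ∧ sh u ∈ U2) ∨ (u ∈ U2 ∧ sh u ∈ U1)) ∧ sh u ∉ R)).card : ℝ) := by
    intro L
    induction L with
    | nil =>
      intro R _
      simp only [ns, Nat.cast_zero, mul_zero]
      positivity
    | cons y L ih =>
      intro R hR
      have hR' : Ful ends ω (R ∪ cr ends ω R y) := Ful_step hR y
      have h1 := ih (R ∪ cr ends ω R y) hR'
      have hsub : (W.filter (fun u => ((u ∈ U1 ∧ sh u ∈ U2) ∨ (u ∈ U2 ∧ sh u ∈ U1)) ∧
          sh u ∉ R ∪ cr ends ω R y)) ⊆
          (W.filter (fun u => ((u ∈ U1 ∧ sh u ∈ U2) ∨ (u ∈ U2 ∧ sh u ∈ U1)) ∧ sh u ∉ R)) := by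
        intro u hu
        rw [mem_filter] at hu ⊢
        exact ⟨hu.1, hu.2.1, fun hn => hu.2.2 (mem_union_left _ hn)⟩
      by_cases hg : GD (cr ends ω R y)
      · have hne := hGne _ hg
        have hyR : y ∉ R := by
          intro hy
          obtain ⟨z, hz⟩ := hne
          unfold cr at hz
          rw [if_pos hy] at hz
          exact absurd hz (notMem_empty z)
        have hD : cr ends ω R y = cu ends ω y := by
          rw [cr_full hR y, if_neg hyR]
        have hdis : ∀ z ∈ cr ends ω R y, z ∉ R := fun z hz => cr_not_mem hz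
        -- a set of new near contacts
        obtain ⟨N, hN1, hN2, hN3⟩ : ∃ N : Finset V, h ≤ (N.card : ℝ) ∧
            (∀ u ∈ N, sh u ∈ cr ends ω R y) ∧
            (∀ u ∈ N, u ∈ W ∧ ((u ∈ U1 ∧ sh u ∈ U2) ∨ (u ∈ U2 ∧ sh u ∈ U1))) := by
          rcases hGU y (hD ▸ hg) with hU | hU
          · refine ⟨Q.filter (fun u => sh u ∈ cr ends ω R y), (hGP _ hg).2, ?_, ?_⟩
            · intro u hu
              exact (mem_filter.mp hu).2
            · intro u hu
              obtain ⟨hu1, hu2⟩ := mem_filter.mp hu
              rw [hD] at hu2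
              exact ⟨hQ hu1, Or.inr ⟨hQU hu1, hU hu2⟩⟩
          · refine ⟨P.filter (fun u => sh u ∈ cr ends ω R y), (hGP _ hg).1, ?_, ?_⟩
            · intro u hu
              exact (mem_filter.mp hu).2
            · intro u hu
              obtain ⟨hu1, hu2⟩ := mem_filter.mp hu
              rw [hD] at hu2
              exact ⟨hP hu1, Or.inl ⟨hPU hu1, hU hu2⟩⟩
        have hdisj : Disjoint (W.filter (fun u => ((u ∈ U1 ∧ sh u ∈ U2) ∨ (u ∈ U2 ∧ sh u ∈ U1)) ∧
          sh u ∉ R ∪ cr ends ω R y)) N := by
          rw [disjoint_left]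
          intro u hu hn
          exact (mem_filter.mp hu).2.2 (mem_union_right _ (hN2 u hn))
        have hun : (W.filter (fun u => ((u ∈ U1 ∧ sh u ∈ U2) ∨ (u ∈ U2 ∧ sh u ∈ U1)) ∧
          sh u ∉ R ∪ cr ends ω R y)) ∪ N ⊆
          (W.filter (fun u => ((u ∈ U1 ∧ sh u ∈ U2) ∨ (u ∈ U2 ∧ sh u ∈ U1)) ∧ sh u ∉ R)) := by
          apply union_subset hsub
          intro u hu
          rw [mem_filter]
          exact ⟨(hN3 u hu).1, (hN3 u hu).2, hdis _ (hN2 u hu)⟩
        have hc := card_le_card hun
        rw [card_union_of_disjoint hdisj] at hc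
        have hc' : ((W.filter (fun u => ((u ∈ U1 ∧ sh u ∈ U2) ∨ (u ∈ U2 ∧ sh u ∈ U1)) ∧
          sh u ∉ R ∪ cr ends ω R y)).card : ℝ) + (N.card : ℝ) ≤
          ((W.filter (fun u => ((u ∈ U1 ∧ sh u ∈ U2) ∨ (u ∈ U2 ∧ sh u ∈ U1)) ∧ sh u ∉ R)).card : ℝ) := by
          exact_mod_cast hc
        have e : (ns ends GD ω R (y :: L) : ℝ) = 1 + (ns ends GD ω (R ∪ cr ends ω R y) L : ℝ) := by
          simp only [ns, hg, if_true]
          push_cast
          ring
        rw [e]
        linarith [mul_add h 1 (ns ends GD ω (R ∪ cr ends ω R y) L : ℝ)]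
      · have e : (ns ends GD ω R (y :: L) : ℝ) = (ns ends GD ω (R ∪ cr ends ω R y) L : ℝ) := by
          simp only [ns, hg, if_false, zero_add]
        rw [e]
        refine h1.trans ?_
        exact_mod_cast card_le_card hsub
  refine (key L R hR).trans ?_
  have : (W.filter (fun u => ((u ∈ U1 ∧ sh u ∈ U2) ∨ (u ∈ U2 ∧ sh u ∈ U1)) ∧ sh u ∉ R)) ⊆
      (W.filter (fun u => (u ∈ U1 ∧ sh u ∈ U2) ∨ (u ∈ U2 ∧ sh u ∈ U1))) := by
    intro u hu
    rw [mem_filter] at hu ⊢
    exact ⟨hu.1, hu.2.1⟩
  exact_mod_cast card_le_card this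

end Pool.Agent.PERC29.AE
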