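import Pool.Agent.Lib.MP_29e17e_pr.V.Bg

set_option autoImplicit false
set_option linter.unusedSectionVars false

/-! The giant component of the torus. -/

open Finset

namespace Pool.Agent.PERC29.AE

section mono

variable {V : Type*} [Fintype V] [DecidableEq V] {E : Type*} [Fintype E] [DecidableEq E]
  {ends : E → Sym2 V}

lemma fm_mono2 (m : ℝ) {ω ω' : E → Bool} (h : ∀ e, ω e = true → ω' e = true) :
    fm ends m ω ≤ fm ends m ω' := by
  unfold fm
  by_cases h1 : ∃ x, m ≤ cz ends ω x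
  · obtain ⟨x, hx⟩ := h1
    have h2 : ∃ x, m ≤ cz ends ω' x := ⟨x, hx.trans (cz_mono h)⟩
    rw [if_pos ⟨x, hx⟩, if_pos h2]
  · rw [if_neg h1]
    split_ifs <;> norm_num

lemma fm_le {m m' : ℝ} (h : m ≤ m') (ω : E → Bool) : fm ends m' ω ≤ fm ends m ω := by
  unfold fm
  by_cases h1 : ∃ x, m' ≤ cz ends ω x
  · obtain ⟨x, hx⟩ := h1
    have h2 : ∃ x, m ≤ cz ends ω x := ⟨x, h.trans hx⟩
    rw [if_pos ⟨x, hx⟩, if_pos h2]
  · rw [if_neg h1]
    split_ifs <;> norm_num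

lemma Ex_fm_mono {p q : ℝ} (m : ℝ) (h0 : 0 ≤ p) (hpq : p ≤ q) (hq : q ≤ 1) :
    Ex p (fm ends m) ≤ Ex q (fm ends m) := by
  rcases eq_or_lt_of_le (hpq.trans hq) with hp | hp
  · have : q = p := le_antisymm (hq.trans hp.ge) hpq
    rw [this]
  · set s : ℝ := (q - p) / (1 - p) with hs
    have hs0 : 0 ≤ s := div_nonneg (by linarith) (by linarith)
    have hs1 : s ≤ 1 := by rw [hs, div_le_one (by linarith)]; linarith
    have hq2 : q = 1 - (1 - p) * (1 - s) := by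
      rw [hs]
      field_simp [(by linarith : (1 : ℝ) - p ≠ 0)]
      ring
    rw [hq2, Ex_orc]
    apply Ex_mono h0 (by linarith)
    intro ω
    have : Ex s (fun _ : E → Bool => fm ends m ω) = fm ends m ω := Ex_const _ _
    rw [← this]
    apply Ex_mono hs0 hs1
    intro η
    exact fm_mono2 m (orc_left ω η)

end mono

open scoped Classical in
/-- Giant component in the torus with the scale `m`. -/
theorem tor_giant (d : ℕ) (hd : 9 ≤ d) (C c0 cp : ℝ) (hC : 0 < C) (hc0 : 0 < c0) (hcp : 0 < cp)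
    (hcp1 : cp ≤ 1) (η' : ℝ) (hη' : 0 < η') :
    ∃ K c : ℝ, ∃ m0 : ℕ, 0 < K ∧ 0 < c ∧ 1 ≤ m0 ∧ ∀ m n : ℕ, m0 ≤ m → 8 * m < n → ∀ [NeZero n],
      ∀ p q : ℝ, cp ≤ p → cp ≤ 1 - p → (∀ l : ℕ, Hyp d C c0 p l) → p + K / (m : ℝ) ^ 2 ≤ q → q ≤ 1 →
        1 - η' ≤ Ex q (fm (gends (torG d n)) (c * (n : ℝ) ^ d / (m : ℝ) ^ 2)) := by
  obtain ⟨a, b0, ha, hb0, hbox⟩ := box_good d hd C c0 cp hC hc0 hcp hcp1
  set ρ0 : ℝ := min (η' / (8 * 20 ^ d + 1)) (1 / (2 * 40 ^ (2 * d))) with hρ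
  have hρ0 : 0 < ρ0 := lt_min (by positivity) (by positivity)
  obtain ⟨K, m0, hK, hm0, hbox1⟩ := hbox ρ0 hρ0
  refine ⟨K, b0 / 47 ^ d, m0, hK, by positivity, hm0, ?_⟩
  intro m n hm hmn _ p q hp hp1 hH hq hq1
  have hm1 : 1 ≤ m := hm0.trans hm
  have hmR : (1 : ℝ) ≤ m := by exact_mod_cast hm1
  obtain ⟨hKm, hbad⟩ := hbox1 m hm p hp hp1 (hH m) (hH (8 * m))
  have hpp0 : 0 ≤ p := hcp.le.trans hp
  have hpp1 : p ≤ 1 := by linarith
  have hs0 : 0 ≤ K / (m : ℝ) ^ 2 := by positivity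
  set A2 : ℝ := a * (m : ℝ) ^ 4 with hA2
  set b : ℝ := b0 * (m : ℝ) ^ (d - 2) with hb
  have hbpos : 0 < b := by positivity
  -- the scale
  obtain ⟨k, hk1, hk2⟩ : ∃ k, m * (40 ^ k + 7) ≤ n ∧ n < m * (40 ^ (k + 1) + 7) := by
    have hex : ∃ k, n < m * (40 ^ (k + 1) + 7) := by
      refine ⟨n, ?_⟩
      have h1 : n + 1 < 40 ^ (n + 1) := Nat.lt_pow_self (by norm_num)
      calc n < 40 ^ (n + 1) + 7 := by omega
        _ = 1 * (40 ^ (n + 1) + 7) := (one_mul _).symm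
        _ ≤ m * (40 ^ (n + 1) + 7) := Nat.mul_le_mul_right _ hm1
    refine ⟨Nat.find hex, ?_, Nat.find_spec hex⟩
    rcases Nat.eq_zero_or_pos (Nat.find hex) with h | h
    · rw [h]; omega
    · have h2 := Nat.find_min hex (m := Nat.find hex - 1) (by omega)
      rw [not_lt] at h2
      have h3 : Nat.find hex - 1 + 1 = Nat.find hex := by omega
      rw [h3] at h2
      exact h2
  have hreg : ∀ z : Fin d → ℕ, (∀ i, z i < 40 ^ k) → ∀ i, m * z i + 8 * m ≤ n := by
    intro z hz i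
    refine le_trans ?_ hk1
    have h1 : z i + 8 ≤ 40 ^ k + 7 := by have := hz i; omega
    calc m * z i + 8 * m = m * (z i + 8) := by ring
      _ ≤ _ := Nat.mul_le_mul_left _ h1
  have hφex : ∀ z : Fin d → ℕ, ∃ φ : boxG d (8 * m) ↪g torG d n, (∀ i, z i < 40 ^ k) →
      ∀ x i, φ x i = ((m * z i + (x i : ℕ) : ℕ) : ZMod n) := by
    intro z
    by_cases hz : ∀ i, z i < 40 ^ k
    · obtain ⟨φ, hφ⟩ := box_tor (fun i => m * z i) (hreg z hz) hmn
      exact ⟨φ, fun _ => hφ⟩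
    · obtain ⟨φ, hφ⟩ := box_tor (d := d) (fun _ => 0) (fun i => by omega) hmn
      exact ⟨φ, fun h => absurd h hz⟩
  choose φ hφ using hφex
  set ends := gends (torG d n) with hends
  let GB : (Fin d → ℕ) → ((torG d n).edgeSet → Bool) → ((torG d n).edgeSet → Bool) → Prop :=
    fun z ω η => GoodB ends ω η (Set.range (φ z)) (fun c => (bT d m c).map (φ z).toEmbedding) A2 b
  let B : (Fin d → ℕ) → ((torG d n).edgeSet → Bool) → ((torG d n).edgeSet → Bool) → Prop :=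
    fun z ω η => (∃ i, 40 ^ k ≤ z i) ∨ ¬ GB z ω η
  let D : (Fin d → ℕ) → Set (torG d n).edgeSet := fun z => {e | ∀ v ∈ ends e, v ∈ Set.range (φ z)}
  have hmem : ∀ z ω η, ¬ B z ω η → (∀ i, z i < 40 ^ k) ∧ GB z ω η := by
    intro z ω η h
    simp only [B, not_or, not_exists, not_le, not_not] at h
    exact h
  let y : (Fin d → ℕ) → ((torG d n).edgeSet → Bool) → ((torG d n).edgeSet → Bool) → (Fin d → ZMod n) :=
    fun z ω η => if h : GB z ω η then h.choose else fun _ => 0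
  have hy : ∀ z ω η, GB z ω η → ∀ c, 4 * b ≤ ((Lam ends ω ((bT d m c).map (φ z).toEmbedding) A2).card : ℝ) ∧
    (((Lam ends ω ((bT d m c).map (φ z).toEmbedding) A2).filter
      (fun x => x ∉ cl ends (orc ω η) (Set.range (φ z)) (y z ω η))).card : ℝ) ≤ b := by
    intro z ω η h
    have h1 : y z ω η = h.choose := dif_pos h
    rw [h1]
    exact h.choose_spec.2
  have hhier := hier (by omega : 2 ≤ d) hpp0 hpp1 hs0 hKm B D k (by
      intro z ω ω' η η' h h'
      have := good_dep (ends := ends) (ω := ω) (ω' := ω') (η := η) (η' := η') (Set.range (φ z))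
        (fun c => (bT d m c).map (φ z).toEmbedding) A2 b (by
          intro c x hx
          rw [Finset.mem_map] at hx
          obtain ⟨u, _, hu⟩ := hx
          exact ⟨u, hu⟩) (fun e he => h e he) (fun e he => h' e he)
      exact or_congr Iff.rfl (not_congr this)) (by
      intro z z' hz hz' hzz
      rw [Set.disjoint_left]
      intro e he he'
      have hdis := tor_far z z' (hreg z hz) (hreg z' hz') (φ z) (φ z') (hφ z hz) (hφ z' hz') hzz
      rw [Set.disjoint_left] at hdis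
      induction h : ends e using Sym2.ind with
      | _ u v =>
        have hu : u ∈ ends e := by rw [h]; exact Sym2.mem_mk_left _ _
        exact hdis (he u hu) (he' u hu)) (by
      intro z hz
      have h1 : P2 p (K / (m : ℝ) ^ 2) (B z) = P2 p (K / (m : ℝ) ^ 2) (fun ω η =>
          ¬ GoodB (gends (boxG d (8 * m))) (pul (φ z) ω) (pul (φ z) η) Set.univ (bT d m) A2 b) := by
        have h2 : B z = fun ω η => ¬ GoodB (gends (boxG d (8 * m))) (pul (φ z) ω) (pul (φ z) η)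
            Set.univ (bT d m) A2 b := by
          funext ω η
          apply propext
          have h3 : ¬ ∃ i, 40 ^ k ≤ z i := by
            rintro ⟨i, hi⟩
            exact absurd (hz i) (not_lt.2 hi)
          have h4 := good_emb (φ z) ω η (bT d m) A2 b
          simp only [B, GB, h3, false_or]
          exact not_congr h4
        rw [h2]
      rw [h1, P2_pul (φ z) p (K / (m : ℝ) ^ 2) (fun ω η =>
        ¬ GoodB (gends (boxG d (8 * m))) ω η Set.univ (bT d m) A2 b)]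
      exact hbad) hρ0.le (by
      have h1 : ρ0 ≤ 1 / (2 * 40 ^ (2 * d)) := min_le_right _ _
      rw [le_div_iff₀ (by positivity)] at h1
      linarith) (fun z ω η h => Or.inl h)
    (fun ω η z => cu ends (orc ω η) (y z ω η)) (by
      have hkey : ∀ ω η z z', (∃ i, z' i = z i + 1 ∧ ∀ j, j ≠ i → z' j = z j) → ¬ B z ω η → ¬ B z' ω η →
          cu ends (orc ω η) (y z ω η) = cu ends (orc ω η) (y z' ω η) := by
        rintro ω η z z' ⟨i, hi, hj⟩ hBz hBz'
        obtain ⟨hz, hg⟩ := hmem z ω η hBz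
        obtain ⟨hz', hg'⟩ := hmem z' ω η hBz'
        have hsh := tor_share z z' i hi hj (hreg z hz) (hreg z' hz') (φ z) (φ z') (hφ z hz) (hφ z' hz')
        exact good_adj (Set.range (φ z)) (Set.range (φ z')) (fun c => (bT d m c).map (φ z).toEmbedding)
          (fun c => (bT d m c).map (φ z').toEmbedding) A2 b hbpos (fun j => decide (j = i))
          (fun _ => false) hsh (y z ω η) (y z' ω η) (hy z ω η hg) (hy z' ω η hg')
      rintro ω η z z' ⟨i, hi | hi, hj⟩ hBz hBz'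
      · exact hkey ω η z z' ⟨i, hi, hj⟩ hBz hBz'
      · exact (hkey ω η z' z ⟨i, hi, fun j hji => (hj j hji).symm⟩ hBz' hBz).symm)
  have hlow : 1 - η' ≤ 1 - (8 * 20 ^ d + 1) * ρ0 := by
    have h1 : ρ0 ≤ η' / (8 * 20 ^ d + 1) := min_le_left _ _
    rw [le_div_iff₀ (by positivity)] at h1
    linarith
  refine hlow.trans (hhier.trans ?_)
  -- the size
  have hsize : b0 / 47 ^ d * (n : ℝ) ^ d / (m : ℝ) ^ 2 ≤ 3 * b * ((40 : ℝ) ^ (k * d) / 2) := by
    have h1 : (n : ℝ) ≤ m * (47 * 40 ^ k) := by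
      have h2 : n ≤ m * (47 * 40 ^ k) := by
        refine hk2.le.trans (Nat.mul_le_mul_left _ ?_)
        have h3 : 1 ≤ 40 ^ k := Nat.one_le_pow _ _ (by norm_num)
        rw [pow_succ]; omega
      exact_mod_cast h2
    have h2 : (n : ℝ) ^ d ≤ (m : ℝ) ^ d * (47 ^ d * 40 ^ (k * d)) := by
      calc (n : ℝ) ^ d ≤ (m * (47 * 40 ^ k)) ^ d := pow_le_pow_left₀ (Nat.cast_nonneg _) h1 _
        _ = _ := by rw [mul_pow, mul_pow, ← pow_mul]
    have hd2 : (m : ℝ) ^ d = (m : ℝ) ^ (d - 2) * (m : ℝ) ^ 2 := by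
      rw [← pow_add]; congr 1; omega
    rw [div_le_iff₀ (by positivity), hb]
    calc b0 / 47 ^ d * (n : ℝ) ^ d ≤ b0 / 47 ^ d * ((m : ℝ) ^ d * (47 ^ d * 40 ^ (k * d))) :=
          mul_le_mul_of_nonneg_left h2 (by positivity)
      _ = b0 * (m : ℝ) ^ (d - 2) * (40 : ℝ) ^ (k * d) * (m : ℝ) ^ 2 := by
          rw [hd2]
          field_simp
      _ ≤ 3 * (b0 * (m : ℝ) ^ (d - 2)) * ((40 : ℝ) ^ (k * d) / 2) * (m : ℝ) ^ 2 := by
          have : 0 ≤ b0 * (m : ℝ) ^ (d - 2) * (40 : ℝ) ^ (k * d) * (m : ℝ) ^ 2 := by positivity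
          nlinarith
  have hstep : P2 p (K / (m : ℝ) ^ 2) (fun ω η => ∃ Ks : Finset (Fin d → ℕ),
      (∀ z ∈ Ks, (∀ i, z i < 40 ^ k) ∧ ¬ B z ω η) ∧ (40 : ℝ) ^ (k * d) / 2 ≤ (Ks.card : ℝ) ∧
        ∀ z ∈ Ks, ∀ z' ∈ Ks, cu ends (orc ω η) (y z ω η) = cu ends (orc ω η) (y z' ω η)) ≤
      Ex p (fun ω => Ex (K / (m : ℝ) ^ 2) (fun η =>
        fm ends (b0 / 47 ^ d * (n : ℝ) ^ d / (m : ℝ) ^ 2) (orc ω η))) := by
    unfold P2
    refine Ex_mono hpp0 hpp1 (fun ω => Ex_mono hs0 hKm (fun η => ?_))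
    split_ifs with hev
    · obtain ⟨Ks, hK1, hK2, hK3⟩ := hev
      have hne : Ks.Nonempty := by
        rw [Finset.nonempty_iff_ne_empty]
        rintro rfl
        have : (0 : ℝ) < (40 : ℝ) ^ (k * d) / 2 := by positivity
        simp at hK2
        linarith
      obtain ⟨z0, hz0⟩ := hne
      have hcount := good_count (ends := ends) (ω := ω) (η := η) Ks (fun z => Set.range (φ z))
        (fun z => (bT d m (fun _ => false)).map (φ z).toEmbedding) (fun z => y z ω η) A2 b (by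
          intro z hz z' hz' hne
          exact tor_cube z z' (hreg z (hK1 z hz).1) (hreg z' (hK1 z' hz').1) (φ z) (φ z')
            (hφ z (hK1 z hz).1) (hφ z' (hK1 z' hz').1) hne) (fun z hz =>
          hy z ω η (hmem z ω η (hK1 z hz).2).2 (fun _ => false)) hK3 z0 hz0
      have h2 : b0 / 47 ^ d * (n : ℝ) ^ d / (m : ℝ) ^ 2 ≤ cz ends (orc ω η) (y z0 ω η) := by
        refine hsize.trans (le_trans ?_ hcount)
        exact mul_le_mul_of_nonneg_left hK2 (by positivity)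
      unfold fm
      rw [if_pos ⟨_, h2⟩]
    · exact fm_nonneg _ _
  refine hstep.trans ?_
  rw [← Ex_orc]
  apply Ex_fm_mono
  · nlinarith [mul_nonneg (sub_nonneg.2 hpp1) (sub_nonneg.2 hKm)]
  · nlinarith
  · exact hq1

end Pool.Agent.PERC29.AE
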