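import Pool.Agent.Lib.MP_29e17e_pr.Jn
import Pool.Agent.Lib.MP_29e17e_pr.Prb
import Pool.Agent.Lib.MP_29e17e_pr.V.Lc
import Pool.Agent.Lib.MP_29e17e_pr.V.Rn

set_option autoImplicit false
set_option linter.unusedSectionVars false

/-! Rows 29v-E1 .. 29v-E8: the expectations (Lemma 5 of the page). The marks `b` have the law `Ex g`, the configuration `ω`
the law `Ex p`, the starts `L` are averaged by `al J`. `X` is a bound for the mean cluster size. -/

open Finset

namespace Pool.Agent.PERC29.AE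

variable {V : Type*} [Fintype V] [DecidableEq V] {E : Type*} [Fintype E] [DecidableEq E]
  {ends : E → Sym2 V}

/-- Row E1. Unfold; `mem_MC`, `mem_Un_MC`; the sets of `MC` are clusters, so `A ≠ B` iff `v ∉ cu ω u` (`cu_eq`). -/
lemma mem_Pi2_MC {W : Finset V} {ω : E → Bool} {b : V → Bool} {u v : V} :
    (u, v) ∈ Pi2 W (MC ends ω b) ↔ u ∈ W ∧ v ∈ W ∧ hit b (cu ends ω u) ∧ hit b (cu ends ω v) ∧
      v ∉ cu ends ω u := by
  classical
  unfold Pi2
  simp only [Finset.mem_filter, Finset.mem_univ, true_and]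
  constructor
  · rintro ⟨hu, hv, A, hA, B, hB, hne, huA, hvB⟩
    obtain ⟨a, ha, rfl⟩ := mem_MC.1 hA
    obtain ⟨c, hc, rfl⟩ := mem_MC.1 hB
    have e1 := cu_eq huA
    have e2 := cu_eq hvB
    refine ⟨hu, hv, ⟨a, ?_, ha⟩, ⟨c, ?_, hc⟩, fun h => hne ?_⟩
    · rw [e1]; exact self_mem_cu ω a
    · rw [e2]; exact self_mem_cu ω c
    · rw [← e1, ← e2, cu_eq h]
  · rintro ⟨hu, hv, h1, h2, h3⟩
    refine ⟨hu, hv, cu ends ω u, cu_mem_MC.2 h1, cu ends ω v, cu_mem_MC.2 h2, fun h => h3 ?_,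
      self_mem_cu ω u, self_mem_cu ω v⟩
    rw [h]
    exact self_mem_cu ω v

private lemma E1_nonneg {ω : E → Bool} (L : List (V × (Finset V → ℝ)))
    (hL : ∀ a ∈ L, ∀ A, 0 ≤ a.2 A) : ∀ S : Set V, 0 ≤ JJ ends ω L S := by
  classical
  induction L with
  | nil => intro S; rw [JJ]; exact zero_le_one
  | cons a L ih =>
    intro S
    rw [JJ]
    split_ifs
    · exact mul_nonneg (hL a List.mem_cons_self _)
        (ih (fun b hb => hL b (List.mem_cons_of_mem _ hb)) _)
    · exact le_rfl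

private lemma E1_cl {ω : E → Bool} {S : Set V}
    (hS : ∀ w w', Rch ends ω Set.univ w w' → w ∈ S → w' ∈ S) {o : V} (ho : o ∈ S) :
    cl ends ω S o = cu ends ω o := by
  ext z
  rw [mem_cl, mem_cu]
  refine (inside (B := Sᶜ) (fun w => ⟨fun hw => ?_, fun hw => ?_⟩) ho).symm
  · rintro ⟨b, hb, hbw⟩
    exact hb (hS w b hbw.symm hw)
  · by_contra h
    exact hw ⟨w, h, Rch.refl w⟩

private lemma E1_closed {ω : E → Bool} {S : Set V}
    (hS : ∀ w w', Rch ends ω Set.univ w w' → w ∈ S → w' ∈ S) (o : V) :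
    ∀ w w', Rch ends ω Set.univ w w' → w ∈ S \ (cu ends ω o : Set V) →
      w' ∈ S \ (cu ends ω o : Set V) := by
  rintro w w' h ⟨h1, h2⟩
  refine ⟨hS w w' h h1, fun h3 => h2 ?_⟩
  rw [Finset.mem_coe, mem_cu] at h3 ⊢
  exact h3.trans h.symm

private lemma E1_step {ω : E → Bool} {S : Set V}
    (hS : ∀ w w', Rch ends ω Set.univ w w' → w ∈ S → w' ∈ S) {o : V} (ho : o ∈ S)
    (Φ : Finset V → ℝ) (L : List (V × (Finset V → ℝ))) :
    JJ ends ω ((o, Φ) :: L) S =
      Φ (cu ends ω o) * JJ ends ω L (S \ (cu ends ω o : Set V)) := by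
  classical
  rw [JJ, if_pos ho, E1_cl hS ho]

private lemma E1_univ {ω : E → Bool} :
    ∀ w w', Rch ends ω Set.univ w w' → w ∈ (Set.univ : Set V) → w' ∈ (Set.univ : Set V) :=
  fun _ _ _ _ => Set.mem_univ _

/-- The first function need not be monotone. -/
private lemma E1_head {p : ℝ} (h0 : 0 ≤ p) (h1 : p ≤ 1) (x : V) (Φ : Finset V → ℝ)
    (hΦ : ∀ A, 0 ≤ Φ A) (L : List (V × (Finset V → ℝ)))
    (hL : ∀ a ∈ L, (∀ A, 0 ≤ a.2 A) ∧ (∀ A B, A ⊆ B → a.2 A ≤ a.2 B)) :
    Ex p (fun ω => JJ ends ω ((x, Φ) :: L) Set.univ) ≤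
      Ex p (fun ω => Φ (cu ends ω x)) * (L.map (fun a => Ex p (fun ω => a.2 (cu ends ω a.1)))).prod := by
  classical
  have hdec : ∀ ω : E → Bool, JJ ends ω ((x, Φ) :: L) Set.univ =
      ∑ A : Finset V, (if cu ends ω x = A then (1 : ℝ) else 0) *
        (Φ A * JJ ends ω L (Set.univ \ (A : Set V))) := by
    intro ω
    rw [Finset.sum_eq_single (cu ends ω x)]
    · rw [if_pos rfl, one_mul]
      exact E1_step E1_univ (Set.mem_univ _) Φ L
    · intro A _ hA
      rw [if_neg (Ne.symm hA), zero_mul]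
    · intro hh
      exact absurd (Finset.mem_univ _) hh
  have hdec2 : ∀ ω : E → Bool, Φ (cu ends ω x) =
      ∑ A : Finset V, (if cu ends ω x = A then (1 : ℝ) else 0) * Φ A := by
    intro ω
    rw [Finset.sum_eq_single (cu ends ω x)]
    · rw [if_pos rfl, one_mul]
    · intro A _ hA
      rw [if_neg (Ne.symm hA), zero_mul]
    · intro hh
      exact absurd (Finset.mem_univ _) hh
  rw [Ex_congr hdec, Ex_sum, Ex_congr hdec2, Ex_sum, Finset.sum_mul]
  refine Finset.sum_le_sum fun A _ => ?_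
  have hI : 0 ≤ Ex p (fun ω => (if cu ends ω x = A then (1 : ℝ) else 0) * Φ A) :=
    Ex_nonneg h0 h1 fun ω => mul_nonneg (by split_ifs <;> norm_num) (hΦ A)
  set D : Set E := {e | ∃ x y, ends e = s(x, y) ∧ x ∈ A} with hD
  have e1 : ∀ ω : E → Bool, (if cu ends ω x = A then (1 : ℝ) else 0) *
      (Φ A * JJ ends ω L (Set.univ \ (A : Set V))) =
      ((if cu ends ω x = A then (1 : ℝ) else 0) * Φ A) *
        JJ ends ω L (Set.univ \ (A : Set V)) := by
    intro ω
    ring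
  rw [Ex_congr e1, Ex_indep p D]
  · exact mul_le_mul_of_nonneg_left (JJ_le h0 h1 L hL _) hI
  · intro ω ω' hh
    have key : ∀ ω ω' : E → Bool, (∀ e ∈ D, ω e = ω' e) → cu ends ω x = A →
        cu ends ω' x = A := by
      intro ω ω' hh hA
      exact cl_eq_dep (fun e' x y h2 _ _ h5 => hh e' ⟨x, y, h2, h5⟩) hA
    by_cases hc : cu ends ω x = A
    · rw [if_pos hc, if_pos (key ω ω' hh hc)]
    · rw [if_neg hc, if_neg]
      intro hc'
      exact hc (key ω' ω (fun e he => (hh e he).symm) hc')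
  · intro ω ω' hh
    apply JJ_dep
    intro e' x y h2 h3 h4
    apply hh
    rintro ⟨x', y', h5, h8⟩
    rw [h2] at h5
    rcases Sym2.eq_iff.1 h5 with ⟨rfl, rfl⟩ | ⟨rfl, rfl⟩
    · exact h3.2 h8
    · exact h4.2 h8

open scoped Classical in
/-- Row E1 (second half). As `three` of Jn.lean, but the first function is arbitrary (nonnegative, not monotone).
Proof: as in `two` (Two.lean): sum over the values `A` of `cu ω x`; on `cu ω x = A`, `y ∉ A`, `z ∉ A`, the clusters of `y`, `z`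
are the clusters off `A`, which depend on the edges outside `A`; `Ex_indep`; then `JJ_le` for the list `[(y, Ψ), (z, Θ)]` and
the set `Aᶜ`. -/
lemma three2 {p : ℝ} (h0 : 0 ≤ p) (h1 : p ≤ 1) (x y z : V) (Φ Ψ Θ : Finset V → ℝ)
    (hΦ : ∀ A, 0 ≤ Φ A) (hΨ : ∀ A, 0 ≤ Ψ A) (hΘ : ∀ A, 0 ≤ Θ A)
    (mΨ : ∀ A B, A ⊆ B → Ψ A ≤ Ψ B) (mΘ : ∀ A B, A ⊆ B → Θ A ≤ Θ B) :
    Ex p (fun ω => (if y ∈ cu ends ω x then 0 else 1) * ((if z ∈ cu ends ω x then 0 else 1) *
      ((if z ∈ cu ends ω y then 0 else 1) *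
      (Φ (cu ends ω x) * (Ψ (cu ends ω y) * Θ (cu ends ω z)))))) ≤
      Ex p (fun ω => Φ (cu ends ω x)) * (Ex p (fun ω => Ψ (cu ends ω y)) *
        Ex p (fun ω => Θ (cu ends ω z))) := by
  have h := E1_head (ends := ends) h0 h1 x Φ hΦ [(y, Ψ), (z, Θ)] (by
    intro a ha
    simp only [List.mem_cons, List.not_mem_nil, or_false] at ha
    rcases ha with rfl | rfl
    · exact ⟨hΨ, mΨ⟩
    · exact ⟨hΘ, mΘ⟩)
  simp only [List.map_cons, List.map_nil, List.prod_cons, List.prod_nil, mul_one] at h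
  refine le_trans (Ex_mono h0 h1 fun ω => ?_) h
  have hn : 0 ≤ JJ ends ω [(x, Φ), (y, Ψ), (z, Θ)] Set.univ := E1_nonneg _ (by
    intro a ha
    simp only [List.mem_cons, List.not_mem_nil, or_false] at ha
    rcases ha with rfl | rfl | rfl
    · exact hΦ
    · exact hΨ
    · exact hΘ) _
  by_cases hyx : y ∈ cu ends ω x
  · rw [if_pos hyx, zero_mul]; exact hn
  by_cases hzx : z ∈ cu ends ω x
  · rw [if_pos hzx, zero_mul, mul_zero]; exact hn
  by_cases hzy : z ∈ cu ends ω y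
  · rw [if_pos hzy, zero_mul, mul_zero, mul_zero]; exact hn
  have c1 := E1_closed (E1_univ (ends := ends) (ω := ω)) x
  have c2 := E1_closed c1 y
  rw [if_neg hyx, if_neg hzx, if_neg hzy, one_mul, one_mul, one_mul,
    E1_step E1_univ (Set.mem_univ _), E1_step c1 ⟨Set.mem_univ _, hyx⟩,
    E1_step c2 ⟨⟨Set.mem_univ _, hzx⟩, hzy⟩, JJ, mul_one]

/-- Row E2. The three statements of Tree.lean (`Gf_le`, `Gf_sq`, `second_moment`) with `≤ X` instead of `= χ`; the proofs are the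
same with small changes. -/
lemma Gf_le2 {p X : ℝ} (h0 : 0 ≤ p) (h1 : p ≤ 1) (hX : ∀ x, Ex p (fun ω => cz ends ω x) ≤ X) (x u : V) :
    Gf ends p x u ≤ X * ∑ z, ta ends p x z * ta ends p z u := by
  classical
  have e1 : Gf ends p x u = ∑ w, Ex p (fun ω => (if u ∈ cu ends ω x then (1 : ℝ) else 0) *
      (if w ∈ cu ends ω x then 1 else 0)) := by
    unfold Gf
    rw [← Ex_sum]
    apply Ex_congr
    intro ω
    rw [← Finset.mul_sum]
    have : ∑ w, (if w ∈ cu ends ω x then (1 : ℝ) else 0) = cz ends ω x := by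
      unfold cz
      simp
    rw [this, mul_comm]
  rw [e1]
  calc _ ≤ ∑ w, ∑ z, ta ends p x z * (ta ends p z u * ta ends p z w) :=
        Finset.sum_le_sum fun w _ => tree_graph h0 h1 x u w
    _ = ∑ z, ta ends p x z * ta ends p z u * ∑ w, ta ends p z w := by
        rw [Finset.sum_comm]
        refine Finset.sum_congr rfl fun z _ => ?_
        rw [Finset.mul_sum]
        exact Finset.sum_congr rfl fun w _ => by ring
    _ ≤ ∑ z, ta ends p x z * ta ends p z u * X := by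
        refine Finset.sum_le_sum fun z _ => ?_
        rw [ta_sum]
        exact mul_le_mul_of_nonneg_left (hX z)
          (mul_nonneg (ta_nonneg h0 h1 x z) (ta_nonneg h0 h1 z u))
    _ = X * ∑ z, ta ends p x z * ta ends p z u := by
        rw [← Finset.sum_mul, mul_comm]

lemma Gf_sq2 {p X Qs : ℝ} (h0 : 0 ≤ p) (h1 : p ≤ 1) (hX : ∀ x, Ex p (fun ω => cz ends ω x) ≤ X)
    (hQ : ∀ x, sqd ends p x ≤ Qs) (x : V) : ∑ u, Gf ends p x u ^ 2 ≤ X ^ 2 * Qs := by
  have h2 : ∑ u, Gf ends p x u ^ 2 ≤ X ^ 2 * sqd ends p x := by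
    unfold sqd
    rw [Finset.mul_sum]
    refine Finset.sum_le_sum fun u _ => ?_
    calc Gf ends p x u ^ 2 ≤ (X * ∑ z, ta ends p x z * ta ends p z u) ^ 2 :=
          pow_le_pow_left₀ (Gf_nonneg h0 h1 x u) (Gf_le2 h0 h1 hX x u) 2
      _ = _ := by ring
  exact h2.trans (mul_le_mul_of_nonneg_left (hQ x) (sq_nonneg X))

lemma second_moment2 {p X : ℝ} (h0 : 0 ≤ p) (h1 : p ≤ 1)
    (hX : ∀ x, Ex p (fun ω => cz ends ω x) ≤ X) (x : V) :
    Ex p (fun ω => cz ends ω x ^ 2) ≤ X ^ 3 := by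
  classical
  have hX0 : 0 ≤ X := (Ex_nonneg h0 h1 fun ω => cz_nonneg ω x).trans (hX x)
  have e1 : Ex p (fun ω => cz ends ω x ^ 2) = ∑ u, Gf ends p x u := by
    unfold Gf
    rw [← Ex_sum]
    apply Ex_congr
    intro ω
    rw [← Finset.mul_sum]
    have : ∑ w, (if w ∈ cu ends ω x then (1 : ℝ) else 0) = cz ends ω x := by
      unfold cz
      simp
    rw [this]
    ring
  rw [e1]
  calc _ ≤ ∑ u, X * ∑ z, ta ends p x z * ta ends p z u :=
        Finset.sum_le_sum fun u _ => Gf_le2 h0 h1 hX x u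
    _ = X * ∑ z, ta ends p x z * ∑ u, ta ends p z u := by
        rw [← Finset.mul_sum, Finset.sum_comm]
        congr 1
        exact Finset.sum_congr rfl fun z _ => by rw [Finset.mul_sum]
    _ ≤ X * ∑ z, ta ends p x z * X := by
        refine mul_le_mul_of_nonneg_left (Finset.sum_le_sum fun z _ => ?_) hX0
        rw [ta_sum]
        exact mul_le_mul_of_nonneg_left (hX z) (ta_nonneg h0 h1 x z)
    _ ≤ X ^ 3 := by
        rw [← Finset.sum_mul, ta_sum]
        calc X * (Ex p (fun ω => cz ends ω x) * X) ≤ X * (X * X) :=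
              mul_le_mul_of_nonneg_left (mul_le_mul_of_nonneg_right (hX x) hX0) hX0
          _ = X ^ 3 := by ring

open scoped Classical in
private lemma E3_pair {g : ℝ} (hg0 : 0 ≤ g) (hg1 : g ≤ 1) {ω : E → Bool} {u v : V} (hv : v ∉ cu ends ω u) :
    Ex g (fun b : V → Bool => if hit b (cu ends ω u) ∧ hit b (cu ends ω v) then (1 : ℝ) else 0) ≤
      g ^ 2 * (cz ends ω u * cz ends ω v) :=
  hit_two hg0 hg1 _ _ (cu_disj hv)

open scoped Classical in
/-- the bound for a fixed configuration -/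
private lemma E3_pt [Nonempty V] {g : ℝ} (hg0 : 0 ≤ g) (hg1 : g ≤ 1) (J : ℕ) (u v w : V) (ω : E → Bool) :
    al J (fun L : List V => Ex g (fun b : V → Bool => if hit b (cu ends ω u) ∧
      hit b (cu ends ω v) ∧ v ∉ cu ends ω u ∧ w ∈ rn ends ω (Un (MC ends ω b)) L
      then (1 : ℝ) else 0)) ≤
      g ^ 2 * ((if v ∈ cu ends ω u then 0 else 1) *
        ((cz ends ω u * (if w ∈ cu ends ω u then 1 else 0)) * cz ends ω v)) +
      (g ^ 2 * ((if u ∈ cu ends ω v then 0 else 1) *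
        ((cz ends ω v * (if w ∈ cu ends ω v then 1 else 0)) * cz ends ω u)) +
      g ^ 2 * (g + J / Fintype.card V) * ((if v ∈ cu ends ω u then 0 else 1) *
        ((if w ∈ cu ends ω u then 0 else 1) * ((if w ∈ cu ends ω v then 0 else 1) *
        (cz ends ω u * (cz ends ω v * cz ends ω w)))))) := by
  have hu0 : 0 ≤ cz ends ω u := cz_nonneg ω u
  have hv0 : 0 ≤ cz ends ω v := cz_nonneg ω v
  have hw0 : 0 ≤ cz ends ω w := cz_nonneg ω w
  by_cases hv : v ∈ cu ends ω u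
  · -- the indicator is zero
    have e : ∀ L : List V, Ex g (fun b : V → Bool => if hit b (cu ends ω u) ∧
        hit b (cu ends ω v) ∧ v ∉ cu ends ω u ∧ w ∈ rn ends ω (Un (MC ends ω b)) L
        then (1 : ℝ) else 0) = 0 := by
      intro L
      apply Ex_zero_of
      intro b
      rw [if_neg]
      exact fun h => h.2.2.1 hv
    have hz : al J (fun L : List V => Ex g (fun b : V → Bool => if hit b (cu ends ω u) ∧
        hit b (cu ends ω v) ∧ v ∉ cu ends ω u ∧ w ∈ rn ends ω (Un (MC ends ω b)) L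
        then (1 : ℝ) else 0)) ≤ 0 := by
      refine (al_mono J _ (fun _ => (0 : ℝ)) (fun L _ => (e L).le)).trans ?_
      rw [al_const]
    have hu : u ∈ cu ends ω v := cu_symm.1 hv
    rw [if_pos hv, if_pos hu]
    linarith
  · have hu : u ∉ cu ends ω v := fun h => hv (cu_symm.1 h)
    rw [if_neg hv, if_neg hu]
    have hpair := E3_pair (ends := ends) hg0 hg1 hv
    have hn : (0 : ℝ) ≤ (J : ℝ) / Fintype.card V := by positivity
    have hc0 : 0 ≤ g ^ 2 * (g + J / Fintype.card V) := by positivity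
    by_cases hw : w ∈ cu ends ω u ∨ w ∈ cu ends ω v
    · -- drop the condition on `w`
      have h1 : al J (fun L : List V => Ex g (fun b : V → Bool => if hit b (cu ends ω u) ∧
          hit b (cu ends ω v) ∧ v ∉ cu ends ω u ∧ w ∈ rn ends ω (Un (MC ends ω b)) L
          then (1 : ℝ) else 0)) ≤ g ^ 2 * (cz ends ω u * cz ends ω v) := by
        refine (al_mono J _ (fun _ => g ^ 2 * (cz ends ω u * cz ends ω v)) (fun L _ => ?_)).trans ?_
        · refine le_trans (Ex_mono hg0 hg1 fun b => ?_) hpair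
          by_cases h : hit b (cu ends ω u) ∧ hit b (cu ends ω v)
          · rw [if_pos h]
            split_ifs <;> norm_num
          · rw [if_neg h, if_neg]
            exact fun h2 => h ⟨h2.1, h2.2.1⟩
        · rw [al_const]
      refine h1.trans ?_
      have h3 : 0 ≤ g ^ 2 * (g + J / Fintype.card V) * ((1 : ℝ) *
        ((if w ∈ cu ends ω u then 0 else 1) * ((if w ∈ cu ends ω v then 0 else 1) *
        (cz ends ω u * (cz ends ω v * cz ends ω w))))) := by
        refine mul_nonneg hc0 ?_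
        split_ifs <;> simp <;> positivity
      rcases hw with hw | hw
      · rw [if_pos hw]
        have h4 : 0 ≤ g ^ 2 * ((1 : ℝ) * ((cz ends ω v * (if w ∈ cu ends ω v then 1 else 0)) *
            cz ends ω u)) := by
          split_ifs <;> simp <;> positivity
        linarith
      · have h4 : 0 ≤ g ^ 2 * ((1 : ℝ) * ((cz ends ω u * (if w ∈ cu ends ω u then 1 else 0)) *
            cz ends ω v)) := by
          split_ifs <;> simp <;> positivity
        rw [if_pos hw]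
        linarith
    · rw [not_or] at hw
      obtain ⟨hw1, hw2⟩ := hw
      rw [if_neg hw1, if_neg hw2, if_neg hw1, if_neg hw2]
      have htri : Ex g (fun b : V → Bool => if hit b (cu ends ω u) ∧ hit b (cu ends ω v) ∧
          hit b (cu ends ω w) then (1 : ℝ) else 0) ≤
          g ^ 3 * (cz ends ω u * (cz ends ω v * cz ends ω w)) :=
        hit_three hg0 hg1 _ _ _ (cu_disj hv) (cu_disj hw1) (cu_disj hw2)
      have h1 : al J (fun L : List V => Ex g (fun b : V → Bool => if hit b (cu ends ω u) ∧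
          hit b (cu ends ω v) ∧ v ∉ cu ends ω u ∧ w ∈ rn ends ω (Un (MC ends ω b)) L
          then (1 : ℝ) else 0)) ≤
          al J (fun L : List V => g ^ 3 * (cz ends ω u * (cz ends ω v * cz ends ω w)) +
            g ^ 2 * (cz ends ω u * cz ends ω v) *
              (if ∃ z ∈ L, z ∈ cu ends ω w then (1 : ℝ) else 0)) := by
        refine al_mono J _ _ fun L _ => ?_
        have h2 : Ex g (fun b : V → Bool => if hit b (cu ends ω u) ∧
            hit b (cu ends ω v) ∧ v ∉ cu ends ω u ∧ w ∈ rn ends ω (Un (MC ends ω b)) L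
            then (1 : ℝ) else 0) ≤ Ex g (fun b : V → Bool =>
            (if hit b (cu ends ω u) ∧ hit b (cu ends ω v) ∧ hit b (cu ends ω w) then (1 : ℝ) else 0) +
            (if ∃ z ∈ L, z ∈ cu ends ω w then (1 : ℝ) else 0) *
              (if hit b (cu ends ω u) ∧ hit b (cu ends ω v) then (1 : ℝ) else 0)) := by
          refine Ex_mono hg0 hg1 fun b => ?_
          by_cases h : hit b (cu ends ω u) ∧ hit b (cu ends ω v) ∧ v ∉ cu ends ω u ∧
              w ∈ rn ends ω (Un (MC ends ω b)) L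
          · rw [if_pos h]
            rcases rn_mem L _ (Ful_MC ω b) h.2.2.2 with h5 | h5
            · rw [mem_Un_MC] at h5
              rw [if_pos (⟨h.1, h.2.1, h5⟩ : hit b (cu ends ω u) ∧ hit b (cu ends ω v) ∧
                hit b (cu ends ω w))]
              have : (0 : ℝ) ≤ (if ∃ z ∈ L, z ∈ cu ends ω w then (1 : ℝ) else 0) *
                (if hit b (cu ends ω u) ∧ hit b (cu ends ω v) then (1 : ℝ) else 0) :=
                mul_nonneg (by split_ifs <;> norm_num) (by split_ifs <;> norm_num)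
              linarith
            · rw [if_pos h5, if_pos (⟨h.1, h.2.1⟩ : hit b (cu ends ω u) ∧ hit b (cu ends ω v))]
              have : (0 : ℝ) ≤ (if hit b (cu ends ω u) ∧ hit b (cu ends ω v) ∧
                hit b (cu ends ω w) then (1 : ℝ) else 0) := by split_ifs <;> norm_num
              linarith
          · rw [if_neg h]
            exact add_nonneg (by split_ifs <;> norm_num)
              (mul_nonneg (by split_ifs <;> norm_num) (by split_ifs <;> norm_num))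
        refine h2.trans ?_
        rw [Ex_add, Ex_mul_left]
        have h6 : (0 : ℝ) ≤ (if ∃ z ∈ L, z ∈ cu ends ω w then (1 : ℝ) else 0) := by
          split_ifs <;> norm_num
        have h7 := mul_le_mul_of_nonneg_left hpair h6
        linarith
      refine h1.trans ?_
      rw [al_add, al_const, al_mul]
      have h8 := al_hit (V := V) J (cu ends ω w)
      have h9 := mul_le_mul_of_nonneg_left h8
        (mul_nonneg (sq_nonneg g) (mul_nonneg hu0 hv0) : 0 ≤ g ^ 2 * (cz ends ω u * cz ends ω v))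
      have e1 : g ^ 2 * (cz ends ω u * cz ends ω v) *
          (J * ((cu ends ω w).card : ℝ) / Fintype.card V) =
          g ^ 2 * (J / Fintype.card V) * (cz ends ω u * (cz ends ω v * cz ends ω w)) := by
        have : cz ends ω w = ((cu ends ω w).card : ℝ) := rfl
        rw [this]
        ring
      rw [e1] at h9
      refine (add_le_add_right h9 _).trans (le_of_eq ?_)
      ring

open scoped Classical in
/-- Row E3. For fixed `ω` with `v ∉ cu ω u`: if `w ∈ cu ω u` or `w ∈ cu ω v` the probability over `b` is at most `g² |C(u)| |C(v)|`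
(`hit_two`, `cu_disj`; drop the condition on `w`); otherwise, by `rn_mem` (`Ful_MC`) `w` is marked (`mem_Un_MC`) or some start is in
`cu ω w`, so the probability over `b`, `L` is at most `g³ |C(u)||C(v)||C(w)| + g² |C(u)||C(v)| J |C(w)| / |V|` (`hit_three`,
`al_hit`). Take the expectation over `ω`: `two` with `Φ A = |A| 1[w ∈ A]`, `h A = |A|` for the first two (for `w ∈ cu ω v` start with
`v`; `cu_symm`), `three` (or `three2`) with the cardinalities for the last one. -/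
lemma tri3 [Nonempty V] {p g X : ℝ} (h0 : 0 ≤ p) (h1 : p ≤ 1) (hg0 : 0 ≤ g) (hg1 : g ≤ 1)
    (hX : ∀ x, Ex p (fun ω => cz ends ω x) ≤ X) (J : ℕ) (u v w : V) :
    al J (fun L : List V => Ex p (fun ω => Ex g (fun b : V → Bool => if hit b (cu ends ω u) ∧
      hit b (cu ends ω v) ∧ v ∉ cu ends ω u ∧ w ∈ rn ends ω (Un (MC ends ω b)) L
      then (1 : ℝ) else 0))) ≤
      g ^ 2 * (g + J / Fintype.card V) * X ^ 3 + g ^ 2 * X * (Gf ends p u w + Gf ends p v w) := by
  have hcz : ∀ x, 0 ≤ Ex p (fun ω => cz ends ω x) := fun x => Ex_nonneg h0 h1 fun ω => cz_nonneg ω x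
  have hX0 : 0 ≤ X := (hcz u).trans (hX u)
  have hGu : 0 ≤ Gf ends p u w :=
    Ex_nonneg h0 h1 fun ω => mul_nonneg (cz_nonneg ω u) (by split_ifs <;> norm_num)
  have hGv : 0 ≤ Gf ends p v w :=
    Ex_nonneg h0 h1 fun ω => mul_nonneg (cz_nonneg ω v) (by split_ifs <;> norm_num)
  have hc0 : 0 ≤ g ^ 2 * (g + J / Fintype.card V) := by positivity
  rw [← al_Ex]
  refine (Ex_mono h0 h1 fun ω => E3_pt (ends := ends) hg0 hg1 J u v w ω).trans ?_
  rw [Ex_add, Ex_add, Ex_mul_left, Ex_mul_left, Ex_mul_left]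
  have m1 : ∀ A B : Finset V, A ⊆ B → (A.card : ℝ) ≤ (B.card : ℝ) := fun A B h => by
    exact_mod_cast Finset.card_le_card h
  have t1 := two (ends := ends) h0 h1 u v (fun A : Finset V => (A.card : ℝ) * (if w ∈ A then 1 else 0))
    (fun A => mul_nonneg (Nat.cast_nonneg _) (by split_ifs <;> norm_num))
    (fun A : Finset V => (A.card : ℝ)) (fun A => Nat.cast_nonneg _) m1
  have t2 := two (ends := ends) h0 h1 v u (fun A : Finset V => (A.card : ℝ) * (if w ∈ A then 1 else 0))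
    (fun A => mul_nonneg (Nat.cast_nonneg _) (by split_ifs <;> norm_num))
    (fun A : Finset V => (A.card : ℝ)) (fun A => Nat.cast_nonneg _) m1
  have t3 := three (ends := ends) h0 h1 u v w (fun A : Finset V => (A.card : ℝ))
    (fun A : Finset V => (A.card : ℝ)) (fun A : Finset V => (A.card : ℝ))
    (fun A => Nat.cast_nonneg _) (fun A => Nat.cast_nonneg _) (fun A => Nat.cast_nonneg _) m1 m1 m1
  have s1 : Ex p (fun ω => (if v ∈ cu ends ω u then 0 else 1) *
      ((cz ends ω u * (if w ∈ cu ends ω u then 1 else 0)) * cz ends ω v)) ≤ Gf ends p u w * X :=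
    t1.trans (mul_le_mul_of_nonneg_left (hX v) hGu)
  have s2 : Ex p (fun ω => (if u ∈ cu ends ω v then 0 else 1) *
      ((cz ends ω v * (if w ∈ cu ends ω v then 1 else 0)) * cz ends ω u)) ≤ Gf ends p v w * X :=
    t2.trans (mul_le_mul_of_nonneg_left (hX u) hGv)
  have s3 : Ex p (fun ω => (if v ∈ cu ends ω u then 0 else 1) *
        ((if w ∈ cu ends ω u then 0 else 1) * ((if w ∈ cu ends ω v then 0 else 1) *
        (cz ends ω u * (cz ends ω v * cz ends ω w))))) ≤ X * (X * X) :=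
    t3.trans (mul_le_mul (hX u) (mul_le_mul (hX v) (hX w) (hcz w) hX0)
      (mul_nonneg (hcz v) (hcz w)) hX0)
  have q1 := mul_le_mul_of_nonneg_left s1 (sq_nonneg g)
  have q2 := mul_le_mul_of_nonneg_left s2 (sq_nonneg g)
  have q3 := mul_le_mul_of_nonneg_left s3 hc0
  calc _ ≤ g ^ 2 * (Gf ends p u w * X) + (g ^ 2 * (Gf ends p v w * X) +
        g ^ 2 * (g + J / Fintype.card V) * (X * (X * X))) :=
        add_le_add q1 (add_le_add q2 q3)
    _ = _ := by ring

lemma E4_symm (p : ℝ) (x y : V) : ta ends p x y = ta ends p y x := by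
  unfold ta
  refine Ex_congr fun ω => ?_
  by_cases h : y ∈ cu ends ω x
  · rw [if_pos h, if_pos (cu_symm.1 h)]
  · rw [if_neg h, if_neg (fun h2 => h (cu_symm.1 h2))]

lemma E4_sh {p X : ℝ} (h0 : 0 ≤ p) (h1 : p ≤ 1)
    (hX : ∀ x, Ex p (fun ω => cz ends ω x) ≤ X) (sh : V → V) (W : Finset V) (hW : Set.InjOn sh W)
    (w : V) : ∑ v ∈ W, ta ends p w (sh v) ≤ X := by
  classical
  rw [← Finset.sum_image (f := fun y => ta ends p w y) (g := sh) (s := W) (fun a ha b hb h => hW ha hb h)]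
  refine (Finset.sum_le_univ_sum_of_nonneg fun y => ta_nonneg h0 h1 w y).trans ?_
  rw [ta_sum]
  exact hX w

lemma E4_sh2 {p X : ℝ} (h0 : 0 ≤ p) (h1 : p ≤ 1)
    (hX : ∀ x, Ex p (fun ω => cz ends ω x) ≤ X) (sh : V → V) (W : Finset V) (hW : Set.InjOn sh W)
    (w : V) : ∑ v ∈ W, ta ends p (sh v) w ≤ X := by
  calc _ = ∑ v ∈ W, ta ends p w (sh v) := Finset.sum_congr rfl fun v _ => E4_symm p _ _
    _ ≤ X := E4_sh h0 h1 hX sh W hW w

lemma E4_one {p X : ℝ} (h0 : 0 ≤ p) (h1 : p ≤ 1) (hX0 : 0 ≤ X)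
    (hX : ∀ x, Ex p (fun ω => cz ends ω x) ≤ X) (sh : V → V) (W : Finset V) (hW : Set.InjOn sh W) :
    ∑ u ∈ W, ∑ v ∈ W, ∑ w, ta ends p (sh u) w * ta ends p w (sh v) ≤ Fintype.card V * X ^ 2 := by
  have e : ∀ u ∈ W, ∑ v ∈ W, ∑ w, ta ends p (sh u) w * ta ends p w (sh v) ≤ X ^ 2 := by
    intro u _
    rw [Finset.sum_comm]
    calc ∑ w, ∑ v ∈ W, ta ends p (sh u) w * ta ends p w (sh v)
        = ∑ w, ta ends p (sh u) w * ∑ v ∈ W, ta ends p w (sh v) :=
          Finset.sum_congr rfl fun w _ => by rw [Finset.mul_sum]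
      _ ≤ ∑ w, ta ends p (sh u) w * X := Finset.sum_le_sum fun w _ =>
          mul_le_mul_of_nonneg_left (E4_sh h0 h1 hX sh W hW w) (ta_nonneg h0 h1 _ _)
      _ = (∑ w, ta ends p (sh u) w) * X := by rw [Finset.sum_mul]
      _ ≤ X * X := by
          refine mul_le_mul_of_nonneg_right ?_ hX0
          rw [ta_sum]
          exact hX _
      _ = X ^ 2 := by ring
  calc _ ≤ ∑ _u ∈ W, X ^ 2 := Finset.sum_le_sum e
    _ = (W.card : ℝ) * X ^ 2 := by rw [Finset.sum_const, nsmul_eq_mul]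
    _ ≤ Fintype.card V * X ^ 2 := by
        refine mul_le_mul_of_nonneg_right ?_ (by positivity)
        exact_mod_cast Finset.card_le_univ W

lemma E4_two {p X δ : ℝ} (h0 : 0 ≤ p) (h1 : p ≤ 1) (hX0 : 0 ≤ X)
    (hX : ∀ x, Ex p (fun ω => cz ends ω x) ≤ X) (sh : V → V) (W : Finset V)
    (hδ : ∀ x, ∑ u ∈ W, ∑ w, ta ends p x u * (ta ends p x w * ta ends p (sh u) w) ≤ δ) :
    ∑ u ∈ W, ∑ w, ta ends p (sh u) w * Gf ends p u w ≤ Fintype.card V * (X * δ) := by
  calc ∑ u ∈ W, ∑ w, ta ends p (sh u) w * Gf ends p u w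
      ≤ ∑ u ∈ W, ∑ w, ta ends p (sh u) w * (X * ∑ z, ta ends p u z * ta ends p z w) :=
        Finset.sum_le_sum fun u _ => Finset.sum_le_sum fun w _ =>
          mul_le_mul_of_nonneg_left (Gf_le2 h0 h1 hX u w) (ta_nonneg h0 h1 _ _)
    _ = ∑ x : V, X * ∑ u ∈ W, ∑ w, ta ends p x u * (ta ends p x w * ta ends p (sh u) w) := by
        have e1 : ∀ u ∈ W, ∑ w, ta ends p (sh u) w * (X * ∑ z, ta ends p u z * ta ends p z w) =
            ∑ x : V, X * ∑ w, ta ends p x u * (ta ends p x w * ta ends p (sh u) w) := by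
          intro u _
          have e2 : ∀ w : V, ta ends p (sh u) w * (X * ∑ z, ta ends p u z * ta ends p z w) =
              ∑ z : V, X * (ta ends p z u * (ta ends p z w * ta ends p (sh u) w)) := by
            intro w
            rw [Finset.mul_sum, Finset.mul_sum]
            refine Finset.sum_congr rfl fun z _ => ?_
            rw [E4_symm p u z]
            ring
          rw [Finset.sum_congr rfl fun w _ => e2 w, Finset.sum_comm]
          refine Finset.sum_congr rfl fun z _ => ?_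
          rw [Finset.mul_sum]
        rw [Finset.sum_congr rfl e1, Finset.sum_comm]
        refine Finset.sum_congr rfl fun x _ => ?_
        rw [Finset.mul_sum]
    _ ≤ ∑ _x : V, X * δ := Finset.sum_le_sum fun x _ => mul_le_mul_of_nonneg_left (hδ x) hX0
    _ = Fintype.card V * (X * δ) := by
        rw [Finset.sum_const, nsmul_eq_mul, Finset.card_univ]

lemma E4_three {p X δ : ℝ} (h0 : 0 ≤ p) (h1 : p ≤ 1) (hX0 : 0 ≤ X)
    (hX : ∀ x, Ex p (fun ω => cz ends ω x) ≤ X) (sh : V → V) (W : Finset V) (hW : Set.InjOn sh W)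
    (hδ : ∀ x, ∑ u ∈ W, ∑ w, ta ends p x u * (ta ends p x w * ta ends p (sh u) w) ≤ δ) :
    ∑ u ∈ W, ∑ v ∈ W, ∑ w, ta ends p (sh u) w * ta ends p w (sh v) * Gf ends p u w ≤
      Fintype.card V * (X ^ 2 * δ) := by
  calc ∑ u ∈ W, ∑ v ∈ W, ∑ w, ta ends p (sh u) w * ta ends p w (sh v) * Gf ends p u w
      = ∑ u ∈ W, ∑ w, (ta ends p (sh u) w * Gf ends p u w) * ∑ v ∈ W, ta ends p w (sh v) := by
        refine Finset.sum_congr rfl fun u _ => ?_
        rw [Finset.sum_comm]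
        refine Finset.sum_congr rfl fun w _ => ?_
        rw [Finset.mul_sum]
        exact Finset.sum_congr rfl fun v _ => by ring
    _ ≤ ∑ u ∈ W, ∑ w, (ta ends p (sh u) w * Gf ends p u w) * X :=
        Finset.sum_le_sum fun u _ => Finset.sum_le_sum fun w _ =>
          mul_le_mul_of_nonneg_left (E4_sh h0 h1 hX sh W hW w)
            (mul_nonneg (ta_nonneg h0 h1 _ _) (Gf_nonneg h0 h1 _ _))
    _ = (∑ u ∈ W, ∑ w, ta ends p (sh u) w * Gf ends p u w) * X := by
        rw [Finset.sum_mul]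
        exact Finset.sum_congr rfl fun u _ => by rw [Finset.sum_mul]
    _ ≤ (Fintype.card V * (X * δ)) * X :=
        mul_le_mul_of_nonneg_right (E4_two h0 h1 hX0 hX sh W hδ) hX0
    _ = _ := by ring

open scoped Classical in
lemma E4_pt (p : ℝ) (sh : V → V) (W : Finset V) (ω : E → Bool) (b : V → Bool) (L : List V) :
    GG ends p sh W (MC ends ω b) (rn ends ω (Un (MC ends ω b)) L) =
      ∑ u ∈ W, ∑ v ∈ W, ∑ w, ta ends p (sh u) w * ta ends p w (sh v) *
        (if hit b (cu ends ω u) ∧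
        hit b (cu ends ω v) ∧ v ∉ cu ends ω u ∧ w ∈ rn ends ω (Un (MC ends ω b)) L
        then (1 : ℝ) else 0) := by
  unfold GG
  set R := rn ends ω (Un (MC ends ω b)) L with hR
  have e1 : ∀ q : V × V, ∑ w ∈ R, ta ends p (sh q.1) w * ta ends p w (sh q.2) =
      ∑ w, ta ends p (sh q.1) w * ta ends p w (sh q.2) * (if w ∈ R then (1 : ℝ) else 0) := by
    intro q
    rw [← Finset.sum_filter_add_sum_filter_not Finset.univ (fun w => w ∈ R)]
    have e2 : ∑ w ∈ Finset.univ.filter (fun w => ¬ w ∈ R),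
        ta ends p (sh q.1) w * ta ends p w (sh q.2) * (if w ∈ R then (1 : ℝ) else 0) = 0 :=
      Finset.sum_eq_zero fun w hw => by
        rw [if_neg (Finset.mem_filter.1 hw).2, mul_zero]
    rw [e2, add_zero]
    have e3 : Finset.univ.filter (fun w => w ∈ R) = R := by
      ext w
      simp
    rw [e3]
    exact Finset.sum_congr rfl fun w hw => by rw [if_pos hw, mul_one]
  rw [Finset.sum_congr rfl fun q _ => e1 q]
  have e4 : Pi2 W (MC ends ω b) = (W ×ˢ W).filter (fun q => hit b (cu ends ω q.1) ∧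
      hit b (cu ends ω q.2) ∧ q.2 ∉ cu ends ω q.1) := by
    ext ⟨u, v⟩
    rw [mem_Pi2_MC, Finset.mem_filter, Finset.mem_product]
    tauto
  rw [e4, Finset.sum_filter, Finset.sum_product]
  refine Finset.sum_congr rfl fun u _ => Finset.sum_congr rfl fun v _ => ?_
  by_cases hc : hit b (cu ends ω u) ∧ hit b (cu ends ω v) ∧ v ∉ cu ends ω u
  · rw [if_pos hc]
    refine Finset.sum_congr rfl fun w _ => ?_
    congr 1
    by_cases hw : w ∈ R
    · rw [if_pos hw, if_pos ⟨hc.1, hc.2.1, hc.2.2, hw⟩]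
    · rw [if_neg hw, if_neg (fun h => hw h.2.2.2)]
  · rw [if_neg hc]
    symm
    refine Finset.sum_eq_zero fun w _ => ?_
    rw [if_neg (fun h => hc ⟨h.1, h.2.1, h.2.2.1⟩), mul_zero]

/-- Row E4. Sum of `tri3`: `GG ≤ ∑ u ∈ W, ∑ v ∈ W, ∑ w, τ(sh u, w) τ(w, sh v) 1[..]` (`mem_Pi2_MC`). First term:
`∑ v ∈ W, τ(w, sh v) ≤ ∑ y, τ(w, y) ≤ X` (`sh` is injective on `W`; `ta_sum`), and the same for `∑ w, τ(sh u, w)`; `|W| ≤ |V|`. Second term:
`∑ u ∈ W, ∑ w, Gf u w τ(sh u, w) X ≤ X² ∑ u ∈ W, ∑ w, ∑ x, τ(u,x) τ(x,w) τ(sh u, w) ≤ X² δ |V|` (`Gf_le2`, `hδ`, symmetry of `ta`, which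
follows from `cu_symm`); the third term is the same with `u`, `v` exchanged. -/
lemma xG [Nonempty V] {p g X δ : ℝ} (h0 : 0 ≤ p) (h1 : p ≤ 1) (hg0 : 0 ≤ g) (hg1 : g ≤ 1)
    (hX : ∀ x, Ex p (fun ω => cz ends ω x) ≤ X) (sh : V → V) (W : Finset V) (hW : Set.InjOn sh W)
    (hδ : ∀ x, ∑ u ∈ W, ∑ w, ta ends p x u * (ta ends p x w * ta ends p (sh u) w) ≤ δ) (J : ℕ) :
    al J (fun L : List V => Ex p (fun ω => Ex g (fun b : V → Bool =>
      GG ends p sh W (MC ends ω b) (rn ends ω (Un (MC ends ω b)) L)))) ≤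
      Fintype.card V * (g ^ 2 * (g + J / Fintype.card V) * X ^ 5 + 2 * g ^ 2 * X ^ 3 * δ) := by
  classical
  have hX0 : 0 ≤ X := (Ex_nonneg h0 h1 fun ω => cz_nonneg ω (Classical.arbitrary V)).trans
    (hX (Classical.arbitrary V))
  set K1 : ℝ := g ^ 2 * (g + J / Fintype.card V) * X ^ 3 with hK1
  have hn0 : (0 : ℝ) ≤ Fintype.card V := Nat.cast_nonneg _
  have hK0 : 0 ≤ K1 := by
    rw [hK1]
    positivity
  have e1 : al J (fun L : List V => Ex p (fun ω => Ex g (fun b : V → Bool =>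
      GG ends p sh W (MC ends ω b) (rn ends ω (Un (MC ends ω b)) L)))) =
      ∑ u ∈ W, ∑ v ∈ W, ∑ w, ta ends p (sh u) w * ta ends p w (sh v) *
        al J (fun L : List V => Ex p (fun ω => Ex g (fun b : V → Bool => if hit b (cu ends ω u) ∧
      hit b (cu ends ω v) ∧ v ∉ cu ends ω u ∧ w ∈ rn ends ω (Un (MC ends ω b)) L
      then (1 : ℝ) else 0))) := by
    have f1 : (fun L : List V => Ex p (fun ω => Ex g (fun b : V → Bool =>
        GG ends p sh W (MC ends ω b) (rn ends ω (Un (MC ends ω b)) L)))) =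
        fun L : List V => ∑ u ∈ W, ∑ v ∈ W, ∑ w, ta ends p (sh u) w * ta ends p w (sh v) *
          Ex p (fun ω => Ex g (fun b : V → Bool => if hit b (cu ends ω u) ∧
      hit b (cu ends ω v) ∧ v ∉ cu ends ω u ∧ w ∈ rn ends ω (Un (MC ends ω b)) L
      then (1 : ℝ) else 0)) := by
      funext L
      have f2 : ∀ ω : E → Bool, Ex g (fun b : V → Bool =>
          GG ends p sh W (MC ends ω b) (rn ends ω (Un (MC ends ω b)) L)) =
          ∑ u ∈ W, ∑ v ∈ W, ∑ w, ta ends p (sh u) w * ta ends p w (sh v) *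
          Ex g (fun b : V → Bool => if hit b (cu ends ω u) ∧
      hit b (cu ends ω v) ∧ v ∉ cu ends ω u ∧ w ∈ rn ends ω (Un (MC ends ω b)) L
      then (1 : ℝ) else 0) := by
        intro ω
        rw [Ex_congr fun b => E4_pt p sh W ω b L]
        rw [Ex_sum]
        refine Finset.sum_congr rfl fun u _ => ?_
        rw [Ex_sum]
        refine Finset.sum_congr rfl fun v _ => ?_
        rw [Ex_sum]
        refine Finset.sum_congr rfl fun w _ => ?_
        rw [Ex_mul_left]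
      rw [Ex_congr f2]
      rw [Ex_sum]
      refine Finset.sum_congr rfl fun u _ => ?_
      rw [Ex_sum]
      refine Finset.sum_congr rfl fun v _ => ?_
      rw [Ex_sum]
      refine Finset.sum_congr rfl fun w _ => ?_
      rw [Ex_mul_left]
    rw [f1, al_sum]
    refine Finset.sum_congr rfl fun u _ => ?_
    rw [al_sum]
    refine Finset.sum_congr rfl fun v _ => ?_
    rw [al_sum]
    refine Finset.sum_congr rfl fun w _ => ?_
    rw [al_mul]
  rw [e1]
  have e2 : ∀ u ∈ W, ∀ v ∈ W, ∀ w, ta ends p (sh u) w * ta ends p w (sh v) *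
        al J (fun L : List V => Ex p (fun ω => Ex g (fun b : V → Bool => if hit b (cu ends ω u) ∧
      hit b (cu ends ω v) ∧ v ∉ cu ends ω u ∧ w ∈ rn ends ω (Un (MC ends ω b)) L
      then (1 : ℝ) else 0))) ≤ K1 * (ta ends p (sh u) w * ta ends p w (sh v)) +
        (g ^ 2 * X * (ta ends p (sh u) w * ta ends p w (sh v) * Gf ends p u w) +
        g ^ 2 * X * (ta ends p (sh v) w * ta ends p w (sh u) * Gf ends p v w)) := by
    intro u _ v _ w
    refine (mul_le_mul_of_nonneg_left (tri3 h0 h1 hg0 hg1 hX J u v w)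
      (mul_nonneg (ta_nonneg h0 h1 _ _) (ta_nonneg h0 h1 _ _))).trans (le_of_eq ?_)
    rw [E4_symm p (sh v) w, E4_symm p w (sh u), hK1]
    ring
  have e3 : ∑ u ∈ W, ∑ v ∈ W, ∑ w, ta ends p (sh u) w * ta ends p w (sh v) *
        al J (fun L : List V => Ex p (fun ω => Ex g (fun b : V → Bool => if hit b (cu ends ω u) ∧
      hit b (cu ends ω v) ∧ v ∉ cu ends ω u ∧ w ∈ rn ends ω (Un (MC ends ω b)) L
      then (1 : ℝ) else 0))) ≤ K1 * ∑ u ∈ W, ∑ v ∈ W, ∑ w, ta ends p (sh u) w * ta ends p w (sh v) +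
        (g ^ 2 * X * (∑ u ∈ W, ∑ v ∈ W, ∑ w, ta ends p (sh u) w * ta ends p w (sh v) * Gf ends p u w) +
        g ^ 2 * X * (∑ u ∈ W, ∑ v ∈ W, ∑ w, ta ends p (sh v) w * ta ends p w (sh u) * Gf ends p v w)) := by
    refine (Finset.sum_le_sum fun u hu => Finset.sum_le_sum fun v hv =>
      Finset.sum_le_sum fun w _ => e2 u hu v hv w).trans (le_of_eq ?_)
    simp only [Finset.sum_add_distrib, ← Finset.mul_sum]
  refine e3.trans ?_
  have e4 : ∑ u ∈ W, ∑ v ∈ W, ∑ w, ta ends p (sh v) w * ta ends p w (sh u) * Gf ends p v w =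
      ∑ u ∈ W, ∑ v ∈ W, ∑ w, ta ends p (sh u) w * ta ends p w (sh v) * Gf ends p u w :=
    Finset.sum_comm
  rw [e4]
  have a1 := mul_le_mul_of_nonneg_left (E4_one h0 h1 hX0 hX sh W hW) hK0
  have a2 := mul_le_mul_of_nonneg_left (E4_three h0 h1 hX0 hX sh W hW hδ)
    (show 0 ≤ g ^ 2 * X by positivity)
  refine (add_le_add a1 (add_le_add a2 a2)).trans (le_of_eq ?_)
  rw [hK1]
  ring

open scoped Classical in
private noncomputable def E5_F (k2 : ℝ) (s : V) (A : Finset V) : ℝ :=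
  if s ∈ A ∧ (A.card : ℝ) < k2 then 1 else 0

private lemma E5_F_nonneg (k2 : ℝ) (s : V) (A : Finset V) : 0 ≤ E5_F k2 s A := by
  unfold E5_F
  split_ifs <;> norm_num

open scoped Classical in
private noncomputable def E5_h (b : V → Bool) (A B : Finset V) : ℝ :=
  if hit b A ∧ hit b B then 1 else 0

private lemma E5_h_nonneg (b : V → Bool) (A B : Finset V) : 0 ≤ E5_h b A B := by
  unfold E5_h
  split_ifs <;> norm_num

private noncomputable def E5_c (ends : E → Sym2 V) (sh : V → V) (k2 : ℝ) (u v : V) (ω : E → Bool) : ℝ :=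
  (if u ∈ cu ends ω (sh u) then 0 else 1) * ((if v ∈ cu ends ω (sh u) then 0 else 1) *
      ((if v ∈ cu ends ω u then 0 else 1) * E5_F k2 (sh v) (cu ends ω (sh u))))

private lemma E5_c_nonneg (sh : V → V) (k2 : ℝ) (u v : V) (ω : E → Bool) : 0 ≤ E5_c ends sh k2 u v ω := by
  unfold E5_c
  have h := E5_F_nonneg k2 (sh v) (cu ends ω (sh u))
  refine mul_nonneg (by split_ifs <;> norm_num) (mul_nonneg (by split_ifs <;> norm_num)
    (mul_nonneg (by split_ifs <;> norm_num) h))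

private lemma E5_pt (sh : V → V) (k2 : ℝ) (W : Finset V) (ω : E → Bool) (b : V → Bool) :
    ∑ q ∈ Pi2 W (MC ends ω b), E5_F k2 (sh q.2) (cr ends ω (Un (MC ends ω b)) (sh q.1)) ≤
      ∑ u ∈ W, ∑ v ∈ W, E5_c ends sh k2 u v ω * E5_h b (cu ends ω u) (cu ends ω v) := by
  classical
  rw [← Finset.sum_product']
  have hsub : Pi2 W (MC ends ω b) ⊆ W ×ˢ W := by
    intro q hq
    have h := (mem_Pi2_MC (u := q.1) (v := q.2)).1 hq
    exact Finset.mem_product.2 ⟨h.1, h.2.1⟩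
  refine le_trans (Finset.sum_le_sum ?_) (Finset.sum_le_sum_of_subset_of_nonneg hsub fun q _ _ =>
    mul_nonneg (E5_c_nonneg _ _ _ _ _) (E5_h_nonneg _ _ _))
  intro q hq
  obtain ⟨u, v⟩ := q
  obtain ⟨hu, hv, h1, h2, h3⟩ := mem_Pi2_MC.1 hq
  have hh : E5_h b (cu ends ω u) (cu ends ω v) = 1 := by
    unfold E5_h
    exact if_pos ⟨h1, h2⟩
  rw [hh, mul_one]
  change E5_F k2 (sh v) (cr ends ω (Un (MC ends ω b)) (sh u)) ≤ E5_c ends sh k2 u v ω
  have hcr := cr_full (Ful_MC (ends := ends) ω b) (sh u)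
  by_cases hR : sh u ∈ Un (MC ends ω b)
  · rw [if_pos hR] at hcr
    rw [hcr]
    have : E5_F k2 (sh v) (∅ : Finset V) = 0 := by
      unfold E5_F
      exact if_neg fun h => absurd h.1 (Finset.notMem_empty _)
    rw [this]
    exact E5_c_nonneg _ _ _ _ _
  · rw [if_neg hR] at hcr
    rw [hcr]
    have hn : ¬ hit b (cu ends ω (sh u)) := fun h => hR (mem_Un_MC.2 h)
    have k1 : u ∉ cu ends ω (sh u) := by
      intro h
      apply hn
      rw [← cu_eq h]
      exact h1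
    have k2' : v ∉ cu ends ω (sh u) := by
      intro h
      apply hn
      rw [← cu_eq h]
      exact h2
    unfold E5_c
    rw [if_neg k1, if_neg k2', if_neg h3, one_mul, one_mul, one_mul]

/-- the mean over the marks -/
private lemma E5_marks {g : ℝ} (hg0 : 0 ≤ g) (hg1 : g ≤ 1) (sh : V → V) (k2 : ℝ) (u v : V) (ω : E → Bool) :
    Ex g (fun b : V → Bool => E5_c ends sh k2 u v ω * E5_h b (cu ends ω u) (cu ends ω v)) ≤
      g ^ 2 * ((if u ∈ cu ends ω (sh u) then 0 else 1) * ((if v ∈ cu ends ω (sh u) then 0 else 1) *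
      ((if v ∈ cu ends ω u then 0 else 1) * (E5_F k2 (sh v) (cu ends ω (sh u)) *
        (cz ends ω u * cz ends ω v))))) := by
  classical
  rw [Ex_mul_left]
  by_cases h3 : v ∈ cu ends ω u
  · unfold E5_c
    rw [if_pos h3]
    simp
  · have hd := hit_two hg0 hg1 _ _ (cu_disj h3)
    have h4 : Ex g (fun b : V → Bool => E5_h b (cu ends ω u) (cu ends ω v)) ≤
        g ^ 2 * (cz ends ω u * cz ends ω v) := by
      refine le_trans (le_of_eq (Ex_congr fun b => ?_)) hd
      unfold E5_h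
      rfl
    calc E5_c ends sh k2 u v ω * Ex g (fun b : V → Bool => E5_h b (cu ends ω u) (cu ends ω v))
        ≤ E5_c ends sh k2 u v ω * (g ^ 2 * (cz ends ω u * cz ends ω v)) :=
          mul_le_mul_of_nonneg_left h4 (E5_c_nonneg _ _ _ _ _)
      _ = _ := by
          unfold E5_c
          ring

/-- the mean over the configuration -/
private lemma E5_conf {p X k2 : ℝ} (h0 : 0 ≤ p) (h1 : p ≤ 1)
    (hX : ∀ x, Ex p (fun ω => cz ends ω x) ≤ X) (sh : V → V) (u v : V) :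
    Ex p (fun ω => (if u ∈ cu ends ω (sh u) then 0 else 1) * ((if v ∈ cu ends ω (sh u) then 0 else 1) *
      ((if v ∈ cu ends ω u then 0 else 1) * (E5_F k2 (sh v) (cu ends ω (sh u)) *
        (cz ends ω u * cz ends ω v))))) ≤
      Ex p (fun ω => E5_F k2 (sh v) (cu ends ω (sh u))) * X ^ 2 := by
  have h := three2 (ends := ends) h0 h1 (sh u) u v (E5_F k2 (sh v)) (fun A => (A.card : ℝ))
    (fun A => (A.card : ℝ)) (E5_F_nonneg k2 (sh v)) (fun _ => Nat.cast_nonneg _)
    (fun _ => Nat.cast_nonneg _) (fun A B hAB => by exact_mod_cast Finset.card_le_card hAB)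
    (fun A B hAB => by exact_mod_cast Finset.card_le_card hAB)
  refine le_trans h ?_
  have hF : 0 ≤ Ex p (fun ω => E5_F k2 (sh v) (cu ends ω (sh u))) :=
    Ex_nonneg h0 h1 fun ω => E5_F_nonneg _ _ _
  refine mul_le_mul_of_nonneg_left ?_ hF
  have hu := hX u
  have hv := hX v
  have hv0 : 0 ≤ Ex p (fun ω => cz ends ω v) := Ex_nonneg h0 h1 fun ω => cz_nonneg _ _
  have hX0 : 0 ≤ X := le_trans (Ex_nonneg h0 h1 fun ω => cz_nonneg (ends := ends) ω u) hu
  rw [sq]
  exact mul_le_mul hu hv hv0 hX0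

/-- the sum over the second point -/
private lemma E5_sum {p C k2 : ℝ} (h0 : 0 ≤ p) (h1 : p ≤ 1) (hC : 0 ≤ C) (hk : 1 ≤ k2)
    (hT : ∀ x, ∀ k : ℕ, 1 ≤ k → Ex p (fun ω => if (k : ℝ) ≤ cz ends ω x then (1 : ℝ) else 0) ≤
      C / Real.sqrt k) (sh : V → V) (W : Finset V) (hW : Set.InjOn sh W) (u : V) :
    ∑ v ∈ W, Ex p (fun ω => E5_F k2 (sh v) (cu ends ω (sh u))) ≤ 3 * C * Real.sqrt k2 := by
  classical
  rw [← Ex_sum]
  refine le_trans (Ex_mono h0 h1 fun ω => ?_) (min_tail h0 h1 hC (sh u) (hT (sh u)) hk)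
  unfold cz
  set A := cu ends ω (sh u) with hA
  by_cases hc : (A.card : ℝ) < k2
  · have e1 : ∀ v, E5_F k2 (sh v) A = if sh v ∈ A then 1 else 0 := by
      intro v
      unfold E5_F
      by_cases hv : sh v ∈ A
      · rw [if_pos ⟨hv, hc⟩, if_pos hv]
      · rw [if_neg fun h => hv h.1, if_neg hv]
    rw [Finset.sum_congr rfl fun v _ => e1 v, Finset.sum_ite, Finset.sum_const_zero, add_zero,
      Finset.sum_const, nsmul_eq_mul, mul_one, min_eq_left hc.le]
    have : (W.filter (fun v => sh v ∈ A)).card ≤ A.card :=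
      Finset.card_le_card_of_injOn sh (fun v hv => (Finset.mem_filter.1 hv).2)
        (hW.mono fun v hv => (Finset.mem_filter.1 hv).1)
    exact_mod_cast this
  · have e1 : ∀ v, E5_F k2 (sh v) A = 0 := by
      intro v
      unfold E5_F
      exact if_neg fun h => hc h.2
    rw [Finset.sum_congr rfl fun v _ => e1 v, Finset.sum_const_zero]
    exact le_min (Nat.cast_nonneg _) (by linarith)

private lemma E5_explore {p k2 : ℝ} (sh : V → V) (W : Finset V) (b : V → Bool) :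
    Ex p (fun ω => MM ends p sh W (MC ends ω b) k2 (Un (MC ends ω b))) =
      Ex p (fun ω => ∑ q ∈ Pi2 W (MC ends ω b),
        E5_F k2 (sh q.2) (cr ends ω (Un (MC ends ω b)) (sh q.1))) := by
  have h := explore_MC (ends := ends) p b (fun 𝒞 ω' => ∑ q ∈ Pi2 W 𝒞,
        E5_F k2 (sh q.2) (cr ends ω' (Un 𝒞) (sh q.1))) (by
      intro 𝒞 ω ω' hoff
      refine Finset.sum_congr rfl fun q _ => ?_
      rw [cr_dep hoff])
  refine Eq.trans (Ex_congr fun ω => ?_) h.symm
  rw [Ex_sum]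
  rfl

/-- Row E5. Fix `b`. By `explore_MC` (from right to left) with
`Φ 𝒞 ω' = ∑ q ∈ Pi2 W 𝒞, 1[sh q.2 ∈ cr ω' (Un 𝒞) (sh q.1) ∧ |..| < k2]` (`cr_dep`) the expectation of `MM (MC ω b) (Un (MC ω b))` is that
of `Φ (MC ω b) ω`; by `cr_full`, `Ful_MC` a term is nonzero only if `sh u ∉ Un (MC ω b)` and then `cr = cu`; then `sh u` is not in the
clusters of `u`, `v` (`mem_Un_MC`). Over `b`: at most `g² |C(u)| |C(v)|` (`hit_two`). `three2` at `x = sh u`, `Φ A = 1[sh v ∈ A, |A| < k2]`,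
cardinalities for the other two: at most `g² X² P(sh v ∈ C(sh u), |C(sh u)| < k2)`. Sum over `v ∈ W` (`sh` injective):
`∑ ≤ E min (|C(sh u)|) k2 ≤ 3 C √k2` (`min_tail`). -/
lemma xM {p g X C k2 : ℝ} (h0 : 0 ≤ p) (h1 : p ≤ 1) (hg0 : 0 ≤ g) (hg1 : g ≤ 1) (hC : 0 ≤ C) (hk : 1 ≤ k2)
    (hX : ∀ x, Ex p (fun ω => cz ends ω x) ≤ X)
    (hT : ∀ x, ∀ k : ℕ, 1 ≤ k → Ex p (fun ω => if (k : ℝ) ≤ cz ends ω x then (1 : ℝ) else 0) ≤
      C / Real.sqrt k) (sh : V → V) (W : Finset V) (hW : Set.InjOn sh W) :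
    Ex p (fun ω => Ex g (fun b : V → Bool =>
      MM ends p sh W (MC ends ω b) k2 (Un (MC ends ω b)))) ≤
      Fintype.card V * (g ^ 2 * X ^ 2 * (3 * C * Real.sqrt k2)) := by
  have hK : 0 ≤ g ^ 2 * X ^ 2 * (3 * C * Real.sqrt k2) := by positivity
  have s1 : Ex p (fun ω => Ex g (fun b : V → Bool =>
      MM ends p sh W (MC ends ω b) k2 (Un (MC ends ω b)))) =
      Ex p (fun ω => Ex g (fun b : V → Bool => ∑ q ∈ Pi2 W (MC ends ω b),
        E5_F k2 (sh q.2) (cr ends ω (Un (MC ends ω b)) (sh q.1)))) := by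
    exact (Ex_swap p g (fun (ω : E → Bool) (b : V → Bool) =>
      MM ends p sh W (MC ends ω b) k2 (Un (MC ends ω b)))).trans
      ((Ex_congr fun b => E5_explore sh W b).trans
      (Ex_swap p g (fun (ω : E → Bool) (b : V → Bool) => ∑ q ∈ Pi2 W (MC ends ω b),
        E5_F k2 (sh q.2) (cr ends ω (Un (MC ends ω b)) (sh q.1)))).symm)
  have s2 : ∀ ω : E → Bool, Ex g (fun b : V → Bool => ∑ q ∈ Pi2 W (MC ends ω b),
        E5_F k2 (sh q.2) (cr ends ω (Un (MC ends ω b)) (sh q.1))) ≤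
      ∑ u ∈ W, ∑ v ∈ W, g ^ 2 * ((if u ∈ cu ends ω (sh u) then 0 else 1) *
        ((if v ∈ cu ends ω (sh u) then 0 else 1) * ((if v ∈ cu ends ω u then 0 else 1) *
        (E5_F k2 (sh v) (cu ends ω (sh u)) * (cz ends ω u * cz ends ω v))))) := by
    intro ω
    refine le_trans (Ex_mono hg0 hg1 fun b => E5_pt sh k2 W ω b) ?_
    rw [Ex_sum]
    refine Finset.sum_le_sum fun u _ => ?_
    rw [Ex_sum]
    exact Finset.sum_le_sum fun v _ => E5_marks hg0 hg1 sh k2 u v ω
  rw [s1]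
  refine le_trans (Ex_mono h0 h1 s2) ?_
  rw [Ex_sum]
  have s3 : ∀ u ∈ W, Ex p (fun ω => ∑ v ∈ W, g ^ 2 * ((if u ∈ cu ends ω (sh u) then 0 else 1) *
        ((if v ∈ cu ends ω (sh u) then 0 else 1) * ((if v ∈ cu ends ω u then 0 else 1) *
        (E5_F k2 (sh v) (cu ends ω (sh u)) * (cz ends ω u * cz ends ω v)))))) ≤
      g ^ 2 * X ^ 2 * (3 * C * Real.sqrt k2) := by
    intro u _
    rw [Ex_sum]
    calc ∑ v ∈ W, Ex p (fun ω => g ^ 2 * ((if u ∈ cu ends ω (sh u) then 0 else 1) *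
          ((if v ∈ cu ends ω (sh u) then 0 else 1) * ((if v ∈ cu ends ω u then 0 else 1) *
          (E5_F k2 (sh v) (cu ends ω (sh u)) * (cz ends ω u * cz ends ω v))))))
        ≤ ∑ v ∈ W, g ^ 2 * X ^ 2 * Ex p (fun ω => E5_F k2 (sh v) (cu ends ω (sh u))) := by
          refine Finset.sum_le_sum fun v _ => ?_
          rw [Ex_mul_left]
          have := mul_le_mul_of_nonneg_left (E5_conf (k2 := k2) h0 h1 hX sh u v) (sq_nonneg g)
          refine le_trans this (le_of_eq ?_)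
          ring
      _ = g ^ 2 * X ^ 2 * ∑ v ∈ W, Ex p (fun ω => E5_F k2 (sh v) (cu ends ω (sh u))) := by
          rw [Finset.mul_sum]
      _ ≤ _ := mul_le_mul_of_nonneg_left (E5_sum h0 h1 hC hk hT sh W hW u) (by positivity)
  refine le_trans (Finset.sum_le_sum s3) ?_
  rw [Finset.sum_const, nsmul_eq_mul]
  refine mul_le_mul_of_nonneg_right ?_ hK
  exact_mod_cast Finset.card_le_univ W

/-- Row E6. Exchange the expectations (`Ex_swap`): for fixed `ω'` and `v ∈ W`,
`Ex p (Ex g (min N h)) ≤ min (Ex Ex N) (Ex Ex h 1[hit b (cu ω v)])` (`Ex_min`; `N = 0` if `v` is not marked), with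
`N = #{u | (u,v) ∈ Pi2, sh u ∈ cu ω' (sh v)}`; `Ex Ex N ≤ |cu ω' (sh v)| g² X²` (`hit_two`, `two` with the cardinalities; `sh` is
injective on `W`), `Ex Ex 1[hit] ≤ g X`. So the sum is at most `g² X² ∑ v, E min (|C'(sh v)|) (h / (g X))`; `min_tail`. -/
lemma xZ {p g X C h : ℝ} (h0 : 0 ≤ p) (h1 : p ≤ 1) (hg0 : 0 < g) (hg1 : g ≤ 1) (hC : 0 ≤ C) (hX0 : 0 < X)
    (hh : 1 ≤ h / (g * X)) (hX : ∀ x, Ex p (fun ω => cz ends ω x) ≤ X)
    (hT : ∀ x, ∀ k : ℕ, 1 ≤ k → Ex p (fun ω => if (k : ℝ) ≤ cz ends ω x then (1 : ℝ) else 0) ≤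
      C / Real.sqrt k) (sh : V → V) (W : Finset V) (hW : Set.InjOn sh W) :
    Ex p (fun ω => Ex g (fun b : V → Bool => ZZ ends p sh W (MC ends ω b) h)) ≤
      Fintype.card V * (g ^ 2 * X ^ 2 * (3 * C * Real.sqrt (h / (g * X)))) := by
  classical
  have hgX : 0 < g * X := mul_pos hg0 hX0
  have hh0 : 0 ≤ h := by
    have h2 : 0 ≤ h / (g * X) := by linarith
    have h3 : h = h / (g * X) * (g * X) := by field_simp
    rw [h3]
    exact mul_nonneg h2 hgX.le
  -- the mean of the indicator of a pair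
  have hpair : ∀ u v : V, Ex p (fun ω => Ex g (fun b : V → Bool =>
      if (u, v) ∈ Pi2 W (MC ends ω b) then (1 : ℝ) else 0)) ≤ g ^ 2 * X ^ 2 := by
    intro u v
    have h1' : ∀ ω : E → Bool, Ex g (fun b : V → Bool =>
        if (u, v) ∈ Pi2 W (MC ends ω b) then (1 : ℝ) else 0) ≤
        g ^ 2 * ((if v ∈ cu ends ω u then (0 : ℝ) else 1) *
          (((cu ends ω u).card : ℝ) * ((cu ends ω v).card : ℝ))) := by
      intro ω
      by_cases hv : v ∈ cu ends ω u
      · have e : ∀ b : V → Bool, (if (u, v) ∈ Pi2 W (MC ends ω b) then (1 : ℝ) else 0) = 0 := by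
          intro b
          rw [if_neg]
          intro hm
          exact (mem_Pi2_MC.1 hm).2.2.2.2 hv
        rw [Ex_zero_of e, if_pos hv]
        simp
      · rw [if_neg hv, one_mul]
        refine le_trans (Ex_mono hg0.le hg1 (g := fun b : V → Bool =>
          if hit b (cu ends ω u) ∧ hit b (cu ends ω v) then (1 : ℝ) else 0) ?_)
          (hit_two hg0.le hg1 _ _ (cu_disj hv))
        intro b
        by_cases hm : (u, v) ∈ Pi2 W (MC ends ω b)
        · have h3 := mem_Pi2_MC.1 hm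
          rw [if_pos hm, if_pos ⟨h3.2.2.1, h3.2.2.2.1⟩]
        · rw [if_neg hm]
          split_ifs <;> norm_num
    refine le_trans (Ex_mono h0 h1 h1') ?_
    rw [Ex_mul_left]
    have h2 := two (ends := ends) h0 h1 u v (fun A => (A.card : ℝ)) (fun A => Nat.cast_nonneg _)
      (fun A => (A.card : ℝ)) (fun A => Nat.cast_nonneg _)
      (fun A B hAB => by exact_mod_cast Finset.card_le_card hAB)
    have h3 : Ex p (fun ω => ((cu ends ω u).card : ℝ)) * Ex p (fun ω => ((cu ends ω v).card : ℝ))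
        ≤ X * X := by
      refine mul_le_mul (hX u) (hX v) ?_ hX0.le
      exact Ex_nonneg h0 h1 fun ω => Nat.cast_nonneg _
    calc g ^ 2 * Ex p (fun ω => (if v ∈ cu ends ω u then (0 : ℝ) else 1) *
          (((cu ends ω u).card : ℝ) * ((cu ends ω v).card : ℝ)))
        ≤ g ^ 2 * (X * X) := mul_le_mul_of_nonneg_left (le_trans h2 h3) (sq_nonneg g)
      _ = g ^ 2 * X ^ 2 := by ring
  -- fixed v and fixed second configuration
  have hmain : ∀ v ∈ W, ∀ ω' : E → Bool, Ex p (fun ω => Ex g (fun b : V → Bool =>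
      min ((Finset.univ.filter (fun u => (u, v) ∈ Pi2 W (MC ends ω b) ∧
        sh u ∈ cu ends ω' (sh v))).card : ℝ) h)) ≤
      g ^ 2 * X ^ 2 * min (cz ends ω' (sh v)) (h / (g * X)) := by
    intro v hv ω'
    set D : Finset V := W.filter (fun u => sh u ∈ cu ends ω' (sh v)) with hD
    have hDcard : ((D.card : ℕ) : ℝ) ≤ cz ends ω' (sh v) := by
      unfold cz
      have h2 : D.card ≤ (cu ends ω' (sh v)).card := by
        apply Finset.card_le_card_of_injOn sh
        · intro u hu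
          have := (Finset.mem_filter.1 (by exact_mod_cast hu : u ∈ D)).2
          exact_mod_cast this
        · intro a ha b hb hab
          have ha' := (Finset.mem_filter.1 (by exact_mod_cast ha : a ∈ D)).1
          have hb' := (Finset.mem_filter.1 (by exact_mod_cast hb : b ∈ D)).1
          exact hW (by exact_mod_cast ha') (by exact_mod_cast hb') hab
      exact_mod_cast h2
    have hN : ∀ (ω : E → Bool) (b : V → Bool),
        ((Finset.univ.filter (fun u => (u, v) ∈ Pi2 W (MC ends ω b) ∧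
        sh u ∈ cu ends ω' (sh v))).card : ℝ) ≤
        ∑ u ∈ D, (if (u, v) ∈ Pi2 W (MC ends ω b) then (1 : ℝ) else 0) := by
      intro ω b
      rw [← Finset.sum_filter, Finset.sum_const, nsmul_eq_mul, mul_one]
      have : (Finset.univ.filter (fun u => (u, v) ∈ Pi2 W (MC ends ω b) ∧
        sh u ∈ cu ends ω' (sh v))) ⊆ D.filter (fun u => (u, v) ∈ Pi2 W (MC ends ω b)) := by
        intro u hu
        have hu' := (Finset.mem_filter.1 hu).2
        have hW' : u ∈ W := (mem_Pi2_MC.1 hu'.1).1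
        exact Finset.mem_filter.2 ⟨Finset.mem_filter.2 ⟨hW', hu'.2⟩, hu'.1⟩
      exact_mod_cast Finset.card_le_card this
    have hpt : ∀ (ω : E → Bool) (b : V → Bool),
        min ((Finset.univ.filter (fun u => (u, v) ∈ Pi2 W (MC ends ω b) ∧
        sh u ∈ cu ends ω' (sh v))).card : ℝ) h ≤
        min (∑ u ∈ D, (if (u, v) ∈ Pi2 W (MC ends ω b) then (1 : ℝ) else 0))
          (h * (if hit b (cu ends ω v) then (1 : ℝ) else 0)) := by
      intro ω b
      refine le_min (le_trans (min_le_left _ _) (hN ω b)) ?_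
      by_cases hb : hit b (cu ends ω v)
      · rw [if_pos hb, mul_one]
        exact min_le_right _ _
      · rw [if_neg hb, mul_zero]
        refine le_trans (min_le_left _ _) ?_
        have : (Finset.univ.filter (fun u => (u, v) ∈ Pi2 W (MC ends ω b) ∧
          sh u ∈ cu ends ω' (sh v))) = ∅ := by
          apply Finset.eq_empty_of_forall_notMem
          intro u hu
          exact hb (mem_Pi2_MC.1 (Finset.mem_filter.1 hu).2.1).2.2.2.1
        rw [this]
        simp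
    have hA : Ex p (fun ω => Ex g (fun b : V → Bool =>
        ∑ u ∈ D, (if (u, v) ∈ Pi2 W (MC ends ω b) then (1 : ℝ) else 0))) ≤
        g ^ 2 * X ^ 2 * cz ends ω' (sh v) := by
      have e1 : ∀ ω : E → Bool, Ex g (fun b : V → Bool =>
        ∑ u ∈ D, (if (u, v) ∈ Pi2 W (MC ends ω b) then (1 : ℝ) else 0)) =
        ∑ u ∈ D, Ex g (fun b : V → Bool =>
          (if (u, v) ∈ Pi2 W (MC ends ω b) then (1 : ℝ) else 0)) := fun ω => Ex_sum D g _
      rw [Ex_congr e1, Ex_sum D p (fun u ω => Ex g (fun b : V → Bool =>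
          (if (u, v) ∈ Pi2 W (MC ends ω b) then (1 : ℝ) else 0)))]
      refine le_trans (Finset.sum_le_sum fun u _ => hpair u v) ?_
      rw [Finset.sum_const, nsmul_eq_mul, mul_comm]
      exact mul_le_mul_of_nonneg_left hDcard (by positivity)
    have hB : Ex p (fun ω => Ex g (fun b : V → Bool =>
        h * (if hit b (cu ends ω v) then (1 : ℝ) else 0))) ≤ g ^ 2 * X ^ 2 * (h / (g * X)) := by
      have e1 : ∀ ω : E → Bool, Ex g (fun b : V → Bool =>
        h * (if hit b (cu ends ω v) then (1 : ℝ) else 0)) ≤ h * g * cz ends ω v := by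
        intro ω
        rw [Ex_mul_left, mul_assoc]
        exact mul_le_mul_of_nonneg_left (hit_le hg0.le hg1 _) hh0
      refine le_trans (Ex_mono h0 h1 e1) ?_
      rw [Ex_mul_left]
      have e2 : g ^ 2 * X ^ 2 * (h / (g * X)) = h * g * X := by
        field_simp
      rw [e2]
      exact mul_le_mul_of_nonneg_left (hX v) (mul_nonneg hh0 hg0.le)
    calc Ex p (fun ω => Ex g (fun b : V → Bool =>
        min ((Finset.univ.filter (fun u => (u, v) ∈ Pi2 W (MC ends ω b) ∧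
          sh u ∈ cu ends ω' (sh v))).card : ℝ) h))
        ≤ Ex p (fun ω => Ex g (fun b : V → Bool =>
          min (∑ u ∈ D, (if (u, v) ∈ Pi2 W (MC ends ω b) then (1 : ℝ) else 0))
          (h * (if hit b (cu ends ω v) then (1 : ℝ) else 0)))) :=
          Ex_mono h0 h1 fun ω => Ex_mono hg0.le hg1 (hpt ω)
      _ ≤ Ex p (fun ω => min (Ex g (fun b : V → Bool =>
          ∑ u ∈ D, (if (u, v) ∈ Pi2 W (MC ends ω b) then (1 : ℝ) else 0)))
          (Ex g (fun b : V → Bool => h * (if hit b (cu ends ω v) then (1 : ℝ) else 0)))) :=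
          Ex_mono h0 h1 fun ω => Ex_min hg0.le hg1 _ _
      _ ≤ min (Ex p (fun ω => Ex g (fun b : V → Bool =>
          ∑ u ∈ D, (if (u, v) ∈ Pi2 W (MC ends ω b) then (1 : ℝ) else 0))))
          (Ex p (fun ω => Ex g (fun b : V → Bool =>
            h * (if hit b (cu ends ω v) then (1 : ℝ) else 0)))) := Ex_min h0 h1 _ _
      _ ≤ min (g ^ 2 * X ^ 2 * cz ends ω' (sh v)) (g ^ 2 * X ^ 2 * (h / (g * X))) :=
          min_le_min hA hB
      _ = g ^ 2 * X ^ 2 * min (cz ends ω' (sh v)) (h / (g * X)) := by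
          rw [mul_min_of_nonneg _ _ (by positivity)]
  -- exchange the expectations
  have hsw : Ex p (fun ω => Ex g (fun b : V → Bool => ZZ ends p sh W (MC ends ω b) h)) =
      ∑ v ∈ W, Ex p (fun ω' => Ex p (fun ω => Ex g (fun b : V → Bool =>
      min ((Finset.univ.filter (fun u => (u, v) ∈ Pi2 W (MC ends ω b) ∧
        sh u ∈ cu ends ω' (sh v))).card : ℝ) h))) := by
    have e1 : ∀ ω : E → Bool, Ex g (fun b : V → Bool => ZZ ends p sh W (MC ends ω b) h) =
        ∑ v ∈ W, Ex p (fun ω' => Ex g (fun b : V → Bool =>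
        min ((Finset.univ.filter (fun u => (u, v) ∈ Pi2 W (MC ends ω b) ∧
          sh u ∈ cu ends ω' (sh v))).card : ℝ) h)) := by
      intro ω
      unfold ZZ
      rw [Ex_sum W g]
      exact Finset.sum_congr rfl fun v _ => Ex_swap g p _
    rw [Ex_congr e1, Ex_sum W p]
    exact Finset.sum_congr rfl fun v _ => Ex_swap p p _
  rw [hsw]
  have hK : 0 ≤ g ^ 2 * X ^ 2 * (3 * C * Real.sqrt (h / (g * X))) := by positivity
  have hv : ∀ v ∈ W, Ex p (fun ω' => Ex p (fun ω => Ex g (fun b : V → Bool =>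
      min ((Finset.univ.filter (fun u => (u, v) ∈ Pi2 W (MC ends ω b) ∧
        sh u ∈ cu ends ω' (sh v))).card : ℝ) h))) ≤
      g ^ 2 * X ^ 2 * (3 * C * Real.sqrt (h / (g * X))) := by
    intro v hv
    refine le_trans (Ex_mono h0 h1 (hmain v hv)) ?_
    rw [Ex_mul_left]
    exact mul_le_mul_of_nonneg_left (min_tail h0 h1 hC (sh v) (hT (sh v)) hh) (by positivity)
  refine le_trans (Finset.sum_le_sum hv) ?_
  rw [Finset.sum_const, nsmul_eq_mul]
  refine mul_le_mul_of_nonneg_right ?_ hK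
  exact_mod_cast Finset.card_le_univ W

/-- Helper of row E7. -/
lemma E7_Xc (sh : V → V) (P D : Finset V) :
    Xc sh P D = ∑ w ∈ P, (if sh w ∈ D then (1 : ℝ) else 0) := by
  unfold Xc
  rw [Finset.card_filter]
  push_cast
  rfl

lemma E7_Xc_le (sh : V → V) (W D : Finset V) (hW : Set.InjOn sh W) :
    ∑ w ∈ W, (if sh w ∈ D then (1 : ℝ) else 0) ≤ (D.card : ℝ) := by
  rw [← E7_Xc]
  unfold Xc
  have h : (W.filter (fun u => sh u ∈ D)).card ≤ D.card := by
    apply Finset.card_le_card_of_injOn sh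
    · intro x hx
      exact (Finset.mem_filter.1 hx).2
    · intro x hx y hy hxy
      exact hW (Finset.mem_filter.1 hx).1 (Finset.mem_filter.1 hy).1 hxy
  exact_mod_cast h

open scoped Classical in
lemma E7_TH (p : ℝ) (sh : V → V) (W : Finset V) (𝒞 : Finset (Finset V)) :
    TH ends p sh W 𝒞 = ∑ u ∈ W, ∑ v ∈ W, ∑ w ∈ W,
      (if (u, v) ∈ Pi2 W 𝒞 ∧ w ∈ Un 𝒞 then (1 : ℝ) else 0) *
        Ex p (fun ω => (if sh v ∈ cu ends ω (sh u) then (1 : ℝ) else 0) *
          (if sh w ∈ cu ends ω (sh u) then (1 : ℝ) else 0)) := by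
  have hsub : Pi2 W 𝒞 = (W ×ˢ W).filter (fun q => q ∈ Pi2 W 𝒞) := by
    ext q
    rw [Finset.mem_filter, Finset.mem_product]
    constructor
    · intro hq
      have h2 := (Finset.mem_filter.1 hq).2
      exact ⟨⟨h2.1, h2.2.1⟩, hq⟩
    · intro hq
      exact hq.2
  unfold TH
  rw [hsub, Finset.sum_filter, Finset.sum_product]
  refine Finset.sum_congr rfl fun u _ => Finset.sum_congr rfl fun v _ => ?_
  rw [← hsub]
  by_cases hq : (u, v) ∈ Pi2 W 𝒞
  · rw [if_pos hq]
    have e1 : ∀ ω : E → Bool, (if sh (u, v).2 ∈ cu ends ω (sh (u, v).1) then (1 : ℝ) else 0) *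
        Xc sh (W ∩ Un 𝒞) (cu ends ω (sh (u, v).1)) =
        ∑ w ∈ W ∩ Un 𝒞, (if sh v ∈ cu ends ω (sh u) then (1 : ℝ) else 0) *
          (if sh w ∈ cu ends ω (sh u) then (1 : ℝ) else 0) := by
      intro ω
      rw [E7_Xc, Finset.mul_sum]
    rw [Ex_congr e1, Ex_sum, ← Finset.filter_mem_eq_inter, Finset.sum_filter]
    refine Finset.sum_congr rfl fun w _ => ?_
    by_cases hw : w ∈ Un 𝒞
    · rw [if_pos hw, if_pos ⟨hq, hw⟩, one_mul]
    · rw [if_neg hw, if_neg (fun h => hw h.2), zero_mul]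
  · rw [if_neg hq]
    symm
    refine Finset.sum_eq_zero fun w _ => ?_
    rw [if_neg (fun h => hq h.1), zero_mul]

open scoped Classical in
/-- The mean over the first vertex. -/
lemma E7_Gf {p : ℝ} (h0 : 0 ≤ p) (h1 : p ≤ 1) (sh : V → V) (W : Finset V) (hW : Set.InjOn sh W)
    (x y : V) :
    ∑ v ∈ W, Ex p (fun ω => (if sh v ∈ cu ends ω x then (1 : ℝ) else 0) *
      (if y ∈ cu ends ω x then (1 : ℝ) else 0)) ≤ Gf ends p x y := by
  rw [← Ex_sum]
  unfold Gf
  apply Ex_mono h0 h1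
  intro ω
  rw [← Finset.sum_mul]
  apply mul_le_mul_of_nonneg_right _ (by split_ifs <;> norm_num)
  exact E7_Xc_le sh W _ hW

open scoped Classical in
lemma E7_swap (p : ℝ) (x y z : V) :
    Ex p (fun ω => (if y ∈ cu ends ω x then (1 : ℝ) else 0) *
      (if z ∈ cu ends ω x then (1 : ℝ) else 0)) =
    Ex p (fun ω => (if x ∈ cu ends ω y then (1 : ℝ) else 0) *
      (if z ∈ cu ends ω y then (1 : ℝ) else 0)) := by
  apply Ex_congr
  intro ω
  by_cases h : y ∈ cu ends ω x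
  · rw [if_pos h, if_pos (cu_symm.1 h), cu_eq h]
  · rw [if_neg h, if_neg (fun h2 => h (cu_symm.1 h2)), zero_mul, zero_mul]

open scoped Classical in
lemma E7_sq {p X : ℝ} (h0 : 0 ≤ p) (h1 : p ≤ 1)
    (hX : ∀ x, Ex p (fun ω => cz ends ω x) ≤ X) (sh : V → V) (W : Finset V) (hW : Set.InjOn sh W)
    (x : V) :
    ∑ v ∈ W, ∑ w ∈ W, Ex p (fun ω => (if sh v ∈ cu ends ω x then (1 : ℝ) else 0) *
      (if sh w ∈ cu ends ω x then (1 : ℝ) else 0)) ≤ X ^ 3 := by
  refine le_trans ?_ (second_moment2 (ends := ends) h0 h1 hX x)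
  have e1 : ∀ v ∈ W, ∑ w ∈ W, Ex p (fun ω => (if sh v ∈ cu ends ω x then (1 : ℝ) else 0) *
      (if sh w ∈ cu ends ω x then (1 : ℝ) else 0)) =
      Ex p (fun ω => (if sh v ∈ cu ends ω x then (1 : ℝ) else 0) *
        ∑ w ∈ W, (if sh w ∈ cu ends ω x then (1 : ℝ) else 0)) := by
    intro v _
    rw [← Ex_sum]
    apply Ex_congr
    intro ω
    rw [Finset.mul_sum]
  rw [Finset.sum_congr rfl e1, ← Ex_sum]
  apply Ex_mono h0 h1
  intro ω
  rw [← Finset.sum_mul]
  have h2 := E7_Xc_le sh W (cu ends ω x) hW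
  have h3 : 0 ≤ ∑ w ∈ W, (if sh w ∈ cu ends ω x then (1 : ℝ) else 0) :=
    Finset.sum_nonneg fun w _ => by split_ifs <;> norm_num
  unfold cz
  rw [sq]
  exact mul_le_mul h2 h2 h3 (Nat.cast_nonneg _)

/-- The mean of the indicator. -/
lemma E7_ind [Nonempty V] {p g X : ℝ} (h0 : 0 ≤ p) (h1 : p ≤ 1) (hg0 : 0 ≤ g) (hg1 : g ≤ 1)
    (hX : ∀ x, Ex p (fun ω => cz ends ω x) ≤ X) (W : Finset V) {u v w : V} (hu : u ∈ W)
    (hv : v ∈ W) [∀ (ω : E → Bool) (b : V → Bool),
      Decidable ((u, v) ∈ Pi2 W (MC ends ω b) ∧ w ∈ Un (MC ends ω b))] :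
    Ex p (fun ω => Ex g (fun b : V → Bool =>
      (if (u, v) ∈ Pi2 W (MC ends ω b) ∧ w ∈ Un (MC ends ω b) then (1 : ℝ) else 0))) ≤
      g ^ 3 * X ^ 3 + g ^ 2 * X * (Gf ends p u w + Gf ends p v w) := by
  classical
  have h := tri3 (ends := ends) h0 h1 hg0 hg1 hX 0 u v w
  have e1 : g ^ 2 * (g + ((0 : ℕ) : ℝ) / Fintype.card V) * X ^ 3 = g ^ 3 * X ^ 3 := by
    push_cast
    ring
  rw [e1] at h
  refine le_trans (le_of_eq ?_) h
  change _ = Ex p (fun ω => Ex g (fun b : V → Bool => if hit b (cu ends ω u) ∧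
      hit b (cu ends ω v) ∧ v ∉ cu ends ω u ∧ w ∈ Un (MC ends ω b) then (1 : ℝ) else 0))
  apply Ex_congr
  intro ω
  apply Ex_congr
  intro b
  apply if_congr _ rfl rfl
  rw [mem_Pi2_MC]
  constructor
  · rintro ⟨⟨_, _, h3, h4, h5⟩, h6⟩
    exact ⟨h3, h4, h5, h6⟩
  · rintro ⟨h3, h4, h5, h6⟩
    exact ⟨⟨hu, hv, h3, h4, h5⟩, h6⟩

/-- The product of the two functions. -/
lemma E7_prod {p X Qs : ℝ} (h0 : 0 ≤ p) (h1 : p ≤ 1)
    (hX : ∀ x, Ex p (fun ω => cz ends ω x) ≤ X) (hQ : ∀ x, sqd ends p x ≤ Qs)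
    (sh : V → V) (W : Finset V) (hW : Set.InjOn sh W) (u : V) :
    ∑ w ∈ W, Gf ends p u w * Gf ends p (sh u) (sh w) ≤ X ^ 2 * Qs := by
  have h2 : ∑ w ∈ W, Gf ends p u w ^ 2 ≤ X ^ 2 * Qs :=
    le_trans (Finset.sum_le_sum_of_subset_of_nonneg (Finset.subset_univ W)
      (fun w _ _ => sq_nonneg _)) (Gf_sq2 h0 h1 hX hQ u)
  have h3 : ∑ w ∈ W, Gf ends p (sh u) (sh w) ^ 2 ≤ X ^ 2 * Qs := by
    have e1 : ∑ w ∈ W, Gf ends p (sh u) (sh w) ^ 2 =
        ∑ y ∈ W.image sh, Gf ends p (sh u) y ^ 2 := by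
      rw [Finset.sum_image (fun x hx y hy hxy => hW hx hy hxy)]
    rw [e1]
    exact le_trans (Finset.sum_le_sum_of_subset_of_nonneg (Finset.subset_univ _)
      (fun w _ _ => sq_nonneg _)) (Gf_sq2 h0 h1 hX hQ (sh u))
  have h4 : ∀ w ∈ W, Gf ends p u w * Gf ends p (sh u) (sh w) ≤
      (1 / 2) * Gf ends p u w ^ 2 + (1 / 2) * Gf ends p (sh u) (sh w) ^ 2 := by
    intro w _
    nlinarith [sq_nonneg (Gf ends p u w - Gf ends p (sh u) (sh w))]
  calc _ ≤ ∑ w ∈ W, ((1 / 2) * Gf ends p u w ^ 2 + (1 / 2) * Gf ends p (sh u) (sh w) ^ 2) :=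
        Finset.sum_le_sum h4
    _ = (1 / 2) * ∑ w ∈ W, Gf ends p u w ^ 2 + (1 / 2) * ∑ w ∈ W, Gf ends p (sh u) (sh w) ^ 2 := by
        rw [Finset.sum_add_distrib, Finset.mul_sum, Finset.mul_sum]
    _ ≤ _ := by linarith

/-- Row E7. `TH (MC ω b) = ∑ u ∈ W, ∑ v ∈ W, ∑ w ∈ W, 1[(u,v) ∈ Pi2, w ∈ Un (MC ω b)] P'(sh v, sh w ∈ C'(sh u))`. By `tri3` with `J = 0`
(`rn .. [] = Un ..`, `al 0 f = f []`) the mean of the indicator is at most `g³ X³ + g² X (Gf u w + Gf v w)`.
`∑ v w ∈ W, P'(sh v, sh w ∈ C'(sh u)) ≤ E |C'(sh u)|² ≤ X³` (`second_moment2`, `sh` injective). `∑ v ∈ W, P'(..) ≤ Gf (sh u) (sh w)`, so the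
second part is at most `g² X ∑ u, ∑ w ∈ W, Gf u w Gf (sh u) (sh w) ≤ g² X ∑ u, √(X² Qs) √(X² Qs)` (Cauchy-Schwarz, `Gf_sq2`, `sh` injective);
the same for the third (first exchange `sh u` and `sh v` in `P'`). -/
lemma xT [Nonempty V] {p g X Qs : ℝ} (h0 : 0 ≤ p) (h1 : p ≤ 1) (hg0 : 0 ≤ g) (hg1 : g ≤ 1)
    (hX : ∀ x, Ex p (fun ω => cz ends ω x) ≤ X) (hQ : ∀ x, sqd ends p x ≤ Qs)
    (sh : V → V) (W : Finset V) (hW : Set.InjOn sh W) :
    Ex p (fun ω => Ex g (fun b : V → Bool => TH ends p sh W (MC ends ω b))) ≤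
      Fintype.card V * (g ^ 3 * X ^ 6 + 2 * g ^ 2 * X ^ 3 * Qs) := by
  classical
  set P3 : V → V → V → ℝ := fun u v w =>
    Ex p (fun ω => (if sh v ∈ cu ends ω (sh u) then (1 : ℝ) else 0) *
      (if sh w ∈ cu ends ω (sh u) then (1 : ℝ) else 0)) with hP3
  have hP0 : ∀ u v w, 0 ≤ P3 u v w := by
    intro u v w
    exact Ex_nonneg h0 h1 fun ω => mul_nonneg (by split_ifs <;> norm_num)
      (by split_ifs <;> norm_num)
  obtain ⟨x0⟩ := (inferInstance : Nonempty V)
  have hX1 : 0 ≤ X := le_trans (Ex_nonneg h0 h1 fun ω => cz_nonneg ω x0) (hX x0)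
  have hQ1 : 0 ≤ Qs := le_trans zero_le_one (le_trans (one_le_sqd (ends := ends) h0 h1 x0) (hQ x0))
  have hWc : (W.card : ℝ) ≤ Fintype.card V := by
    exact_mod_cast Finset.card_le_univ W
  -- exchange of the sums and the expectations
  have e1 : Ex p (fun ω => Ex g (fun b : V → Bool => TH ends p sh W (MC ends ω b))) =
      ∑ u ∈ W, ∑ v ∈ W, ∑ w ∈ W, Ex p (fun ω => Ex g (fun b : V → Bool =>
        (if (u, v) ∈ Pi2 W (MC ends ω b) ∧ w ∈ Un (MC ends ω b) then (1 : ℝ) else 0))) *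
        P3 u v w := by
    have e2 : ∀ ω : E → Bool, Ex g (fun b : V → Bool => TH ends p sh W (MC ends ω b)) =
        ∑ u ∈ W, ∑ v ∈ W, ∑ w ∈ W, P3 u v w * Ex g (fun b : V → Bool =>
        (if (u, v) ∈ Pi2 W (MC ends ω b) ∧ w ∈ Un (MC ends ω b) then (1 : ℝ) else 0)) := by
      intro ω
      have e3 : ∀ b : V → Bool, TH ends p sh W (MC ends ω b) = ∑ u ∈ W, ∑ v ∈ W, ∑ w ∈ W,
          P3 u v w *
          (if (u, v) ∈ Pi2 W (MC ends ω b) ∧ w ∈ Un (MC ends ω b) then (1 : ℝ) else 0) := by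
        intro b
        rw [E7_TH]
        refine Finset.sum_congr rfl fun u _ => Finset.sum_congr rfl fun v _ =>
          Finset.sum_congr rfl fun w _ => ?_
        rw [mul_comm]
      rw [Ex_congr e3, Ex_sum]
      refine Finset.sum_congr rfl fun u _ => ?_
      rw [Ex_sum]
      refine Finset.sum_congr rfl fun v _ => ?_
      rw [Ex_sum]
      refine Finset.sum_congr rfl fun w _ => ?_
      rw [Ex_mul_left]
    rw [Ex_congr e2, Ex_sum]
    refine Finset.sum_congr rfl fun u _ => ?_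
    rw [Ex_sum]
    refine Finset.sum_congr rfl fun v _ => ?_
    rw [Ex_sum]
    refine Finset.sum_congr rfl fun w _ => ?_
    rw [Ex_mul_left, mul_comm]
  rw [e1]
  -- the three parts
  have hA : ∑ u ∈ W, ∑ v ∈ W, ∑ w ∈ W, P3 u v w ≤ Fintype.card V * X ^ 3 := by
    calc _ ≤ ∑ u ∈ W, X ^ 3 := Finset.sum_le_sum fun u _ => E7_sq h0 h1 hX sh W hW (sh u)
      _ = W.card * X ^ 3 := by rw [Finset.sum_const, nsmul_eq_mul]
      _ ≤ _ := mul_le_mul_of_nonneg_right hWc (by positivity)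
  have hB : ∑ u ∈ W, ∑ w ∈ W, Gf ends p u w * ∑ v ∈ W, P3 u v w ≤
      Fintype.card V * (X ^ 2 * Qs) := by
    calc _ ≤ ∑ u ∈ W, ∑ w ∈ W, Gf ends p u w * Gf ends p (sh u) (sh w) :=
          Finset.sum_le_sum fun u _ => Finset.sum_le_sum fun w _ =>
            mul_le_mul_of_nonneg_left (E7_Gf h0 h1 sh W hW (sh u) (sh w)) (Gf_nonneg h0 h1 u w)
      _ ≤ ∑ u ∈ W, X ^ 2 * Qs :=
          Finset.sum_le_sum fun u _ => E7_prod h0 h1 hX hQ sh W hW u
      _ = W.card * (X ^ 2 * Qs) := by rw [Finset.sum_const, nsmul_eq_mul]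
      _ ≤ _ := mul_le_mul_of_nonneg_right hWc (by positivity)
  have hB1 : ∑ u ∈ W, ∑ v ∈ W, ∑ w ∈ W, Gf ends p u w * P3 u v w =
      ∑ u ∈ W, ∑ w ∈ W, Gf ends p u w * ∑ v ∈ W, P3 u v w := by
    refine Finset.sum_congr rfl fun u _ => ?_
    rw [Finset.sum_comm]
    refine Finset.sum_congr rfl fun w _ => ?_
    rw [Finset.mul_sum]
  have hC1 : ∑ u ∈ W, ∑ v ∈ W, ∑ w ∈ W, Gf ends p v w * P3 u v w =
      ∑ u ∈ W, ∑ v ∈ W, ∑ w ∈ W, Gf ends p u w * P3 u v w := by
    rw [Finset.sum_comm]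
    refine Finset.sum_congr rfl fun v _ => Finset.sum_congr rfl fun u _ =>
      Finset.sum_congr rfl fun w _ => ?_
    congr 1
    exact E7_swap p (sh u) (sh v) (sh w)
  calc _ ≤ ∑ u ∈ W, ∑ v ∈ W, ∑ w ∈ W,
        (g ^ 3 * X ^ 3 + g ^ 2 * X * (Gf ends p u w + Gf ends p v w)) * P3 u v w :=
        Finset.sum_le_sum fun u hu => Finset.sum_le_sum fun v hv => Finset.sum_le_sum fun w _ =>
          mul_le_mul_of_nonneg_right (E7_ind h0 h1 hg0 hg1 hX W hu hv) (hP0 u v w)
    _ = g ^ 3 * X ^ 3 * ∑ u ∈ W, ∑ v ∈ W, ∑ w ∈ W, P3 u v w +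
        g ^ 2 * X * (∑ u ∈ W, ∑ v ∈ W, ∑ w ∈ W, Gf ends p u w * P3 u v w +
          ∑ u ∈ W, ∑ v ∈ W, ∑ w ∈ W, Gf ends p v w * P3 u v w) := by
        rw [← Finset.sum_add_distrib, Finset.mul_sum, Finset.mul_sum, ← Finset.sum_add_distrib]
        refine Finset.sum_congr rfl fun u _ => ?_
        rw [← Finset.sum_add_distrib, Finset.mul_sum, Finset.mul_sum, ← Finset.sum_add_distrib]
        refine Finset.sum_congr rfl fun v _ => ?_
        rw [← Finset.sum_add_distrib, Finset.mul_sum, Finset.mul_sum, ← Finset.sum_add_distrib]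
        exact Finset.sum_congr rfl fun w _ => by ring
    _ ≤ g ^ 3 * X ^ 3 * (Fintype.card V * X ^ 3) +
        g ^ 2 * X * (Fintype.card V * (X ^ 2 * Qs) + Fintype.card V * (X ^ 2 * Qs)) := by
        rw [hC1, hB1]
        exact add_le_add (mul_le_mul_of_nonneg_left hA (by positivity))
          (mul_le_mul_of_nonneg_left (add_le_add hB hB) (by positivity))
    _ = _ := by ring

open scoped Classical in
/-- Row E8, pointwise: the number of large marked clusters as a sum over the vertices. -/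
private lemma E8_a {k2 : ℝ} (hk : 1 ≤ k2) (ω : E → Bool) (b : V → Bool) :
    (((MC ends ω b).filter (fun A => k2 ≤ (A.card : ℝ))).card : ℝ) ≤
      ∑ x : V, (if k2 ≤ cz ends ω x then (1 / cz ends ω x) *
        (if hit b (cu ends ω x) then (1 : ℝ) else 0) else 0) := by
  have h1 := GC_sum (ends := ends) ω k2 (fun A _ => (1 / (A.card : ℝ)) * (if hit b A then (1 : ℝ) else 0))
  have h2 : ∀ A ∈ GC ends ω k2, ∑ _x ∈ A, (1 / (A.card : ℝ)) * (if hit b A then (1 : ℝ) else 0) =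
      if hit b A then (1 : ℝ) else 0 := by
    intro A hA
    have hA2 := (mem_GC.1 hA).2
    have hpos : (0 : ℝ) < A.card := by linarith
    rw [Finset.sum_const, nsmul_eq_mul]
    field_simp
  rw [Finset.sum_congr rfl h2] at h1
  have h3 : (((MC ends ω b).filter (fun A => k2 ≤ (A.card : ℝ))).card : ℝ) ≤
      ∑ A ∈ GC ends ω k2, if hit b A then (1 : ℝ) else 0 := by
    rw [Finset.sum_boole]
    refine Nat.cast_le.2 (Finset.card_le_card ?_)
    intro A hA
    rw [Finset.mem_filter] at hA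
    obtain ⟨x, hx, hxA⟩ := mem_MC.1 hA.1
    rw [Finset.mem_filter]
    refine ⟨mem_GC.2 ⟨⟨x, hxA⟩, hA.2⟩, x, ?_, hx⟩
    rw [← hxA]
    exact self_mem_cu ω x
  refine h3.trans (le_of_eq ?_)
  rw [h1]
  rfl

open scoped Classical in
private lemma E8_b {g k2 : ℝ} (hg0 : 0 ≤ g) (hg1 : g ≤ 1) (hk : 1 ≤ k2) (ω : E → Bool) :
    Ex g (fun b : V → Bool => (((MC ends ω b).filter (fun A => k2 ≤ (A.card : ℝ))).card : ℝ)) ≤
      ∑ x : V, g * (if k2 ≤ cz ends ω x then (1 : ℝ) else 0) := by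
  refine (Ex_mono hg0 hg1 fun b => E8_a hk ω b).trans ?_
  rw [Ex_sum]
  refine Finset.sum_le_sum fun x _ => ?_
  by_cases h : k2 ≤ cz ends ω x
  · simp only [if_pos h]
    rw [Ex_mul_left]
    have hc : 0 < cz ends ω x := by linarith
    calc 1 / cz ends ω x * Ex g (fun b : V → Bool => if hit b (cu ends ω x) then (1 : ℝ) else 0)
        ≤ 1 / cz ends ω x * (g * cz ends ω x) :=
          mul_le_mul_of_nonneg_left (hit_le hg0 hg1 _) (by positivity)
      _ = g * 1 := by field_simp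
  · simp only [if_neg h]
    rw [Ex_const]
    simp

open scoped Classical in
/-- Row E8. `#{A ∈ MC | k2 ≤ |A|} = ∑ x, 1[k2 ≤ |C(x)|] 1[hit b C(x)] / |C(x)|` (each cluster `A` is counted `|A|` times with weight
`1/|A|`; `Finset.sum_fiberwise_of_maps_to`, or `GC_sum`: `MC ⊆ ` the clusters). The mean over `b` is at most
`∑ x, g 1[k2 ≤ |C(x)|]` (`hit_le`); then the tail with `k = ⌈k2⌉₊` (`k2 ≤ cz ↔ ⌈k2⌉₊ ≤ cz`, the cardinality is a natural number). -/
lemma xN {p g C k2 : ℝ} (h0 : 0 ≤ p) (h1 : p ≤ 1) (hg0 : 0 ≤ g) (hg1 : g ≤ 1) (hC : 0 ≤ C) (hk : 1 ≤ k2)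
    (hT : ∀ x, ∀ k : ℕ, 1 ≤ k → Ex p (fun ω => if (k : ℝ) ≤ cz ends ω x then (1 : ℝ) else 0) ≤
      C / Real.sqrt k) :
    Ex p (fun ω => Ex g (fun b : V → Bool =>
      (((MC ends ω b).filter (fun A => k2 ≤ (A.card : ℝ))).card : ℝ))) ≤
      Fintype.card V * (g * C / Real.sqrt k2) := by
  have hk0 : 0 < k2 := by linarith
  have hs0 : 0 < Real.sqrt k2 := Real.sqrt_pos.2 hk0
  calc Ex p (fun ω => Ex g (fun b : V → Bool =>
      (((MC ends ω b).filter (fun A => k2 ≤ (A.card : ℝ))).card : ℝ)))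
      ≤ Ex p (fun ω => ∑ x : V, g * (if k2 ≤ cz ends ω x then (1 : ℝ) else 0)) :=
        Ex_mono h0 h1 fun ω => E8_b hg0 hg1 hk ω
    _ = ∑ x : V, g * Ex p (fun ω => if k2 ≤ cz ends ω x then (1 : ℝ) else 0) := by
        rw [Ex_sum]
        exact Finset.sum_congr rfl fun x _ => Ex_mul_left _ _ _
    _ ≤ ∑ _x : V, g * (C / Real.sqrt k2) := by
        refine Finset.sum_le_sum fun x _ => mul_le_mul_of_nonneg_left ?_ hg0
        have hc1 : 1 ≤ ⌈k2⌉₊ := Nat.one_le_ceil_iff.2 hk0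
        have h3 : ∀ ω : E → Bool, (if k2 ≤ cz ends ω x then (1 : ℝ) else 0) ≤
            if ((⌈k2⌉₊ : ℕ) : ℝ) ≤ cz ends ω x then (1 : ℝ) else 0 := by
          intro ω
          by_cases h : k2 ≤ cz ends ω x
          · have h4 : ((⌈k2⌉₊ : ℕ) : ℝ) ≤ cz ends ω x := by
              unfold cz at h ⊢
              exact_mod_cast Nat.ceil_le.2 h
            rw [if_pos h, if_pos h4]
          · rw [if_neg h]
            split_ifs <;> norm_num
        refine (Ex_mono h0 h1 h3).trans ((hT x ⌈k2⌉₊ hc1).trans ?_)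
        exact div_le_div_of_nonneg_left hC hs0 (Real.sqrt_le_sqrt (Nat.le_ceil k2))
    _ = Fintype.card V * (g * C / Real.sqrt k2) := by
        rw [Finset.sum_const, Finset.card_univ, nsmul_eq_mul, mul_div_assoc]

end Pool.Agent.PERC29.AE
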